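import Pool.Agent.R317.Rec3

set_option autoImplicit false

namespace Pool.Agent.R317.Eo

/-- one double step -/
theorem step (t c E p q E' r : ℝ) (ht : 0 < t) (ht1 : t < 1) (hc : c * (t ^ 2 * (1 - t)) = 2 * (1 + t))
    (hE : 0 < E) (hcE : c ≤ (1 - t) / 2 * E)
    (hp1 : t * (1 - ((1 - t) / 2 - c / E)) ≤ p) (hp2 : p * (1 - ((1 - t) / 2 - c / E)) ≤ t)
    (hq1 : t * (1 - ((1 - t) / 2 - c / E)) ≤ q) (hq2 : q * (1 - ((1 - t) / 2 - c / E)) ≤ t)
    (hE' : E' = (t ^ 2 * q + E) / p) (hr : r = (t ^ 2 * E' + q) / E) :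
    (1 + t) / (2 * t) * E ≤ E' ∧
    t * (1 - ((1 - t) / 2 - c / E')) ≤ q ∧ q * (1 - ((1 - t) / 2 - c / E')) ≤ t ∧
    t * (1 - ((1 - t) / 2 - c / E')) ≤ r ∧ r * (1 - ((1 - t) / 2 - c / E')) ≤ t := by
  have hc0 : 0 < c := by
    have h1 : 0 < t ^ 2 * (1 - t) := by
      have : 0 < 1 - t := by linarith
      positivity
    by_contra hneg
    push Not at hneg
    have : c * (t ^ 2 * (1 - t)) ≤ 0 := mul_nonpos_of_nonpos_of_nonneg hneg h1.le
    linarith
  set u := 1 / E with hu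
  have hu0 : 0 < u := by positivity
  have hcu : c / E = c * u := by rw [hu]; ring
  have hcu' : c * u ≤ (1 - t) / 2 := by
    rw [← hcu, div_le_iff₀ hE]
    exact hcE
  rw [hcu] at hp1 hp2 hq1 hq2
  set s := (1 - t) / 2 - c * u with hs
  have hs0 : 0 ≤ s := by linarith
  have hs1 : s ≤ (1 - t) / 2 := by
    have : 0 < c * u := by positivity
    linarith
  have h1s : (1 + t) / 2 ≤ 1 - s := by linarith
  have h1s0 : 0 < 1 - s := by linarith
  have hp0 : 0 < p := lt_of_lt_of_le (by positivity) hp1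
  have hq0 : 0 < q := lt_of_lt_of_le (by positivity) hq1
  have hpu : p * (1 + t) ≤ 2 * t := by
    have : p * ((1 + t) / 2) ≤ p * (1 - s) := mul_le_mul_of_nonneg_left h1s hp0.le
    linarith
  have hqu : q * (1 + t) ≤ 2 * t := by
    have : q * ((1 + t) / 2) ≤ q * (1 - s) := mul_le_mul_of_nonneg_left h1s hq0.le
    linarith
  have hp1' : p ≤ 1 := by
    by_contra hneg
    push Not at hneg
    have : 1 * (1 + t) < p * (1 + t) := mul_lt_mul_of_pos_right hneg (by linarith)
    linarith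
  have hq1' : q ≤ 1 := by
    by_contra hneg
    push Not at hneg
    have : 1 * (1 + t) < q * (1 + t) := mul_lt_mul_of_pos_right hneg (by linarith)
    linarith
  have hE'p : E' * p = t ^ 2 * q + E := by
    rw [hE']
    field_simp
  have hE'0 : 0 < E' := by
    rw [hE']
    positivity
  have hgr : (1 + t) / (2 * t) * E ≤ E' := by
    rw [div_mul_eq_mul_div, div_le_iff₀ (by positivity)]
    have h1 : E ≤ E' * p := by
      rw [hE'p]
      have : 0 < t ^ 2 * q := by positivity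
      linarith
    have h2 : (1 + t) * E ≤ (1 + t) * (E' * p) := mul_le_mul_of_nonneg_left h1 (by linarith)
    have h3 : E' * (p * (1 + t)) ≤ E' * (2 * t) := mul_le_mul_of_nonneg_left hpu hE'0.le
    linarith
  set u' := 1 / E' with hu'
  have hu'0 : 0 < u' := by positivity
  have hcu2 : c / E' = c * u' := by rw [hu']; ring
  rw [hcu2]
  have huE : u * E = 1 := by rw [hu]; field_simp
  have huE' : u' * E' = 1 := by rw [hu']; field_simp
  have hu'u : u' * (1 + t) ≤ u * (2 * t) := by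
    have h1 : (1 + t) * E ≤ 2 * t * E' := by
      rw [div_mul_eq_mul_div, div_le_iff₀ (by positivity)] at hgr
      linarith
    have h2 : (u * u') * ((1 + t) * E) ≤ (u * u') * (2 * t * E') :=
      mul_le_mul_of_nonneg_left h1 (by positivity)
    have h3 : (u * u') * ((1 + t) * E) = u' * (1 + t) * (u * E) := by ring
    have h4 : (u * u') * (2 * t * E') = u * (2 * t) * (u' * E') := by ring
    rw [h3, h4, huE, huE'] at h2
    linarith
  have hu'le : u' ≤ u := by
    have : u * (2 * t) ≤ u * (1 + t) := mul_le_mul_of_nonneg_left (by linarith) hu0.le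
    have h2 : u' * (1 + t) ≤ u * (1 + t) := le_trans hu'u this
    exact le_of_mul_le_mul_right h2 (by linarith)
  set s' := (1 - t) / 2 - c * u' with hs'
  have hss' : s ≤ s' := by
    have : c * u' ≤ c * u := mul_le_mul_of_nonneg_left hu'le hc0.le
    linarith
  have hs'1 : s' ≤ (1 - t) / 2 := by
    have : 0 < c * u' := by positivity
    linarith
  have h1s' : 0 < 1 - s' := by linarith
  have hkey : 2 * u ≤ t ^ 2 * (s' - s) := by
    have h1 : s' - s = c * (u - u') := by rw [hs', hs]; ring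
    rw [h1]
    have h2 : u * (1 - t) ≤ (u - u') * (1 + t) := by linarith
    have h3 : (c * t ^ 2) * (u * (1 - t)) ≤ (c * t ^ 2) * ((u - u') * (1 + t)) :=
      mul_le_mul_of_nonneg_left h2 (by positivity)
    have h4 : (c * t ^ 2) * (u * (1 - t)) = u * (2 * (1 + t)) := by rw [← hc]; ring
    rw [h4] at h3
    have h5 : (2 * u) * (1 + t) ≤ (t ^ 2 * (c * (u - u'))) * (1 + t) := by linarith
    exact le_of_mul_le_mul_right h5 (by linarith)
  have hr0 : 0 < r := by
    rw [hr]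
    positivity
  have hrp : r * p = t ^ 2 + (t ^ 4 * q + p * q) * u := by
    have h1 : r * p = (t ^ 2 * (E' * p) + q * p) / E := by rw [hr]; ring
    rw [h1, hE'p, hu]
    field_simp
    ring
  have hrp1 : t ^ 2 ≤ r * p := by
    rw [hrp]
    have : 0 < (t ^ 4 * q + p * q) * u := by positivity
    linarith
  have hrp2 : r * p ≤ t ^ 2 + 2 * u := by
    rw [hrp]
    have h1 : t ^ 4 * q ≤ 1 * 1 :=
      mul_le_mul (pow_le_one₀ ht.le ht1.le) hq1' hq0.le (by norm_num)
    have h2 : p * q ≤ 1 * 1 := mul_le_mul hp1' hq1' hq0.le (by norm_num)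
    have h3 : (t ^ 4 * q + p * q) * u ≤ 2 * u := mul_le_mul_of_nonneg_right (by linarith) hu0.le
    linarith
  refine ⟨hgr, ?_, ?_, ?_, ?_⟩
  · exact le_trans (mul_le_mul_of_nonneg_left (by linarith) ht.le) hq1
  · exact le_trans (mul_le_mul_of_nonneg_left (by linarith) hq0.le) hq2
  · have h1 : t * (1 - s) ≤ r := by
      have h2 : t * (p * (1 - s)) ≤ r * p := le_trans
        (le_trans (mul_le_mul_of_nonneg_left hp2 ht.le) (le_of_eq (by ring))) hrp1
      have h3 : (t * (1 - s)) * p ≤ r * p := by linarith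
      exact le_of_mul_le_mul_right h3 hp0
    exact le_trans (mul_le_mul_of_nonneg_left (by linarith) ht.le) h1
  · have h1 : r * (t * (1 - s)) ≤ t ^ 2 + 2 * u :=
      le_trans (mul_le_mul_of_nonneg_left hp1 hr0.le) hrp2
    have h2 : r * (t * (1 - s)) * (1 - s') ≤ (t ^ 2 + 2 * u) * (1 - s') :=
      mul_le_mul_of_nonneg_right h1 h1s'.le
    have h3 : (t ^ 2 + 2 * u) * (1 - s') ≤ t ^ 2 * (1 - s) := by
      have h4 : 2 * u * (1 - s') ≤ 2 * u * 1 :=
        mul_le_mul_of_nonneg_left (by linarith) (by positivity)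
      have h5 : (t ^ 2 + 2 * u) * (1 - s') = t ^ 2 * (1 - s) - t ^ 2 * (s' - s) + 2 * u * (1 - s') := by
        ring
      rw [h5]
      linarith
    have h6 : (r * (1 - s')) * (t * (1 - s)) ≤ t * (t * (1 - s)) := by
      have e1 : (r * (1 - s')) * (t * (1 - s)) = r * (t * (1 - s)) * (1 - s') := by ring
      have e2 : t * (t * (1 - s)) = t ^ 2 * (1 - s) := by ring
      rw [e1, e2]
      exact le_trans h2 h3
    exact le_of_mul_le_mul_right h6 (by positivity)

/-- the invariant -/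
def Inv (t c E0 p E q : ℝ) : Prop :=
  E0 ≤ E ∧ t * (1 - ((1 - t) / 2 - c / E)) ≤ p ∧ p * (1 - ((1 - t) / 2 - c / E)) ≤ t ∧
    t * (1 - ((1 - t) / 2 - c / E)) ≤ q ∧ q * (1 - ((1 - t) / 2 - c / E)) ≤ t

theorem main (b : ℝ) (hb : 0 < b) (hb1 : b < 1) :
    ∃ x : ℕ → ℝ, (∀ n, 0 < x n) ∧ (∀ n, x (n + 3) = (b * x (n + 2) + x (n + 1)) / x n) ∧
      ¬ BddAbove (Set.range x) := by
  obtain ⟨t, ht, ht1, rfl⟩ : ∃ t : ℝ, 0 < t ∧ t < 1 ∧ b = t ^ 2 := by
    refine ⟨Real.sqrt b, Real.sqrt_pos.mpr hb, ?_, ?_⟩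
    · rw [Real.sqrt_lt' (by norm_num)]
      linarith
    · rw [Real.sq_sqrt hb.le]
  have h1t : 0 < 1 - t := by linarith
  obtain ⟨c, hc⟩ : ∃ c : ℝ, c * (t ^ 2 * (1 - t)) = 2 * (1 + t) :=
    ⟨2 * (1 + t) / (t ^ 2 * (1 - t)), by field_simp⟩
  have hc0 : 0 < c := by
    by_contra hneg
    push Not at hneg
    have : c * (t ^ 2 * (1 - t)) ≤ 0 := mul_nonpos_of_nonpos_of_nonneg hneg (by positivity)
    linarith
  obtain ⟨E0, hE0⟩ : ∃ E0 : ℝ, E0 * ((1 - t) / 2) = c := ⟨c / ((1 - t) / 2), by field_simp⟩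
  have hE00 : 0 < E0 := by
    by_contra hneg
    push Not at hneg
    have : E0 * ((1 - t) / 2) ≤ 0 := mul_nonpos_of_nonpos_of_nonneg hneg (by positivity)
    linarith
  obtain ⟨x, x0, x1, x2, hx⟩ := Pool.Agent.R317.Rec3.exists_seq
    (fun p E q => (t ^ 2 * q + E) / p) t E0 t
  have hg : 1 < (1 + t) / (2 * t) := by
    rw [lt_div_iff₀ (by positivity)]
    linarith
  have hinv : ∀ k, Inv t c E0 (x (2 * k)) (x (2 * k + 1)) (x (2 * k + 2)) ∧
      ((1 + t) / (2 * t)) ^ k * E0 ≤ x (2 * k + 1) := by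
    intro k
    induction k with
    | zero =>
      simp only [Nat.mul_zero, Nat.zero_add, pow_zero, one_mul]
      rw [x0, x1, x2]
      have hs : (1 - t) / 2 - c / E0 = 0 := by
        rw [← hE0]
        field_simp
        ring
      refine ⟨⟨le_rfl, ?_, ?_, ?_, ?_⟩, le_rfl⟩ <;> rw [hs] <;> linarith
    | succ k ih =>
      obtain ⟨⟨h0, h1, h2, h3, h4⟩, h5⟩ := ih
      have hEpos : 0 < x (2 * k + 1) := lt_of_lt_of_le hE00 h0
      have hcE : c ≤ (1 - t) / 2 * x (2 * k + 1) := by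
        rw [← hE0, mul_comm]
        exact mul_le_mul_of_nonneg_left h0 (by positivity)
      obtain ⟨g1, g2, g3, g4, g5⟩ := step t c (x (2 * k + 1)) (x (2 * k)) (x (2 * k + 2))
        (x (2 * k + 3)) (x (2 * k + 4)) ht ht1 hc hEpos hcE h1 h2 h3 h4 (hx (2 * k)) (hx (2 * k + 1))
      have e1 : 2 * (k + 1) = 2 * k + 2 := by ring
      have e2 : 2 * (k + 1) + 1 = 2 * k + 3 := by ring
      have e3 : 2 * (k + 1) + 2 = 2 * k + 4 := by ring
      rw [e2, e3, e1]
      refine ⟨⟨?_, g2, g3, g4, g5⟩, ?_⟩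
      · refine le_trans h0 (le_trans ?_ g1)
        have := mul_le_mul_of_nonneg_right hg.le hEpos.le
        linarith
      · refine le_trans ?_ g1
        rw [pow_succ]
        have := mul_le_mul_of_nonneg_left h5 (by positivity : (0:ℝ) ≤ (1 + t) / (2 * t))
        linarith
  have hpos : ∀ n, 0 < x n := by
    intro n
    obtain ⟨k, hk | hk⟩ := Nat.even_or_odd' n
    · obtain ⟨⟨h0, h1, h2, h3, h4⟩, h5⟩ := hinv k
      rw [hk]
      have hEpos : 0 < x (2 * k + 1) := lt_of_lt_of_le hE00 h0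
      refine lt_of_lt_of_le ?_ h1
      have : 0 < c / x (2 * k + 1) := by positivity
      refine mul_pos ht ?_
      linarith
    · obtain ⟨⟨h0, _⟩, _⟩ := hinv k
      rw [hk]
      exact lt_of_lt_of_le hE00 h0
  refine ⟨x, hpos, fun n => hx n, ?_⟩
  rintro ⟨B, hB⟩
  have hT := (tendsto_pow_atTop_atTop_of_one_lt hg).atTop_mul_const hE00
  obtain ⟨k, hk⟩ := (hT.eventually (Filter.eventually_gt_atTop B)).exists
  have := hB (Set.mem_range_self (2 * k + 1))
  linarith [(hinv k).2]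

end Pool.Agent.R317.Eo
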