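import Pool.Agent.H164R5.Units

set_option autoImplicit false
set_option linter.unusedSectionVars false

/-!
Circuit double covers and faithful circuit covers from flows on the components of the complement
of an even subgraph.
-/

namespace Pool.Agent.R317.GodComp

open Finset
open Pool.Agent.H126R2.CDC
open Pool.Agent.H126R2.CDC.MGraph
open Pool.Agent.H164R5

variable {V E : Type} [Fintype V] [DecidableEq V] [Fintype E] [DecidableEq E]

/-- `u` and `w` are joined by a path of edges outside `S` -/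
def Joined (G : MGraph V E) (S : Finset E) : V → V → Prop :=
  Relation.ReflTransGen fun x y => ∃ e, e ∉ S ∧ G.ends e = s(x, y)

lemma joined_symm (G : MGraph V E) (S : Finset E) {u w : V} (h : Joined G S u w) :
    Joined G S w u := by
  induction h with
  | refl => exact Relation.ReflTransGen.refl
  | @tail b c _ hbc ih =>
    obtain ⟨e, he, hee⟩ := hbc
    exact Relation.ReflTransGen.head ⟨e, he, by rw [hee, Sym2.eq_swap]⟩ ih

def compSetoid (G : MGraph V E) (S : Finset E) : Setoid V where
  r := Joined G S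
  iseqv := ⟨fun _ => Relation.ReflTransGen.refl, fun h => joined_symm G S h,
    fun h1 h2 => h1.trans h2⟩

open Classical in
/-- main theorem: component flows give a double cover through the circuits of `S0` -/
theorem cdc (G : MGraph V E) (hG : ∀ v, G.deg univ v = 3) (S0 Z A B : Finset E)
    (h0 : G.IsEven S0) (hZ : G.IsEven Z) (hdisj : Disjoint S0 Z)
    (hcov : ∀ e, e ∈ S0 ∨ e ∈ Z ∨ e ∈ A ∨ e ∈ B)
    (hA : ∀ K : Finset V, (∀ e, e ∉ S0 ∪ Z → ¬ Crosses G K e) →
      EvenMod G (S0 ∪ Z) ((A \ (S0 ∪ Z)).filter fun e => Inside G K e))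
    (hB : ∀ K : Finset V, (∀ e, e ∉ S0 ∪ Z → ¬ Crosses G K e) →
      EvenMod G (S0 ∪ Z) ((B \ (S0 ∪ Z)).filter fun e => Inside G K e)) :
    ∃ F : Multiset (Finset E), G.IsCDC F ∧ ∀ C, G.IsCircuit C → C ⊆ S0 → C ∈ F := by
  let st := compSetoid G (S0 ∪ Z)
  have hfin : Finite (Quotient st) := inferInstance
  let ft : Fintype (Quotient st) := Fintype.ofFinite _
  let κ : V → Quotient st := fun v => Quotient.mk st v
  have hκe : ∀ e, e ∉ S0 ∪ Z → ∀ x ∈ G.ends e, ∀ y ∈ G.ends e, κ x = κ y := by
    intro e he x hx y hy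
    by_cases hxy : x = y
    · rw [hxy]
    · apply Quotient.sound
      have : G.ends e = s(x, y) := (Sym2.mem_and_mem_iff hxy).1 ⟨hx, hy⟩
      exact Relation.ReflTransGen.single ⟨e, he, this⟩
  have hcr : ∀ b, ∀ e, e ∉ S0 ∪ Z → ¬ Crosses G (univ.filter fun v => κ v = b) e := by
    rintro b e he ⟨⟨x, hx, hx1⟩, y, hy, hy1⟩
    rw [mem_filter] at hx1 hy1
    exact hy1 ⟨mem_univ _, (hκe e he y hy x hx).trans hx1.2⟩
  refine units G hG S0 Z A B h0 hZ hdisj hcov κ (fun b => ⟨hcr b, hA _ (hcr b), hB _ (hcr b)⟩) ?_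
  intro A' B' _ _ _ X hX
  right; left
  have step : ∀ u w, Joined G (S0 ∪ Z) u w → (u ∈ X ↔ w ∈ X) := by
    intro u w h
    induction h with
    | refl => rfl
    | @tail b c _ hbc ih =>
      obtain ⟨e, he, hee⟩ := hbc
      rw [ih]
      by_contra hcon
      apply hX.1 e he
      rw [crosses_iff G hee]
      exact hcon
  intro u w huw
  exact step u w (Quotient.exact huw)

/-- in a cubic graph every edge of an even set lies on exactly one circuit in this set -/
lemma exists_circ (G : MGraph V E) (S0 : Finset E) (h0 : G.IsEven S0) {e : E} (he : e ∈ S0) :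
    ∃ C, C ⊆ S0 ∧ G.IsCircuit C ∧ e ∈ C := by
  obtain ⟨F, hF1, hF2⟩ := G.decompose S0.card S0 rfl h0
  have h1 := hF2 e
  rw [if_pos he] at h1
  obtain ⟨C, hC, heC⟩ := Multiset.countP_pos.1 (by rw [h1]; exact Nat.one_pos)
  refine ⟨C, fun f hf => ?_, hF1 C hC, heC⟩
  by_contra hfS
  have h2 := hF2 f
  rw [if_neg hfS] at h2
  exact absurd (Multiset.countP_pos.2 ⟨C, hC, hf⟩) (by rw [h2]; exact lt_irrefl _)

/-- faithful covers with arbitrary weights on the prescribed circuits -/
theorem faithful (G : MGraph V E) (hG : ∀ v, G.deg univ v = 3) (S0 : Finset E)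
    (h0 : G.IsEven S0)
    (hF : ∃ F : Multiset (Finset E), G.IsCDC F ∧ ∀ C, G.IsCircuit C → C ⊆ S0 → C ∈ F)
    (w : E → ℕ) (hw0 : ∀ e, e ∉ S0 → w e = 2) (hw1 : ∀ e ∈ S0, 1 ≤ w e)
    (hwc : ∀ C, G.IsCircuit C → C ⊆ S0 → ∀ e ∈ C, ∀ f ∈ C, w e = w f) :
    ∃ F : Multiset (Finset E), (∀ C ∈ F, G.IsCircuit C) ∧
      (∀ e, F.countP (fun C => e ∈ C) = w e) ∧
      ∀ C, G.IsCircuit C → C ⊆ S0 → (∀ e ∈ C, 2 ≤ w e) → C ∈ F := by
  classical
  obtain ⟨F, ⟨hF1, hF2⟩, hF3⟩ := hF
  -- the circuits in S0
  let T : Finset (Finset E) := univ.filter fun C => G.IsCircuit C ∧ C ⊆ S0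
  have hT : ∀ C, C ∈ T ↔ G.IsCircuit C ∧ C ⊆ S0 := fun C => by simp [T]
  have huniq : ∀ C ∈ T, ∀ D ∈ T, ∀ e, e ∈ C → e ∈ D → C = D := by
    intro C hC D hD e heC heD
    rw [hT] at hC hD
    exact Finset.Subset.antisymm (circuit_sub G hG h0 hC.1 hD.1 hC.2 hD.2 heC heD)
      (circuit_sub G hG h0 hD.1 hC.1 hD.2 hC.2 heD heC)
  have hle : T.val ≤ F := by
    rw [Multiset.le_iff_subset T.nodup]
    intro C hC
    have := (hT C).1 hC
    exact hF3 C this.1 this.2
  obtain ⟨F0, hF0⟩ := Multiset.le_iff_exists_add.1 hle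
  -- the weight of a circuit
  let m : Finset E → ℕ := fun C => if h : C.Nonempty then w h.choose - 1 else 0
  have hm : ∀ C ∈ T, ∀ e ∈ C, m C = w e - 1 := by
    intro C hC e he
    have hne : C.Nonempty := ⟨e, he⟩
    have h1 := (hT C).1 hC
    simp only [m, dif_pos hne]
    rw [hwc C h1.1 h1.2 _ hne.choose_spec e he]
  refine ⟨F0 + ∑ C ∈ T, Multiset.replicate (m C) C, ?_, ?_, ?_⟩
  · intro C hC
    rw [Multiset.mem_add] at hC
    rcases hC with h | h
    · exact hF1 C (by rw [hF0]; exact Multiset.mem_add.2 (Or.inr h))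
    · rw [Multiset.mem_sum] at h
      obtain ⟨D, hD, h2⟩ := h
      rw [Multiset.eq_of_mem_replicate h2]
      exact ((hT D).1 hD).1
  · intro e
    rw [Multiset.countP_add]
    have hsum : (∑ C ∈ T, Multiset.replicate (m C) C).countP (fun C => e ∈ C) =
        ∑ C ∈ T, if e ∈ C then m C else 0 := by
      rw [← Multiset.coe_countPAddMonoidHom, map_sum]
      apply Finset.sum_congr rfl
      intro C _
      rw [Multiset.coe_countPAddMonoidHom]
      by_cases heC : e ∈ C
      · rw [if_pos heC]
        have h1 : (Multiset.replicate (m C) C).countP (fun C => e ∈ C) =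
            Multiset.card (Multiset.replicate (m C) C) := by
          rw [Multiset.countP_eq_card]
          intro D hD
          rw [Multiset.eq_of_mem_replicate hD]
          exact heC
        rw [h1, Multiset.card_replicate]
      · rw [if_neg heC, Multiset.countP_eq_zero]
        intro D hD
        rw [Multiset.eq_of_mem_replicate hD]
        exact heC
    have hTc : T.val.countP (fun C => e ∈ C) = if e ∈ S0 then 1 else 0 := by
      by_cases he : e ∈ S0
      · obtain ⟨C, hCS, hC, heC⟩ := exists_circ G S0 h0 he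
        have hCT : C ∈ T := (hT C).2 ⟨hC, hCS⟩
        rw [if_pos he, Multiset.countP_eq_card_filter]
        have : (Multiset.filter (fun C => e ∈ C) T.val) = (T.filter fun C => e ∈ C).val := rfl
        rw [this]
        have h3 : T.filter (fun C => e ∈ C) = {C} := by
          ext D
          simp only [mem_filter, mem_singleton]
          constructor
          · rintro ⟨hD, heD⟩; exact huniq D hD C hCT e heD heC
          · rintro rfl; exact ⟨hCT, heC⟩
        rw [h3]; rfl
      · rw [if_neg he, Multiset.countP_eq_zero]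
        intro C hC heC
        exact he (((hT C).1 hC).2 heC)
    have h2 := hF2 e
    rw [hF0, Multiset.countP_add, hTc] at h2
    rw [hsum]
    by_cases he : e ∈ S0
    · obtain ⟨C, hCS, hC, heC⟩ := exists_circ G S0 h0 he
      have hCT : C ∈ T := (hT C).2 ⟨hC, hCS⟩
      rw [if_pos he] at h2
      have h3 : ∑ C ∈ T, (if e ∈ C then m C else 0) = m C := by
        rw [Finset.sum_eq_single_of_mem C hCT, if_pos heC]
        intro D hD hne
        rw [if_neg]
        intro heD
        exact hne (huniq D hD C hCT e heD heC)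
      rw [h3, hm C hCT e heC]
      have := hw1 e he
      omega
    · rw [if_neg he] at h2
      have h3 : ∑ C ∈ T, (if e ∈ C then m C else 0) = 0 := by
        apply Finset.sum_eq_zero
        intro D hD
        rw [if_neg]
        intro heD
        exact he (((hT D).1 hD).2 heD)
      rw [h3, hw0 e he]
      omega
  · intro C hC hCS hC2
    have hCT : C ∈ T := (hT C).2 ⟨hC, hCS⟩
    obtain ⟨e, he⟩ := hC.1
    rw [Multiset.mem_add, Multiset.mem_sum]
    right
    refine ⟨C, hCT, ?_⟩
    rw [Multiset.mem_replicate, hm C hCT e he]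
    have := hC2 e he
    exact ⟨by omega, rfl⟩

end Pool.Agent.R317.GodComp
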