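import Mathlib

set_option autoImplicit false
set_option linter.all false

namespace Pool.Agent.R317.KSeq

instance : Fact (Nat.Prime 11) := ⟨by norm_num⟩

/-- the choice of a block length -/
theorem choice : ∀ r : Fin 6, ∀ u : ZMod 11, r ≠ 0 → u ≠ 0 → u ≠ 1 →
    ∃ d : Fin 7, 3 ≤ d.val ∧ r.val + d.val ≤ 10 ∧
      ∃ r' : Fin 6, r' ≠ 0 ∧ ((r.val + d.val : ℕ) : ZMod 11) = ((r'.val : ℕ) : ZMod 11) * u := by
  decide +kernel

/-- a suitable block length -/
def Good (x y y' : ℤ) (d : ℕ) : Prop :=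
  3 ≤ d ∧ d ≤ 6 ∧ (∀ i : ℕ, i ≤ d → ((x + i * y : ℤ) : ZMod 11) ≠ 0) ∧
    ∃ r : ℕ, 1 ≤ r ∧ r ≤ 5 ∧ ((x + d * y : ℤ) : ZMod 11) = r * (y' : ZMod 11)

theorem choice' (x y y' : ℤ) (hy : (y : ZMod 11) ≠ 0) (hy' : (y' : ZMod 11) ≠ 0)
    (hne : (y' : ZMod 11) ≠ (y : ZMod 11))
    (hr : ∃ r : ℕ, 1 ≤ r ∧ r ≤ 5 ∧ (x : ZMod 11) = r * (y : ZMod 11)) : ∃ d, Good x y y' d := by
  obtain ⟨r, hr1, hr2, hr3⟩ := hr
  obtain ⟨d, hd1, hd2, r', hr', hd3⟩ := choice ⟨r, by omega⟩ ((y' : ZMod 11) / (y : ZMod 11))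
    (by intro h; have := congrArg Fin.val h; simp at this; omega)
    (div_ne_zero hy' hy) (by intro h; exact hne ((div_eq_one_iff_eq hy).mp h))
  simp only at hd2 hd3
  have hr'0 : r'.val ≠ 0 := fun h => hr' (Fin.ext h)
  refine ⟨d.val, hd1, by omega, fun i hi => ?_, r'.val, by omega, by omega, ?_⟩
  · push_cast
    rw [hr3, ← add_mul]
    refine mul_ne_zero ?_ hy
    have h1 : ((r : ZMod 11) + (i : ZMod 11)) = ((r + i : ℕ) : ZMod 11) := by push_cast; ring
    rw [h1]
    intro h0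
    have := (ZMod.natCast_eq_zero_iff (r + i) 11).mp h0
    omega
  · push_cast
    rw [hr3, ← add_mul]
    have h1 : ((r : ZMod 11) + ((d.val : ℕ) : ZMod 11)) = ((r + d.val : ℕ) : ZMod 11) := by
      push_cast; ring
    rw [h1, hd3]
    field_simp

open Classical in
/-- the chosen block length -/
noncomputable def del (x y y' : ℤ) : ℕ := if h : ∃ d, Good x y y' d then h.choose else 3

theorem del_good (x y y' : ℤ) (h : ∃ d, Good x y y' d) : Good x y y' (del x y y') := by
  unfold del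
  rw [dif_pos h]
  exact h.choose_spec

/-- stage `j`: the end `k_{j+1}` of block `j` and the values of `c` below it -/
noncomputable def st : ℕ → ℕ × (ℕ → ℤ)
  | 0 => (4, fun n : ℕ => (n : ℤ) + 1)
  | j + 1 =>
    let N := (st j).1
    let f := (st j).2
    let g : ℕ → ℤ := fun n => if n < N then f n else f (N - 1) + ((n : ℤ) - N + 1) * f (j + 1)
    (N + del (f (N - 1)) (f (j + 1)) (f (j + 2)), g)

theorem st_zero : st 0 = (4, fun n : ℕ => (n : ℤ) + 1) := rfl

theorem st_fst (j : ℕ) : (st (j + 1)).1 =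
    (st j).1 + del ((st j).2 ((st j).1 - 1)) ((st j).2 (j + 1)) ((st j).2 (j + 2)) := rfl

theorem st_lt (j n : ℕ) (h : n < (st j).1) : (st (j + 1)).2 n = (st j).2 n := by
  show (if n < (st j).1 then (st j).2 n else _) = _
  rw [if_pos h]

theorem st_ge (j n : ℕ) (h : (st j).1 ≤ n) : (st (j + 1)).2 n =
    (st j).2 ((st j).1 - 1) + ((n : ℤ) - (st j).1 + 1) * (st j).2 (j + 1) := by
  show (if n < (st j).1 then (st j).2 n else _) = _
  rw [if_neg (by omega)]

/-- the invariant of stage `j` -/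
def Inv (j : ℕ) : Prop :=
  3 * j + 4 ≤ (st j).1 ∧ (∀ n < (st j).1, (((st j).2 n : ℤ) : ZMod 11) ≠ 0) ∧
    (∀ n, n + 1 < (st j).1 → (((st j).2 (n + 1) : ℤ) : ZMod 11) ≠ (((st j).2 n : ℤ) : ZMod 11)) ∧
    ∃ r : ℕ, 1 ≤ r ∧ r ≤ 5 ∧
      (((st j).2 ((st j).1 - 1) : ℤ) : ZMod 11) = r * (((st j).2 (j + 1) : ℤ) : ZMod 11)

theorem inv_good (j : ℕ) (h : Inv j) :
    Good ((st j).2 ((st j).1 - 1)) ((st j).2 (j + 1)) ((st j).2 (j + 2))
      (del ((st j).2 ((st j).1 - 1)) ((st j).2 (j + 1)) ((st j).2 (j + 2))) := by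
  obtain ⟨h1, h2, h3, h4⟩ := h
  exact del_good _ _ _ (choice' _ _ _ (h2 _ (by omega)) (h2 _ (by omega)) (h3 _ (by omega)) h4)

theorem inv_zero : Inv 0 := by
  refine ⟨by rw [st_zero], ?_, ?_, 2, by norm_num, by norm_num, ?_⟩
  · intro n hn
    rw [st_zero] at hn ⊢
    simp only at hn
    interval_cases n <;> decide
  · intro n hn
    rw [st_zero] at hn ⊢
    simp only at hn
    have : n < 3 := by omega
    interval_cases n <;> decide
  · rw [st_zero]
    decide

theorem inv_succ (j : ℕ) (h : Inv j) : Inv (j + 1) := by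
  have hg := inv_good j h
  obtain ⟨h1, h2, h3, h4⟩ := h
  obtain ⟨g1, g2, g3, g4⟩ := hg
  set d := del ((st j).2 ((st j).1 - 1)) ((st j).2 (j + 1)) ((st j).2 (j + 2)) with hd
  have hN : (st (j + 1)).1 = (st j).1 + d := st_fst j
  have hval : ∀ i, i < d → (st (j + 1)).2 ((st j).1 + i) =
      (st j).2 ((st j).1 - 1) + ((i + 1 : ℕ) : ℤ) * (st j).2 (j + 1) := by
    intro i hi
    rw [st_ge j _ (by omega)]
    congr 1
    push_cast
    ring
  refine ⟨by omega, ?_, ?_, ?_⟩
  · intro n hn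
    rcases lt_or_ge n (st j).1 with hlt | hge
    · rw [st_lt j n hlt]
      exact h2 n hlt
    · obtain ⟨i, rfl⟩ : ∃ i, n = (st j).1 + i := ⟨n - (st j).1, by omega⟩
      rw [hval i (by omega)]
      exact g3 (i + 1) (by omega)
  · intro n hn
    rcases lt_or_ge (n + 1) (st j).1 with hlt | hge
    · rw [st_lt j n (by omega), st_lt j (n + 1) hlt]
      exact h3 n hlt
    · have hy : (((st j).2 (j + 1) : ℤ) : ZMod 11) ≠ 0 := h2 _ (by omega)
      rcases eq_or_lt_of_le hge with heq | hlt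
      · have e1 : (st (j + 1)).2 (n + 1) = (st j).2 ((st j).1 - 1) + (st j).2 (j + 1) := by
          rw [← heq]
          have := hval 0 (by omega)
          have h00 : (st j).1 + 0 = (st j).1 := rfl
          rw [h00] at this
          rw [this]
          push_cast
          ring
        have e2 : (st (j + 1)).2 n = (st j).2 ((st j).1 - 1) := by
          rw [st_lt j n (by omega)]
          have : (st j).1 - 1 = n := by omega
          rw [this]
        rw [e1, e2]
        push_cast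
        intro hcon
        exact hy (by linear_combination hcon)
      · obtain ⟨i, rfl⟩ : ∃ i, n = (st j).1 + i := ⟨n - (st j).1, by omega⟩
        rw [show (st j).1 + i + 1 = (st j).1 + (i + 1) by ring, hval i (by omega),
          hval (i + 1) (by omega)]
        push_cast
        intro hcon
        exact hy (by linear_combination hcon)
  · obtain ⟨r, hr1, hr2, hr3⟩ := g4
    refine ⟨r, hr1, hr2, ?_⟩
    have e1 : (st (j + 1)).2 ((st (j + 1)).1 - 1) =
        (st j).2 ((st j).1 - 1) + (d : ℤ) * (st j).2 (j + 1) := by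
      rw [show (st (j + 1)).1 - 1 = (st j).1 + (d - 1) by omega, hval (d - 1) (by omega)]
      congr 3
      omega
    rw [e1, st_lt j (j + 1 + 1) (by omega)]
    exact hr3

theorem inv (j : ℕ) : Inv j := by
  induction j with
  | zero => exact inv_zero
  | succ j ih => exact inv_succ j ih

theorem st_mono (j i n : ℕ) (h : n < (st j).1) : n < (st (j + i)).1 ∧ (st (j + i)).2 n = (st j).2 n := by
  induction i with
  | zero => exact ⟨h, rfl⟩
  | succ i ih =>
    rw [show j + (i + 1) = (j + i) + 1 by ring]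
    exact ⟨lt_of_lt_of_le ih.1 (by rw [st_fst]; omega), by rw [st_lt _ n ih.1, ih.2]⟩

/-- the values `b (k_n)` -/
noncomputable def c (n : ℕ) : ℤ := (st n).2 n

theorem c_eq (j n : ℕ) (h : n < (st j).1) : c n = (st j).2 n := by
  have hn : n < (st n).1 := by have := (inv n).1; omega
  unfold c
  rcases le_total j n with hjn | hnj
  · have := st_mono j (n - j) n h
    rw [show j + (n - j) = n by omega] at this
    exact this.2
  · have := st_mono n (j - n) n hn
    rw [show n + (j - n) = j by omega] at this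
    exact this.2.symm

/-- the sequence `K` -/
noncomputable def k : ℕ → ℕ
  | 0 => 0
  | j + 1 => (st j).1

/-- the `K`-sequence -/
noncomputable def b (n : ℕ) : ℤ := if n = 0 then 1 else c n - c (n - 1)

theorem k_gap (n : ℕ) : k n + 3 ≤ k (n + 1) ∧ k (n + 1) ≤ k n + 6 := by
  rcases n with _ | j
  · show 0 + 3 ≤ (st 0).1 ∧ (st 0).1 ≤ 0 + 6
    rw [st_zero]
    norm_num
  · show (st j).1 + 3 ≤ (st (j + 1)).1 ∧ (st (j + 1)).1 ≤ (st j).1 + 6
    have := inv_good j (inv j)
    obtain ⟨g1, g2, _⟩ := this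
    rw [st_fst]
    omega

theorem b_block (j n : ℕ) (h1 : k j ≤ n) (h2 : n < k (j + 1)) : b n = c j := by
  rcases j with _ | j
  · have h3 : n < (st 0).1 := h2
    have hc0 : c 0 = 1 := by
      rw [c_eq 0 0 (by rw [st_zero]; norm_num), st_zero]
      norm_num
    unfold b
    split_ifs with h
    · rw [hc0]
    · rw [c_eq 0 n h3, c_eq 0 (n - 1) (by omega), hc0, st_zero]
      simp only
      have : ((n - 1 : ℕ) : ℤ) = n - 1 := by omega
      rw [this]
      ring
  · have h1' : (st j).1 ≤ n := h1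
    have h2' : n < (st (j + 1)).1 := h2
    have hj := (inv j).1
    have hcj : c (j + 1) = (st j).2 (j + 1) := c_eq j (j + 1) (by omega)
    unfold b
    rw [if_neg (by omega), c_eq (j + 1) n h2', c_eq (j + 1) (n - 1) (by omega), hcj,
      st_ge j n h1']
    rcases eq_or_lt_of_le h1' with heq | hlt
    · rw [st_lt j (n - 1) (by omega), ← heq]
      ring
    · rw [st_ge j (n - 1) (by omega)]
      have : ((n - 1 : ℕ) : ℤ) = n - 1 := by omega
      rw [this]
      ring

theorem k_lt (n : ℕ) : n ≤ k n := by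
  induction n with
  | zero => exact Nat.zero_le _
  | succ n ih =>
    have := (k_gap n).1
    omega

theorem exists_block (n : ℕ) : ∃ j, k j ≤ n ∧ n < k (j + 1) := by
  induction n with
  | zero => exact ⟨0, le_rfl, by have := (k_gap 0).1; have h : k 0 = 0 := rfl; omega⟩
  | succ n ih =>
    obtain ⟨j, hj1, hj2⟩ := ih
    rcases lt_or_ge (n + 1) (k (j + 1)) with h | h
    · exact ⟨j, by omega, h⟩
    · exact ⟨j + 1, h, by have := (k_gap (j + 1)).1; omega⟩

theorem c_ne (n : ℕ) : ¬ (11 : ℤ) ∣ c n := by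
  have hn : n < (st n).1 := by have := (inv n).1; omega
  have := (inv n).2.1 n hn
  intro hdvd
  apply this
  have h := (ZMod.intCast_zmod_eq_zero_iff_dvd (c n) 11).mpr (by exact_mod_cast hdvd)
  exact h

theorem b_k (n : ℕ) : b (k n) = c n :=
  b_block n (k n) le_rfl (by have := (k_gap n).1; omega)

theorem main : k 0 = 0 ∧ (∀ n, k n + 3 ≤ k (n + 1) ∧ k (n + 1) ≤ k n + 6) ∧
    (∀ n m, k n ≤ m → m < k (n + 1) → b m = b (k n)) ∧
    (∀ n, 1 ≤ n → b (k n) - b (k (n - 1)) = b n) ∧ ∀ n, ¬ (11 : ℤ) ∣ b n := by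
  refine ⟨rfl, k_gap, fun n m h1 h2 => ?_, fun n hn => ?_, fun n => ?_⟩
  · rw [b_block n m h1 h2, b_k]
  · rw [b_k, b_k]
    unfold b
    rw [if_neg (by omega)]
  · obtain ⟨j, hj1, hj2⟩ := exists_block n
    rw [b_block j n hj1 hj2]
    exact c_ne j

end Pool.Agent.R317.KSeq
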