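import Pool.Agent.R317.Win
import Pool.Agent.H337R2.LZ.Z
import Pool.Agent.H447R2.MZ.Dich
import Pool.Agent.H387R3.ZF.Z

set_option autoImplicit false

/-!
# The spaces of multiple zeta values, and monomials in `π²` and `ζ(3)`
-/

open Polynomial

namespace Pool.Agent.R317.MZW

/-- the `ℚ`-span of the multiple zeta values
`ζ(n_1, …, n_r) = ∑_{0 < k_1 < ⋯ < k_r} k_1^(-n_1) ⋯ k_r^(-n_r)` (`n_i ≥ 1`, `n_r ≥ 2`) of weight `N`;
for `r = 0` the value is `1` and the weight `0` -/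
noncomputable def Z (N : ℕ) : Submodule ℚ ℝ :=
  Submodule.span ℚ
    {x : ℝ | ∃ r : ℕ, ∃ n : Fin r → ℕ,
      (∀ i, 1 ≤ n i) ∧ (∀ h : 0 < r, 2 ≤ n ⟨r - 1, Nat.sub_lt h one_pos⟩) ∧ (∑ i, n i) = N ∧
      x = ∑' k : {k : Fin r → ℕ // StrictMono k ∧ ∀ i, 1 ≤ k i},
            ∏ i, (((k.1 i : ℕ) : ℝ) ^ (n i))⁻¹}

open Pool.Agent.H447R2.MZ in
theorem Zs_le (N : ℕ) : Zs N ≤ Z N := by
  unfold Zs Z
  rw [Submodule.span_le]
  rintro x ⟨t, k, h1, h2, h3, rfl⟩
  refine Submodule.subset_span ⟨t, k ∘ Fin.rev, fun i => h1 _, fun h => ?_, ?_, ?_⟩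
  · have := h2 h
    have e : Fin.rev (⟨t - 1, Nat.sub_lt h one_pos⟩ : Fin t) = ⟨0, h⟩ := by
      ext
      simp only [Fin.val_rev]
      omega
    rw [Function.comp_apply, e]
    exact this
  · rw [← h3]
    exact Fintype.sum_equiv Fin.revPerm _ _ fun i => rfl
  · let e : {m : Fin t → ℕ // StrictAnti m ∧ ∀ i, 1 ≤ m i} ≃ {k : Fin t → ℕ // StrictMono k ∧ ∀ i, 1 ≤ k i} :=
      { toFun := fun m => ⟨m.1 ∘ Fin.rev, fun i j hij => m.2.1 (Fin.rev_lt_rev.2 hij), fun i => m.2.2 _⟩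
        invFun := fun m => ⟨m.1 ∘ Fin.rev, fun i j hij => m.2.1 (Fin.rev_lt_rev.2 hij), fun i => m.2.2 _⟩
        left_inv := fun m => by
          apply Subtype.ext
          funext i
          simp
        right_inv := fun m => by
          apply Subtype.ext
          funext i
          simp }
    rw [← e.tsum_eq]
    refine tsum_congr fun m => ?_
    exact Fintype.prod_equiv Fin.revPerm _ _ fun i => by simp [e]

open Pool.Agent.H447R2.MZ in
theorem mon_mem (W : Finset ℕ) :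
    Pool.Agent.R317.Mon.Cont (⨆ n ∈ W, Z n) (Real.pi ^ 2) z3 W := by
  intro a b h
  have h1 : (Real.pi ^ 2) ^ a * z3 ^ b ∈ Zs (2 * a + 3 * b) :=
    mul_mem (2 * a) (3 * b) _ _ (pow_mem 2 _ pi_sq_mem a) (pow_mem 3 _ z3_mem b)
  have h2 := Zs_le _ h1
  have h3 : Z (2 * a + 3 * b) ≤ ⨆ n ∈ W, Z n := le_iSup₂_of_le (2 * a + 3 * b) h le_rfl
  exact h3 h2

theorem pi_sq_tr : Transcendental ℚ (Real.pi ^ 2) :=
  Pool.Agent.H340R2.LW.transcendental_pi.pow (by norm_num)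

open Pool.Agent.H447R2.MZ in
/-- `1, π², ζ(3)` are linearly independent -/
theorem not_linear (a b : ℚ) : z3 ≠ a + b * Real.pi ^ 2 := by
  intro h
  have h1 := Pool.Agent.LZ.Z3_linind
  rw [Fintype.linearIndependent_iff] at h1
  have h2 := h1 ![a, 6 * b, -1] (by
    rw [Fin.sum_univ_three]
    simp only [Matrix.cons_val_zero, Matrix.cons_val_one, Matrix.cons_val, Rat.smul_def]
    rw [Pool.Agent.LZ.Z2_value]
    have e : Pool.Agent.H337R2.zr 3 = z3 := rfl
    rw [e, h]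
    push_cast
    ring) 2
  simp at h2

open Pool.Agent.H447R2.MZ in
/-- `ζ(3)` is not a rational multiple of `π⁴` -/
theorem not_pi_four (b : ℚ) : z3 ≠ b * (Real.pi ^ 2) ^ 2 := by
  intro h
  have h1 := Pool.Agent.ZF.Z3_linind
  rw [Fintype.linearIndependent_iff] at h1
  have hv : Pool.Agent.H337R2.zr 4 = Real.pi ^ 4 / 90 := by
    have h1 := (hasSum_nat_add_iff' 1).2 hasSum_zeta_four
    rw [Finset.sum_range_one] at h1
    simp only [Nat.cast_zero, ne_eq, OfNat.ofNat_ne_zero, not_false_eq_true, zero_pow, div_zero, sub_zero] at h1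
    have h2 : HasSum (fun n : ℕ => 1 / ((n : ℝ) + 1) ^ 4) (Real.pi ^ 4 / 90) := by
      refine h1.congr_fun fun n => ?_
      push_cast
      rfl
    exact h2.tsum_eq
  have h2 := h1 ![0, -1, 90 * b] (by
    rw [Fin.sum_univ_three]
    simp only [Matrix.cons_val_zero, Matrix.cons_val_one, Matrix.cons_val, Rat.smul_def]
    rw [hv]
    have e : Pool.Agent.H337R2.zr 3 = z3 := rfl
    rw [e, h]
    push_cast
    ring) 1
  simp at h2


end Pool.Agent.R317.MZW
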