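import Mathlib

set_option autoImplicit false
set_option linter.all false

namespace Pool.Agent.R317.Mx

/-- one period of the solution -/
def f (k r : ℤ) : ℤ :=
  if r < 2 then 1
  else if r < 3 then 0
  else if r < k - 3 then -1
  else if r < k - 2 then 0
  else if r < k then 1
  else if r < k + 2 then 0
  else if r < 2 * k - 3 then r - k - 1
  else if r < 2 * k - 2 then k - 5
  else if r < 2 * k then k - 6
  else if r < 2 * k + 1 then k - 5
  else if r < 3 * k - 4 then 3 * k - 4 - r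
  else 0

/-- the solution read on `[0, 4k)` -/
def g (k r : ℤ) : ℤ := if r < 3 * k - 2 then f k r else f k (r - (3 * k - 2))

theorem f0 (k r : ℤ) (hk : 7 ≤ k) (h : r < 2) : f k r = 1 := by
  unfold f
  rw [if_pos (by omega)]

theorem f1 (k r : ℤ) (hk : 7 ≤ k) (h : 2 ≤ r ∧ r < 3) : f k r = 0 := by
  unfold f
  rw [if_neg (by omega), if_pos (by omega)]

theorem f2 (k r : ℤ) (hk : 7 ≤ k) (h : 3 ≤ r ∧ r < k - 3) : f k r = -1 := by
  unfold f
  rw [if_neg (by omega), if_neg (by omega), if_pos (by omega)]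

theorem f3 (k r : ℤ) (hk : 7 ≤ k) (h : k - 3 ≤ r ∧ r < k - 2) : f k r = 0 := by
  unfold f
  rw [if_neg (by omega), if_neg (by omega), if_neg (by omega), if_pos (by omega)]

theorem f4 (k r : ℤ) (hk : 7 ≤ k) (h : k - 2 ≤ r ∧ r < k) : f k r = 1 := by
  unfold f
  rw [if_neg (by omega), if_neg (by omega), if_neg (by omega), if_neg (by omega), if_pos (by omega)]

theorem f5 (k r : ℤ) (hk : 7 ≤ k) (h : k ≤ r ∧ r < k + 2) : f k r = 0 := by
  unfold f
  rw [if_neg (by omega), if_neg (by omega), if_neg (by omega), if_neg (by omega), if_neg (by omega), if_pos (by omega)]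

theorem f6 (k r : ℤ) (hk : 7 ≤ k) (h : k + 2 ≤ r ∧ r < 2 * k - 3) : f k r = r - k - 1 := by
  unfold f
  rw [if_neg (by omega), if_neg (by omega), if_neg (by omega), if_neg (by omega), if_neg (by omega), if_neg (by omega), if_pos (by omega)]

theorem f7 (k r : ℤ) (hk : 7 ≤ k) (h : 2 * k - 3 ≤ r ∧ r < 2 * k - 2) : f k r = k - 5 := by
  unfold f
  rw [if_neg (by omega), if_neg (by omega), if_neg (by omega), if_neg (by omega), if_neg (by omega), if_neg (by omega), if_neg (by omega), if_pos (by omega)]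

theorem f8 (k r : ℤ) (hk : 7 ≤ k) (h : 2 * k - 2 ≤ r ∧ r < 2 * k) : f k r = k - 6 := by
  unfold f
  rw [if_neg (by omega), if_neg (by omega), if_neg (by omega), if_neg (by omega), if_neg (by omega), if_neg (by omega), if_neg (by omega), if_neg (by omega), if_pos (by omega)]

theorem f9 (k r : ℤ) (hk : 7 ≤ k) (h : 2 * k ≤ r ∧ r < 2 * k + 1) : f k r = k - 5 := by
  unfold f
  rw [if_neg (by omega), if_neg (by omega), if_neg (by omega), if_neg (by omega), if_neg (by omega), if_neg (by omega), if_neg (by omega), if_neg (by omega), if_neg (by omega), if_pos (by omega)]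

theorem f10 (k r : ℤ) (hk : 7 ≤ k) (h : 2 * k + 1 ≤ r ∧ r < 3 * k - 4) : f k r = 3 * k - 4 - r := by
  unfold f
  rw [if_neg (by omega), if_neg (by omega), if_neg (by omega), if_neg (by omega), if_neg (by omega), if_neg (by omega), if_neg (by omega), if_neg (by omega), if_neg (by omega), if_neg (by omega), if_pos (by omega)]

theorem f11 (k r : ℤ) (hk : 7 ≤ k) (h : 3 * k - 4 ≤ r) : f k r = 0 := by
  unfold f
  rw [if_neg (by omega), if_neg (by omega), if_neg (by omega), if_neg (by omega), if_neg (by omega), if_neg (by omega), if_neg (by omega), if_neg (by omega), if_neg (by omega), if_neg (by omega), if_neg (by omega)]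

theorem fc (k r : ℤ) (hk : 7 ≤ k) :
    ((r < 2) ∧ f k r = 1) ∨
    ((2 ≤ r ∧ r < 3) ∧ f k r = 0) ∨
    ((3 ≤ r ∧ r < k - 3) ∧ f k r = -1) ∨
    ((k - 3 ≤ r ∧ r < k - 2) ∧ f k r = 0) ∨
    ((k - 2 ≤ r ∧ r < k) ∧ f k r = 1) ∨
    ((k ≤ r ∧ r < k + 2) ∧ f k r = 0) ∨
    ((k + 2 ≤ r ∧ r < 2 * k - 3) ∧ f k r = r - k - 1) ∨
    ((2 * k - 3 ≤ r ∧ r < 2 * k - 2) ∧ f k r = k - 5) ∨
    ((2 * k - 2 ≤ r ∧ r < 2 * k) ∧ f k r = k - 6) ∨
    ((2 * k ≤ r ∧ r < 2 * k + 1) ∧ f k r = k - 5) ∨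
    ((2 * k + 1 ≤ r ∧ r < 3 * k - 4) ∧ f k r = 3 * k - 4 - r) ∨
    ((3 * k - 4 ≤ r) ∧ f k r = 0) := by
  rcases lt_or_ge r (2) with h0 | g0
  · exact Or.inl ⟨h0, f0 k r hk h0⟩
  rcases lt_or_ge r (3) with h1 | g1
  · exact Or.inr (Or.inl ⟨⟨g0, h1⟩, f1 k r hk ⟨g0, h1⟩⟩)
  rcases lt_or_ge r (k - 3) with h2 | g2
  · exact Or.inr (Or.inr (Or.inl ⟨⟨g1, h2⟩, f2 k r hk ⟨g1, h2⟩⟩))
  rcases lt_or_ge r (k - 2) with h3 | g3
  · exact Or.inr (Or.inr (Or.inr (Or.inl ⟨⟨g2, h3⟩, f3 k r hk ⟨g2, h3⟩⟩)))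
  rcases lt_or_ge r (k) with h4 | g4
  · exact Or.inr (Or.inr (Or.inr (Or.inr (Or.inl ⟨⟨g3, h4⟩, f4 k r hk ⟨g3, h4⟩⟩))))
  rcases lt_or_ge r (k + 2) with h5 | g5
  · exact Or.inr (Or.inr (Or.inr (Or.inr (Or.inr (Or.inl ⟨⟨g4, h5⟩, f5 k r hk ⟨g4, h5⟩⟩)))))
  rcases lt_or_ge r (2 * k - 3) with h6 | g6
  · exact Or.inr (Or.inr (Or.inr (Or.inr (Or.inr (Or.inr (Or.inl ⟨⟨g5, h6⟩, f6 k r hk ⟨g5, h6⟩⟩))))))
  rcases lt_or_ge r (2 * k - 2) with h7 | g7
  · exact Or.inr (Or.inr (Or.inr (Or.inr (Or.inr (Or.inr (Or.inr (Or.inl ⟨⟨g6, h7⟩, f7 k r hk ⟨g6, h7⟩⟩)))))))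
  rcases lt_or_ge r (2 * k) with h8 | g8
  · exact Or.inr (Or.inr (Or.inr (Or.inr (Or.inr (Or.inr (Or.inr (Or.inr (Or.inl ⟨⟨g7, h8⟩, f8 k r hk ⟨g7, h8⟩⟩))))))))
  rcases lt_or_ge r (2 * k + 1) with h9 | g9
  · exact Or.inr (Or.inr (Or.inr (Or.inr (Or.inr (Or.inr (Or.inr (Or.inr (Or.inr (Or.inl ⟨⟨g8, h9⟩, f9 k r hk ⟨g8, h9⟩⟩)))))))))
  rcases lt_or_ge r (3 * k - 4) with h10 | g10
  · exact Or.inr (Or.inr (Or.inr (Or.inr (Or.inr (Or.inr (Or.inr (Or.inr (Or.inr (Or.inr (Or.inl ⟨⟨g9, h10⟩, f10 k r hk ⟨g9, h10⟩⟩))))))))))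
  exact Or.inr (Or.inr (Or.inr (Or.inr (Or.inr (Or.inr (Or.inr (Or.inr (Or.inr (Or.inr (Or.inr (⟨g10, f11 k r hk g10⟩)))))))))))
theorem g_lt (k r : ℤ) (h : r < 3 * k - 2) : g k r = f k r := by
  unfold g
  rw [if_pos h]

theorem g_ge (k r : ℤ) (h : 3 * k - 2 ≤ r) : g k r = f k (r - (3 * k - 2)) := by
  unfold g
  rw [if_neg (by omega)]

/-- the recurrence at `r` -/
def ok (k r : ℤ) : Prop :=
  (∀ j, 1 ≤ j → j < k → g k (r + j) ≤ g k (r + k) + f k r) ∧ 0 ≤ g k (r + k) + f k r ∧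
    ∃ j, 1 ≤ j ∧ j < k ∧ g k (r + j) = g k (r + k) + f k r

theorem z0 (k r : ℤ) (hk : 7 ≤ k) (h : r = 0) : ok k r := by
  have ha := f0 k r hk (by omega)
  have hb := g_lt k (r + k) (by omega)
  have hb' := f5 k (r + k) hk (by omega)
  have hw := g_lt k (r + (1)) (by omega)
  have hw' := f0 k (r + (1)) hk (by omega)
  have hM : g k (r + k) + f k r = 1 := by omega
  refine ⟨fun j hj1 hj2 => ?_, by omega, 1, by omega, by omega, by omega⟩
  rw [hM]
  by_cases hx : r + j < 3 * k - 2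
  · rw [g_lt k _ hx]
    have := fc k (r + j) hk
    omega
  · rw [g_ge k _ (by omega)]
    have := fc k (r + j - (3 * k - 2)) hk
    omega

theorem z1 (k r : ℤ) (hk : 7 ≤ k) (h : r = 1) : ok k r := by
  have ha := f0 k r hk (by omega)
  have hb := g_lt k (r + k) (by omega)
  have hb' := f5 k (r + k) hk (by omega)
  have hw := g_lt k (r + (k - 2)) (by omega)
  have hw' := f4 k (r + (k - 2)) hk (by omega)
  have hM : g k (r + k) + f k r = 1 := by omega
  refine ⟨fun j hj1 hj2 => ?_, by omega, k - 2, by omega, by omega, by omega⟩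
  rw [hM]
  by_cases hx : r + j < 3 * k - 2
  · rw [g_lt k _ hx]
    have := fc k (r + j) hk
    omega
  · rw [g_ge k _ (by omega)]
    have := fc k (r + j - (3 * k - 2)) hk
    omega

theorem z2 (k r : ℤ) (hk : 7 ≤ k) (h : r = 2) : ok k r := by
  have ha := f1 k r hk (by omega)
  have hb := g_lt k (r + k) (by omega)
  have hb' := f6 k (r + k) hk (by omega)
  have hw := g_lt k (r + (k - 3)) (by omega)
  have hw' := f4 k (r + (k - 3)) hk (by omega)
  have hM : g k (r + k) + f k r = 1 := by omega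
  refine ⟨fun j hj1 hj2 => ?_, by omega, k - 3, by omega, by omega, by omega⟩
  rw [hM]
  by_cases hx : r + j < 3 * k - 2
  · rw [g_lt k _ hx]
    have := fc k (r + j) hk
    omega
  · rw [g_ge k _ (by omega)]
    have := fc k (r + j - (3 * k - 2)) hk
    omega

theorem z3 (k r : ℤ) (hk : 7 ≤ k) (h : 3 ≤ r ∧ r ≤ k - 4) : ok k r := by
  have ha := f2 k r hk (by omega)
  have hb := g_lt k (r + k) (by omega)
  have hb' := f6 k (r + k) hk (by omega)
  have hw := g_lt k (r + (k - 1)) (by omega)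
  have hw' := f6 k (r + (k - 1)) hk (by omega)
  have hM : g k (r + k) + f k r = r - 2 := by omega
  refine ⟨fun j hj1 hj2 => ?_, by omega, k - 1, by omega, by omega, by omega⟩
  rw [hM]
  by_cases hx : r + j < 3 * k - 2
  · rw [g_lt k _ hx]
    have := fc k (r + j) hk
    omega
  · rw [g_ge k _ (by omega)]
    have := fc k (r + j - (3 * k - 2)) hk
    omega

theorem z4 (k r : ℤ) (hk : 7 ≤ k) (h : r = k - 3) : ok k r := by
  have ha := f3 k r hk (by omega)
  have hb := g_lt k (r + k) (by omega)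
  have hb' := f7 k (r + k) hk (by omega)
  have hw := g_lt k (r + (k - 1)) (by omega)
  have hw' := f6 k (r + (k - 1)) hk (by omega)
  have hM : g k (r + k) + f k r = k - 5 := by omega
  refine ⟨fun j hj1 hj2 => ?_, by omega, k - 1, by omega, by omega, by omega⟩
  rw [hM]
  by_cases hx : r + j < 3 * k - 2
  · rw [g_lt k _ hx]
    have := fc k (r + j) hk
    omega
  · rw [g_ge k _ (by omega)]
    have := fc k (r + j - (3 * k - 2)) hk
    omega

theorem z5 (k r : ℤ) (hk : 7 ≤ k) (h : k - 2 ≤ r ∧ r ≤ k - 1) : ok k r := by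
  have ha := f4 k r hk (by omega)
  have hb := g_lt k (r + k) (by omega)
  have hb' := f8 k (r + k) hk (by omega)
  have hw := g_lt k (r + (2 * k - 4 - r)) (by omega)
  have hw' := f6 k (r + (2 * k - 4 - r)) hk (by omega)
  have hM : g k (r + k) + f k r = k - 5 := by omega
  refine ⟨fun j hj1 hj2 => ?_, by omega, 2 * k - 4 - r, by omega, by omega, by omega⟩
  rw [hM]
  by_cases hx : r + j < 3 * k - 2
  · rw [g_lt k _ hx]
    have := fc k (r + j) hk
    omega
  · rw [g_ge k _ (by omega)]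
    have := fc k (r + j - (3 * k - 2)) hk
    omega

theorem z6 (k r : ℤ) (hk : 7 ≤ k) (h : r = k) : ok k r := by
  have ha := f5 k r hk (by omega)
  have hb := g_lt k (r + k) (by omega)
  have hb' := f9 k (r + k) hk (by omega)
  have hw := g_lt k (r + (2 * k - 4 - r)) (by omega)
  have hw' := f6 k (r + (2 * k - 4 - r)) hk (by omega)
  have hM : g k (r + k) + f k r = k - 5 := by omega
  refine ⟨fun j hj1 hj2 => ?_, by omega, 2 * k - 4 - r, by omega, by omega, by omega⟩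
  rw [hM]
  by_cases hx : r + j < 3 * k - 2
  · rw [g_lt k _ hx]
    have := fc k (r + j) hk
    omega
  · rw [g_ge k _ (by omega)]
    have := fc k (r + j - (3 * k - 2)) hk
    omega

theorem z7 (k r : ℤ) (hk : 7 ≤ k) (h : r = k + 1) : ok k r := by
  have ha := f5 k r hk (by omega)
  have hb := g_lt k (r + k) (by omega)
  have hb' := f10 k (r + k) hk (by omega)
  have hw := g_lt k (r + (2 * k - 4 - r)) (by omega)
  have hw' := f6 k (r + (2 * k - 4 - r)) hk (by omega)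
  have hM : g k (r + k) + f k r = k - 5 := by omega
  refine ⟨fun j hj1 hj2 => ?_, by omega, 2 * k - 4 - r, by omega, by omega, by omega⟩
  rw [hM]
  by_cases hx : r + j < 3 * k - 2
  · rw [g_lt k _ hx]
    have := fc k (r + j) hk
    omega
  · rw [g_ge k _ (by omega)]
    have := fc k (r + j - (3 * k - 2)) hk
    omega

theorem z8 (k r : ℤ) (hk : 7 ≤ k) (h : k + 2 ≤ r ∧ r ≤ 2 * k - 5) : ok k r := by
  have ha := f6 k r hk (by omega)
  have hb := g_lt k (r + k) (by omega)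
  have hb' := f10 k (r + k) hk (by omega)
  have hw := g_lt k (r + (2 * k - 4 - r)) (by omega)
  have hw' := f6 k (r + (2 * k - 4 - r)) hk (by omega)
  have hM : g k (r + k) + f k r = k - 5 := by omega
  refine ⟨fun j hj1 hj2 => ?_, by omega, 2 * k - 4 - r, by omega, by omega, by omega⟩
  rw [hM]
  by_cases hx : r + j < 3 * k - 2
  · rw [g_lt k _ hx]
    have := fc k (r + j) hk
    omega
  · rw [g_ge k _ (by omega)]
    have := fc k (r + j - (3 * k - 2)) hk
    omega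

theorem z9 (k r : ℤ) (hk : 7 ≤ k) (h : r = 2 * k - 4) : ok k r := by
  have ha := f6 k r hk (by omega)
  have hb := g_lt k (r + k) (by omega)
  have hb' := f11 k (r + k) hk (by omega)
  have hw := g_lt k (r + (2 * k - 3 - r)) (by omega)
  have hw' := f7 k (r + (2 * k - 3 - r)) hk (by omega)
  have hM : g k (r + k) + f k r = k - 5 := by omega
  refine ⟨fun j hj1 hj2 => ?_, by omega, 2 * k - 3 - r, by omega, by omega, by omega⟩
  rw [hM]
  by_cases hx : r + j < 3 * k - 2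
  · rw [g_lt k _ hx]
    have := fc k (r + j) hk
    omega
  · rw [g_ge k _ (by omega)]
    have := fc k (r + j - (3 * k - 2)) hk
    omega

theorem z10 (k r : ℤ) (hk : 7 ≤ k) (h : r = 2 * k - 3) : ok k r := by
  have ha := f7 k r hk (by omega)
  have hb := g_lt k (r + k) (by omega)
  have hb' := f11 k (r + k) hk (by omega)
  have hw := g_lt k (r + (2 * k + 1 - r)) (by omega)
  have hw' := f10 k (r + (2 * k + 1 - r)) hk (by omega)
  have hM : g k (r + k) + f k r = k - 5 := by omega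
  refine ⟨fun j hj1 hj2 => ?_, by omega, 2 * k + 1 - r, by omega, by omega, by omega⟩
  rw [hM]
  by_cases hx : r + j < 3 * k - 2
  · rw [g_lt k _ hx]
    have := fc k (r + j) hk
    omega
  · rw [g_ge k _ (by omega)]
    have := fc k (r + j - (3 * k - 2)) hk
    omega

theorem z11 (k r : ℤ) (hk : 7 ≤ k) (h : 2 * k - 2 ≤ r ∧ r ≤ 2 * k - 1) : ok k r := by
  have ha := f8 k r hk (by omega)
  have hb := g_ge k (r + k) (by omega)
  have hb' := f0 k (r + k - (3 * k - 2)) hk (by omega)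
  have hw := g_lt k (r + (2 * k + 1 - r)) (by omega)
  have hw' := f10 k (r + (2 * k + 1 - r)) hk (by omega)
  have hM : g k (r + k) + f k r = k - 5 := by omega
  refine ⟨fun j hj1 hj2 => ?_, by omega, 2 * k + 1 - r, by omega, by omega, by omega⟩
  rw [hM]
  by_cases hx : r + j < 3 * k - 2
  · rw [g_lt k _ hx]
    have := fc k (r + j) hk
    omega
  · rw [g_ge k _ (by omega)]
    have := fc k (r + j - (3 * k - 2)) hk
    omega

theorem z12 (k r : ℤ) (hk : 7 ≤ k) (h : r = 2 * k) : ok k r := by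
  have ha := f9 k r hk (by omega)
  have hb := g_ge k (r + k) (by omega)
  have hb' := f1 k (r + k - (3 * k - 2)) hk (by omega)
  have hw := g_lt k (r + (2 * k + 1 - r)) (by omega)
  have hw' := f10 k (r + (2 * k + 1 - r)) hk (by omega)
  have hM : g k (r + k) + f k r = k - 5 := by omega
  refine ⟨fun j hj1 hj2 => ?_, by omega, 2 * k + 1 - r, by omega, by omega, by omega⟩
  rw [hM]
  by_cases hx : r + j < 3 * k - 2
  · rw [g_lt k _ hx]
    have := fc k (r + j) hk
    omega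
  · rw [g_ge k _ (by omega)]
    have := fc k (r + j - (3 * k - 2)) hk
    omega

theorem z13 (k r : ℤ) (hk : 7 ≤ k) (h : 2 * k + 1 ≤ r ∧ r ≤ 3 * k - 6) : ok k r := by
  have ha := f10 k r hk (by omega)
  have hb := g_ge k (r + k) (by omega)
  have hb' := f2 k (r + k - (3 * k - 2)) hk (by omega)
  have hw := g_lt k (r + (1)) (by omega)
  have hw' := f10 k (r + (1)) hk (by omega)
  have hM : g k (r + k) + f k r = 3 * k - 5 - r := by omega
  refine ⟨fun j hj1 hj2 => ?_, by omega, 1, by omega, by omega, by omega⟩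
  rw [hM]
  by_cases hx : r + j < 3 * k - 2
  · rw [g_lt k _ hx]
    have := fc k (r + j) hk
    omega
  · rw [g_ge k _ (by omega)]
    have := fc k (r + j - (3 * k - 2)) hk
    omega

theorem z14 (k r : ℤ) (hk : 7 ≤ k) (h : r = 3 * k - 5) : ok k r := by
  have ha := f10 k r hk (by omega)
  have hb := g_ge k (r + k) (by omega)
  have hb' := f3 k (r + k - (3 * k - 2)) hk (by omega)
  have hw := g_ge k (r + (3)) (by omega)
  have hw' := f0 k (r + (3) - (3 * k - 2)) hk (by omega)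
  have hM : g k (r + k) + f k r = 1 := by omega
  refine ⟨fun j hj1 hj2 => ?_, by omega, 3, by omega, by omega, by omega⟩
  rw [hM]
  by_cases hx : r + j < 3 * k - 2
  · rw [g_lt k _ hx]
    have := fc k (r + j) hk
    omega
  · rw [g_ge k _ (by omega)]
    have := fc k (r + j - (3 * k - 2)) hk
    omega

theorem z15 (k r : ℤ) (hk : 7 ≤ k) (h : r = 3 * k - 4) : ok k r := by
  have ha := f11 k r hk (by omega)
  have hb := g_ge k (r + k) (by omega)
  have hb' := f4 k (r + k - (3 * k - 2)) hk (by omega)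
  have hw := g_ge k (r + (2)) (by omega)
  have hw' := f0 k (r + (2) - (3 * k - 2)) hk (by omega)
  have hM : g k (r + k) + f k r = 1 := by omega
  refine ⟨fun j hj1 hj2 => ?_, by omega, 2, by omega, by omega, by omega⟩
  rw [hM]
  by_cases hx : r + j < 3 * k - 2
  · rw [g_lt k _ hx]
    have := fc k (r + j) hk
    omega
  · rw [g_ge k _ (by omega)]
    have := fc k (r + j - (3 * k - 2)) hk
    omega

theorem z16 (k r : ℤ) (hk : 7 ≤ k) (h : r = 3 * k - 3) : ok k r := by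
  have ha := f11 k r hk (by omega)
  have hb := g_ge k (r + k) (by omega)
  have hb' := f4 k (r + k - (3 * k - 2)) hk (by omega)
  have hw := g_ge k (r + (1)) (by omega)
  have hw' := f0 k (r + (1) - (3 * k - 2)) hk (by omega)
  have hM : g k (r + k) + f k r = 1 := by omega
  refine ⟨fun j hj1 hj2 => ?_, by omega, 1, by omega, by omega, by omega⟩
  rw [hM]
  by_cases hx : r + j < 3 * k - 2
  · rw [g_lt k _ hx]
    have := fc k (r + j) hk
    omega
  · rw [g_ge k _ (by omega)]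
    have := fc k (r + j - (3 * k - 2)) hk
    omega

theorem zz (k r : ℤ) (hk : 7 ≤ k) (h0 : 0 ≤ r) (h1 : r < 3 * k - 2) : ok k r := by
  rcases lt_or_ge r (1) with h | h0
  · exact z0 k r hk (by omega)
  rcases lt_or_ge r (2) with h | h1
  · exact z1 k r hk (by omega)
  rcases lt_or_ge r (3) with h | h2
  · exact z2 k r hk (by omega)
  rcases lt_or_ge r (k - 3) with h | h3
  · exact z3 k r hk (by omega)
  rcases lt_or_ge r (k - 2) with h | h4
  · exact z4 k r hk (by omega)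
  rcases lt_or_ge r (k) with h | h5
  · exact z5 k r hk (by omega)
  rcases lt_or_ge r (k + 1) with h | h6
  · exact z6 k r hk (by omega)
  rcases lt_or_ge r (k + 2) with h | h7
  · exact z7 k r hk (by omega)
  rcases lt_or_ge r (2 * k - 4) with h | h8
  · exact z8 k r hk (by omega)
  rcases lt_or_ge r (2 * k - 3) with h | h9
  · exact z9 k r hk (by omega)
  rcases lt_or_ge r (2 * k - 2) with h | h10
  · exact z10 k r hk (by omega)
  rcases lt_or_ge r (2 * k) with h | h11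
  · exact z11 k r hk (by omega)
  rcases lt_or_ge r (2 * k + 1) with h | h12
  · exact z12 k r hk (by omega)
  rcases lt_or_ge r (3 * k - 5) with h | h13
  · exact z13 k r hk (by omega)
  rcases lt_or_ge r (3 * k - 4) with h | h14
  · exact z14 k r hk (by omega)
  rcases lt_or_ge r (3 * k - 3) with h | h15
  · exact z15 k r hk (by omega)
  exact z16 k r hk (by omega)

/-- the periodic solution for `k ≥ 7` -/
def h (k n : ℕ) : ℤ := f k ((n % (3 * k - 2) : ℕ) : ℤ)

theorem h_add (k n j : ℕ) (hk : 7 ≤ k) (hj : j ≤ k) :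
    h k (n + j) = g k (((n % (3 * k - 2) : ℕ) : ℤ) + j) := by
  have hP : 0 < 3 * k - 2 := by omega
  have hr : n % (3 * k - 2) < 3 * k - 2 := Nat.mod_lt _ hP
  have hj' : j % (3 * k - 2) = j := Nat.mod_eq_of_lt (by omega)
  unfold h
  rw [Nat.add_mod, hj']
  set r := n % (3 * k - 2) with hrdef
  rcases lt_or_ge (r + j) (3 * k - 2) with hx | hx
  · rw [Nat.mod_eq_of_lt hx, g_lt k _ (by omega)]
    push_cast
    rfl
  · rw [Nat.mod_eq_sub_mod hx, Nat.mod_eq_of_lt (by omega), g_ge k _ (by omega)]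
    congr 1
    omega

theorem h_zero (k n : ℕ) (hk : 7 ≤ k) :
    h k n = f k ((n % (3 * k - 2) : ℕ) : ℤ) := rfl

/-- the recurrence for integer sequences -/
def IsSolZ (k : ℕ) (x : ℕ → ℤ) : Prop :=
  ∀ n, (∀ j, 1 ≤ j → j < k → x (n + j) ≤ x (n + k) + x n) ∧ 0 ≤ x (n + k) + x n ∧
    (x (n + k) + x n = 0 ∨ ∃ j, 1 ≤ j ∧ j < k ∧ x (n + k) + x n = x (n + j))

theorem h_sol (k : ℕ) (hk : 7 ≤ k) : IsSolZ k (h k) := by
  intro n
  have hP : 0 < 3 * k - 2 := by omega
  have hr : n % (3 * k - 2) < 3 * k - 2 := Nat.mod_lt _ hP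
  obtain ⟨h1, h2, j, hj1, hj2, hj3⟩ := zz (k : ℤ) ((n % (3 * k - 2) : ℕ) : ℤ) (by omega) (by omega)
    (by omega)
  have hkk := h_add k n k hk le_rfl
  have h0 := h_zero k n hk
  refine ⟨fun i hi1 hi2 => ?_, ?_, Or.inr ⟨j.toNat, by omega, by omega, ?_⟩⟩
  · rw [h_add k n i hk (by omega), hkk, h0]
    exact h1 i (by omega) (by omega)
  · rw [hkk, h0]
    exact h2
  · rw [h_add k n j.toNat hk (by omega), hkk, h0]
    rw [show ((j.toNat : ℕ) : ℤ) = j by omega]
    exact hj3.symm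

theorem h_per (k n : ℕ) : h k (n + (3 * k - 2)) = h k n := by
  unfold h
  rw [Nat.add_mod_right]

theorem h_min (k d : ℕ) (hk : 7 ≤ k) (hd : 1 ≤ d) (hper : ∀ n, h k (n + d) = h k n) :
    3 * k - 2 ≤ d := by
  by_contra hlt
  push Not at hlt
  have e3 : h k 3 = -1 := by
    unfold h
    rw [Nat.mod_eq_of_lt (by omega)]
    exact f2 k _ (by omega) (by omega)
  have e2 : h k 2 = 0 := by
    unfold h
    rw [Nat.mod_eq_of_lt (by omega)]
    exact f1 k _ (by omega) (by omega)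
  have p3 := hper 3
  have p2 := hper 2
  rw [e3] at p3
  rw [e2] at p2
  unfold h at p3 p2
  rcases lt_or_ge (3 + d) (3 * k - 2) with hx | hx
  · rw [Nat.mod_eq_of_lt hx] at p3
    rw [Nat.mod_eq_of_lt (by omega)] at p2
    have c3 := fc (k : ℤ) ((3 + d : ℕ) : ℤ) (by omega)
    have hlt3 : ((3 + d : ℕ) : ℤ) < k - 3 := by omega
    have := f2 (k : ℤ) ((2 + d : ℕ) : ℤ) (by omega) (by omega)
    omega
  · rw [Nat.mod_eq_sub_mod hx, Nat.mod_eq_of_lt (by omega)] at p3
    have := f0 (k : ℤ) ((3 + d - (3 * k - 2) : ℕ) : ℤ) (by omega)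
    have c3 := fc (k : ℤ) ((3 + d - (3 * k - 2) : ℕ) : ℤ) (by omega)
    omega

/-- `x` solves `x_{n+k} = max(x_{n+k-1}, …, x_{n+1}, 0) - x_n` for all `n` -/
def IsSol (k : ℕ) (x : ℕ → ℝ) : Prop :=
  ∀ n, IsGreatest ({0} ∪ {y : ℝ | ∃ j : ℕ, 1 ≤ j ∧ j < k ∧ y = x (n + j)}) (x (n + k) + x n)

/-- the set of the least periods of the periodic solutions -/
def Per (k : ℕ) : Set ℕ :=
  {N | ∃ x : ℕ → ℝ, IsSol k x ∧ IsLeast {N : ℕ | 1 ≤ N ∧ ∀ n, x (n + N) = x n} N}

theorem per_of (k N : ℕ) (x : ℕ → ℤ) (hx : IsSolZ k x) (hN : 1 ≤ N) (hp : ∀ n, x (n + N) = x n)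
    (hm : ∀ d, 1 ≤ d → (∀ n, x (n + d) = x n) → N ≤ d) : N ∈ Per k := by
  refine ⟨fun n => (x n : ℝ), fun n => ?_, ⟨hN, fun n => by dsimp only; rw [hp]⟩, ?_⟩
  · obtain ⟨h1, h2, h3⟩ := hx n
    constructor
    · rcases h3 with h3 | ⟨j, hj1, hj2, hj3⟩
      · left
        rw [Set.mem_singleton_iff]
        dsimp only
        exact_mod_cast h3
      · right
        exact ⟨j, hj1, hj2, by dsimp only; exact_mod_cast hj3⟩
    · rintro y (hy | ⟨j, hj1, hj2, rfl⟩)
      · rw [Set.mem_singleton_iff] at hy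
        rw [hy]
        dsimp only
        exact_mod_cast h2
      · dsimp only
        exact_mod_cast h1 j hj1 hj2
  · rintro d ⟨hd1, hd2⟩
    refine hm d hd1 fun n => ?_
    have := hd2 n
    dsimp only at this
    exact_mod_cast this

/-- the sequence of period `N` that repeats a list -/
def rep (L : List ℤ) (n : ℕ) : ℤ := L.getD (n % L.length) 0

theorem rep_mod (L : List ℤ) (n j : ℕ) : rep L (n + j) = rep L (n % L.length + j) := by
  unfold rep
  rw [Nat.mod_add_mod]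

theorem rep_mod0 (L : List ℤ) (n : ℕ) : rep L n = rep L (n % L.length) := by
  unfold rep
  rw [Nat.mod_mod]

theorem rep_sol (L : List ℤ) (k : ℕ) (hL : 0 < L.length)
    (h : ∀ n < L.length, (∀ j < k, 1 ≤ j → rep L (n + j) ≤ rep L (n + k) + rep L n) ∧
      0 ≤ rep L (n + k) + rep L n ∧
      (rep L (n + k) + rep L n = 0 ∨ ∃ j < k, 1 ≤ j ∧ rep L (n + k) + rep L n = rep L (n + j))) :
    IsSolZ k (rep L) := by
  intro n
  obtain ⟨h1, h2, h3⟩ := h (n % L.length) (Nat.mod_lt _ hL)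
  rw [← rep_mod, ← rep_mod0] at h2 h3
  refine ⟨fun j hj1 hj2 => ?_, h2, ?_⟩
  · have := h1 j hj2 hj1
    rwa [← rep_mod, ← rep_mod, ← rep_mod0] at this
  · rcases h3 with h3 | ⟨j, hj1, hj2, hj3⟩
    · exact Or.inl h3
    · exact Or.inr ⟨j, hj2, hj1, by rw [hj3, rep_mod L n j]⟩

theorem rep_mem (L : List ℤ) (k : ℕ) (hL : 0 < L.length)
    (h : ∀ n < L.length, (∀ j < k, 1 ≤ j → rep L (n + j) ≤ rep L (n + k) + rep L n) ∧
      0 ≤ rep L (n + k) + rep L n ∧
      (rep L (n + k) + rep L n = 0 ∨ ∃ j < k, 1 ≤ j ∧ rep L (n + k) + rep L n = rep L (n + j)))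
    (hm : ∀ d < L.length, 1 ≤ d → ∃ n < L.length, rep L (n + d) ≠ rep L n) :
    L.length ∈ Per k := by
  refine per_of k _ (rep L) (rep_sol L k hL h) hL (fun n => ?_) (fun d hd1 hd2 => ?_)
  · unfold rep
    rw [Nat.add_mod_right]
  · by_contra hlt
    push Not at hlt
    obtain ⟨n, _, hn⟩ := hm d hlt hd1
    exact hn (hd2 n)

/-- a solution of period `54` for `k = 5` -/
def L5 : List ℤ := [-1, 0, 1, 0, 1, 2, 2, 1, 2, 1, 0, 0, 1, -1, 0, 1, 1, 0, 2, 2, 1, 1, 2, 0, 0, 1,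
  1, -1, 1, 1, 0, 0, 2, 1, 1, 2, 2, 0, 1, 1, 0, -1, 1, 0, 0, 1, 2, 1, 2, 2, 1, 0, 1, 0]

theorem mem5 : 54 ∈ Per 5 := by
  have := rep_mem L5 5 (by decide) (by decide +kernel) (by decide +kernel)
  exact this

theorem mem6 : 4 ∈ Per 6 := by
  have := rep_mem [0, 0, 1, 1] 6 (by decide) (by decide +kernel) (by decide +kernel)
  exact this

theorem mem7 (k : ℕ) (hk : 7 ≤ k) : 3 * k - 2 ∈ Per k :=
  per_of k _ (h k) (h_sol k hk) (by omega) (h_per k) (fun d h1 h2 => h_min k d hk h1 h2)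

end Pool.Agent.R317.Mx
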