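import Mathlib

set_option autoImplicit false
set_option linter.all false

namespace Pool.Agent.R317.Prod

open Finset Filter Topology

/-- `X` is a positive solution of `(E)`; `X i` is the term `x_{i-(2k+2)}` -/
def IsPosSol (k : ℕ) (α X : ℕ → ℝ) : Prop :=
  (∀ n, 0 < X n) ∧
    ∀ n, X (n + 2 * k + 3) = α n / ∏ j ∈ range (k + 1), X (n + k + 2 + j) +
      1 / ∏ j ∈ range (k + 1), X (n + j)

/-- `X` tends to a positive sequence of period `k + 2` -/
def TendsToPer (k : ℕ) (X : ℕ → ℝ) : Prop :=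
  ∃ Y : ℕ → ℝ, (∀ n, 0 < Y n) ∧ (∀ n, Y (n + (k + 2)) = Y n) ∧
    Tendsto (fun n => X n - Y n) atTop (𝓝 0)

theorem per_mul (Y : ℕ → ℝ) (N : ℕ) (h : ∀ n, Y (n + N) = Y n) (n m : ℕ) : Y (n + m * N) = Y n := by
  induction m with
  | zero => simp
  | succ m ih =>
    rw [show n + (m + 1) * N = (n + m * N) + N by ring, h, ih]

theorem const_of_tends (k p : ℕ) (hp : 1 ≤ p) (α X : ℕ → ℝ) (hper : ∀ n, α (n + p) = α n)
    (hX : IsPosSol k α X) (hT : TendsToPer k X) : ∀ n, α (n + 1) = α n := by
  obtain ⟨Y, hY0, hYp, hlim⟩ := hT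
  have hN : 0 < k + 2 := by omega
  -- limits along arithmetic progressions
  have hsub : ∀ r, Tendsto (fun m : ℕ => X (r + m * (p * (k + 2)))) atTop (𝓝 (Y r)) := by
    intro r
    have h1 : Tendsto (fun m : ℕ => r + m * (p * (k + 2))) atTop atTop := by
      refine tendsto_atTop_mono (f := fun m => m) (fun m => ?_) tendsto_id
      have : 1 ≤ p * (k + 2) := Nat.one_le_iff_ne_zero.mpr (Nat.mul_ne_zero (by omega) (by omega))
      nlinarith
    have h2 := hlim.comp h1
    have h3 : Tendsto (fun m : ℕ => (X (r + m * (p * (k + 2))) - Y (r + m * (p * (k + 2)))) + Y r)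
        atTop (𝓝 (0 + Y r)) := h2.add_const _
    rw [zero_add] at h3
    refine h3.congr fun m => ?_
    have : Y (r + m * (p * (k + 2))) = Y r := by
      rw [show m * (p * (k + 2)) = (m * p) * (k + 2) by ring]
      exact per_mul Y (k + 2) hYp r (m * p)
    rw [this]
    ring
  have hα : ∀ r, α r = ∏ j ∈ range (k + 2), Y (r + j) - 1 := by
    intro r
    have hconst : ∀ m, α (r + m * (p * (k + 2))) = α r := by
      intro m
      rw [show m * (p * (k + 2)) = (m * (k + 2)) * p by ring]
      exact per_mul α p hper r _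
    have hP1 : Tendsto (fun m : ℕ => ∏ j ∈ range (k + 1), X (r + m * (p * (k + 2)) + k + 2 + j))
        atTop (𝓝 (∏ j ∈ range (k + 1), Y (r + k + 2 + j))) := by
      refine tendsto_finsetProd _ fun j _ => ?_
      refine (hsub (r + k + 2 + j)).congr fun m => ?_
      congr 1
      ring
    have hP2 : Tendsto (fun m : ℕ => ∏ j ∈ range (k + 1), X (r + m * (p * (k + 2)) + j))
        atTop (𝓝 (∏ j ∈ range (k + 1), Y (r + j))) := by
      refine tendsto_finsetProd _ fun j _ => ?_
      refine (hsub (r + j)).congr fun m => ?_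
      congr 1
      ring
    have hP3 : Tendsto (fun m : ℕ => X (r + m * (p * (k + 2)) + 2 * k + 3))
        atTop (𝓝 (Y (r + 2 * k + 3))) := by
      refine (hsub (r + 2 * k + 3)).congr fun m => ?_
      congr 1
      ring
    have hq1 : 0 < ∏ j ∈ range (k + 1), Y (r + k + 2 + j) := prod_pos fun j _ => hY0 _
    have hq2 : 0 < ∏ j ∈ range (k + 1), Y (r + j) := prod_pos fun j _ => hY0 _
    have hA : Tendsto (fun m : ℕ => α r) atTop (𝓝 (Y (r + 2 * k + 3) *
        (∏ j ∈ range (k + 1), Y (r + k + 2 + j)) - (∏ j ∈ range (k + 1), Y (r + k + 2 + j)) /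
          ∏ j ∈ range (k + 1), Y (r + j))) := by
      refine ((hP3.mul hP1).sub (hP1.div hP2 hq2.ne')).congr fun m => ?_
      have hrec := hX.2 (r + m * (p * (k + 2)))
      have g1 : 0 < ∏ j ∈ range (k + 1), X (r + m * (p * (k + 2)) + k + 2 + j) :=
        prod_pos fun j _ => hX.1 _
      have g2 : 0 < ∏ j ∈ range (k + 1), X (r + m * (p * (k + 2)) + j) :=
        prod_pos fun j _ => hX.1 _
      simp only [Pi.div_apply]
      rw [hrec, hconst m]
      field_simp
      ring
    have hlim2 := tendsto_nhds_unique hA tendsto_const_nhds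
    have e1 : ∏ j ∈ range (k + 1), Y (r + k + 2 + j) = ∏ j ∈ range (k + 1), Y (r + j) := by
      refine prod_congr rfl fun j _ => ?_
      rw [show r + k + 2 + j = (r + j) + (k + 2) by ring, hYp]
    have e2 : Y (r + 2 * k + 3) = Y (r + (k + 1)) := by
      rw [show r + 2 * k + 3 = (r + (k + 1)) + (k + 2) by ring, hYp]
    rw [e1, e2, div_self hq2.ne'] at hlim2
    rw [← hlim2, prod_range_succ _ (k + 1), mul_comm]
  intro n
  rw [hα n, hα (n + 1)]
  have e3 : (∏ j ∈ range (k + 2), Y (n + 1 + j)) * Y n = (∏ j ∈ range (k + 2), Y (n + j)) * Y n := by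
    have h1 : ∏ j ∈ range (k + 3), Y (n + j) = (∏ j ∈ range (k + 2), Y (n + j)) * Y (n + (k + 2)) :=
      prod_range_succ _ _
    have h2 : ∏ j ∈ range (k + 3), Y (n + j) =
        (∏ j ∈ range (k + 2), Y (n + (j + 1))) * Y (n + 0) := prod_range_succ' _ _
    have h3 : ∏ j ∈ range (k + 2), Y (n + (j + 1)) = ∏ j ∈ range (k + 2), Y (n + 1 + j) :=
      prod_congr rfl fun j _ => by rw [show n + (j + 1) = n + 1 + j by ring]
    rw [hYp] at h1
    rw [h3] at h2
    rw [← h1]
    exact h2.symm
  have := mul_right_cancel₀ (hY0 n).ne' e3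
  rw [this]

/-- positive solutions exist -/
theorem exists_sol (k : ℕ) (α : ℕ → ℝ) (hα : ∀ n, 0 ≤ α n) : ∃ X, IsPosSol k α X := by
  classical
  -- build the sequence by strong recursion
  let F : (n : ℕ) → ((m : ℕ) → m < n → ℝ) → ℝ := fun n f =>
    if h : 2 * k + 3 ≤ n then
      α (n - (2 * k + 3)) / ∏ j : Fin (k + 1), f (n - (2 * k + 3) + k + 2 + j) (by omega) +
        1 / ∏ j : Fin (k + 1), f (n - (2 * k + 3) + j) (by omega)
    else 1
  let X : ℕ → ℝ := fun n => WellFounded.fix (r := (· < ·)) Nat.lt_wfRel.wf F n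
  have hXe : ∀ n, X n = F n (fun m _ => X m) := fun n => WellFounded.fix_eq _ _ _
  have hrec : ∀ n, X (n + 2 * k + 3) = α n / ∏ j ∈ range (k + 1), X (n + k + 2 + j) +
      1 / ∏ j ∈ range (k + 1), X (n + j) := by
    intro n
    rw [hXe]
    simp only [F]
    rw [dif_pos (by omega)]
    have e : n + 2 * k + 3 - (2 * k + 3) = n := by omega
    simp only [e]
    rw [Fin.prod_univ_eq_prod_range (fun j => X (n + k + 2 + j)) (k + 1),
      Fin.prod_univ_eq_prod_range (fun j => X (n + j)) (k + 1)]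
  refine ⟨X, ?_, hrec⟩
  intro n
  induction n using Nat.strong_induction_on with
  | _ n ih =>
    rcases lt_or_ge n (2 * k + 3) with h | h
    · rw [hXe]
      simp only [F]
      rw [dif_neg (by omega)]
      exact one_pos
    · obtain ⟨m, rfl⟩ : ∃ m, n = m + 2 * k + 3 := ⟨n - (2 * k + 3), by omega⟩
      rw [hrec]
      have g1 : 0 < ∏ j ∈ range (k + 1), X (m + k + 2 + j) :=
        prod_pos fun j hj => ih _ (by have := mem_range.mp hj; omega)
      have g2 : 0 < ∏ j ∈ range (k + 1), X (m + j) :=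
        prod_pos fun j hj => ih _ (by have := mem_range.mp hj; omega)
      have := hα m
      positivity

end Pool.Agent.R317.Prod
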