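import Mathlib

set_option autoImplicit false

namespace Pool.Agent.R317.Rec3

theorem exists_seq (F : ℝ → ℝ → ℝ → ℝ) (a b c : ℝ) :
    ∃ x : ℕ → ℝ, x 0 = a ∧ x 1 = b ∧ x 2 = c ∧ ∀ n, x (n + 3) = F (x n) (x (n + 1)) (x (n + 2)) := by
  let st : ℝ × ℝ × ℝ → ℝ × ℝ × ℝ := fun s => (s.2.1, s.2.2, F s.1 s.2.1 s.2.2)
  let y : ℕ → ℝ × ℝ × ℝ := fun n => st^[n] (a, b, c)
  have hy : ∀ n, y (n + 1) = st (y n) := fun n => Function.iterate_succ_apply' st n (a, b, c)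
  refine ⟨fun n => (y n).1, rfl, ?_, ?_, fun n => ?_⟩
  · show (y 1).1 = b
    rw [hy 0]
    rfl
  · show (y 2).1 = c
    rw [hy 1, hy 0]
    rfl
  · show (y (n + 3)).1 = F (y n).1 (y (n + 1)).1 (y (n + 2)).1
    rw [hy (n + 2), hy (n + 1), hy n]

end Pool.Agent.R317.Rec3
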