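import Mathlib

/-! Definitions for the project SD (self-decomposability of four modified Bessel laws). -/

namespace Pool.Agent.R317.SD

open Set Filter Topology MeasureTheory

/-- the modified Bessel function of the first kind of order `μ` (at `z > 0`) -/
noncomputable def besselI (μ z : ℝ) : ℝ :=
  ∑' k : ℕ, (z / 2) ^ (2 * (k : ℝ) + μ) / ((k.factorial : ℝ) * Real.Gamma ((k : ℝ) + μ + 1))

/-- the modified Bessel function of the second kind of order `ν` (at `z > 0`) -/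
noncomputable def besselK (ν z : ℝ) : ℝ :=
  ∫ t in Ioi (0 : ℝ), Real.exp (-(z * Real.cosh t)) * Real.cosh (ν * t)

/-- the normalised entire function: `F μ (z ^ 2) = Γ(μ+1) (z/2)^(-μ) I_μ(z)` -/
noncomputable def F (μ x : ℝ) : ℝ :=
  ∑' k : ℕ, Real.Gamma (μ + 1) * (x / 4) ^ k /
    ((k.factorial : ℝ) * Real.Gamma ((k : ℝ) + μ + 1))

/-- `κ a x = ∫_0^∞ e^(-t - x/(4t)) t^(a-1) dt`; `κ ν (z ^ 2) = 2 (z/2)^ν K_ν(z)` -/
noncomputable def κ (a x : ℝ) : ℝ :=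
  ∫ t in Ioi (0 : ℝ), Real.exp (-t - x / (4 * t)) * t ^ (a - 1)

/-- `G 0, G 1, …` with `G (n+1) = - (G n)'` on `(0, ∞)` -/
def Chain (G : ℕ → ℝ → ℝ) : Prop := ∀ n x, 0 < x → HasDerivAt (G n) (-(G (n + 1) x)) x

/-- complete monotonicity on `(0, ∞)` -/
def CM (g : ℝ → ℝ) : Prop :=
  ∃ G : ℕ → ℝ → ℝ, Chain G ∧ (∀ n x, 0 < x → 0 ≤ G n x) ∧ ∀ x, 0 < x → G 0 x = g x

/-- `g` is the Laplace transform of the probability measure `P` on `[0, ∞)` -/
def IsLT (P : Measure ℝ) (g : ℝ → ℝ) : Prop :=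
  IsProbabilityMeasure P ∧ P (Iio 0) = 0 ∧ ∀ x, 0 < x → ∫ t, Real.exp (-(x * t)) ∂P = g x

/-- self-decomposability of a law `P`: for every `c ∈ (0,1)`, `P` is the law of `c X + Y` with
`X` of law `P` and `Y ≥ 0` independent of `X`. -/
def SelfDecomposable (P : Measure ℝ) : Prop :=
  ∀ c : ℝ, 0 < c → c < 1 → ∃ Q : Measure ℝ, IsProbabilityMeasure Q ∧ Q (Iio 0) = 0 ∧
    (P.map (fun x => c * x)).conv Q = P

/-- building blocks -/
structure Block (U : ℝ → ℝ) : Prop where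
  pos : ∀ x, 0 < x → 0 < U x
  cm : CM U
  ratio : ∀ c, 0 < c → c < 1 → CM (fun x => U x / U (c * x))
  lim : Tendsto U (𝓝[>] 0) (𝓝 1)

end Pool.Agent.R317.SD
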