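import Mathlib
import Pool.Agent.R317.SDDefs

namespace Pool.Agent.R317.SD

open Set Filter Topology

/-- the product chain -/
noncomputable def mulC (G H : ℕ → ℝ → ℝ) (n : ℕ) (x : ℝ) : ℝ :=
  ∑ ij ∈ Finset.HasAntidiagonal.antidiagonal n, (n.choose ij.1 : ℝ) * (G ij.1 x * H ij.2 x)

lemma Chain.mul {G H : ℕ → ℝ → ℝ} (hG : Chain G) (hH : Chain H) : Chain (mulC G H) := by
  intro n x hx
  have h : ∀ ij ∈ Finset.HasAntidiagonal.antidiagonal n, HasDerivAt
      (fun y => (n.choose ij.1 : ℝ) * (G ij.1 y * H ij.2 y))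
      ((n.choose ij.1 : ℝ) * (-(G (ij.1 + 1) x) * H ij.2 x + G ij.1 x * -(H (ij.2 + 1) x))) x :=
    fun ij _ => ((hG ij.1 x hx).mul (hH ij.2 x hx)).const_mul _
  have h2 := HasDerivAt.fun_sum h
  refine h2.congr_deriv ?_
  unfold mulC
  rw [Finset.sum_antidiagonal_choose_succ_mul (fun i j => G i x * H j x) n,
    ← Finset.sum_add_distrib, ← Finset.sum_neg_distrib]
  apply Finset.sum_congr rfl
  rintro ⟨i, j⟩ hij
  rw [Finset.HasAntidiagonal.mem_antidiagonal] at hij
  have : n.choose j = n.choose i := Nat.choose_symm_of_eq_add (by simp at hij; omega)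
  simp only [this]
  ring

lemma mulC_zero (G H : ℕ → ℝ → ℝ) (x : ℝ) : mulC G H 0 x = G 0 x * H 0 x := by
  simp [mulC]

lemma mulC_nonneg {G H : ℕ → ℝ → ℝ} {n : ℕ} {x : ℝ} (hG : ∀ k ≤ n, 0 ≤ G k x)
    (hH : ∀ k ≤ n, 0 ≤ H k x) : 0 ≤ mulC G H n x := by
  apply Finset.sum_nonneg
  rintro ⟨i, j⟩ hij
  rw [Finset.HasAntidiagonal.mem_antidiagonal] at hij
  simp only at hij ⊢
  have h1 := hG i (by omega)
  have h2 := hH j (by omega)
  positivity

/-- the middle terms -/
noncomputable def mid (G H : ℕ → ℝ → ℝ) (m : ℕ) (x : ℝ) : ℝ :=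
  ∑ j ∈ Finset.range m, ((m + 1).choose (j + 1) : ℝ) * (G (j + 1) x * H (m - j) x)

lemma mulC_succ (G H : ℕ → ℝ → ℝ) (m : ℕ) (x : ℝ) :
    mulC G H (m + 1) x = G 0 x * H (m + 1) x + G (m + 1) x * H 0 x + mid G H m x := by
  unfold mulC mid
  rw [Finset.Nat.sum_antidiagonal_eq_sum_range_succ
    (fun i j => ((m + 1).choose i : ℝ) * (G i x * H j x)), Finset.sum_range_succ,
    Finset.sum_range_succ']
  simp only [Nat.choose_zero_right, Nat.cast_one, one_mul, Nat.sub_zero, Nat.choose_self,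
    Nat.sub_self]
  have : ∀ j ∈ Finset.range m, ((m + 1).choose (j + 1) : ℝ) * (G (j + 1) x * H (m + 1 - (j + 1)) x)
      = ((m + 1).choose (j + 1) : ℝ) * (G (j + 1) x * H (m - j) x) := by
    intro j _
    rw [Nat.add_sub_add_right]
  rw [Finset.sum_congr rfl this]
  ring

lemma mid_nonneg {G H : ℕ → ℝ → ℝ} {m : ℕ} {x : ℝ}
    (h : ∀ j < m, 0 ≤ G (j + 1) x * H (m - j) x) : 0 ≤ mid G H m x := by
  apply Finset.sum_nonneg
  intro j hj
  have := h j (Finset.mem_range.1 hj)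
  positivity

lemma Chain.unique {G H : ℕ → ℝ → ℝ} (hG : Chain G) (hH : Chain H)
    (h0 : ∀ x, 0 < x → G 0 x = H 0 x) : ∀ n x, 0 < x → G n x = H n x := by
  intro n
  induction n with
  | zero => exact h0
  | succ n ih =>
    intro x hx
    have h1 := hG n x hx
    have h2 := hH n x hx
    have h3 : G n =ᶠ[𝓝 x] H n := by
      filter_upwards [Ioi_mem_nhds hx] with y hy using ih y hy
    have h4 := h2.congr_of_eventuallyEq h3
    have h5 := h1.unique h4
    linarith

lemma Chain.congr {G : ℕ → ℝ → ℝ} {g : ℝ → ℝ} (hG : Chain G)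
    (h0 : ∀ x, 0 < x → G 0 x = g x) : Chain (fun n => if n = 0 then g else G n) := by
  intro n x hx
  rcases Nat.eq_zero_or_pos n with rfl | hn
  · simp only [if_true, Nat.zero_add, Nat.one_ne_zero, if_false]
    exact (hG 0 x hx).congr_of_eventuallyEq (by
      filter_upwards [Ioi_mem_nhds hx] with y hy using (h0 y hy).symm)
  · have h1 : n ≠ 0 := by omega
    simp only [h1, if_false, Nat.add_eq_zero_iff, Nat.one_ne_zero, and_false]
    exact hG n x hx

lemma exists_chain {g : ℝ → ℝ} (hg : ContDiffOn ℝ (⊤ : ℕ∞) g (Ioi 0)) :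
    ∃ G : ℕ → ℝ → ℝ, Chain G ∧ G 0 = g := by
  have h1 : ∀ n : ℕ, ContDiffOn ℝ (⊤ : ℕ∞) (deriv^[n] g) (Ioi 0) := by
    intro n
    induction n with
    | zero => exact hg
    | succ n ih =>
      rw [Function.iterate_succ_apply']
      exact ((contDiffOn_infty_iff_deriv_of_isOpen isOpen_Ioi).1 ih).2
  refine ⟨fun n x => (-1) ^ n * deriv^[n] g x, ?_, ?_⟩
  · intro n x hx
    have h2 : DifferentiableAt ℝ (deriv^[n] g) x :=
      ((contDiffOn_infty_iff_deriv_of_isOpen isOpen_Ioi).1 (h1 n)).1.differentiableAt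
        (Ioi_mem_nhds hx)
    have h3 := h2.hasDerivAt.const_mul ((-1 : ℝ) ^ n)
    refine h3.congr_deriv ?_
    change (-1 : ℝ) ^ n * deriv (deriv^[n] g) x = -((-1) ^ (n + 1) * deriv^[n + 1] g x)
    rw [Function.iterate_succ_apply', pow_succ]
    ring
  · funext x
    simp

lemma Chain.add {G H : ℕ → ℝ → ℝ} (hG : Chain G) (hH : Chain H) :
    Chain (fun n x => G n x + H n x) := fun n x hx =>
  ((hG n x hx).add (hH n x hx)).congr_deriv (by ring)

lemma Chain.sub {G H : ℕ → ℝ → ℝ} (hG : Chain G) (hH : Chain H) :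
    Chain (fun n x => G n x - H n x) := fun n x hx =>
  ((hG n x hx).sub (hH n x hx)).congr_deriv (by ring)

lemma Chain.const_mul {G : ℕ → ℝ → ℝ} (hG : Chain G) (c : ℝ) :
    Chain (fun n x => c * G n x) := fun n x hx =>
  ((hG n x hx).const_mul c).congr_deriv (by ring)

lemma Chain.shift {G : ℕ → ℝ → ℝ} (hG : Chain G) : Chain (fun n => G (n + 1)) :=
  fun n x hx => hG (n + 1) x hx

/-- the chain of `x * G 0 x` -/
noncomputable def xC (G : ℕ → ℝ → ℝ) : ℕ → ℝ → ℝ
  | 0 => fun x => x * G 0 x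
  | (n + 1) => fun x => x * G (n + 1) x - (n + 1) * G n x

lemma Chain.x {G : ℕ → ℝ → ℝ} (hG : Chain G) : Chain (xC G) := by
  intro n x hx
  cases n with
  | zero =>
    have h := (hasDerivAt_id x).mul (hG 0 x hx)
    refine h.congr_deriv ?_
    simp [xC]
    ring
  | succ n =>
    have h := ((hasDerivAt_id x).mul (hG (n + 1) x hx)).sub ((hG n x hx).const_mul ((n : ℝ) + 1))
    refine h.congr_deriv ?_
    simp [xC]
    ring

/-- the chain of `x ↦ c * x` -/
noncomputable def linC (c : ℝ) : ℕ → ℝ → ℝ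
  | 0 => fun x => c * x
  | 1 => fun _ => -c
  | (_ + 2) => fun _ => 0

lemma chain_linC (c : ℝ) : Chain (linC c) := by
  intro n x _
  match n with
  | 0 =>
    have h := (hasDerivAt_id x).const_mul c
    refine h.congr_deriv ?_
    simp [linC]
  | 1 =>
    have h := hasDerivAt_const x (-c)
    refine h.congr_deriv ?_
    simp [linC]
  | (n + 2) =>
    have h := hasDerivAt_const x (0 : ℝ)
    refine h.congr_deriv ?_
    simp [linC]

/-- the chain of the square root -/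
noncomputable def sC : ℕ → ℝ
  | 0 => 1
  | (n + 1) => ((n : ℝ) - 1 / 2) * sC n

noncomputable def sq (n : ℕ) (x : ℝ) : ℝ := sC n * x ^ (1 / 2 - (n : ℝ))

lemma chain_sq : Chain sq := by
  intro n x hx
  have h := (Real.hasDerivAt_rpow_const (p := 1 / 2 - (n : ℝ)) (Or.inl hx.ne')).const_mul (sC n)
  refine h.congr_deriv ?_
  unfold sq
  rw [sC]
  push_cast
  have : (1 / 2 - ((n : ℝ) + 1)) = 1 / 2 - (n : ℝ) - 1 := by ring
  rw [this]
  ring

lemma sC_neg (n : ℕ) : sC (n + 1) < 0 := by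
  induction n with
  | zero => norm_num [sC]
  | succ n ih =>
    rw [sC]
    push_cast
    have : (0 : ℝ) ≤ n := Nat.cast_nonneg n
    nlinarith

lemma sq_neg (n : ℕ) {x : ℝ} (hx : 0 < x) : sq (n + 1) x < 0 := by
  unfold sq
  have := sC_neg n
  have h2 : 0 < x ^ (1 / 2 - ((n + 1 : ℕ) : ℝ)) := Real.rpow_pos_of_pos hx _
  nlinarith

lemma sq_zero {x : ℝ} : sq 0 x = √x := by
  unfold sq
  rw [sC, Real.sqrt_eq_rpow]
  simp

lemma pow_mul_sq (n : ℕ) {x : ℝ} (hx : 0 < x) : x ^ n * sq n x = sC n * √x := by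
  unfold sq
  rw [Real.rpow_sub hx, Real.rpow_natCast, Real.sqrt_eq_rpow]
  have : x ^ n ≠ 0 := by positivity
  field_simp

end Pool.Agent.R317.SD
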