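import Mathlib
import Pool.Agent.R317.SDChain

namespace Pool.Agent.R317.SD

open Set Filter Topology

/-- chain of `(X 0 x - X 0 (s x)) / x` in the variable `x` -/
noncomputable def J (X : ℕ → ℝ → ℝ) (s : ℝ) : ℕ → ℝ → ℝ
  | 0 => fun x => (X 0 x - X 0 (s * x)) / x
  | (n + 1) => fun x =>
      ((n + 1) * J X s n x + X (n + 1) x - s ^ (n + 1) * X (n + 1) (s * x)) / x

lemma hasDerivAt_scale {X : ℕ → ℝ → ℝ} (hX : Chain X) {s : ℝ} (hs : 0 < s) (n : ℕ) {x : ℝ}
    (hx : 0 < x) : HasDerivAt (fun y => s ^ n * X n (s * y)) (-(s ^ (n + 1) * X (n + 1) (s * x))) x := by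
  have h1 := hX n (s * x) (by positivity)
  have h2 : HasDerivAt (fun y : ℝ => s * y) s x := by simpa using (hasDerivAt_id x).const_mul s
  have h3 := (h1.comp x h2).const_mul (s ^ n)
  refine h3.congr_deriv ?_
  ring

lemma Chain.scale {X : ℕ → ℝ → ℝ} (hX : Chain X) {s : ℝ} (hs : 0 < s) :
    Chain (fun n x => s ^ n * X n (s * x)) := fun n _ hx => hasDerivAt_scale hX hs n hx

lemma chain_J {X : ℕ → ℝ → ℝ} (hX : Chain X) {s : ℝ} (hs : 0 < s) : Chain (J X s) := by
  intro n
  induction n with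
  | zero =>
    intro x hx
    have h1 := ((hX 0 x hx).sub (hasDerivAt_scale hX hs 0 hx)).div (hasDerivAt_id x) hx.ne'
    have h2 : (fun y => (X 0 y - X 0 (s * y)) / y) = fun y => (X 0 y - s ^ 0 * X 0 (s * y)) / y := by
      funext y; simp
    change HasDerivAt (fun y => (X 0 y - X 0 (s * y)) / y) _ x
    rw [h2]
    refine h1.congr_deriv ?_
    simp only [J, id, Nat.cast_zero, Pi.sub_apply]
    field_simp
    ring
  | succ n ih =>
    intro x hx
    have h1 := ((((ih x hx).const_mul ((n : ℝ) + 1)).add (hX (n + 1) x hx)).sub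
      (hasDerivAt_scale hX hs (n + 1) hx)).div (hasDerivAt_id x) hx.ne'
    change HasDerivAt (fun x =>
      ((n + 1) * J X s n x + X (n + 1) x - s ^ (n + 1) * X (n + 1) (s * x)) / x) _ x
    refine h1.congr_deriv ?_
    simp only [J, id, Pi.sub_apply, Pi.add_apply]
    push_cast
    field_simp
    ring

lemma hasDerivAt_J_s {X : ℕ → ℝ → ℝ} (hX : Chain X) {x : ℝ} (hx : 0 < x) (n : ℕ) :
    ∀ s, 0 < s → HasDerivAt (fun s => J X s n x) (s ^ n * X (n + 1) (s * x)) s := by
  induction n with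
  | zero =>
    intro s hs
    have h1 := hX 0 (s * x) (by positivity)
    have h2 : HasDerivAt (fun y : ℝ => y * x) x s := by simpa using (hasDerivAt_id s).mul_const x
    have h3 := (((h1.comp s h2).const_sub (X 0 x))).div_const x
    change HasDerivAt (fun s => (X 0 x - X 0 (s * x)) / x) _ s
    refine h3.congr_deriv ?_
    field_simp
  | succ n ih =>
    intro s hs
    have h0 := hX (n + 1) (s * x) (by positivity)
    have h2 : HasDerivAt (fun y : ℝ => y * x) x s := by simpa using (hasDerivAt_id s).mul_const x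
    have h3 := (hasDerivAt_pow (n + 1) s).mul (h0.comp s h2)
    have h4 := ((((ih s hs).const_mul ((n : ℝ) + 1)).add_const (X (n + 1) x)).sub h3).div_const x
    change HasDerivAt (fun s =>
      ((n + 1) * J X s n x + X (n + 1) x - s ^ (n + 1) * X (n + 1) (s * x)) / x) _ s
    refine h4.congr_deriv ?_
    simp only [Function.comp]
    push_cast
    field_simp
    try simp only [Nat.add_sub_cancel]
    try ring

lemma J_one {X : ℕ → ℝ → ℝ} (n : ℕ) (x : ℝ) : J X 1 n x = 0 := by
  induction n with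
  | zero => simp [J]
  | succ n ih => simp [J, ih]

lemma J_nonneg {X : ℕ → ℝ → ℝ} (hX : Chain X) (hneg : ∀ n x, 0 < x → X (n + 1) x ≤ 0)
    {s : ℝ} (hs : 0 < s) (hs1 : s ≤ 1) (n : ℕ) {x : ℝ} (hx : 0 < x) : 0 ≤ J X s n x := by
  have hanti : AntitoneOn (fun s => J X s n x) (Icc s 1) := by
    apply antitoneOn_of_deriv_nonpos (convex_Icc s 1)
    · intro y hy
      exact (hasDerivAt_J_s hX hx n y (lt_of_lt_of_le hs hy.1)).continuousAt.continuousWithinAt
    · intro y hy
      rw [interior_Icc] at hy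
      exact (hasDerivAt_J_s hX hx n y (lt_trans hs hy.1)).differentiableAt.differentiableWithinAt
    · intro y hy
      rw [interior_Icc] at hy
      have hy0 : 0 < y := lt_trans hs hy.1
      rw [(hasDerivAt_J_s hX hx n y hy0).deriv]
      have h1 := hneg n (y * x) (by positivity)
      have h2 : 0 ≤ y ^ n := by positivity
      exact mul_nonpos_of_nonneg_of_nonpos h2 h1
  have := hanti (left_mem_Icc.2 hs1) (right_mem_Icc.2 hs1) hs1
  simp only [J_one] at this
  exact this

/-- chain of `X 0 x / x` -/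
noncomputable def J0 (X : ℕ → ℝ → ℝ) : ℕ → ℝ → ℝ
  | 0 => fun x => X 0 x / x
  | (n + 1) => fun x => ((n + 1) * J0 X n x + X (n + 1) x) / x

lemma chain_J0 {X : ℕ → ℝ → ℝ} (hX : Chain X) : Chain (J0 X) := by
  intro n
  induction n with
  | zero =>
    intro x hx
    have h1 := (hX 0 x hx).div (hasDerivAt_id x) hx.ne'
    change HasDerivAt (fun y => X 0 y / y) _ x
    refine h1.congr_deriv ?_
    simp only [J0, id, Nat.cast_zero]
    field_simp
    ring
  | succ n ih =>
    intro x hx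
    have h1 := (((ih x hx).const_mul ((n : ℝ) + 1)).add (hX (n + 1) x hx)).div
      (hasDerivAt_id x) hx.ne'
    change HasDerivAt (fun x => ((n + 1) * J0 X n x + X (n + 1) x) / x) _ x
    refine h1.congr_deriv ?_
    simp only [J0, id, Pi.add_apply]
    push_cast
    field_simp
    ring

lemma J_tendsto {X : ℕ → ℝ → ℝ} (h0 : ∀ n, Tendsto (fun x => x ^ n * X n x) (𝓝[>] 0) (𝓝 0))
    (n : ℕ) {x : ℝ} (hx : 0 < x) : Tendsto (fun s => J X s n x) (𝓝[>] 0) (𝓝 (J0 X n x)) := by
  have hsc : Tendsto (fun s : ℝ => s * x) (𝓝[>] 0) (𝓝[>] 0) := by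
    rw [tendsto_nhdsWithin_iff]
    constructor
    · have : Tendsto (fun s : ℝ => s * x) (𝓝 0) (𝓝 (0 * x)) := tendsto_id.mul_const x
      rw [zero_mul] at this
      exact this.mono_left nhdsWithin_le_nhds
    · filter_upwards [self_mem_nhdsWithin] with s hs
      exact mul_pos hs hx
  have h1 : ∀ n, Tendsto (fun s : ℝ => s ^ n * X n (s * x)) (𝓝[>] 0) (𝓝 0) := by
    intro n
    have h2 := ((h0 n).comp hsc).div_const (x ^ n)
    rw [zero_div] at h2
    refine h2.congr ?_
    intro s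
    simp only [Function.comp, mul_pow]
    have : x ^ n ≠ 0 := by positivity
    field_simp
  induction n with
  | zero =>
    have h2 := ((h1 0).const_sub (X 0 x)).div_const x
    simpa [J, J0] using h2
  | succ n ih =>
    have h2 := (((ih.const_mul ((n : ℝ) + 1)).add_const (X (n + 1) x)).sub
      (h1 (n + 1))).div_const x
    simpa [J, J0] using h2

lemma J0_nonneg {X : ℕ → ℝ → ℝ} (hX : Chain X) (hneg : ∀ n x, 0 < x → X (n + 1) x ≤ 0)
    (h0 : ∀ n, Tendsto (fun x => x ^ n * X n x) (𝓝[>] 0) (𝓝 0))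
    (n : ℕ) {x : ℝ} (hx : 0 < x) : 0 ≤ J0 X n x := by
  apply ge_of_tendsto (J_tendsto h0 n hx)
  have : Ioo (0 : ℝ) 1 ∈ 𝓝[>] (0 : ℝ) := Ioo_mem_nhdsGT one_pos
  filter_upwards [this] with s hs
  exact J_nonneg hX hneg hs.1 hs.2.le n hx

/-- exponentials of minus primitives of completely monotone functions -/
lemma cm_of_log {R : ℝ → ℝ} {H : ℕ → ℝ → ℝ} (hs : ContDiffOn ℝ (⊤ : ℕ∞) R (Ioi 0))
    (hR : ∀ x, 0 < x → 0 < R x) (hH : Chain H) (hHn : ∀ n x, 0 < x → 0 ≤ H n x)
    (hd : ∀ x, 0 < x → HasDerivAt R (-(H 0 x * R x)) x) : CM R := by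
  obtain ⟨G, hG, hG0⟩ := exists_chain hs
  have h1 : ∀ n x, 0 < x → G (n + 1) x = mulC H G n x := by
    apply Chain.unique hG.shift (hH.mul hG)
    intro x hx
    rw [mulC_zero]
    have h2 := hG 0 x hx
    rw [hG0] at h2
    have h3 := h2.unique (hd x hx)
    rw [hG0]
    linarith
  have h2 : ∀ n, ∀ k ≤ n, ∀ x, 0 < x → 0 ≤ G k x := by
    intro n
    induction n with
    | zero =>
      intro k hk x hx
      obtain rfl : k = 0 := by omega
      rw [hG0]
      exact (hR x hx).le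
    | succ n ih =>
      intro k hk x hx
      rcases Nat.lt_or_ge k (n + 1) with h | h
      · exact ih k (by omega) x hx
      · obtain rfl : k = n + 1 := by omega
        rw [h1 n x hx]
        exact mulC_nonneg (fun k _ => hHn k x hx) (fun k hk => ih k hk x hx)
  exact ⟨G, hG, fun n x hx => h2 n n le_rfl x hx, fun x _ => by rw [hG0]⟩

theorem block_of_chain {U : ℝ → ℝ} {X : ℕ → ℝ → ℝ} (hs : ContDiffOn ℝ (⊤ : ℕ∞) U (Ioi 0))
    (hU : ∀ x, 0 < x → 0 < U x) (hX : Chain X)
    (hd : ∀ x, 0 < x → HasDerivAt U (-(X 0 x / x * U x)) x)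
    (hneg : ∀ n x, 0 < x → X (n + 1) x ≤ 0)
    (h0 : ∀ n, Tendsto (fun x => x ^ n * X n x) (𝓝[>] 0) (𝓝 0))
    (h1 : Tendsto U (𝓝[>] 0) (𝓝 1)) : Block U where
  pos := hU
  lim := h1
  cm := cm_of_log hs hU (chain_J0 hX) (fun n x hx => J0_nonneg hX hneg h0 n hx) hd
  ratio := by
    intro c hc hc1
    have hsc : ContDiffOn ℝ (⊤ : ℕ∞) (fun x => U (c * x)) (Ioi 0) := by
      apply hs.comp (t := Ioi 0) (by fun_prop)
      intro x hx
      exact mul_pos hc hx
    apply cm_of_log (hs.div hsc (fun x hx => (hU _ (mul_pos hc hx)).ne'))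
      (fun x hx => div_pos (hU x hx) (hU _ (mul_pos hc hx))) (chain_J hX hc)
      (fun n x hx => J_nonneg hX hneg hc hc1.le n hx)
    intro x hx
    have hcx : 0 < c * x := mul_pos hc hx
    have h2 : HasDerivAt (fun y : ℝ => c * y) c x := by simpa using (hasDerivAt_id x).const_mul c
    have h3 := (hd (c * x) hcx).comp x h2
    have h4 := (hd x hx).div h3 (hU _ hcx).ne'
    refine h4.congr_deriv ?_
    have h5 := (hU _ hcx).ne'
    have h6 : (U ∘ HMul.hMul c) x = U (c * x) := rfl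
    rw [h6, Pi.div_apply]
    simp only [J]
    field_simp
    ring

lemma CM.congr {g h : ℝ → ℝ} (hg : CM g) (e : ∀ x, 0 < x → g x = h x) : CM h := by
  obtain ⟨G, h1, h2, h3⟩ := hg
  exact ⟨G, h1, h2, fun x hx => (h3 x hx).trans (e x hx)⟩

lemma CM.mul {g h : ℝ → ℝ} (hg : CM g) (hh : CM h) : CM (fun x => g x * h x) := by
  obtain ⟨G, h1, h2, h3⟩ := hg
  obtain ⟨H, k1, k2, k3⟩ := hh
  refine ⟨mulC G H, h1.mul k1, fun n x hx => mulC_nonneg (fun k _ => h2 k x hx)
    (fun k _ => k2 k x hx), fun x hx => ?_⟩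
  rw [mulC_zero, h3 x hx, k3 x hx]

lemma CM.scale {g : ℝ → ℝ} (hg : CM g) {s : ℝ} (hs : 0 < s) : CM (fun x => g (s * x)) := by
  obtain ⟨G, h1, h2, h3⟩ := hg
  refine ⟨fun n x => s ^ n * G n (s * x), h1.scale hs, fun n x hx => ?_, fun x hx => ?_⟩
  · have := h2 n (s * x) (by positivity)
    positivity
  · have := h3 (s * x) (by positivity)
    simpa using this

lemma tendsto_scale {s : ℝ} (hs : 0 < s) : Tendsto (fun x : ℝ => s * x) (𝓝[>] 0) (𝓝[>] 0) := by
  rw [tendsto_nhdsWithin_iff]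
  constructor
  · have : Tendsto (fun x : ℝ => s * x) (𝓝 0) (𝓝 (s * 0)) := tendsto_id.const_mul s
    rw [mul_zero] at this
    exact this.mono_left nhdsWithin_le_nhds
  · filter_upwards [self_mem_nhdsWithin] with x hx
    exact mul_pos hs hx

lemma Block.scale {U : ℝ → ℝ} (hU : Block U) {s : ℝ} (hs : 0 < s) :
    Block (fun x => U (s * x)) where
  pos := fun x hx => hU.pos _ (mul_pos hs hx)
  cm := hU.cm.scale hs
  lim := hU.lim.comp (tendsto_scale hs)
  ratio := by
    intro c hc hc1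
    apply ((hU.ratio c hc hc1).scale hs).congr
    intro x _
    rw [show c * (s * x) = s * (c * x) by ring]

lemma Block.mul {U V : ℝ → ℝ} (hU : Block U) (hV : Block V) :
    Block (fun x => U x * V x) where
  pos := fun x hx => mul_pos (hU.pos _ hx) (hV.pos _ hx)
  cm := hU.cm.mul hV.cm
  lim := by simpa using hU.lim.mul hV.lim
  ratio := by
    intro c hc hc1
    apply ((hU.ratio c hc hc1).mul (hV.ratio c hc hc1)).congr
    intro x hx
    have h1 := (hU.pos (c * x) (mul_pos hc hx)).ne'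
    have h2 := (hV.pos (c * x) (mul_pos hc hx)).ne'
    field_simp

lemma Block.congr {U V : ℝ → ℝ} (hU : Block U) (e : ∀ x, 0 < x → U x = V x) : Block V where
  pos := fun x hx => by rw [← e x hx]; exact hU.pos _ hx
  cm := hU.cm.congr e
  lim := hU.lim.congr' (by filter_upwards [self_mem_nhdsWithin] with x hx using e x hx)
  ratio := by
    intro c hc hc1
    apply (hU.ratio c hc hc1).congr
    intro x hx
    rw [e x hx, e (c * x) (mul_pos hc hx)]

end Pool.Agent.R317.SD
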