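import Mathlib
import Pool.Agent.R317.SDDefs

/-! Statements of the independent pieces of project SD (see notes_MP_749de9_pr.md). -/

namespace Pool.Agent.R317.SD

open Set Filter Topology MeasureTheory

/-- SD-I: facts on the function `F μ`. -/
def St_I : Prop :=
  (∀ μ : ℝ, -1 < μ →
    ContDiff ℝ (⊤ : ℕ∞) (F μ) ∧ F μ 0 = 1 ∧ (∀ x, 0 ≤ x → 1 ≤ F μ x) ∧
    (∀ x, HasDerivAt (F μ) (F (μ + 1) x / (4 * (μ + 1))) x) ∧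
    (∀ x, F μ x = F (μ + 1) x + x / (4 * (μ + 1) * (μ + 2)) * F (μ + 2) x) ∧
    (∀ z, 0 < z → besselI μ z = (z / 2) ^ μ / Real.Gamma (μ + 1) * F μ (z ^ 2)))

/-- SD-K: facts on the function `κ a`. -/
def St_K : Prop :=
  (∀ a x : ℝ, 0 < x → 0 < κ a x ∧
    HasDerivAt (κ a) (-(κ (a - 1) x / 4)) x ∧
    κ (a + 1) x = a * κ a x + x / 4 * κ (a - 1) x ∧
    κ (a - 1) x ^ 2 ≤ κ a x * κ (a - 2) x) ∧
  (∀ a : ℝ, 0 < a →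
    Tendsto (κ a) (𝓝[>] 0) (𝓝 (Real.Gamma a)) ∧
    Tendsto (fun x => x * κ (a - 1) x) (𝓝[>] 0) (𝓝 0) ∧
    ∀ m : ℕ, ∃ C : ℝ, ∀ x, 0 < x → x ^ m * κ a x ≤ C) ∧
  (∀ ν z : ℝ, 0 < z → besselK ν z = 1 / 2 * (z / 2) ^ (-ν) * κ ν (z ^ 2))

/-- SD-LT: from complete monotonicity to measures. -/
def St_LT : Prop :=
  ∀ L : ℝ → ℝ, CM L → (∀ c, 0 < c → c < 1 → CM (fun x => L x / L (c * x))) →
    (∀ x, 0 < x → 0 < L x) → Tendsto L (𝓝[>] 0) (𝓝 1) →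
    ∃ P : Measure ℝ, IsLT P L ∧ (∀ P' : Measure ℝ, IsLT P' L → P' = P) ∧ SelfDecomposable P

end Pool.Agent.R317.SD
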