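import Mathlib
import Pool.Agent.R317.SDStm

/-! # Piece SD-I: facts on the normalised modified Bessel function of the first kind -/

set_option autoImplicit false

namespace Pool.Agent.R317.SD

open Set Filter Topology MeasureTheory

namespace PieceI

/-- the coefficients of `F μ` -/
noncomputable def a (μ : ℝ) (k : ℕ) : ℝ :=
  Real.Gamma (μ + 1) / (4 ^ k * ((k.factorial : ℝ) * Real.Gamma ((k : ℝ) + μ + 1)))

theorem F_eq (μ x : ℝ) : F μ x = ∑' k : ℕ, a μ k * x ^ k := by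
  unfold F a
  refine tsum_congr fun k => ?_
  rw [div_pow, mul_div_assoc', div_div, div_mul_eq_mul_div]

theorem Gamma_pos {μ : ℝ} (hμ : -1 < μ) (k : ℕ) : 0 < Real.Gamma ((k : ℝ) + μ + 1) := by
  refine Real.Gamma_pos_of_pos ?_
  have : (0 : ℝ) ≤ k := Nat.cast_nonneg k
  linarith

theorem Gamma_succ {μ : ℝ} (hμ : -1 < μ) (k : ℕ) :
    Real.Gamma (((k + 1 : ℕ) : ℝ) + μ + 1) = ((k : ℝ) + μ + 1) * Real.Gamma ((k : ℝ) + μ + 1) := by
  have : (0 : ℝ) ≤ k := Nat.cast_nonneg k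
  rw [← Real.Gamma_add_one (by linarith)]
  congr 1
  push_cast
  ring

theorem a_pos {μ : ℝ} (hμ : -1 < μ) (k : ℕ) : 0 < a μ k := by
  have h1 := Gamma_pos hμ k
  have h2 : 0 < Real.Gamma (μ + 1) := Real.Gamma_pos_of_pos (by linarith)
  unfold a
  positivity

theorem a_zero {μ : ℝ} (hμ : -1 < μ) : a μ 0 = 1 := by
  have h2 : 0 < Real.Gamma (μ + 1) := Real.Gamma_pos_of_pos (by linarith)
  unfold a
  simp [h2.ne']

theorem a_succ {μ : ℝ} (hμ : -1 < μ) (k : ℕ) :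
    a μ (k + 1) = a μ k / (4 * ((k : ℝ) + 1) * ((k : ℝ) + μ + 1)) := by
  have h1 := (Gamma_pos hμ k).ne'
  have h3 : ((k : ℝ) + μ + 1) ≠ 0 := by
    have : (0 : ℝ) ≤ k := Nat.cast_nonneg k
    linarith
  have h4 : ((k : ℝ) + 1) ≠ 0 := by positivity
  unfold a
  rw [Gamma_succ hμ, Nat.factorial_succ]
  push_cast
  field_simp
  ring

/-- the coefficients for `μ + 1` -/
theorem a_shift {μ : ℝ} (hμ : -1 < μ) (k : ℕ) :
    a (μ + 1) k = a μ k * ((μ + 1) / ((k : ℝ) + μ + 1)) := by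
  have h1 := (Gamma_pos hμ k).ne'
  have h3 : ((k : ℝ) + μ + 1) ≠ 0 := by
    have : (0 : ℝ) ≤ k := Nat.cast_nonneg k
    linarith
  have h5 : μ + 1 ≠ 0 := by linarith
  unfold a
  rw [Real.Gamma_add_one h5, show (k : ℝ) + (μ + 1) + 1 = ((k : ℝ) + μ + 1) + 1 by ring,
    Real.Gamma_add_one h3]
  field_simp

theorem a_deriv {μ : ℝ} (hμ : -1 < μ) (k : ℕ) :
    ((k : ℝ) + 1) * a μ (k + 1) = a (μ + 1) k / (4 * (μ + 1)) := by
  rw [a_succ hμ, a_shift hμ]
  have h3 : ((k : ℝ) + μ + 1) ≠ 0 := by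
    have : (0 : ℝ) ≤ k := Nat.cast_nonneg k
    linarith
  have h4 : ((k : ℝ) + 1) ≠ 0 := by positivity
  have h5 : μ + 1 ≠ 0 := by linarith
  field_simp

theorem a_contig {μ : ℝ} (hμ : -1 < μ) (k : ℕ) :
    a μ (k + 1) = a (μ + 1) (k + 1) + a (μ + 2) k / (4 * (μ + 1) * (μ + 2)) := by
  have h2 : a (μ + 2) k = a (μ + 1) k * ((μ + 2) / ((k : ℝ) + μ + 2)) := by
    have := a_shift (μ := μ + 1) (by linarith) k
    rw [show μ + 1 + 1 = μ + 2 by ring, show (k : ℝ) + (μ + 1) + 1 = k + μ + 2 by ring] at this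
    exact this
  have h1 := a_shift hμ (k + 1)
  rw [h1, h2, a_shift hμ k, a_succ hμ k]
  have h3 : ((k : ℝ) + μ + 1) ≠ 0 := by
    have : (0 : ℝ) ≤ k := Nat.cast_nonneg k
    linarith
  have h4 : ((k : ℝ) + 1) ≠ 0 := by positivity
  have h5 : μ + 1 ≠ 0 := by linarith
  have h6 : μ + 2 ≠ 0 := by linarith
  have h7 : (k : ℝ) + μ + 2 ≠ 0 := by
    have : (0 : ℝ) ≤ k := Nat.cast_nonneg k
    linarith
  have h8 : ((k + 1 : ℕ) : ℝ) + μ + 1 = k + μ + 2 := by push_cast; ring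
  rw [h8]
  field_simp
  ring

theorem a_bound {μ : ℝ} (hμ : -1 < μ) : ∃ M : ℝ, 0 < M ∧ ∀ k : ℕ, a μ k ≤ M / (k.factorial : ℝ) := by
  refine ⟨max 1 (a μ 1), lt_of_lt_of_le one_pos (le_max_left _ _), fun k => ?_⟩
  induction k with
  | zero =>
    rw [a_zero hμ]
    simp
  | succ k ih =>
    rcases Nat.eq_zero_or_pos k with rfl | hk
    · simp
    · have h1 : (1 : ℝ) ≤ k := by exact_mod_cast hk
      rw [a_succ hμ, Nat.factorial_succ, Nat.cast_mul, Nat.cast_add, Nat.cast_one, mul_comm (k + 1 : ℝ),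
        ← div_div (max 1 (a μ 1))]
      refine div_le_div₀ (by positivity) ih (by positivity) ?_
      nlinarith

theorem summable_a {μ : ℝ} (hμ : -1 < μ) (x : ℝ) : Summable fun k : ℕ => a μ k * x ^ k := by
  obtain ⟨M, hM, hb⟩ := a_bound hμ
  refine Summable.of_norm_bounded (g := fun k : ℕ => M * (|x| ^ k / (k.factorial : ℝ)))
    ((Real.summable_pow_div_factorial |x|).mul_left M) fun k => ?_
  rw [norm_mul, norm_pow, Real.norm_eq_abs, Real.norm_eq_abs, abs_of_pos (a_pos hμ k),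
    mul_div_assoc', ← div_mul_eq_mul_div]
  exact mul_le_mul_of_nonneg_right (hb k) (by positivity)

theorem hasSum_F {μ : ℝ} (hμ : -1 < μ) (x : ℝ) : HasSum (fun k : ℕ => a μ k * x ^ k) (F μ x) := by
  rw [F_eq]
  exact (summable_a hμ x).hasSum

theorem F_zero {μ : ℝ} (hμ : -1 < μ) : F μ 0 = 1 := by
  rw [F_eq, tsum_eq_single 0]
  · simp [a_zero hμ]
  · intro k hk
    simp [hk]

theorem one_le_F {μ : ℝ} (hμ : -1 < μ) {x : ℝ} (hx : 0 ≤ x) : 1 ≤ F μ x := by
  have := (summable_a hμ x).le_tsum 0 fun k _ => mul_nonneg (a_pos hμ k).le (pow_nonneg hx k)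
  rw [← F_eq, a_zero hμ] at this
  simpa using this

theorem hasDerivAt_F {μ : ℝ} (hμ : -1 < μ) (x : ℝ) :
    HasDerivAt (F μ) (F (μ + 1) x / (4 * (μ + 1))) x := by
  set R := |x| + 1 with hR
  have hRpos : 0 < R := by positivity
  have hμ1 : -1 < μ + 1 := by linarith
  have hterm : ∀ (k : ℕ) (y : ℝ), a μ (k + 1) * (((k + 1 : ℕ) : ℝ) * y ^ k) =
      a (μ + 1) k * y ^ k / (4 * (μ + 1)) := by
    intro k y
    have := a_deriv hμ k
    push_cast
    calc a μ (k + 1) * (((k : ℝ) + 1) * y ^ k) = (((k : ℝ) + 1) * a μ (k + 1)) * y ^ k := by ring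
      _ = _ := by rw [this]; ring
  have hu : Summable fun k : ℕ => a μ k * ((k : ℝ) * R ^ (k - 1)) := by
    rw [← summable_nat_add_iff 1]
    have h1 := (summable_a hμ1 R).div_const (4 * (μ + 1))
    refine h1.congr fun k => ?_
    rw [Nat.add_sub_cancel, hterm]
  have hF : F μ = fun y => ∑' k : ℕ, a μ k * y ^ k := by
    ext y
    exact F_eq μ y
  rw [hF]
  have key := hasDerivAt_tsum_of_isPreconnected (g := fun (k : ℕ) (y : ℝ) => a μ k * y ^ k)
    (g' := fun (k : ℕ) (y : ℝ) => a μ k * ((k : ℝ) * y ^ (k - 1))) (t := Metric.ball (0 : ℝ) R) (y₀ := 0) (y := x)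
    hu Metric.isOpen_ball (convex_ball (0 : ℝ) R).isPreconnected
    (fun k y _ => (hasDerivAt_pow k y).const_mul (a μ k))
    (fun k y hy => by
      have hy' : |y| < R := by simpa using hy
      rw [norm_mul, norm_mul, norm_pow, Real.norm_eq_abs, Real.norm_eq_abs, Real.norm_eq_abs,
        abs_of_pos (a_pos hμ k), Nat.abs_cast]
      have := (a_pos hμ k).le
      gcongr)
    (Metric.mem_ball_self hRpos) (summable_a hμ 0) (by simp [hR])
  have hval : (∑' k : ℕ, a μ k * ((k : ℝ) * x ^ (k - 1))) = F (μ + 1) x / (4 * (μ + 1)) := by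
    have hs : HasSum (fun k : ℕ => a μ (k + 1) * (((k + 1 : ℕ) : ℝ) * x ^ ((k + 1) - 1)))
        (F (μ + 1) x / (4 * (μ + 1))) := by
      have h1 := (hasSum_F hμ1 x).div_const (4 * (μ + 1))
      have h2 : (fun k : ℕ => a μ (k + 1) * (((k + 1 : ℕ) : ℝ) * x ^ ((k + 1) - 1))) =
          fun k : ℕ => a (μ + 1) k * x ^ k / (4 * (μ + 1)) := by
        ext k
        rw [Nat.add_sub_cancel, hterm]
      rw [h2]
      exact h1
    have hs2 := (hasSum_nat_add_iff (f := fun k : ℕ => a μ k * ((k : ℝ) * x ^ (k - 1))) 1).1 hs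
    simpa using hs2.tsum_eq
  rw [hval] at key
  exact key

theorem contDiff_F (n : ℕ) : ∀ {μ : ℝ}, -1 < μ → ContDiff ℝ n (F μ) := by
  induction n with
  | zero =>
    intro μ hμ
    rw [Nat.cast_zero, contDiff_zero]
    exact continuous_iff_continuousAt.2 fun x => (hasDerivAt_F hμ x).continuousAt
  | succ n ih =>
    intro μ hμ
    rw [Nat.cast_add, Nat.cast_one, contDiff_succ_iff_deriv]
    refine ⟨fun x => (hasDerivAt_F hμ x).differentiableAt, by simp, ?_⟩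
    have : deriv (F μ) = fun x => F (μ + 1) x / (4 * (μ + 1)) := by
      ext x
      exact (hasDerivAt_F hμ x).deriv
    rw [this]
    exact (ih (by linarith)).div_const _

theorem F_contig {μ : ℝ} (hμ : -1 < μ) (x : ℝ) :
    F μ x = F (μ + 1) x + x / (4 * (μ + 1) * (μ + 2)) * F (μ + 2) x := by
  have h0 := hasSum_F hμ x
  have h1 := hasSum_F (show -1 < μ + 1 by linarith) x
  have h2 := hasSum_F (show -1 < μ + 2 by linarith) x
  have h1' : HasSum (fun k : ℕ => a (μ + 1) (k + 1) * x ^ (k + 1)) (F (μ + 1) x - 1) := by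
    have := (hasSum_nat_add_iff' (f := fun k : ℕ => a (μ + 1) k * x ^ k) 1).2 h1
    simpa [a_zero (show -1 < μ + 1 by linarith)] using this
  have h0' : HasSum (fun k : ℕ => a μ (k + 1) * x ^ (k + 1)) (F μ x - 1) := by
    have := (hasSum_nat_add_iff' (f := fun k : ℕ => a μ k * x ^ k) 1).2 h0
    simpa [a_zero hμ] using this
  have h3 := h1'.add (h2.mul_left (x / (4 * (μ + 1) * (μ + 2))))
  have h4 : (fun k : ℕ => a (μ + 1) (k + 1) * x ^ (k + 1) +
      x / (4 * (μ + 1) * (μ + 2)) * (a (μ + 2) k * x ^ k)) = fun k : ℕ => a μ (k + 1) * x ^ (k + 1) := by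
    ext k
    rw [a_contig hμ k]
    ring
  rw [h4] at h3
  have := h0'.unique h3
  linarith

theorem besselI_eq {μ : ℝ} (hμ : -1 < μ) {z : ℝ} (hz : 0 < z) :
    besselI μ z = (z / 2) ^ μ / Real.Gamma (μ + 1) * F μ (z ^ 2) := by
  have h2 : 0 < Real.Gamma (μ + 1) := Real.Gamma_pos_of_pos (by linarith)
  unfold besselI F
  rw [← tsum_mul_left]
  refine tsum_congr fun k => ?_
  have h3 : (z / 2) ^ (2 * (k : ℝ) + μ) = (z / 2) ^ μ * (z ^ 2 / 4) ^ k := by
    rw [Real.rpow_add (by positivity), mul_comm]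
    congr 1
    rw [show (2 * (k : ℝ)) = ((2 * k : ℕ) : ℝ) by push_cast; ring, Real.rpow_natCast, pow_mul]
    congr 1
    ring
  rw [h3]
  field_simp

end PieceI

open PieceI in
theorem st_I : St_I := by
  intro μ hμ
  refine ⟨?_, F_zero hμ, fun x hx => one_le_F hμ hx, fun x => hasDerivAt_F hμ x, fun x => F_contig hμ x,
    fun z hz => besselI_eq hμ hz⟩
  rw [contDiff_infty]
  exact fun n => contDiff_F n hμ

end Pool.Agent.R317.SD
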