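import Mathlib
import Pool.Agent.R317.SDStm

/-! SD-K: facts on `κ a x = ∫_0^∞ e^(-t - x/(4t)) t^(a-1) dt` and the modified Bessel function of
the second kind. -/

namespace Pool.Agent.R317.SD.KK

open Set Filter Topology MeasureTheory

/-- the integrand of `κ` -/
noncomputable def w (a x t : ℝ) : ℝ := Real.exp (-t - x / (4 * t)) * t ^ (a - 1)

lemma κ_eq (a x : ℝ) : κ a x = ∫ t in Ioi (0 : ℝ), w a x t := rfl

lemma w_pos {a x t : ℝ} (ht : 0 < t) : 0 < w a x t :=
  mul_pos (Real.exp_pos _) (Real.rpow_pos_of_pos ht _)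

lemma exp_neg_le (m : ℕ) {y : ℝ} (hy : 0 < y) :
    Real.exp (-y) ≤ (m.factorial : ℝ) * (1 / y) ^ m := by
  have h := Real.pow_div_factorial_le_exp y hy.le m
  have hm : (0 : ℝ) < m.factorial := by exact_mod_cast m.factorial_pos
  rw [Real.exp_neg]
  have h2 : (0 : ℝ) < y ^ m / m.factorial := by positivity
  calc (Real.exp y)⁻¹ ≤ (y ^ m / m.factorial)⁻¹ := inv_anti₀ h2 h
    _ = (m.factorial : ℝ) * (1 / y) ^ m := by
      rw [one_div, inv_pow]; field_simp

lemma w_bound (m : ℕ) {a x t : ℝ} (hx : 0 < x) (ht : 0 < t) :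
    x ^ m * w a x t ≤ (m.factorial : ℝ) * 4 ^ m * (Real.exp (-t) * t ^ (a + m - 1)) := by
  have hy : 0 < x / (4 * t) := by positivity
  have h := exp_neg_le m hy
  have e1 : Real.exp (-t - x / (4 * t)) = Real.exp (-t) * Real.exp (-(x / (4 * t))) := by
    rw [← Real.exp_add]; ring_nf
  have e2 : t ^ (a + m - 1) = t ^ (a - 1) * t ^ m := by
    rw [← Real.rpow_natCast t m, ← Real.rpow_add ht]; ring_nf
  have e3 : (1 / (x / (4 * t))) ^ m = 4 ^ m * t ^ m / x ^ m := by
    rw [one_div_div, div_pow, mul_pow]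
  have hp : 0 < t ^ (a - 1) := Real.rpow_pos_of_pos ht _
  have he : 0 < Real.exp (-t) := Real.exp_pos _
  have hxm : 0 < x ^ m := pow_pos hx m
  unfold w
  rw [e1, e2]
  rw [e3] at h
  calc x ^ m * (Real.exp (-t) * Real.exp (-(x / (4 * t))) * t ^ (a - 1))
      = (x ^ m * (Real.exp (-t) * t ^ (a - 1))) * Real.exp (-(x / (4 * t))) := by ring
    _ ≤ (x ^ m * (Real.exp (-t) * t ^ (a - 1))) * ((m.factorial : ℝ) * (4 ^ m * t ^ m / x ^ m)) :=
        mul_le_mul_of_nonneg_left h (by positivity)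
    _ = (m.factorial : ℝ) * 4 ^ m * (Real.exp (-t) * (t ^ (a - 1) * t ^ m)) := by
        field_simp

lemma w_meas (a x : ℝ) : AEStronglyMeasurable (w a x) (volume.restrict (Ioi (0 : ℝ))) := by
  apply ContinuousOn.aestronglyMeasurable _ measurableSet_Ioi
  intro t ht
  have ht' : (t : ℝ) ≠ 0 := ne_of_gt ht
  apply ContinuousAt.continuousWithinAt
  unfold w
  apply ContinuousAt.mul
  · apply ContinuousAt.rexp
    apply ContinuousAt.sub
    · exact continuousAt_id.neg
    · apply ContinuousAt.div continuousAt_const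
      · exact continuousAt_const.mul continuousAt_id
      · simpa using ht'
  · exact Real.continuousAt_rpow_const _ _ (Or.inl ht')

lemma w_int (a : ℝ) {x : ℝ} (hx : 0 < x) : IntegrableOn (w a x) (Ioi 0) := by
  obtain ⟨m, hm⟩ := exists_nat_gt (-a)
  have hG : IntegrableOn (fun t : ℝ => Real.exp (-t) * t ^ (a + m - 1)) (Ioi 0) :=
    Real.GammaIntegral_convergent (by linarith)
  have hG2 := hG.const_mul ((m.factorial : ℝ) * 4 ^ m / x ^ m)
  refine Integrable.mono' hG2 (w_meas a x) ?_
  filter_upwards [self_mem_ae_restrict measurableSet_Ioi] with t ht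
  have ht' : 0 < t := ht
  rw [Real.norm_eq_abs, abs_of_pos (w_pos ht')]
  have h := w_bound m (a := a) hx ht'
  have hxm : 0 < x ^ m := pow_pos hx m
  calc w a x t = x ^ m * w a x t / x ^ m := by field_simp
    _ ≤ (m.factorial : ℝ) * 4 ^ m * (Real.exp (-t) * t ^ (a + m - 1)) / x ^ m := by gcongr
    _ = (m.factorial : ℝ) * 4 ^ m / x ^ m * (Real.exp (-t) * t ^ (a + m - 1)) := by ring

lemma κ_pos (a : ℝ) {x : ℝ} (hx : 0 < x) : 0 < κ a x := by
  rw [κ_eq, setIntegral_pos_iff_support_of_nonneg_ae]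
  · have : Function.support (w a x) ∩ Ioi 0 = Ioi 0 := by
      rw [inter_eq_right]
      intro t ht
      exact (w_pos ht).ne'
    rw [this, Real.volume_Ioi]
    exact ENNReal.zero_lt_top
  · filter_upwards [self_mem_ae_restrict measurableSet_Ioi] with t ht
    exact (w_pos ht).le
  · exact w_int a hx

lemma rpow_sub_one' {a t : ℝ} (ht : 0 < t) : t ^ (a - 1 - 1) = t ^ (a - 1) / t := by
  rw [Real.rpow_sub_one ht.ne']

lemma κ_deriv (a : ℝ) {x : ℝ} (hx : 0 < x) : HasDerivAt (κ a) (-(κ (a - 1) x / 4)) x := by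
  have key := hasDerivAt_integral_of_dominated_loc_of_deriv_le
    (μ := volume.restrict (Ioi (0 : ℝ))) (F := fun y t => w a y t)
    (F' := fun y t => -(1 / 4) * w (a - 1) y t) (x₀ := x) (s := Ioi (x / 2))
    (bound := fun t => w (a - 1) (x / 2) t)
    (Ioi_mem_nhds (by linarith)) (Eventually.of_forall fun y => w_meas a y) (w_int a hx)
    ((w_meas (a - 1) x).const_mul (-(1 / 4))) ?_ (w_int (a - 1) (by linarith)) ?_
  · have h2 := key.2
    have e : (∫ t in Ioi (0 : ℝ), -(1 / 4) * w (a - 1) x t) = -(κ (a - 1) x / 4) := by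
      rw [integral_const_mul, ← κ_eq]; ring
    rw [e] at h2
    exact h2
  · filter_upwards [self_mem_ae_restrict measurableSet_Ioi] with t ht y hy
    have ht' : 0 < t := ht
    have hy' : x / 2 < y := hy
    have h00 := w_pos (a := a - 1) (x := y) ht'
    rw [neg_mul, norm_neg, Real.norm_eq_abs, abs_of_pos (by positivity)]
    have h1 : w (a - 1) y t ≤ w (a - 1) (x / 2) t := by
      unfold w
      apply mul_le_mul_of_nonneg_right _ (Real.rpow_pos_of_pos ht' _).le
      apply Real.exp_le_exp.mpr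
      have : x / 2 / (4 * t) ≤ y / (4 * t) := by gcongr
      linarith
    have h0 := w_pos (a := a - 1) (x := y) ht'
    linarith
  · filter_upwards [self_mem_ae_restrict measurableSet_Ioi] with t ht y hy
    have ht' : 0 < t := ht
    unfold w
    have h1 : HasDerivAt (fun y : ℝ => -t - y / (4 * t)) (-(1 / (4 * t))) y := by
      have := ((hasDerivAt_id y).div_const (4 * t)).const_sub (-t)
      simpa using this
    have h2 := (h1.exp).mul_const (t ^ (a - 1))
    refine h2.congr_deriv ?_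
    rw [rpow_sub_one' ht']
    field_simp

lemma w_succ {a x t : ℝ} (ht : 0 < t) : w (a - 1) x t = w a x t / t := by
  unfold w
  rw [rpow_sub_one' ht]; ring

lemma κ_rec (a : ℝ) {x : ℝ} (hx : 0 < x) :
    κ (a + 1) x = a * κ a x + x / 4 * κ (a - 1) x := by
  have hu : ∀ t ∈ Ioi (0 : ℝ), HasDerivAt (fun t : ℝ => Real.exp (-t - x / (4 * t)))
      (Real.exp (-t - x / (4 * t)) * (-1 + x / (4 * t ^ 2))) t := by
    intro t ht
    have ht' : t ≠ 0 := ne_of_gt ht
    have h1 : HasDerivAt (fun t : ℝ => -t - x / (4 * t)) (-1 + x / (4 * t ^ 2)) t := by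
      have h2 : HasDerivAt (fun t : ℝ => x / (4 * t)) ((0 * (4 * t) - x * (4 * 1)) / (4 * t) ^ 2) t :=
        (hasDerivAt_const t x).div ((hasDerivAt_id t).const_mul 4) (by simpa using ht')
      have h3 := (hasDerivAt_id t).neg.sub h2
      refine h3.congr_deriv ?_
      field_simp
      ring
    exact h1.exp
  have hv : ∀ t ∈ Ioi (0 : ℝ), HasDerivAt (fun t : ℝ => t ^ a) (a * t ^ (a - 1)) t := by
    intro t ht
    exact Real.hasDerivAt_rpow_const (Or.inl (ne_of_gt ht))
  have huv : ∀ t ∈ Ioi (0 : ℝ), Real.exp (-t - x / (4 * t)) * (-1 + x / (4 * t ^ 2)) * t ^ a +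
      Real.exp (-t - x / (4 * t)) * (a * t ^ (a - 1)) =
      (-w (a + 1) x t + x / 4 * w (a - 1) x t) + a * w a x t := by
    intro t ht
    have ht' : 0 < t := ht
    unfold w
    have e1 : t ^ (a + 1 - 1) = t ^ (a - 1) * t := by
      rw [← Real.rpow_add_one ht'.ne']; ring_nf
    have e2 : t ^ a = t ^ (a - 1) * t := by
      rw [← Real.rpow_add_one ht'.ne']; ring_nf
    rw [rpow_sub_one' ht', e1, e2]
    field_simp
  have hI1 := w_int (a + 1) hx
  have hI2 := w_int (a - 1) hx
  have hI3 := w_int a hx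
  have hInt : IntegrableOn (fun t => (-w (a + 1) x t + x / 4 * w (a - 1) x t) + a * w a x t)
      (Ioi 0) := ((hI1.neg).add (hI2.const_mul (x / 4))).add (hI3.const_mul a)
  have hint2 : IntegrableOn ((fun t : ℝ => Real.exp (-t - x / (4 * t)) * (-1 + x / (4 * t ^ 2))) *
      (fun t : ℝ => t ^ a) + (fun t : ℝ => Real.exp (-t - x / (4 * t))) *
      (fun t : ℝ => a * t ^ (a - 1))) (Ioi 0) := by
    refine hInt.congr_fun ?_ measurableSet_Ioi
    intro t ht
    exact (huv t ht).symm
  have hw : ∀ t, ((fun t : ℝ => Real.exp (-t - x / (4 * t))) * (fun t : ℝ => t ^ a)) t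
      = w (a + 1) x t := by
    intro t
    simp [w]
  have hderw : ∀ t ∈ Ioi (0 : ℝ), HasDerivAt
      ((fun t : ℝ => Real.exp (-t - x / (4 * t))) * (fun t : ℝ => t ^ a))
      ((-w (a + 1) x t + x / 4 * w (a - 1) x t) + a * w a x t) t := by
    intro t ht
    have := (hu t ht).mul (hv t ht)
    rw [← huv t ht]
    exact this
  have hzero : Tendsto ((fun t : ℝ => Real.exp (-t - x / (4 * t))) * (fun t : ℝ => t ^ a))
      (𝓝[>] 0) (𝓝 0) := by
    obtain ⟨m, hm⟩ := exists_nat_gt (-a)
    have hb : Tendsto (fun t : ℝ => (m.factorial : ℝ) * 4 ^ m / x ^ m * t ^ (a + m))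
        (𝓝[>] 0) (𝓝 0) := by
      have h0 : Tendsto (fun t : ℝ => t ^ (a + m)) (𝓝[>] 0) (𝓝 0) := by
        have := (Real.continuousAt_rpow_const 0 (a + m) (Or.inr (by linarith))).tendsto
        rw [Real.zero_rpow (by linarith)] at this
        exact this.mono_left nhdsWithin_le_nhds
      simpa using h0.const_mul ((m.factorial : ℝ) * 4 ^ m / x ^ m)
    refine tendsto_of_tendsto_of_tendsto_of_le_of_le' tendsto_const_nhds hb ?_ ?_
    · filter_upwards [self_mem_nhdsWithin] with t ht
      rw [hw]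
      exact (w_pos ht).le
    · filter_upwards [self_mem_nhdsWithin] with t ht
      rw [hw]
      have ht' : 0 < t := ht
      have h := w_bound m (a := a + 1) hx ht'
      have hxm : 0 < x ^ m := pow_pos hx m
      have hex : Real.exp (-t) ≤ 1 := Real.exp_le_one_iff.mpr (by linarith)
      have hpp : 0 < t ^ (a + 1 + m - 1) := Real.rpow_pos_of_pos ht' _
      have e : a + 1 + (m : ℝ) - 1 = a + m := by ring
      rw [e] at h hpp
      calc w (a + 1) x t = x ^ m * w (a + 1) x t / x ^ m := by field_simp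
        _ ≤ (m.factorial : ℝ) * 4 ^ m * (Real.exp (-t) * t ^ (a + m)) / x ^ m := by gcongr
        _ ≤ (m.factorial : ℝ) * 4 ^ m * (1 * t ^ (a + m)) / x ^ m := by gcongr
        _ = (m.factorial : ℝ) * 4 ^ m / x ^ m * t ^ (a + m) := by ring
  have hinf : Tendsto ((fun t : ℝ => Real.exp (-t - x / (4 * t))) * (fun t : ℝ => t ^ a))
      atTop (𝓝 0) := by
    refine tendsto_zero_of_hasDerivAt_of_integrableOn_Ioi hderw hInt ?_
    refine hI1.congr_fun ?_ measurableSet_Ioi
    intro t _
    exact (hw t).symm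
  have hmain := integral_Ioi_deriv_mul_eq_sub hu hv hint2 hzero hinf
  have e1 : (∫ t in Ioi (0 : ℝ), Real.exp (-t - x / (4 * t)) * (-1 + x / (4 * t ^ 2)) * t ^ a +
      Real.exp (-t - x / (4 * t)) * (a * t ^ (a - 1))) =
      -κ (a + 1) x + x / 4 * κ (a - 1) x + a * κ a x := by
    rw [setIntegral_congr_fun measurableSet_Ioi huv]
    rw [integral_add, integral_add, integral_neg, integral_const_mul, integral_const_mul]
    · rfl
    · exact hI1.neg
    · exact hI2.const_mul (x / 4)
    · exact (hI1.neg).add (hI2.const_mul (x / 4))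
    · exact hI3.const_mul a
  rw [e1] at hmain
  linarith

lemma κ_cs (a : ℝ) {x : ℝ} (hx : 0 < x) : κ (a - 1) x ^ 2 ≤ κ a x * κ (a - 2) x := by
  set l : ℝ := κ (a - 1) x / κ a x with hl
  have hpos := κ_pos a hx
  have h0 : 0 ≤ ∫ t in Ioi (0 : ℝ), (l ^ 2 * w a x t - 2 * l * w (a - 1) x t) + w (a - 2) x t := by
    apply setIntegral_nonneg measurableSet_Ioi
    intro t ht
    have ht' : 0 < t := ht
    have e2 : w (a - 2) x t = w a x t / t / t := by
      rw [show a - 2 = a - 1 - 1 by ring, w_succ ht', w_succ ht']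
    rw [w_succ ht', e2]
    have hw := w_pos (a := a) (x := x) ht'
    have : l ^ 2 * w a x t - 2 * l * (w a x t / t) + w a x t / t / t
        = w a x t * (l - 1 / t) ^ 2 := by
      field_simp
      ring
    rw [this]
    positivity
  have hI1 := w_int a hx
  have hI2 := w_int (a - 1) hx
  have hI3 := w_int (a - 2) hx
  rw [integral_add, integral_sub, integral_const_mul, integral_const_mul] at h0
  · change 0 ≤ l ^ 2 * κ a x - 2 * l * κ (a - 1) x + κ (a - 2) x at h0
    have e : l ^ 2 * κ a x - 2 * l * κ (a - 1) x = -(κ (a - 1) x ^ 2 / κ a x) := by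
      rw [hl]; field_simp; ring
    rw [e] at h0
    have h1 : κ (a - 1) x ^ 2 / κ a x ≤ κ (a - 2) x := by linarith
    rw [div_le_iff₀ hpos] at h1
    linarith
  · exact hI1.const_mul _
  · exact hI2.const_mul _
  · exact (hI1.const_mul _).sub (hI2.const_mul _)
  · exact hI3

lemma κ_lim {a : ℝ} (ha : 0 < a) : Tendsto (κ a) (𝓝[>] 0) (𝓝 (Real.Gamma a)) := by
  rw [Real.Gamma_eq_integral ha]
  refine tendsto_integral_filter_of_dominated_convergence
    (fun t : ℝ => Real.exp (-t) * t ^ (a - 1)) ?_ ?_ (Real.GammaIntegral_convergent ha) ?_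
  · exact Eventually.of_forall fun x => w_meas a x
  · filter_upwards [self_mem_nhdsWithin] with x hx
    filter_upwards [self_mem_ae_restrict measurableSet_Ioi] with t ht
    have ht' : 0 < t := ht
    have hx' : 0 < x := hx
    rw [Real.norm_eq_abs, abs_of_pos (mul_pos (Real.exp_pos _) (Real.rpow_pos_of_pos ht' _))]
    have : 0 < x / (4 * t) := by positivity
    have h2 := Real.rpow_pos_of_pos ht' (a - 1)
    gcongr
    linarith
  · filter_upwards [self_mem_ae_restrict measurableSet_Ioi] with t ht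
    have ht' : 0 < t := ht
    have h1 : Tendsto (fun x : ℝ => Real.exp (-t - x / (4 * t)) * t ^ (a - 1)) (𝓝 0)
        (𝓝 (Real.exp (-t - 0 / (4 * t)) * t ^ (a - 1))) := by
      apply ContinuousAt.tendsto
      fun_prop
    rw [zero_div, sub_zero] at h1
    exact h1.mono_left nhdsWithin_le_nhds

lemma κ_lim2 {a : ℝ} (ha : 0 < a) : Tendsto (fun x => x * κ (a - 1) x) (𝓝[>] 0) (𝓝 0) := by
  have e : (fun x => x * κ (a - 1) x) = fun x => ∫ t in Ioi (0 : ℝ), x * w (a - 1) x t := by
    funext x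
    rw [integral_const_mul]; rfl
  rw [e]
  suffices key : Tendsto (fun x => ∫ t in Ioi (0 : ℝ), x * w (a - 1) x t) (𝓝[>] 0)
      (𝓝 (∫ t in Ioi (0 : ℝ), (0 : ℝ))) by simpa using key
  refine tendsto_integral_filter_of_dominated_convergence
    (fun t : ℝ => 4 * (Real.exp (-t) * t ^ (a - 1))) ?_ ?_
    ((Real.GammaIntegral_convergent ha).const_mul 4) ?_
  · exact Eventually.of_forall fun x => (w_meas (a - 1) x).const_mul x
  · filter_upwards [self_mem_nhdsWithin] with x hx
    filter_upwards [self_mem_ae_restrict measurableSet_Ioi] with t ht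
    have ht' : 0 < t := ht
    have hx' : 0 < x := hx
    have hw := w_pos (a := a - 1) (x := x) ht'
    rw [Real.norm_eq_abs, abs_of_pos (by positivity)]
    have h := w_bound 1 (a := a - 1) hx' ht'
    simp only [pow_one, Nat.factorial_one, Nat.cast_one, one_mul] at h
    rw [show a - 1 + 1 - 1 = a - 1 by ring] at h
    exact h
  · filter_upwards [self_mem_ae_restrict measurableSet_Ioi] with t ht
    have h1 : Tendsto (fun x : ℝ => x * (Real.exp (-t - x / (4 * t)) * t ^ (a - 1 - 1))) (𝓝 0)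
        (𝓝 (0 * (Real.exp (-t - 0 / (4 * t)) * t ^ (a - 1 - 1)))) := by
      apply ContinuousAt.tendsto
      fun_prop
    rw [zero_mul] at h1
    exact h1.mono_left nhdsWithin_le_nhds

lemma κ_decay {a : ℝ} (ha : 0 < a) (m : ℕ) : ∃ C : ℝ, ∀ x, 0 < x → x ^ m * κ a x ≤ C := by
  refine ⟨∫ t in Ioi (0 : ℝ), (m.factorial : ℝ) * 4 ^ m * (Real.exp (-t) * t ^ (a + m - 1)), ?_⟩
  intro x hx
  rw [κ_eq, ← integral_const_mul]
  have ham : 0 < a + m := by positivity
  apply setIntegral_mono_on
  · exact (w_int a hx).const_mul _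
  · exact (Real.GammaIntegral_convergent ham).const_mul _
  · exact measurableSet_Ioi
  · intro t ht
    exact w_bound m hx ht

lemma image_eq {z : ℝ} (hz : 0 < z) : (fun s : ℝ => z / 2 * Real.exp s) '' univ = Ioi 0 := by
  ext y
  simp only [image_univ, mem_range, mem_Ioi]
  constructor
  · rintro ⟨s, rfl⟩
    positivity
  · intro hy
    refine ⟨Real.log (y / (z / 2)), ?_⟩
    rw [Real.exp_log (by positivity)]
    field_simp

lemma subst_eq (ν : ℝ) {z : ℝ} (hz : 0 < z) (s : ℝ) :
    |z / 2 * Real.exp s| • w ν (z ^ 2) (z / 2 * Real.exp s) =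
      (z / 2) ^ ν * (Real.exp (-(z * Real.cosh s)) * Real.exp (ν * s)) := by
  have hp : 0 < z / 2 * Real.exp s := by positivity
  rw [abs_of_pos hp, smul_eq_mul]
  unfold w
  have e1 : -(z / 2 * Real.exp s) - z ^ 2 / (4 * (z / 2 * Real.exp s)) = -(z * Real.cosh s) := by
    rw [Real.cosh_eq, Real.exp_neg]
    field_simp
    ring
  have e2 : (z / 2 * Real.exp s) ^ (ν - 1) * (z / 2 * Real.exp s) =
      (z / 2) ^ ν * Real.exp (ν * s) := by
    rw [← Real.rpow_add_one hp.ne', sub_add_cancel, Real.mul_rpow (by positivity) (by positivity),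
      ← Real.exp_mul]
    ring_nf
  rw [e1]
  calc z / 2 * Real.exp s * (Real.exp (-(z * Real.cosh s)) * (z / 2 * Real.exp s) ^ (ν - 1))
      = Real.exp (-(z * Real.cosh s)) * ((z / 2 * Real.exp s) ^ (ν - 1) * (z / 2 * Real.exp s)) := by
        ring
    _ = _ := by rw [e2]; ring

lemma besselK_eq (ν : ℝ) {z : ℝ} (hz : 0 < z) :
    besselK ν z = 1 / 2 * (z / 2) ^ (-ν) * κ ν (z ^ 2) := by
  have hz2 : 0 < z ^ 2 := by positivity
  have hd : ∀ s ∈ (univ : Set ℝ), HasDerivWithinAt (fun s : ℝ => z / 2 * Real.exp s)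
      (z / 2 * Real.exp s) univ s := fun s _ =>
    ((Real.hasDerivAt_exp s).const_mul (z / 2)).hasDerivWithinAt
  have hinj : InjOn (fun s : ℝ => z / 2 * Real.exp s) univ := by
    intro s _ s' _ h
    have : Real.exp s = Real.exp s' := mul_left_cancel₀ (by positivity) h
    exact Real.exp_injective this
  have hI := (integrableOn_image_iff_integrableOn_abs_deriv_smul MeasurableSet.univ hd hinj
    (w ν (z ^ 2))).mp (by rw [image_eq hz]; exact w_int ν hz2)
  have hE := integral_image_eq_integral_abs_deriv_smul MeasurableSet.univ hd hinj (w ν (z ^ 2))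
  rw [image_eq hz, ← κ_eq] at hE
  simp only [subst_eq ν hz] at hI hE
  rw [integrableOn_univ] at hI
  rw [setIntegral_univ, integral_const_mul] at hE
  have hc : (z / 2) ^ ν ≠ 0 := (Real.rpow_pos_of_pos (by positivity) _).ne'
  set f : ℝ → ℝ := fun s => Real.exp (-(z * Real.cosh s)) * Real.exp (ν * s) with hf
  have hI' : Integrable f := by
    have := hI.const_mul ((z / 2) ^ ν)⁻¹
    refine this.congr (Eventually.of_forall fun s => ?_)
    simp only [hf]
    field_simp
  have hsplit : (∫ s, f s) = (∫ s in Ioi (0 : ℝ), f (-s)) + ∫ s in Ioi (0 : ℝ), f s := by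
    rw [integral_comp_neg_Ioi, neg_zero]
    exact (intervalIntegral.integral_Iic_add_Ioi hI'.integrableOn hI'.integrableOn).symm
  have hIneg : IntegrableOn (fun s => f (-s)) (Ioi (0 : ℝ)) := hI'.comp_neg.integrableOn
  have h2 : (∫ s, f s) = 2 * besselK ν z := by
    rw [hsplit, ← integral_add hIneg hI'.integrableOn, besselK, ← integral_const_mul]
    apply setIntegral_congr_fun measurableSet_Ioi
    intro s _
    simp only [hf, Real.cosh_neg]
    rw [Real.cosh_eq (ν * s)]
    rw [mul_neg]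
    ring
  rw [h2] at hE
  rw [hE, Real.rpow_neg (by positivity)]
  field_simp

theorem _root_.Pool.Agent.R317.SD.st_K : St_K := by
  refine ⟨fun a x hx => ⟨κ_pos a hx, κ_deriv a hx, κ_rec a hx, κ_cs a hx⟩,
    fun a ha => ⟨κ_lim ha, κ_lim2 ha, κ_decay ha⟩, fun ν z hz => besselK_eq ν hz⟩

end Pool.Agent.R317.SD.KK
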