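import Mathlib
import Pool.Agent.R317.SDChain

namespace Pool.Agent.R317.SD

open Set Filter Topology

/-! ### sign tools -/

lemma anti_of_deriv {g g' : ℝ → ℝ} (hd : ∀ x, 0 < x → HasDerivAt g (g' x) x)
    (h : ∀ x, 0 < x → g' x ≤ 0) : AntitoneOn g (Ioi 0) := by
  apply antitoneOn_of_deriv_nonpos (convex_Ioi 0)
  · intro y hy; exact (hd y hy).continuousAt.continuousWithinAt
  · intro y hy
    rw [interior_Ioi] at hy
    exact (hd y hy).differentiableAt.differentiableWithinAt
  · intro y hy
    rw [interior_Ioi] at hy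
    rw [(hd y hy).deriv]
    exact h y hy

lemma nonpos_of_zero {g g' : ℝ → ℝ} (hd : ∀ x, 0 < x → HasDerivAt g (g' x) x)
    (h : ∀ x, 0 < x → g' x ≤ 0) (hl : Tendsto g (𝓝[>] 0) (𝓝 0)) {x : ℝ} (hx : 0 < x) :
    g x ≤ 0 := by
  have ha := anti_of_deriv hd h
  apply ge_of_tendsto hl
  have : Ioo (0 : ℝ) x ∈ 𝓝[>] (0 : ℝ) := Ioo_mem_nhdsGT hx
  filter_upwards [this] with y hy
  exact ha hy.1 hx hy.2.le

lemma nonneg_of_top {g g' : ℝ → ℝ} (hd : ∀ x, 0 < x → HasDerivAt g (g' x) x)
    (h : ∀ x, 0 < x → g' x ≤ 0) (hl : Tendsto g atTop (𝓝 0)) {x : ℝ} (hx : 0 < x) :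
    0 ≤ g x := by
  have ha := anti_of_deriv hd h
  apply le_of_tendsto hl
  filter_upwards [eventually_ge_atTop x] with y hy
  exact ha hx (lt_of_lt_of_le hx hy) hy

lemma nonneg_of_zero {g g' : ℝ → ℝ} (hd : ∀ x, 0 < x → HasDerivAt g (g' x) x)
    (h : ∀ x, 0 < x → 0 ≤ g' x) (hl : Tendsto g (𝓝[>] 0) (𝓝 0)) {x : ℝ} (hx : 0 < x) :
    0 ≤ g x := by
  have h1 := nonpos_of_zero (g := fun x => -g x) (g' := fun x => -g' x)
    (fun x hx => (hd x hx).neg) (fun x hx => by have := h x hx; linarith)
    (by simpa using hl.neg) hx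
  linarith

lemma nonpos_of_top {g g' : ℝ → ℝ} (hd : ∀ x, 0 < x → HasDerivAt g (g' x) x)
    (h : ∀ x, 0 < x → 0 ≤ g' x) (hl : Tendsto g atTop (𝓝 0)) {x : ℝ} (hx : 0 < x) :
    g x ≤ 0 := by
  have h1 := nonneg_of_top (g := fun x => -g x) (g' := fun x => -g' x)
    (fun x hx => (hd x hx).neg) (fun x hx => by have := h x hx; linarith)
    (by simpa using hl.neg) hx
  linarith

lemma lim_zero {g : ℝ → ℝ} {p C : ℝ} (hp : 0 < p)
    (h : ∀ x, 0 < x → x ≤ 1 → |g x| ≤ C * x ^ p) : Tendsto g (𝓝[>] 0) (𝓝 0) := by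
  have h1 : Tendsto (fun x : ℝ => C * x ^ p) (𝓝[>] 0) (𝓝 0) := by
    have h2 : ContinuousAt (fun x : ℝ => x ^ p) 0 := Real.continuousAt_rpow_const 0 p (Or.inr hp.le)
    have h3 : Tendsto (fun x : ℝ => x ^ p) (𝓝[>] 0) (𝓝 ((0 : ℝ) ^ p)) :=
      h2.tendsto.mono_left nhdsWithin_le_nhds
    rw [Real.zero_rpow hp.ne'] at h3
    simpa using h3.const_mul C
  apply squeeze_zero_norm' _ h1
  have : Ioo (0 : ℝ) 1 ∈ 𝓝[>] (0 : ℝ) := Ioo_mem_nhdsGT one_pos
  filter_upwards [this] with y hy
  rw [Real.norm_eq_abs]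
  exact h y hy.1 hy.2.le

lemma lim_top {g : ℝ → ℝ} {C : ℝ} (h : ∀ x, 1 ≤ x → |g x| ≤ C * x⁻¹) :
    Tendsto g atTop (𝓝 0) := by
  have h1 : Tendsto (fun x : ℝ => C * x⁻¹) atTop (𝓝 0) := by
    simpa using (tendsto_inv_atTop_zero (𝕜 := ℝ)).const_mul C
  apply squeeze_zero_norm' _ h1
  filter_upwards [eventually_ge_atTop 1] with y hy
  rw [Real.norm_eq_abs]
  exact h y hy

/-! ### the Riccati data -/

structure Ric (ν : ℝ) (f : ℝ → ℝ) (T : ℕ → ℝ → ℝ) : Prop where
  chain : Chain T
  ric : ∀ x, 0 < x → -(x * T 1 x) = x / 4 + ν * T 0 x - T 0 x ^ 2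
  fpos : ∀ x, 0 < x → 0 < f x
  fd : ∀ x, 0 < x → HasDerivAt f (T 0 x / x * f x) x

variable {ν : ℝ} {f : ℝ → ℝ} {T : ℕ → ℝ → ℝ}

lemma Ric.recur (h : Ric ν f T) (m : ℕ) {x : ℝ} (hx : 0 < x) :
    x * T (m + 2) x = (m + 1 - ν + 2 * T 0 x) * T (m + 1) x + mid T T m x
      + (if m = 0 then 1 / 4 else 0) := by
  have h1 : Chain (fun n x => (-1) * xC (fun n => T (n + 1)) n x) := h.chain.shift.x.const_mul (-1)
  have h2 : Chain (fun n x => linC (1 / 4) n x + ν * T n x - mulC T T n x) :=
    ((chain_linC (1 / 4)).add (h.chain.const_mul ν)).sub (h.chain.mul h.chain)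
  have h3 := h1.unique h2 (by
    intro x hx
    simp only [xC, linC, mulC_zero]
    have := h.ric x hx
    simp only [Nat.zero_add]
    linarith) (m + 1) x hx
  simp only [xC] at h3
  rw [mulC_succ] at h3
  have h4 : linC (1 / 4) (m + 1) x = -(if m = 0 then 1 / 4 else 0) := by
    rcases m with _ | m
    · simp [linC]
    · simp [linC]
  rw [h4] at h3
  rw [show m + 1 + 1 = m + 2 by ring] at h3
  linarith

lemma hasDerivAt_M (h : Ric ν f T) (a : ℝ) {x : ℝ} (hx : 0 < x) :
    HasDerivAt (fun x => f x ^ 2 * x ^ a) (f x ^ 2 * x ^ a / x * (2 * T 0 x + a)) x := by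
  have h1 := ((h.fd x hx).pow 2).mul (Real.hasDerivAt_rpow_const (p := a) (Or.inl hx.ne'))
  refine h1.congr_deriv ?_
  rw [Real.rpow_sub_one hx.ne']
  simp only [Pi.pow_apply]
  push_cast
  field_simp

/-- global bounds -/
lemma Ric.bound (h : Ric ν f T) (n : ℕ) : ∃ C : ℝ, 0 ≤ C ∧ ∀ x, 0 < x →
    x ^ n * |T n x| ≤ C * ((|T 0 x| + x) * (1 + (|T 0 x| + x)) ^ n) := by
  induction n using Nat.strong_induction_on with
  | _ n ih =>
    match n, ih with
    | 0, _ =>
      refine ⟨1, zero_le_one, fun x hx => ?_⟩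
      simp only [pow_zero, one_mul, mul_one]
      linarith
    | 1, _ =>
      refine ⟨1 + |ν|, by positivity, fun x hx => ?_⟩
      have h1 := h.ric x hx
      have h2 : x ^ 1 * |T 1 x| = |x / 4 + ν * T 0 x - T 0 x ^ 2| := by
        rw [← h1, abs_neg, abs_mul, abs_of_pos hx, pow_one]
      rw [h2]
      have h3 : |x / 4 + ν * T 0 x - T 0 x ^ 2| ≤ x / 4 + |ν| * |T 0 x| + |T 0 x| ^ 2 := by
        rw [← abs_mul, ← abs_pow]
        calc |x / 4 + ν * T 0 x - T 0 x ^ 2| ≤ |x / 4 + ν * T 0 x| + |T 0 x ^ 2| := abs_sub _ _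
          _ ≤ |x / 4| + |ν * T 0 x| + |T 0 x ^ 2| := by gcongr; exact abs_add_le _ _
          _ = _ := by rw [abs_of_pos (by positivity : 0 < x / 4)]
      have h4 : 0 ≤ |T 0 x| := abs_nonneg _
      have h5 : 0 ≤ |ν| := abs_nonneg _
      have h6 : 0 ≤ |ν| * x := by positivity
      have h7 : 0 ≤ |ν| * |T 0 x| := by positivity
      have h8 : 0 ≤ |T 0 x| * x := by positivity
      nlinarith [mul_nonneg h5 (sq_nonneg (|T 0 x| + x)), sq_nonneg x]
    | (m + 2), ih =>
      have h1 : ∀ k, ∃ C : ℝ, 0 ≤ C ∧ (k < m + 2 → ∀ x, 0 < x →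
          x ^ k * |T k x| ≤ C * ((|T 0 x| + x) * (1 + (|T 0 x| + x)) ^ k)) := by
        intro k
        by_cases hk : k < m + 2
        · obtain ⟨C, hC, hC2⟩ := ih k hk
          exact ⟨C, hC, fun _ => hC2⟩
        · exact ⟨0, le_rfl, fun h => absurd h hk⟩
      choose C hC0 hC using h1
      refine ⟨(m + 3 + |ν|) * C (m + 1) + (∑ j ∈ Finset.range m,
        ((m + 1).choose (j + 1) : ℝ) * (C (j + 1) * C (m - j))) + 1, ?_, fun x hx => ?_⟩
      · have h2 : 0 ≤ ∑ j ∈ Finset.range m,
            ((m + 1).choose (j + 1) : ℝ) * (C (j + 1) * C (m - j)) := by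
          apply Finset.sum_nonneg
          intro j _
          have := hC0 (j + 1)
          have := hC0 (m - j)
          positivity
        have := hC0 (m + 1)
        positivity
      · set t := |T 0 x| + x with ht
        have hT0 : 0 ≤ |T 0 x| := abs_nonneg _
        have htp : 0 < t := by positivity
        have hxt : x ≤ t := by linarith
        have hTt : |T 0 x| ≤ t := by linarith
        have hnu := abs_nonneg ν
        have e : x ^ (m + 2) * |T (m + 2) x| = x ^ (m + 1) * |x * T (m + 2) x| := by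
          rw [abs_mul, abs_of_pos hx]; ring
        rw [e, h.recur m hx]
        have hA : x ^ (m + 1) * |(m + 1 - ν + 2 * T 0 x) * T (m + 1) x| ≤
            (m + 3 + |ν|) * C (m + 1) * (t * (1 + t) ^ (m + 2)) := by
          rw [abs_mul]
          have h3 : |(m : ℝ) + 1 - ν + 2 * T 0 x| ≤ (m + 3 + |ν|) * (1 + t) := by
            have h4 : |(m : ℝ) + 1 - ν + 2 * T 0 x| ≤ (m + 1) + |ν| + 2 * |T 0 x| := by
              calc |(m : ℝ) + 1 - ν + 2 * T 0 x| ≤ |(m : ℝ) + 1 - ν| + |2 * T 0 x| := abs_add_le _ _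
                _ ≤ |(m : ℝ) + 1| + |ν| + |2 * T 0 x| := by gcongr; exact abs_sub _ _
                _ = _ := by
                  rw [abs_mul, abs_of_pos (by positivity : (0 : ℝ) < m + 1)]
                  norm_num
            have : (0 : ℝ) ≤ m * t := by positivity
            have : (0 : ℝ) ≤ |ν| * t := by positivity
            nlinarith
          have h5 := hC (m + 1) (by omega) x hx
          have h6 := hC0 (m + 1)
          calc x ^ (m + 1) * (|(m : ℝ) + 1 - ν + 2 * T 0 x| * |T (m + 1) x|)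
              = |(m : ℝ) + 1 - ν + 2 * T 0 x| * (x ^ (m + 1) * |T (m + 1) x|) := by ring
            _ ≤ ((m + 3 + |ν|) * (1 + t)) * (C (m + 1) * (t * (1 + t) ^ (m + 1))) := by
              gcongr
            _ = _ := by ring
        have hB : x ^ (m + 1) * |mid T T m x| ≤ (∑ j ∈ Finset.range m,
            ((m + 1).choose (j + 1) : ℝ) * (C (j + 1) * C (m - j))) * (t * (1 + t) ^ (m + 2)) := by
          unfold mid
          calc x ^ (m + 1) * |∑ j ∈ Finset.range m,
                ((m + 1).choose (j + 1) : ℝ) * (T (j + 1) x * T (m - j) x)|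
              ≤ x ^ (m + 1) * ∑ j ∈ Finset.range m,
                |((m + 1).choose (j + 1) : ℝ) * (T (j + 1) x * T (m - j) x)| := by
                gcongr; exact Finset.abs_sum_le_sum_abs _ _
            _ = ∑ j ∈ Finset.range m, ((m + 1).choose (j + 1) : ℝ) *
                  ((x ^ (j + 1) * |T (j + 1) x|) * (x ^ (m - j) * |T (m - j) x|)) := by
                rw [Finset.mul_sum]
                apply Finset.sum_congr rfl
                intro j hj
                rw [Finset.mem_range] at hj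
                rw [abs_mul, abs_mul, abs_of_nonneg (Nat.cast_nonneg _)]
                have : x ^ (m + 1) = x ^ (j + 1) * x ^ (m - j) := by
                  rw [← pow_add]; congr 1; omega
                rw [this]; ring
            _ ≤ ∑ j ∈ Finset.range m, ((m + 1).choose (j + 1) : ℝ) *
                  ((C (j + 1) * (t * (1 + t) ^ (j + 1))) * (C (m - j) * (t * (1 + t) ^ (m - j)))) := by
                apply Finset.sum_le_sum
                intro j hj
                rw [Finset.mem_range] at hj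
                have h3 := hC (j + 1) (by omega) x hx
                have h4 := hC (m - j) (by omega) x hx
                have h5 := hC0 (j + 1)
                have h6 := hC0 (m - j)
                gcongr
            _ = ∑ j ∈ Finset.range m, ((m + 1).choose (j + 1) : ℝ) * (C (j + 1) * C (m - j)) *
                  (t * t * (1 + t) ^ (m + 1)) := by
                apply Finset.sum_congr rfl
                intro j hj
                rw [Finset.mem_range] at hj
                have : (1 + t) ^ (m + 1) = (1 + t) ^ (j + 1) * (1 + t) ^ (m - j) := by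
                  rw [← pow_add]; congr 1; omega
                rw [this]; ring
            _ = (∑ j ∈ Finset.range m, ((m + 1).choose (j + 1) : ℝ) * (C (j + 1) * C (m - j))) *
                  (t * t * (1 + t) ^ (m + 1)) := by rw [Finset.sum_mul]
            _ ≤ _ := by
                have h2 : 0 ≤ ∑ j ∈ Finset.range m,
                    ((m + 1).choose (j + 1) : ℝ) * (C (j + 1) * C (m - j)) := by
                  apply Finset.sum_nonneg
                  intro j _
                  have := hC0 (j + 1)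
                  have := hC0 (m - j)
                  positivity
                apply mul_le_mul_of_nonneg_left _ h2
                have : t * t * (1 + t) ^ (m + 1) ≤ t * (1 + t) * (1 + t) ^ (m + 1) := by
                  gcongr; linarith
                calc t * t * (1 + t) ^ (m + 1) ≤ t * (1 + t) * (1 + t) ^ (m + 1) := this
                  _ = t * (1 + t) ^ (m + 2) := by ring
        have hD : x ^ (m + 1) * |(if m = 0 then (1 / 4 : ℝ) else 0)| ≤ 1 * (t * (1 + t) ^ (m + 2)) := by
          split_ifs with h0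
          · subst h0
            have : (1 : ℝ) ≤ (1 + t) ^ 2 := by nlinarith
            simp only [Nat.zero_add, pow_one]
            rw [abs_of_pos (by norm_num : (0 : ℝ) < 1 / 4)]
            nlinarith
          · simp only [abs_zero, mul_zero, one_mul]
            positivity
        have hx1 : 0 ≤ x ^ (m + 1) := by positivity
        calc x ^ (m + 1) * |(m + 1 - ν + 2 * T 0 x) * T (m + 1) x + mid T T m x
              + (if m = 0 then 1 / 4 else 0)|
            ≤ x ^ (m + 1) * (|(m + 1 - ν + 2 * T 0 x) * T (m + 1) x| + |mid T T m x|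
              + |(if m = 0 then (1 / 4 : ℝ) else 0)|) := by
              apply mul_le_mul_of_nonneg_left _ hx1
              exact (abs_add_le _ _).trans (by gcongr; exact abs_add_le _ _)
          _ = x ^ (m + 1) * |(m + 1 - ν + 2 * T 0 x) * T (m + 1) x| + x ^ (m + 1) * |mid T T m x|
              + x ^ (m + 1) * |(if m = 0 then (1 / 4 : ℝ) else 0)| := by ring
          _ ≤ _ := by
              have := add_le_add (add_le_add hA hB) hD
              refine this.trans (le_of_eq ?_)
              ring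

end Pool.Agent.R317.SD
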