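import Mathlib
import Pool.Agent.R317.SDRic

namespace Pool.Agent.R317.SD

open Set Filter Topology

variable {ν : ℝ} {f : ℝ → ℝ} {T : ℕ → ℝ → ℝ}

/-- behaviour at `0` for the case `f = F` -/
structure Near0 (f : ℝ → ℝ) (T : ℕ → ℝ → ℝ) : Prop where
  f_le : ∃ C, ∀ x, 0 < x → x ≤ 1 → f x ≤ C
  T_le : ∃ C, ∀ x, 0 < x → x ≤ 1 → |T 0 x| ≤ C * x

/-- behaviour at infinity for the case `f = κ` -/
structure AtTop (f : ℝ → ℝ) (T : ℕ → ℝ → ℝ) : Prop where
  f_le : ∀ m : ℕ, ∃ C, ∀ x, 1 ≤ x → x ^ m * f x ≤ C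
  T_le : ∃ C, ∀ x, 1 ≤ x → |T 0 x| ≤ C * x

/-- bound near zero of `x ^ n * T n x` -/
lemma Ric.near0 (h : Ric ν f T) (h0 : Near0 f T) (n : ℕ) :
    ∃ C : ℝ, 0 ≤ C ∧ ∀ x, 0 < x → x ≤ 1 → x ^ n * |T n x| ≤ C * x := by
  obtain ⟨C, hC, hb⟩ := h.bound n
  obtain ⟨D, hD⟩ := h0.T_le
  refine ⟨C * ((|D| + 1) * (1 + (|D| + 1)) ^ n), by positivity, fun x hx hx1 => ?_⟩
  have h1 := hb x hx
  have h2 : |T 0 x| + x ≤ (|D| + 1) * x := by
    have := hD x hx hx1
    have h3 : D * x ≤ |D| * x := by gcongr; exact le_abs_self D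
    linarith
  have h3 : |T 0 x| + x ≤ (|D| + 1) := by
    refine h2.trans ?_
    have : 0 ≤ |D| + 1 := by positivity
    nlinarith
  have h4 : 0 ≤ |T 0 x| + x := by positivity
  calc x ^ n * |T n x| ≤ C * ((|T 0 x| + x) * (1 + (|T 0 x| + x)) ^ n) := h1
    _ ≤ C * (((|D| + 1) * x) * (1 + (|D| + 1)) ^ n) := by gcongr
    _ = _ := by ring

lemma Ric.atTop (h : Ric ν f T) (h0 : AtTop f T) (n : ℕ) :
    ∃ C : ℝ, 0 ≤ C ∧ ∀ x, 1 ≤ x → x ^ n * |T n x| ≤ C * x ^ (n + 1) := by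
  obtain ⟨C, hC, hb⟩ := h.bound n
  obtain ⟨D, hD⟩ := h0.T_le
  refine ⟨C * ((|D| + 1) * ((|D| + 2)) ^ n), by positivity, fun x hx1 => ?_⟩
  have hx : 0 < x := by linarith
  have h1 := hb x hx
  have h2 : |T 0 x| + x ≤ (|D| + 1) * x := by
    have := hD x hx1
    have h3 : D * x ≤ |D| * x := by gcongr; exact le_abs_self D
    linarith
  have h3 : 1 + (|T 0 x| + x) ≤ (|D| + 2) * x := by linarith
  have h4 : 0 ≤ |T 0 x| + x := by positivity
  calc x ^ n * |T n x| ≤ C * ((|T 0 x| + x) * (1 + (|T 0 x| + x)) ^ n) := h1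
    _ ≤ C * (((|D| + 1) * x) * ((|D| + 2) * x) ^ n) := by gcongr
    _ = _ := by rw [mul_pow]; ring

/-- `f ^ 2 x ^ (n - ν) g → 0` at `0` if `x ^ n g = O(x ^ q)`, `q > ν` -/
lemma lim_M_zero (h : Ric ν f T) (h0 : Near0 f T) {g : ℝ → ℝ} {n : ℕ} {q C : ℝ} (hq : ν < q)
    (hC : 0 ≤ C) (hg : ∀ x, 0 < x → x ≤ 1 → x ^ n * |g x| ≤ C * x ^ q) :
    Tendsto (fun x => f x ^ 2 * x ^ ((n : ℝ) - ν) * g x) (𝓝[>] 0) (𝓝 0) := by
  obtain ⟨D, hD⟩ := h0.f_le
  apply lim_zero (p := q - ν) (C := D ^ 2 * C) (by linarith)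
  intro x hx hx1
  have hf := (h.fpos x hx).le
  have hfD := hD x hx hx1
  have h1 : 0 < x ^ ((n : ℝ) - ν) := Real.rpow_pos_of_pos hx _
  rw [abs_mul, abs_mul, abs_of_nonneg (by positivity : 0 ≤ f x ^ 2), abs_of_pos h1]
  have h2 : x ^ ((n : ℝ) - ν) = x ^ n * x ^ (-ν) := by
    rw [sub_eq_add_neg, Real.rpow_add hx, Real.rpow_natCast]
  have h3 : 0 < x ^ (-ν) := Real.rpow_pos_of_pos hx _
  calc f x ^ 2 * x ^ ((n : ℝ) - ν) * |g x| = f x ^ 2 * x ^ (-ν) * (x ^ n * |g x|) := by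
        rw [h2]; ring
    _ ≤ D ^ 2 * x ^ (-ν) * (C * x ^ q) := by
        have := hg x hx hx1
        gcongr
    _ = D ^ 2 * C * (x ^ q * x ^ (-ν)) := by ring
    _ = _ := by rw [← Real.rpow_add hx, sub_eq_add_neg]

/-- rapid decay of `f` -/
lemma f_rpow (h : Ric ν f T) (h0 : AtTop f T) (p : ℝ) :
    ∃ C : ℝ, 0 ≤ C ∧ ∀ x, 1 ≤ x → x ^ p * f x ≤ C * x⁻¹ := by
  obtain ⟨m, hm⟩ := exists_nat_ge (p + 1)
  obtain ⟨C, hC⟩ := h0.f_le m
  have hC0 : 0 ≤ C := by
    have := hC 1 le_rfl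
    have h2 := h.fpos 1 one_pos
    simp only [one_pow, one_mul] at this
    linarith
  refine ⟨C, hC0, fun x hx1 => ?_⟩
  have hx : 0 < x := by linarith
  have h1 : x ^ p ≤ x ^ m * x⁻¹ := by
    have : x ^ m * x⁻¹ = x ^ ((m : ℝ) - 1) := by
      rw [Real.rpow_sub_one hx.ne', Real.rpow_natCast]; rfl
    rw [this]
    exact Real.rpow_le_rpow_of_exponent_le hx1 (by linarith)
  have hf := (h.fpos x hx).le
  calc x ^ p * f x ≤ x ^ m * x⁻¹ * f x := by gcongr
    _ = (x ^ m * f x) * x⁻¹ := by ring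
    _ ≤ C * x⁻¹ := by
      have := hC x hx1
      gcongr

lemma lim_M_top (h : Ric ν f T) (h0 : AtTop f T) {g : ℝ → ℝ} {n : ℕ} {q C : ℝ}
    (hC : 0 ≤ C) (hg : ∀ x, 1 ≤ x → x ^ n * |g x| ≤ C * x ^ q) :
    Tendsto (fun x => f x ^ 2 * x ^ ((n : ℝ) - ν) * g x) atTop (𝓝 0) := by
  obtain ⟨D, hD0, hD⟩ := f_rpow h h0 (q - ν)
  obtain ⟨E, hE0, hE⟩ := f_rpow h h0 0
  apply lim_top (C := D * E * C)
  intro x hx1
  have hx : 0 < x := by linarith
  have hf := (h.fpos x hx).le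
  have h1 : 0 < x ^ ((n : ℝ) - ν) := Real.rpow_pos_of_pos hx _
  rw [abs_mul, abs_mul, abs_of_nonneg (by positivity : 0 ≤ f x ^ 2), abs_of_pos h1]
  have h2 : x ^ ((n : ℝ) - ν) = x ^ n * x ^ (-ν) := by
    rw [sub_eq_add_neg, Real.rpow_add hx, Real.rpow_natCast]
  have h3 : 0 < x ^ (-ν) := Real.rpow_pos_of_pos hx _
  have h4 : f x ≤ E := by
    have := hE x hx1
    rw [Real.rpow_zero, one_mul] at this
    refine this.trans ?_
    have h5 : x⁻¹ ≤ 1 := inv_le_one_of_one_le₀ hx1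
    nlinarith
  calc f x ^ 2 * x ^ ((n : ℝ) - ν) * |g x| = f x ^ 2 * x ^ (-ν) * (x ^ n * |g x|) := by
        rw [h2]; ring
    _ ≤ f x ^ 2 * x ^ (-ν) * (C * x ^ q) := by
        have := hg x hx1
        gcongr
    _ = (x ^ q * x ^ (-ν) * f x) * f x * C := by ring
    _ = (x ^ (q - ν) * f x) * f x * C := by rw [← Real.rpow_add hx, sub_eq_add_neg]
    _ ≤ (D * x⁻¹) * E * C := by
        have := hD x hx1
        gcongr
    _ = _ := by ring

/-- derivative of `M T_{n+1}` -/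
lemma hasDerivAt_MT (h : Ric ν f T) (n : ℕ) {x : ℝ} (hx : 0 < x) :
    HasDerivAt (fun x => f x ^ 2 * x ^ (((n + 1 : ℕ) : ℝ) - ν) * T (n + 1) x)
      (-(f x ^ 2 * x ^ (((n + 1 : ℕ) : ℝ) - ν) / x *
        (mid T T n x + (if n = 0 then 1 / 4 else 0)))) x := by
  have h1 := (hasDerivAt_M h (((n + 1 : ℕ) : ℝ) - ν) hx).mul (h.chain (n + 1) x hx)
  refine h1.congr_deriv ?_
  have h2 := h.recur n hx
  have h3 : mid T T n x + (if n = 0 then 1 / 4 else 0) =
      x * T (n + 2) x - (n + 1 - ν + 2 * T 0 x) * T (n + 1) x := by linarith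
  rw [h3]
  push_cast
  field_simp
  ring

theorem T_nonpos (h : Ric ν f T) (h0 : Near0 f T) (hν : ν < 1) :
    ∀ n x, 0 < x → T (n + 1) x ≤ 0 := by
  intro n
  induction n using Nat.strong_induction_on with
  | _ n ih =>
    intro x hx
    have hM : 0 < f x ^ 2 * x ^ (((n + 1 : ℕ) : ℝ) - ν) := by
      have := h.fpos x hx
      have := Real.rpow_pos_of_pos hx (((n + 1 : ℕ) : ℝ) - ν)
      positivity
    obtain ⟨C, hC0, hC⟩ := h.near0 h0 (n + 1)
    have h1 := nonpos_of_zero (fun x hx => hasDerivAt_MT h n hx) (by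
      intro y hy
      have h2 : 0 ≤ mid T T n y := by
        apply mid_nonneg
        intro j hj
        have h3 := ih j hj y hy
        have h4 := ih (n - j - 1) (by omega) y hy
        rw [show n - j - 1 + 1 = n - j by omega] at h4
        exact mul_nonneg_of_nonpos_of_nonpos h3 h4
      have h3 : (0 : ℝ) ≤ (if n = 0 then 1 / 4 else 0) := by split_ifs <;> norm_num
      have h4 : 0 < f y ^ 2 * y ^ (((n + 1 : ℕ) : ℝ) - ν) / y := by
        have := h.fpos y hy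
        have := Real.rpow_pos_of_pos hy (((n + 1 : ℕ) : ℝ) - ν)
        positivity
      have h5 : 0 ≤ f y ^ 2 * y ^ (((n + 1 : ℕ) : ℝ) - ν) / y *
        (mid T T n y + (if n = 0 then 1 / 4 else 0)) := by positivity
      linarith)
      (lim_M_zero h h0 (q := 1) hν hC0 (by simpa using hC)) hx
    by_contra hcon
    push Not at hcon
    have := mul_pos hM hcon
    linarith

theorem T_nonneg (h : Ric ν f T) (h0 : AtTop f T) :
    ∀ n x, 0 < x → 0 ≤ T (n + 1) x := by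
  intro n
  induction n using Nat.strong_induction_on with
  | _ n ih =>
    intro x hx
    have hM : 0 < f x ^ 2 * x ^ (((n + 1 : ℕ) : ℝ) - ν) := by
      have := h.fpos x hx
      have := Real.rpow_pos_of_pos hx (((n + 1 : ℕ) : ℝ) - ν)
      positivity
    obtain ⟨C, hC0, hC⟩ := h.atTop h0 (n + 1)
    have h1 := nonneg_of_top (fun x hx => hasDerivAt_MT h n hx) (by
      intro y hy
      have h2 : 0 ≤ mid T T n y := by
        apply mid_nonneg
        intro j hj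
        have h3 := ih j hj y hy
        have h4 := ih (n - j - 1) (by omega) y hy
        rw [show n - j - 1 + 1 = n - j by omega] at h4
        exact mul_nonneg h3 h4
      have h3 : (0 : ℝ) ≤ (if n = 0 then 1 / 4 else 0) := by split_ifs <;> norm_num
      have h4 : 0 < f y ^ 2 * y ^ (((n + 1 : ℕ) : ℝ) - ν) / y := by
        have := h.fpos y hy
        have := Real.rpow_pos_of_pos hy (((n + 1 : ℕ) : ℝ) - ν)
        positivity
      have h5 : 0 ≤ f y ^ 2 * y ^ (((n + 1 : ℕ) : ℝ) - ν) / y *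
        (mid T T n y + (if n = 0 then 1 / 4 else 0)) := by positivity
      linarith)
      (lim_M_top h h0 (q := ((n + 1 + 1 : ℕ) : ℝ)) hC0 (by
        intro x hx
        rw [Real.rpow_natCast]
        exact hC x hx)) hx
    by_contra hcon
    push Not at hcon
    have := mul_neg_of_pos_of_neg hM hcon
    linarith

/-! ### the functions `χ = √x / 2 - ε θ` -/

noncomputable def Xc (ε : ℝ) (T : ℕ → ℝ → ℝ) (n : ℕ) (x : ℝ) : ℝ := 1 / 2 * sq n x - ε * T n x

noncomputable def Bc (ε : ℝ) (T : ℕ → ℝ → ℝ) (n : ℕ) (x : ℝ) : ℝ := sq n x - Xc ε T n x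

lemma chain_Xc (h : Ric ν f T) (ε : ℝ) : Chain (Xc ε T) :=
  (chain_sq.const_mul (1 / 2)).sub (h.chain.const_mul ε)

lemma chain_Bc (h : Ric ν f T) (ε : ℝ) : Chain (Bc ε T) := chain_sq.sub (chain_Xc h ε)

lemma sq_sq {x : ℝ} (hx : 0 < x) : sq 0 x ^ 2 = x := by
  rw [sq_zero, Real.sq_sqrt hx.le]

lemma x_sq_one {x : ℝ} (hx : 0 < x) : x * sq 1 x = -(1 / 2) * sq 0 x := by
  have := pow_mul_sq 1 hx
  rw [pow_one] at this
  rw [this, sq_zero]
  norm_num [sC]

lemma Xc_ric (h : Ric ν f T) {ε : ℝ} (hε : ε ^ 2 = 1) {x : ℝ} (hx : 0 < x) :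
    -(x * Xc ε T 1 x) = (1 - 2 * ν) / 4 * sq 0 x + ν * Xc ε T 0 x - ε * (Xc ε T 0 x * Bc ε T 0 x) := by
  have h1 := h.ric x hx
  have h2 := sq_sq hx
  have h3 := x_sq_one hx
  unfold Bc Xc
  linear_combination (-1 / 2) * h3 + (-ε) * h1 + (ε / 4) * h2 + (-ε * T 0 x ^ 2) * hε

lemma Xc_rec (h : Ric ν f T) {ε : ℝ} (hε : ε ^ 2 = 1) (m : ℕ) {x : ℝ} (hx : 0 < x) :
    x * Xc ε T (m + 2) x = (m + 1 - ν + 2 * T 0 x) * Xc ε T (m + 1) x
      - (((1 - 2 * ν) / 4) - ε * Xc ε T 0 x) * sq (m + 1) x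
      + ε * mid (Xc ε T) (Bc ε T) m x := by
  have h1 : Chain (fun n x => (-1) * xC (fun n => Xc ε T (n + 1)) n x) :=
    (chain_Xc h ε).shift.x.const_mul (-1)
  have h2 : Chain (fun n x => (1 - 2 * ν) / 4 * sq n x + ν * Xc ε T n x
      - ε * mulC (Xc ε T) (Bc ε T) n x) :=
    ((chain_sq.const_mul _).add ((chain_Xc h ε).const_mul ν)).sub
      (((chain_Xc h ε).mul (chain_Bc h ε)).const_mul ε)
  have h3 := h1.unique h2 (by
    intro x hx
    simp only [xC, mulC_zero]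
    have := Xc_ric h hε hx
    simp only [Nat.zero_add]
    linarith) (m + 1) x hx
  simp only [xC] at h3
  rw [mulC_succ] at h3
  rw [show m + 1 + 1 = m + 2 by ring] at h3
  have h4 : Bc ε T (m + 1) x = sq (m + 1) x - Xc ε T (m + 1) x := rfl
  have h5 : Bc ε T 0 x = sq 0 x - Xc ε T 0 x := rfl
  have h6 : Xc ε T 0 x = 1 / 2 * sq 0 x - ε * T 0 x := rfl
  rw [h4, h5] at h3
  have h7 : ε * (sq 0 x - 2 * Xc ε T 0 x) = 2 * T 0 x := by
    rw [h6]; linear_combination (2 * T 0 x) * hε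
  linear_combination (-1) * h3 + (Xc ε T (m + 1) x) * h7

lemma hasDerivAt_MX (h : Ric ν f T) {ε : ℝ} (hε : ε ^ 2 = 1) (n : ℕ) {x : ℝ} (hx : 0 < x) :
    HasDerivAt (fun x => f x ^ 2 * x ^ (((n + 1 : ℕ) : ℝ) - ν) * Xc ε T (n + 1) x)
      (-(f x ^ 2 * x ^ (((n + 1 : ℕ) : ℝ) - ν) / x * (ε *
        ((ε * ((1 - 2 * ν) / 4) - Xc ε T 0 x) * (-sq (n + 1) x)
          + mid (Xc ε T) (Bc ε T) n x)))) x := by
  have h1 := (hasDerivAt_M h (((n + 1 : ℕ) : ℝ) - ν) hx).mul (chain_Xc h ε (n + 1) x hx)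
  refine h1.congr_deriv ?_
  have h2 := Xc_rec h hε n hx
  have h3 : ε * ((ε * ((1 - 2 * ν) / 4) - Xc ε T 0 x) * (-sq (n + 1) x)
          + mid (Xc ε T) (Bc ε T) n x) =
      x * Xc ε T (n + 2) x - (n + 1 - ν + 2 * T 0 x) * Xc ε T (n + 1) x := by
    rw [h2]
    linear_combination (-((1 - 2 * ν) / 4) * sq (n + 1) x) * hε
  rw [h3]
  push_cast
  field_simp
  ring

/-- derivative of `N δ` -/
lemma hasDerivAt_Nd (h : Ric ν f T) {ε : ℝ} (hε : ε ^ 2 = 1) {x : ℝ} (hx : 0 < x) :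
    HasDerivAt (fun x => Real.exp (ε * sq 0 x) * x ^ ((1 - 2 * ν) / 4 - 1 / 2) * f x *
        (ε * ((1 - 2 * ν) / 4) - Xc ε T 0 x))
      (-(Real.exp (ε * sq 0 x) * x ^ ((1 - 2 * ν) / 4 - 1 / 2) * f x / x *
        (ε * ((1 - 2 * ν) / 4) * (1 + 2 * ν) / 4))) x := by
  have h1 := ((((chain_sq 0 x hx).const_mul ε).exp.mul
    (Real.hasDerivAt_rpow_const (p := (1 - 2 * ν) / 4 - 1 / 2) (Or.inl hx.ne'))).mul
    (h.fd x hx)).mul ((chain_Xc h ε 0 x hx).const_sub (ε * ((1 - 2 * ν) / 4)))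
  refine h1.congr_deriv ?_
  rw [Real.rpow_sub_one hx.ne']
  simp only [Pi.mul_apply, Nat.zero_add]
  have h2 := Xc_ric h hε hx
  have h3 := x_sq_one hx
  have h6 : Xc ε T 0 x = 1 / 2 * sq 0 x - ε * T 0 x := rfl
  have h5 : Bc ε T 0 x = sq 0 x - Xc ε T 0 x := rfl
  rw [h5] at h2
  have hX1 : Xc ε T 1 x = -((1 - 2 * ν) / 4 * sq 0 x + ν * Xc ε T 0 x
    - ε * (Xc ε T 0 x * (sq 0 x - Xc ε T 0 x))) / x := by
    field_simp
    linarith
  have hs1 : sq 1 x = -(1 / 2) * sq 0 x / x := by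
    field_simp
    linarith
  have hT : T 0 x = ε * (1 / 2 * sq 0 x - Xc ε T 0 x) := by
    rw [h6]; linear_combination (-(T 0 x)) * hε
  rw [hX1, hs1, hT]
  set E := Real.exp (ε * sq 0 x)
  set P := x ^ ((1 - 2 * ν) / 4 - 1 / 2)
  set S := sq 0 x
  set X := Xc ε T 0 x
  field_simp
  linear_combination (E * P * f x * (8 * S - 16 * S * ν + 16 * ν * X - 8 * X)) * hε

lemma X0_bound (x : ℝ) (hx : 0 < x) {ε : ℝ} (hε : ε ^ 2 = 1) :
    |ε * ((1 - 2 * ν) / 4) - Xc ε T 0 x| ≤ |(1 - 2 * ν) / 4| + √x / 2 + |T 0 x| := by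
  have h1 : |ε| = 1 := by
    rw [← sq_eq_sq₀ (abs_nonneg _) zero_le_one, sq_abs, hε, one_pow]
  unfold Xc
  rw [sq_zero]
  have e : ε * ((1 - 2 * ν) / 4) - (1 / 2 * √x - ε * T 0 x)
      = ε * ((1 - 2 * ν) / 4) + (-(√x / 2)) + ε * T 0 x := by ring
  rw [e]
  calc |ε * ((1 - 2 * ν) / 4) + (-(√x / 2)) + ε * T 0 x|
      ≤ |ε * ((1 - 2 * ν) / 4)| + |-(√x / 2)| + |ε * T 0 x| :=
        (abs_add_le _ _).trans (by gcongr; exact abs_add_le _ _)
    _ = _ := by
      rw [abs_mul, abs_mul, h1, abs_neg, abs_of_nonneg (by positivity : 0 ≤ √x / 2), one_mul,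
        one_mul]

theorem delta_nonneg_one (h : Ric ν f T) (h0 : Near0 f T) (hν : ν < -(1 / 2)) {x : ℝ}
    (hx : 0 < x) : 0 ≤ 1 * ((1 - 2 * ν) / 4) - Xc 1 T 0 x := by
  obtain ⟨D, hD⟩ := h0.f_le
  obtain ⟨C, hC⟩ := h0.T_le
  have hfx := h.fpos x hx
  have h1 := nonneg_of_zero (fun x hx => hasDerivAt_Nd h (ε := 1) (by norm_num) hx) (by
    intro y hy
    have h2 : 0 < Real.exp (1 * sq 0 y) * y ^ ((1 - 2 * ν) / 4 - 1 / 2) * f y / y := by
      have := h.fpos y hy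
      have := Real.rpow_pos_of_pos hy ((1 - 2 * ν) / 4 - 1 / 2)
      positivity
    have h3 : (1 * ((1 - 2 * ν) / 4) * (1 + 2 * ν) / 4) ≤ 0 := by nlinarith
    nlinarith [mul_nonneg h2.le (neg_nonneg.2 h3)])
    (by
      apply lim_zero (p := (1 - 2 * ν) / 4 - 1 / 2)
        (C := Real.exp 1 * |D| * (|(1 - 2 * ν) / 4| + 1 / 2 + |C|)) (by linarith)
      intro y hy hy1
      have hfy := h.fpos y hy
      have hP := Real.rpow_pos_of_pos hy ((1 - 2 * ν) / 4 - 1 / 2)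
      have h4 := X0_bound (ν := ν) (T := T) y hy (ε := 1) (by norm_num)
      have h5 : √y ≤ 1 := Real.sqrt_le_one.2 hy1
      have h6 : |T 0 y| ≤ |C| := by
        have := hC y hy hy1
        have h7 : C * y ≤ |C| * 1 := by
          have := le_abs_self C
          have := abs_nonneg C
          nlinarith
        linarith
      have h7 : f y ≤ |D| := (hD y hy hy1).trans (le_abs_self D)
      have h8 : Real.exp (1 * sq 0 y) ≤ Real.exp 1 := by
        rw [sq_zero]; gcongr; linarith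
      rw [abs_mul, abs_mul, abs_mul, abs_of_pos (Real.exp_pos _), abs_of_pos hP, abs_of_pos hfy]
      calc Real.exp (1 * sq 0 y) * y ^ ((1 - 2 * ν) / 4 - 1 / 2) * f y *
            |1 * ((1 - 2 * ν) / 4) - Xc 1 T 0 y|
          ≤ Real.exp 1 * y ^ ((1 - 2 * ν) / 4 - 1 / 2) * |D| *
            (|(1 - 2 * ν) / 4| + 1 / 2 + |C|) := by
            gcongr
            linarith
        _ = _ := by ring) hx
  have hN : 0 < Real.exp (1 * sq 0 x) * x ^ ((1 - 2 * ν) / 4 - 1 / 2) * f x := by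
    have := Real.rpow_pos_of_pos hx ((1 - 2 * ν) / 4 - 1 / 2)
    positivity
  by_contra hcon
  push Not at hcon
  have := mul_neg_of_pos_of_neg hN hcon
  linarith

theorem delta_nonneg_neg (h : Ric ν f T) (h0 : AtTop f T) (hν : 1 / 2 < ν) {x : ℝ}
    (hx : 0 < x) : 0 ≤ (-1) * ((1 - 2 * ν) / 4) - Xc (-1) T 0 x := by
  obtain ⟨C, hC⟩ := h0.T_le
  obtain ⟨D, hD0, hD⟩ := f_rpow h h0 ((1 - 2 * ν) / 4 - 1 / 2 + 1)
  have hfx := h.fpos x hx
  have h1 := nonneg_of_top (fun x hx => hasDerivAt_Nd h (ε := -1) (by norm_num) hx) (by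
    intro y hy
    have h2 : 0 < Real.exp (-1 * sq 0 y) * y ^ ((1 - 2 * ν) / 4 - 1 / 2) * f y / y := by
      have := h.fpos y hy
      have := Real.rpow_pos_of_pos hy ((1 - 2 * ν) / 4 - 1 / 2)
      positivity
    have h3 : 0 ≤ (-1 * ((1 - 2 * ν) / 4) * (1 + 2 * ν) / 4) := by nlinarith
    have h4 := mul_nonneg h2.le h3
    linarith)
    (by
      apply lim_top (C := D * (|(1 - 2 * ν) / 4| + 1 / 2 + |C|))
      intro y hy1
      have hy : 0 < y := by linarith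
      have hfy := h.fpos y hy
      have hP := Real.rpow_pos_of_pos hy ((1 - 2 * ν) / 4 - 1 / 2)
      have h4 := X0_bound (ν := ν) (T := T) y hy (ε := -1) (by norm_num)
      have h5 : √y ≤ y := by
        rw [Real.sqrt_le_left hy.le]; nlinarith
      have h6 : |T 0 y| ≤ |C| * y := (hC y hy1).trans (by gcongr; exact le_abs_self C)
      have h7 : |(-1) * ((1 - 2 * ν) / 4) - Xc (-1) T 0 y| ≤
          (|(1 - 2 * ν) / 4| + 1 / 2 + |C|) * y := by
        have : |(1 - 2 * ν) / 4| ≤ |(1 - 2 * ν) / 4| * y := by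
          have := abs_nonneg ((1 - 2 * ν) / 4)
          nlinarith
        linarith
      have h8 : Real.exp (-1 * sq 0 y) ≤ 1 := by
        rw [sq_zero, Real.exp_le_one_iff]
        have := Real.sqrt_nonneg y
        linarith
      rw [abs_mul, abs_mul, abs_mul, abs_of_pos (Real.exp_pos _), abs_of_pos hP, abs_of_pos hfy]
      have h9 := hD y hy1
      rw [Real.rpow_add hy, Real.rpow_one] at h9
      calc Real.exp (-1 * sq 0 y) * y ^ ((1 - 2 * ν) / 4 - 1 / 2) * f y *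
            |-1 * ((1 - 2 * ν) / 4) - Xc (-1) T 0 y|
          ≤ 1 * y ^ ((1 - 2 * ν) / 4 - 1 / 2) * f y *
            ((|(1 - 2 * ν) / 4| + 1 / 2 + |C|) * y) := by gcongr
        _ = (y ^ ((1 - 2 * ν) / 4 - 1 / 2) * y * f y) * (|(1 - 2 * ν) / 4| + 1 / 2 + |C|) := by
            ring
        _ ≤ (D * y⁻¹) * (|(1 - 2 * ν) / 4| + 1 / 2 + |C|) := by gcongr
        _ = _ := by ring) hx
  have hN : 0 < Real.exp (-1 * sq 0 x) * x ^ ((1 - 2 * ν) / 4 - 1 / 2) * f x := by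
    have := Real.rpow_pos_of_pos hx ((1 - 2 * ν) / 4 - 1 / 2)
    positivity
  by_contra hcon
  push Not at hcon
  have := mul_neg_of_pos_of_neg hN hcon
  linarith

lemma bracket_nonneg {ε : ℝ}
    (hδ : ∀ x, 0 < x → 0 ≤ ε * ((1 - 2 * ν) / 4) - Xc ε T 0 x)
    (hT : ∀ n x, 0 < x → ε * T (n + 1) x ≤ 0) (n : ℕ)
    (ih : ∀ m < n, ∀ x, 0 < x → Xc ε T (m + 1) x ≤ 0) {x : ℝ} (hx : 0 < x) :
    0 ≤ (ε * ((1 - 2 * ν) / 4) - Xc ε T 0 x) * (-sq (n + 1) x)
          + mid (Xc ε T) (Bc ε T) n x := by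
  have h1 := hδ x hx
  have h2 := sq_neg n hx
  have h3 : 0 ≤ (ε * ((1 - 2 * ν) / 4) - Xc ε T 0 x) * (-sq (n + 1) x) :=
    mul_nonneg h1 (by linarith)
  have h4 : 0 ≤ mid (Xc ε T) (Bc ε T) n x := by
    apply mid_nonneg
    intro j hj
    have h5 := ih j hj x hx
    have h6 : Bc ε T (n - j) x ≤ 0 := by
      obtain ⟨k, hk⟩ : ∃ k, n - j = k + 1 := ⟨n - j - 1, by omega⟩
      rw [hk]
      have h7 := hT k x hx
      have h8 := sq_neg k hx
      unfold Bc Xc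
      linarith
    exact mul_nonneg_of_nonpos_of_nonpos h5 h6
  linarith

lemma sqrt_eq_rpow' {x : ℝ} : √x = x ^ ((1 : ℝ) / 2) := Real.sqrt_eq_rpow x

theorem X_nonpos_one (h : Ric ν f T) (h0 : Near0 f T) (hν : ν < -(1 / 2)) :
    ∀ n x, 0 < x → Xc 1 T (n + 1) x ≤ 0 := by
  intro n
  induction n using Nat.strong_induction_on with
  | _ n ih =>
    intro x hx
    have hM : 0 < f x ^ 2 * x ^ (((n + 1 : ℕ) : ℝ) - ν) := by
      have := h.fpos x hx
      have := Real.rpow_pos_of_pos hx (((n + 1 : ℕ) : ℝ) - ν)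
      positivity
    obtain ⟨C, hC0, hC⟩ := h.near0 h0 (n + 1)
    have h1 := nonpos_of_zero (fun x hx => hasDerivAt_MX h (ε := 1) (by norm_num) n hx) (by
      intro y hy
      have h3 := bracket_nonneg (ν := ν) (T := T) (ε := 1) (fun x hx => delta_nonneg_one h h0 hν hx)
        (fun n x hx => by have := T_nonpos h h0 (by linarith) n x hx; linarith) n ih hy
      have h4 : 0 < f y ^ 2 * y ^ (((n + 1 : ℕ) : ℝ) - ν) / y := by
        have := h.fpos y hy
        have := Real.rpow_pos_of_pos hy (((n + 1 : ℕ) : ℝ) - ν)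
        positivity
      have h5 := mul_nonneg h4.le h3
      rw [one_mul]
      linarith)
      (lim_M_zero h h0 (q := 1 / 2) (C := 1 / 2 * |sC (n + 1)| + C) (by linarith) (by positivity) (by
        intro y hy hy1
        have h3 := pow_mul_sq (n + 1) hy
        have h4 := hC y hy hy1
        have h5 : y ≤ √y := by
          apply Real.le_sqrt_of_sq_le; nlinarith
        unfold Xc
        rw [← sqrt_eq_rpow']
        have hy' : 0 ≤ y ^ (n + 1) := by positivity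
        calc y ^ (n + 1) * |1 / 2 * sq (n + 1) y - 1 * T (n + 1) y|
            ≤ y ^ (n + 1) * (|1 / 2 * sq (n + 1) y| + |1 * T (n + 1) y|) := by
              gcongr; exact abs_sub _ _
          _ = 1 / 2 * |y ^ (n + 1) * sq (n + 1) y| + y ^ (n + 1) * |T (n + 1) y| := by
              rw [abs_mul (1 / 2 : ℝ), abs_mul (y ^ (n + 1)), abs_of_nonneg hy', one_mul,
                abs_of_pos (by norm_num : (0 : ℝ) < 1 / 2)]
              ring
          _ = 1 / 2 * (|sC (n + 1)| * √y) + y ^ (n + 1) * |T (n + 1) y| := by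
              rw [h3, abs_mul, abs_of_nonneg (Real.sqrt_nonneg y)]
          _ ≤ 1 / 2 * (|sC (n + 1)| * √y) + C * √y := by
              have : C * y ≤ C * √y := by gcongr
              linarith
          _ = _ := by ring)) hx
    by_contra hcon
    push Not at hcon
    have := mul_pos hM hcon
    linarith

theorem X_nonpos_neg (h : Ric ν f T) (h0 : AtTop f T) (hν : 1 / 2 < ν) :
    ∀ n x, 0 < x → Xc (-1) T (n + 1) x ≤ 0 := by
  intro n
  induction n using Nat.strong_induction_on with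
  | _ n ih =>
    intro x hx
    have hM : 0 < f x ^ 2 * x ^ (((n + 1 : ℕ) : ℝ) - ν) := by
      have := h.fpos x hx
      have := Real.rpow_pos_of_pos hx (((n + 1 : ℕ) : ℝ) - ν)
      positivity
    obtain ⟨C, hC0, hC⟩ := h.atTop h0 (n + 1)
    have h1 := nonpos_of_top (fun x hx => hasDerivAt_MX h (ε := -1) (by norm_num) n hx) (by
      intro y hy
      have h3 := bracket_nonneg (ν := ν) (T := T) (ε := -1)
        (fun x hx => delta_nonneg_neg h h0 hν hx)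
        (fun n x hx => by have := T_nonneg h h0 n x hx; linarith) n ih hy
      have h4 : 0 < f y ^ 2 * y ^ (((n + 1 : ℕ) : ℝ) - ν) / y := by
        have := h.fpos y hy
        have := Real.rpow_pos_of_pos hy (((n + 1 : ℕ) : ℝ) - ν)
        positivity
      have h5 := mul_nonneg h4.le h3
      linarith)
      (lim_M_top h h0 (q := ((n + 1 + 1 : ℕ) : ℝ)) (C := 1 / 2 * |sC (n + 1)| + C)
        (by positivity) (by
        intro y hy1
        have hy : 0 < y := by linarith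
        rw [Real.rpow_natCast]
        have h3 := pow_mul_sq (n + 1) hy
        have h4 := hC y hy1
        have h5 : √y ≤ y ^ (n + 1 + 1) := by
          have h6 : √y ≤ y := by
            rw [Real.sqrt_le_left hy.le]; nlinarith
          exact h6.trans (le_self_pow₀ hy1 (by omega))
        unfold Xc
        have hy' : 0 ≤ y ^ (n + 1) := by positivity
        calc y ^ (n + 1) * |1 / 2 * sq (n + 1) y - -1 * T (n + 1) y|
            ≤ y ^ (n + 1) * (|1 / 2 * sq (n + 1) y| + |-1 * T (n + 1) y|) := by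
              gcongr; exact abs_sub _ _
          _ = 1 / 2 * |y ^ (n + 1) * sq (n + 1) y| + y ^ (n + 1) * |T (n + 1) y| := by
              rw [abs_mul (1 / 2 : ℝ), abs_mul (y ^ (n + 1)), abs_of_nonneg hy',
                abs_of_pos (by norm_num : (0 : ℝ) < 1 / 2), neg_one_mul, abs_neg]
              ring
          _ = 1 / 2 * (|sC (n + 1)| * √y) + y ^ (n + 1) * |T (n + 1) y| := by
              rw [h3, abs_mul, abs_of_nonneg (Real.sqrt_nonneg y)]
          _ ≤ 1 / 2 * (|sC (n + 1)| * y ^ (n + 1 + 1)) + C * y ^ (n + 1 + 1) := by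
              gcongr
          _ = _ := by ring)) hx
    by_contra hcon
    push Not at hcon
    have := mul_pos hM hcon
    linarith

end Pool.Agent.R317.SD
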