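import Mathlib
import Pool.Agent.R317.SDBlock
import Pool.Agent.R317.SDSign
import Pool.Agent.R317.SDI
import Pool.Agent.R317.SDK

namespace Pool.Agent.R317.SD

open Set Filter Topology MeasureTheory

lemma mk_ric {ν : ℝ} {f g g' : ℝ → ℝ} (hf : ∀ x, 0 < x → HasDerivAt f (g x) x)
    (hg : ∀ x, 0 < x → HasDerivAt g (g' x) x)
    (ode : ∀ x, 0 < x → x * g' x + (1 - ν) * g x = f x / 4) (hpos : ∀ x, 0 < x → 0 < f x)
    (sf : ContDiffOn ℝ (⊤ : ℕ∞) f (Ioi 0)) (sg : ContDiffOn ℝ (⊤ : ℕ∞) g (Ioi 0)) :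
    ∃ T : ℕ → ℝ → ℝ, Ric ν f T ∧ ∀ x, T 0 x = x * g x / f x := by
  have hs : ContDiffOn ℝ (⊤ : ℕ∞) (fun x => x * g x / f x) (Ioi 0) :=
    (contDiffOn_id.mul sg).div sf (fun x hx => (hpos x hx).ne')
  obtain ⟨T, hT, hT0⟩ := exists_chain hs
  have e0 : ∀ x, T 0 x = x * g x / f x := fun x => by rw [hT0]
  refine ⟨T, ⟨hT, ?_, hpos, ?_⟩, e0⟩
  · intro x hx
    have h1 := hT 0 x hx
    rw [hT0] at h1
    have h2 := ((hasDerivAt_id x).mul (hg x hx)).div (hf x hx) (hpos x hx).ne'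
    have h3 := h1.unique h2
    have h4 := ode x hx
    have h5 := (hpos x hx).ne'
    have h6 : T (0 + 1) x = T 1 x := rfl
    rw [h6] at h3
    rw [e0 x]
    have h7 : -(x * T 1 x) = x * (-T 1 x) := by ring
    rw [h7, h3]
    simp only [id, Pi.mul_apply]
    have h8 : x * g' x = f x / 4 - (1 - ν) * g x := by linarith
    field_simp
    linear_combination (4 * f x) * h8
  · intro x hx
    rw [e0 x]
    refine (hf x hx).congr_deriv ?_
    have h5 := (hpos x hx).ne'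
    field_simp

/-! ### the function `F` -/

lemma F_near {μ : ℝ} (hμ : -1 < μ) : ∃ T : ℕ → ℝ → ℝ, Ric (-μ) (F μ) T ∧ Near0 (F μ) T ∧
    ∀ x, 0 < x → 0 ≤ T 0 x := by
  obtain ⟨c0, z0, g0, d0, r0, -⟩ := st_I μ hμ
  obtain ⟨c1, z1, g1, d1, -, -⟩ := st_I (μ + 1) (by linarith)
  obtain ⟨c2, z2, g2, -, -, -⟩ := st_I (μ + 2) (by linarith)
  have hm1 : μ + 1 ≠ 0 := by linarith
  have hm2 : μ + 2 ≠ 0 := by linarith
  obtain ⟨T, hT, hT0⟩ := mk_ric (ν := -μ) (f := F μ) (g := fun x => F (μ + 1) x / (4 * (μ + 1)))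
    (g' := fun x => F (μ + 2) x / (4 * (μ + 2)) / (4 * (μ + 1)))
    (fun x _ => d0 x)
    (fun x _ => by
      have := (d1 x).div_const (4 * (μ + 1))
      rw [show μ + 1 + 1 = μ + 2 by ring] at this
      exact this)
    (fun x _ => by
      rw [r0 x]
      have : 1 - -μ = μ + 1 := by ring
      rw [this]
      field_simp
      ring)
    (fun x hx => lt_of_lt_of_le one_pos (g0 x hx.le))
    c0.contDiffOn (c1.contDiffOn.div_const _)
  obtain ⟨C0, hC0⟩ := (isCompact_Icc (a := (0 : ℝ)) (b := 1)).exists_bound_of_continuousOn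
    c0.continuous.continuousOn
  obtain ⟨C1, hC1⟩ := (isCompact_Icc (a := (0 : ℝ)) (b := 1)).exists_bound_of_continuousOn
    c1.continuous.continuousOn
  refine ⟨T, hT, ⟨⟨C0, fun x hx hx1 => ?_⟩, ⟨C1 / (4 * (μ + 1)), fun x hx hx1 => ?_⟩⟩, ?_⟩
  · exact (le_abs_self _).trans (hC0 x ⟨hx.le, hx1⟩)
  · rw [hT0]
    have h1 := g0 x hx.le
    have h2 := g1 x hx.le
    have h3 := hC1 x ⟨hx.le, hx1⟩
    have h4 : F (μ + 1) x ≤ C1 := (le_abs_self _).trans h3
    have h5 : 0 < μ + 1 := by linarith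
    rw [abs_of_nonneg (by positivity)]
    rw [div_le_iff₀ (by linarith)]
    have h6 : x * (F (μ + 1) x / (4 * (μ + 1))) ≤ C1 / (4 * (μ + 1)) * x := by
      rw [mul_comm]
      gcongr
    have h7 : 0 ≤ C1 / (4 * (μ + 1)) * x := by
      have : 0 ≤ C1 := by linarith
      positivity
    nlinarith
  · intro x hx
    rw [hT0]
    have h1 := g0 x hx.le
    have h2 := g1 x hx.le
    have h5 : 0 < μ + 1 := by linarith
    positivity

lemma zero_lim_of_T0 {ν : ℝ} {f : ℝ → ℝ} {T : ℕ → ℝ → ℝ} (h : Ric ν f T)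
    (h0 : Tendsto (T 0) (𝓝[>] 0) (𝓝 0)) (n : ℕ) :
    Tendsto (fun x => x ^ n * T n x) (𝓝[>] 0) (𝓝 0) := by
  obtain ⟨C, hC0, hC⟩ := h.bound n
  have hx : Tendsto (fun x : ℝ => x) (𝓝[>] 0) (𝓝 0) := tendsto_id.mono_left nhdsWithin_le_nhds
  have h1 : Tendsto (fun x => |T 0 x| + x) (𝓝[>] 0) (𝓝 0) := by
    simpa using h0.abs.add hx
  have h2 : Tendsto (fun x => C * ((|T 0 x| + x) * (1 + (|T 0 x| + x)) ^ n)) (𝓝[>] 0) (𝓝 0) := by
    simpa using (h1.mul ((h1.const_add 1).pow n)).const_mul C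
  apply squeeze_zero_norm' _ h2
  filter_upwards [self_mem_nhdsWithin] with x hx
  have hx' : (0 : ℝ) < x := hx
  rw [Real.norm_eq_abs, abs_mul, abs_of_pos (by positivity : 0 < x ^ n)]
  exact hC x hx'

lemma zero_lim_X {ν : ℝ} {f : ℝ → ℝ} {T : ℕ → ℝ → ℝ} (h : Ric ν f T)
    (h0 : Tendsto (T 0) (𝓝[>] 0) (𝓝 0)) (ε : ℝ) (n : ℕ) :
    Tendsto (fun x => x ^ n * Xc ε T n x) (𝓝[>] 0) (𝓝 0) := by
  have h1 := (zero_lim_of_T0 h h0 n).const_mul ε
  have h2 : Tendsto (fun x : ℝ => √x) (𝓝[>] 0) (𝓝 0) := by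
    have : Tendsto (fun x : ℝ => √x) (𝓝 0) (𝓝 (√0)) := Real.continuous_sqrt.tendsto 0
    rw [Real.sqrt_zero] at this
    exact this.mono_left nhdsWithin_le_nhds
  have h3 := (h2.const_mul (1 / 2 * sC n)).sub h1
  simp only [mul_zero, sub_zero] at h3
  refine h3.congr' ?_
  filter_upwards [self_mem_nhdsWithin] with x hx
  have h4 := pow_mul_sq n hx
  unfold Xc
  linear_combination (-1 / 2) * h4

lemma near0_lim {f : ℝ → ℝ} {T : ℕ → ℝ → ℝ} (h0 : Near0 f T) :
    Tendsto (T 0) (𝓝[>] 0) (𝓝 0) := by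
  obtain ⟨C, hC⟩ := h0.T_le
  apply lim_zero (p := 1) (C := C) one_pos
  intro x hx hx1
  rw [Real.rpow_one]
  exact hC x hx hx1

lemma F_lim {μ : ℝ} (hμ : -1 < μ) : Tendsto (F μ) (𝓝[>] 0) (𝓝 1) := by
  obtain ⟨c0, z0, -⟩ := st_I μ hμ
  have := c0.continuous.tendsto 0
  rw [z0] at this
  exact this.mono_left nhdsWithin_le_nhds

lemma exp_sqrt_smooth : ContDiffOn ℝ (⊤ : ℕ∞) (fun x : ℝ => Real.exp (-√x)) (Ioi 0) := by
  apply ContDiffOn.exp
  apply ContDiffOn.neg
  exact ContDiffOn.sqrt contDiffOn_id (fun x hx => (ne_of_gt hx : x ≠ 0))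

lemma hasDerivAt_exp_sqrt {x : ℝ} (hx : 0 < x) :
    HasDerivAt (fun x : ℝ => Real.exp (-√x)) (-(√x / 2 / x * Real.exp (-√x))) x := by
  have h1 := ((Real.hasDerivAt_sqrt hx.ne').neg).exp
  refine h1.congr_deriv ?_
  have h2 : √x ≠ 0 := (Real.sqrt_pos.2 hx).ne'
  have h3 : √x * √x = x := Real.mul_self_sqrt hx.le
  have h4 : √x / 2 / x = 1 / (2 * √x) := by
    rw [div_div, div_eq_div_iff (by positivity) (by positivity)]
    linear_combination 2 * h3
  rw [h4]
  simp only [Pi.neg_apply]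
  ring

lemma exp_sqrt_lim : Tendsto (fun x : ℝ => Real.exp (-√x)) (𝓝[>] 0) (𝓝 1) := by
  have : Tendsto (fun x : ℝ => Real.exp (-√x)) (𝓝 0) (𝓝 (Real.exp (-√0))) := by
    apply Continuous.tendsto
    fun_prop
  rw [Real.sqrt_zero, neg_zero, Real.exp_zero] at this
  exact this.mono_left nhdsWithin_le_nhds

theorem block4 {μ : ℝ} (hμ : -1 < μ) : Block (fun x => 1 / F μ x) := by
  obtain ⟨T, hT, hN, -⟩ := F_near hμ
  obtain ⟨c0, z0, g0, -⟩ := st_I μ hμ
  apply block_of_chain (X := T)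
  · exact contDiffOn_const.div c0.contDiffOn (fun x hx =>
      (lt_of_lt_of_le one_pos (g0 x (le_of_lt hx))).ne')
  · intro x hx
    have := hT.fpos x hx
    positivity
  · exact hT.chain
  · intro x hx
    have h1 := (hasDerivAt_const x (1 : ℝ)).div (hT.fd x hx) (hT.fpos x hx).ne'
    refine h1.congr_deriv ?_
    have := (hT.fpos x hx).ne'
    field_simp
    ring
  · exact T_nonpos hT hN (by linarith)
  · exact zero_lim_of_T0 hT (near0_lim hN)
  · simpa using (F_lim hμ).inv₀ one_ne_zero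

theorem block1 {μ : ℝ} (hμ : 1 / 2 < μ) : Block (fun x => Real.exp (-√x) * F μ x) := by
  obtain ⟨T, hT, hN, -⟩ := F_near (μ := μ) (by linarith)
  obtain ⟨c0, z0, g0, -⟩ := st_I μ (by linarith)
  apply block_of_chain (X := Xc 1 T)
  · exact exp_sqrt_smooth.mul c0.contDiffOn
  · intro x hx
    have := hT.fpos x hx
    positivity
  · exact chain_Xc hT 1
  · intro x hx
    have h1 := (hasDerivAt_exp_sqrt hx).mul (hT.fd x hx)
    refine h1.congr_deriv ?_
    unfold Xc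
    rw [sq_zero]
    field_simp
    ring
  · exact X_nonpos_one hT hN (by linarith)
  · exact zero_lim_X hT (near0_lim hN) 1
  · simpa using exp_sqrt_lim.mul (F_lim (μ := μ) (by linarith))

/-! ### the function `κ` -/

lemma kappa_smooth : ∀ a : ℝ, ContDiffOn ℝ (⊤ : ℕ∞) (κ a) (Ioi 0) := by
  have key : ∀ (n : ℕ) (a : ℝ), ContDiffOn ℝ n (κ a) (Ioi 0) := by
    intro n
    induction n with
    | zero =>
      intro a
      rw [Nat.cast_zero, contDiffOn_zero]
      intro x hx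
      exact ((st_K.1 a x hx).2.1).continuousAt.continuousWithinAt
    | succ n ih =>
      intro a
      rw [Nat.cast_succ, contDiffOn_succ_iff_deriv_of_isOpen isOpen_Ioi]
      refine ⟨fun x hx => ((st_K.1 a x hx).2.1).differentiableAt.differentiableWithinAt,
        by simp, ?_⟩
      have h1 : ContDiffOn ℝ n (fun x => -(κ (a - 1) x / 4)) (Ioi 0) :=
        ((ih (a - 1)).div_const 4).neg
      apply h1.congr
      intro x hx
      exact ((st_K.1 a x hx).2.1).deriv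
  intro a
  rw [contDiffOn_infty]
  exact fun n => key n a

lemma K_ric {ν : ℝ} (hν : 0 < ν) : ∃ T : ℕ → ℝ → ℝ, Ric ν (κ ν) T ∧ AtTop (κ ν) T ∧
    Tendsto (T 0) (𝓝[>] 0) (𝓝 0) := by
  obtain ⟨T, hT, hT0⟩ := mk_ric (ν := ν) (f := κ ν) (g := fun x => -(κ (ν - 1) x / 4))
    (g' := fun x => κ (ν - 2) x / 16)
    (fun x hx => (st_K.1 ν x hx).2.1)
    (fun x hx => by
      have := (((st_K.1 (ν - 1) x hx).2.1).div_const 4).neg
      refine this.congr_deriv ?_
      rw [show ν - 1 - 1 = ν - 2 by ring]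
      ring)
    (fun x hx => by
      have := (st_K.1 (ν - 1) x hx).2.2.1
      rw [show ν - 1 + 1 = ν by ring, show ν - 1 - 1 = ν - 2 by ring] at this
      rw [this]
      ring)
    (fun x hx => (st_K.1 ν x hx).1)
    (kappa_smooth ν) (((kappa_smooth (ν - 1)).div_const 4).neg)
  obtain ⟨l1, l2, l3⟩ := st_K.2.1 ν hν
  refine ⟨T, hT, ⟨fun m => ?_, ⟨1 + |ν - 1|, fun x hx1 => ?_⟩⟩, ?_⟩
  · obtain ⟨C, hC⟩ := l3 m
    exact ⟨C, fun x hx => hC x (by linarith)⟩
  · have hx : 0 < x := by linarith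
    obtain ⟨p0, -, -, cs⟩ := st_K.1 ν x hx
    obtain ⟨p1, -, rc, -⟩ := st_K.1 (ν - 1) x hx
    rw [show ν - 1 + 1 = ν by ring, show ν - 1 - 1 = ν - 2 by ring] at rc
    rw [hT0]
    set A := κ ν x
    set B := κ (ν - 1) x
    set E := κ (ν - 2) x
    set a := |ν - 1| with ha
    have ha0 : 0 ≤ a := abs_nonneg _
    -- B ≤ (4 + 4 a) A
    have h1 : B ≤ (4 + 4 * a) * A := by
      have h2 : x * B ^ 2 ≤ 4 * A * (A - (ν - 1) * B) := by
        have : x / 4 * E = A - (ν - 1) * B := by linarith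
        have h3 : x * B ^ 2 ≤ x * (A * E) := by gcongr
        nlinarith
      have h3 : B ^ 2 ≤ x * B ^ 2 := by nlinarith [sq_nonneg B]
      have h4 : -(ν - 1) * B ≤ a * B := by
        gcongr
        exact neg_le_abs _
      have h5 : B ^ 2 ≤ 4 * A ^ 2 + 4 * A * (a * B) := by
        nlinarith
      by_contra hcon
      push Not at hcon
      have h6 : 0 ≤ a * A := by positivity
      nlinarith [mul_pos p0 p1, mul_nonneg ha0 (mul_pos p0 p1).le,
        mul_lt_mul_of_pos_right hcon p1, mul_lt_mul_of_pos_right hcon p0]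
    rw [show x * -(B / 4) / A = -(x * B / (4 * A)) by field_simp, abs_neg,
      abs_of_pos (by positivity), div_le_iff₀ (by positivity)]
    nlinarith
  · have h1 : Tendsto (fun x => -(x * κ (ν - 1) x) / 4 / κ ν x) (𝓝[>] 0) (𝓝 0) := by
      have hG : Real.Gamma ν ≠ 0 := (Real.Gamma_pos_of_pos hν).ne'
      have h2 := (l2.neg.div_const 4).div l1 hG
      rw [neg_zero, zero_div, zero_div] at h2
      exact h2
    refine h1.congr ?_
    intro x
    rw [hT0]
    ring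

theorem block2 {ν : ℝ} (hν : 0 < ν) : Block (fun x => κ ν x / Real.Gamma ν) := by
  obtain ⟨T, hT, hN, h0⟩ := K_ric hν
  have hG : 0 < Real.Gamma ν := Real.Gamma_pos_of_pos hν
  apply block_of_chain (X := fun n x => (-1) * T n x)
  · exact (kappa_smooth ν).div_const _
  · intro x hx
    have := hT.fpos x hx
    positivity
  · exact hT.chain.const_mul (-1)
  · intro x hx
    have h1 := (hT.fd x hx).div_const (Real.Gamma ν)
    refine h1.congr_deriv ?_
    ring
  · intro n x hx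
    have := T_nonneg hT hN n x hx
    linarith
  · intro n
    have := (zero_lim_of_T0 hT h0 n).neg
    simp only [neg_zero] at this
    refine this.congr ?_
    intro x
    ring
  · have := (st_K.2.1 ν hν).1.div_const (Real.Gamma ν)
    rwa [div_self hG.ne'] at this

theorem block3 {ν : ℝ} (hν : 1 / 2 < ν) :
    Block (fun x => Real.exp (-√x) * (Real.Gamma ν / κ ν x)) := by
  obtain ⟨T, hT, hN, h0⟩ := K_ric (ν := ν) (by linarith)
  have hG : 0 < Real.Gamma ν := Real.Gamma_pos_of_pos (by linarith)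
  apply block_of_chain (X := Xc (-1) T)
  · exact exp_sqrt_smooth.mul (contDiffOn_const.div (kappa_smooth ν)
      (fun x hx => (hT.fpos x hx).ne'))
  · intro x hx
    have := hT.fpos x hx
    positivity
  · exact chain_Xc hT (-1)
  · intro x hx
    have h1 := (hasDerivAt_exp_sqrt hx).mul
      ((hasDerivAt_const x (Real.Gamma ν)).div (hT.fd x hx) (hT.fpos x hx).ne')
    refine h1.congr_deriv ?_
    have := (hT.fpos x hx).ne'
    unfold Xc
    rw [sq_zero]
    simp only [Pi.div_apply]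
    field_simp
    ring
  · exact X_nonpos_neg hT hN hν
  · exact zero_lim_X hT h0 (-1)
  · have h1 := (st_K.2.1 ν (by linarith)).1
    have h2 : Tendsto (fun x => Real.Gamma ν / κ ν x) (𝓝[>] 0) (𝓝 (Real.Gamma ν / Real.Gamma ν)) :=
      tendsto_const_nhds.div h1 hG.ne'
    rw [div_self hG.ne'] at h2
    simpa using exp_sqrt_lim.mul h2

end Pool.Agent.R317.SD
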