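import Pool.Agent.R317.SDStm
import Pool.Agent.Helper31.Bernstein

/-! SD-LT: completely monotone functions are Laplace transforms; uniqueness; self-decomposability. -/

namespace Pool.Agent.R317.SD

open Set Filter Topology MeasureTheory
open scoped unitInterval

/-- the map `a ↦ - log a` -/
noncomputable def psi (a : I) : ℝ := -Real.log (a : ℝ)

/-- the map `t ↦ e^{- max t 0}` -/
noncomputable def phi (t : ℝ) : I :=
  ⟨Real.exp (-(max t 0)), (Real.exp_pos _).le, Real.exp_le_one_iff.2 (by
    have := le_max_right t 0
    linarith)⟩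

theorem measurable_psi : Measurable psi :=
  (Real.measurable_log.comp measurable_subtype_coe).neg

theorem continuous_phi : Continuous phi := by
  unfold phi
  fun_prop

theorem psi_phi (t : ℝ) : psi (phi t) = max t 0 := by
  unfold psi phi
  simp

theorem psi_nonneg (a : I) : 0 ≤ psi a := by
  unfold psi
  have := Real.log_nonpos a.2.1 a.2.2
  linarith

/-- existence of the measure. -/
theorem exists_measure {g : ℝ → ℝ} (hg : CM g) (hlim : Tendsto g (𝓝[>] 0) (𝓝 1)) :
    ∃ P : Measure ℝ, IsLT P g := by
  obtain ⟨G, hG, hG0, hGg⟩ := hg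
  have hCM : Pool.Agent.Helper31.CMChain G := ⟨hG0, hG⟩
  have hanti : AntitoneOn (G 0) (Ioi 0) := by
    apply antitoneOn_of_deriv_nonpos (convex_Ioi 0)
    · intro x hx
      exact (hG 0 x hx).continuousAt.continuousWithinAt
    · intro x hx
      rw [interior_Ioi] at hx
      exact (hG 0 x hx).differentiableAt.differentiableWithinAt
    · intro x hx
      rw [interior_Ioi] at hx
      rw [(hG 0 x hx).deriv]
      have := hG0 1 x hx
      linarith
  have hlim' : Tendsto (G 0) (𝓝[>] 0) (𝓝 1) := by
    refine hlim.congr' ?_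
    filter_upwards [self_mem_nhdsWithin] with x hx
    exact (hGg x hx).symm
  have hle : ∀ x, 0 < x → G 0 x ≤ 1 := by
    intro x hx
    apply ge_of_tendsto hlim'
    filter_upwards [Ioo_mem_nhdsGT hx] with y hy
    exact hanti hy.1 hx hy.2.le
  obtain ⟨ν, hν, hint⟩ := Pool.Agent.Helper31.bernstein hCM hle
  set S : Set I := {a | 0 < (a : ℝ)} with hS
  have hSm : MeasurableSet S := measurableSet_lt measurable_const measurable_subtype_coe
  -- mass
  have hmass : ν.real S = 1 := by
    have h1 : Tendsto (fun v : ℝ => ∫ a : I, (a : ℝ) ^ v ∂ν) (𝓝[>] 0)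
        (𝓝 (∫ a : I, S.indicator (fun _ => (1 : ℝ)) a ∂ν)) := by
      apply tendsto_integral_filter_of_dominated_convergence (fun _ => (1 : ℝ))
      · filter_upwards [self_mem_nhdsWithin] with v hv
        exact ((Real.continuous_rpow_const (le_of_lt hv)).comp
          continuous_subtype_val).aestronglyMeasurable
      · filter_upwards [self_mem_nhdsWithin] with v hv
        refine Eventually.of_forall fun a => ?_
        rw [Real.norm_eq_abs, abs_of_nonneg (Real.rpow_nonneg a.2.1 v)]
        exact Real.rpow_le_one a.2.1 a.2.2 (le_of_lt hv)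
      · exact integrable_const _
      · refine Eventually.of_forall fun a => ?_
        by_cases ha : 0 < (a : ℝ)
        · have : S.indicator (fun _ => (1 : ℝ)) a = (a : ℝ) ^ (0 : ℝ) := by
            rw [indicator_of_mem (by exact ha), Real.rpow_zero]
          rw [this]
          exact ((Real.continuousAt_const_rpow ha.ne').tendsto).mono_left nhdsWithin_le_nhds
        · have ha0 : (a : ℝ) = 0 := le_antisymm (not_lt.1 ha) a.2.1
          rw [indicator_of_notMem (by exact ha)]
          refine (tendsto_const_nhds (x := (0 : ℝ))).congr' ?_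
          filter_upwards [self_mem_nhdsWithin] with v hv
          rw [ha0, Real.zero_rpow (ne_of_gt hv)]
    rw [integral_indicator_const _ hSm, smul_eq_mul, mul_one] at h1
    refine tendsto_nhds_unique h1 (hlim'.congr' ?_)
    filter_upwards [self_mem_nhdsWithin] with v hv
    exact (hint v hv).symm
  have hmass' : ν S = 1 := by
    rw [Measure.real, ENNReal.toReal_eq_one_iff] at hmass
    exact hmass
  refine ⟨(ν.restrict S).map psi, ⟨?_⟩, ?_, ?_⟩
  · rw [Measure.map_apply measurable_psi MeasurableSet.univ]
    simp [hmass']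
  · rw [Measure.map_apply measurable_psi measurableSet_Iio]
    have : psi ⁻¹' Iio 0 = ∅ := by
      ext a
      simp only [mem_preimage, mem_Iio, mem_empty_iff_false, iff_false, not_lt]
      exact psi_nonneg a
    rw [this, measure_empty]
  · intro x hx
    rw [integral_map measurable_psi.aemeasurable (by fun_prop)]
    rw [← hGg x hx, ← hint x hx, ← integral_indicator hSm]
    congr 1
    ext a
    by_cases ha : 0 < (a : ℝ)
    · rw [indicator_of_mem (by exact ha), Real.rpow_def_of_pos ha]
      congr 1
      unfold psi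
      ring
    · have ha0 : (a : ℝ) = 0 := le_antisymm (not_lt.1 ha) a.2.1
      rw [indicator_of_notMem (by exact ha), ha0, Real.zero_rpow hx.ne']

/-- moments determine a probability measure on `[0,1]`. -/
theorem ext_of_moments {μ ν : Measure I} [IsProbabilityMeasure μ] [IsProbabilityMeasure ν]
    (h : ∀ n : ℕ, ∫ a : I, (a : ℝ) ^ n ∂μ = ∫ a : I, (a : ℝ) ^ n ∂ν) : μ = ν := by
  apply ext_of_forall_integral_eq_of_IsFiniteMeasure
  intro f
  have hpoly : ∀ p : Polynomial ℝ, ∫ a : I, p.eval (a : ℝ) ∂μ = ∫ a : I, p.eval (a : ℝ) ∂ν := by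
    intro p
    have hi : ∀ (ρ : Measure I) [IsProbabilityMeasure ρ], ∫ a : I, p.eval (a : ℝ) ∂ρ =
        ∑ i ∈ Finset.range (p.natDegree + 1), p.coeff i * ∫ a : I, (a : ℝ) ^ i ∂ρ := by
      intro ρ _
      simp_rw [Polynomial.eval_eq_sum_range]
      rw [integral_finsetSum]
      · exact Finset.sum_congr rfl fun i _ => integral_const_mul _ _
      · intro i _
        apply Continuous.integrable_of_hasCompactSupport (by fun_prop)
        exact HasCompactSupport.of_compactSpace _
    rw [hi μ, hi ν]
    exact Finset.sum_congr rfl fun i _ => by rw [h i]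
  apply eq_of_forall_dist_le
  intro ε hε
  obtain ⟨p, hp⟩ := exists_polynomial_near_continuousMap 0 1 (f : C(I, ℝ)) (ε / 2) (half_pos hε)
  have hclose : ∀ a : I, |f a - p.eval (a : ℝ)| ≤ ε / 2 := by
    intro a
    have h1 := ContinuousMap.norm_coe_le_norm (p.toContinuousMapOn (Icc (0 : ℝ) 1) - (f : C(I, ℝ))) a
    have h2 : (p.toContinuousMapOn (Icc (0 : ℝ) 1) - (f : C(I, ℝ))) a = p.eval (a : ℝ) - f a := rfl
    rw [h2, Real.norm_eq_abs, abs_sub_comm] at h1
    exact h1.trans hp.le
  have hb : ∀ (ρ : Measure I) [IsProbabilityMeasure ρ],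
      |∫ a, f a ∂ρ - ∫ a : I, p.eval (a : ℝ) ∂ρ| ≤ ε / 2 := by
    intro ρ _
    rw [← integral_sub (f.integrable ρ)]
    · have := norm_integral_le_of_norm_le_const (μ := ρ) (C := ε / 2)
        (f := fun a : I => f a - p.eval (a : ℝ)) (Eventually.of_forall hclose)
      simpa using this
    · apply Continuous.integrable_of_hasCompactSupport
      · exact p.continuous.comp continuous_subtype_val
      · exact HasCompactSupport.of_compactSpace _
  rw [Real.dist_eq]
  have h1 := hb μ
  have h2 := hb ν
  rw [hpoly p] at h1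
  rw [abs_le] at h1 h2 ⊢
  constructor <;> linarith [h1.1, h1.2, h2.1, h2.2]

/-- recover `P` from its image on `[0,1]`. -/
theorem map_psi_phi {P : Measure ℝ} (h0 : P (Iio 0) = 0) : (P.map phi).map psi = P := by
  rw [Measure.map_map measurable_psi continuous_phi.measurable]
  have : psi ∘ phi =ᵐ[P] id := by
    have h1 : ∀ᵐ t ∂P, ¬ t ∈ Iio (0 : ℝ) := measure_eq_zero_iff_ae_notMem.1 h0
    filter_upwards [h1] with t ht
    simp only [Function.comp_apply, psi_phi, id]
    exact max_eq_left (not_lt.1 ht)
  rw [Measure.map_congr this, Measure.map_id]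

theorem moments_phi {P : Measure ℝ} {g : ℝ → ℝ} (h : IsLT P g) (n : ℕ) :
    ∫ a : I, (a : ℝ) ^ n ∂(P.map phi) = if n = 0 then 1 else g n := by
  have := h.1
  rw [integral_map continuous_phi.measurable.aemeasurable (by fun_prop)]
  split_ifs with hn
  · subst hn
    simp
  · rw [← h.2.2 n (by positivity)]
    apply integral_congr_ae
    have h1 : ∀ᵐ t ∂P, ¬ t ∈ Iio (0 : ℝ) := measure_eq_zero_iff_ae_notMem.1 h.2.1
    filter_upwards [h1] with t ht
    unfold phi
    simp only
    rw [max_eq_left (not_lt.1 ht), ← Real.exp_nat_mul]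
    congr 1
    ring

/-- uniqueness. -/
theorem unique_measure {P P' : Measure ℝ} {g : ℝ → ℝ} (h : IsLT P g) (h' : IsLT P' g) :
    P' = P := by
  have := h.1
  have := h'.1
  have hp : IsProbabilityMeasure (P.map phi) :=
    Measure.isProbabilityMeasure_map continuous_phi.measurable.aemeasurable
  have hp' : IsProbabilityMeasure (P'.map phi) :=
    Measure.isProbabilityMeasure_map continuous_phi.measurable.aemeasurable
  have h1 : P'.map phi = P.map phi := by
    apply ext_of_moments
    intro n
    rw [moments_phi h, moments_phi h']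
  rw [← map_psi_phi h.2.1, ← map_psi_phi h'.2.1, h1]

theorem st_LT : St_LT := by
  intro L hL hratio hpos hlim
  obtain ⟨P, hP⟩ := exists_measure hL hlim
  refine ⟨P, hP, fun P' hP' => unique_measure hP hP', ?_⟩
  intro c hc hc1
  have hlimc : Tendsto (fun x => L (c * x)) (𝓝[>] 0) (𝓝 1) := by
    apply hlim.comp
    rw [tendsto_nhdsWithin_iff]
    constructor
    · have : Tendsto (fun x : ℝ => c * x) (𝓝 0) (𝓝 (c * 0)) := (continuous_const_mul c).tendsto 0
      rw [mul_zero] at this
      exact this.mono_left nhdsWithin_le_nhds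
    · filter_upwards [self_mem_nhdsWithin] with x hx
      exact mul_pos hc hx
  have hlimr : Tendsto (fun x => L x / L (c * x)) (𝓝[>] 0) (𝓝 1) := by
    have := hlim.div hlimc one_ne_zero
    rw [div_one] at this
    exact this
  obtain ⟨Q, hQ⟩ := exists_measure (hratio c hc hc1) hlimr
  refine ⟨Q, hQ.1, hQ.2.1, ?_⟩
  have := hP.1
  have := hQ.1
  have hmc : Measurable (fun x : ℝ => c * x) := measurable_const_mul c
  have hPc : IsProbabilityMeasure (P.map (fun x => c * x)) :=
    Measure.isProbabilityMeasure_map hmc.aemeasurable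
  have hPc0 : (P.map (fun x => c * x)) (Iio 0) = 0 := by
    rw [Measure.map_apply hmc measurableSet_Iio]
    have : (fun x => c * x) ⁻¹' Iio 0 = Iio (0 : ℝ) := by
      ext x
      simp only [mem_preimage, mem_Iio]
      constructor
      · intro h
        by_contra h'
        have := mul_nonneg hc.le (not_lt.1 h')
        linarith
      · intro h
        exact mul_neg_of_pos_of_neg hc h
    rw [this]
    exact hP.2.1
  apply unique_measure hP
  refine ⟨?_, ?_, ?_⟩
  · unfold Measure.conv
    exact Measure.isProbabilityMeasure_map (by fun_prop)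
  · unfold Measure.conv
    rw [Measure.map_apply (by fun_prop) measurableSet_Iio]
    refine le_antisymm ?_ zero_le
    calc ((P.map (fun x => c * x)).prod Q) ((fun x : ℝ × ℝ => x.1 + x.2) ⁻¹' Iio 0)
        ≤ ((P.map (fun x => c * x)).prod Q) ((Iio 0 ×ˢ univ) ∪ (univ ×ˢ Iio 0)) := by
          apply measure_mono
          intro x hx
          simp only [mem_preimage, mem_Iio] at hx
          by_contra h
          simp only [mem_union, mem_prod, mem_Iio, mem_univ, and_true, true_and, not_or,
            not_lt] at h
          linarith [h.1, h.2]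
      _ ≤ ((P.map (fun x => c * x)).prod Q) (Iio 0 ×ˢ univ) +
          ((P.map (fun x => c * x)).prod Q) (univ ×ˢ Iio 0) := measure_union_le _ _
      _ = 0 := by
          rw [Measure.prod_prod, Measure.prod_prod, hPc0, hQ.2.1]
          simp
  · intro x hx
    unfold Measure.conv
    rw [integral_map (by fun_prop) (by fun_prop)]
    have h1 : ∀ z : ℝ × ℝ, Real.exp (-(x * (z.1 + z.2))) =
        Real.exp (-(x * z.1)) * Real.exp (-(x * z.2)) := by
      intro z
      rw [← Real.exp_add]
      congr 1
      ring
    simp_rw [h1]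
    rw [integral_prod_mul (fun s => Real.exp (-(x * s))) (fun t => Real.exp (-(x * t)))]
    rw [hQ.2.2 x hx, integral_map hmc.aemeasurable (by fun_prop)]
    have h2 : ∫ s, Real.exp (-(x * (c * s))) ∂P = L (c * x) := by
      rw [← hP.2.2 (c * x) (mul_pos hc hx)]
      congr 1
      ext s
      congr 1
      ring
    rw [h2]
    have := (hpos (c * x) (mul_pos hc hx)).ne'
    field_simp

end Pool.Agent.R317.SD
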