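import Mathlib

set_option autoImplicit false
set_option linter.all false

namespace Pool.Agent.R317.Tmf

open Matrix

def M (t : ℤ) : Matrix (Fin 2) (Fin 2) ℤ := !![t, 1; 1, 0]

def D : Matrix (Fin 2) (Fin 2) ℤ := !![1, 0; 0, -1]

/-- the product `M (f (m-1)) ⋯ M (f 0)` -/
def Q (f : ℕ → ℤ) : ℕ → Matrix (Fin 2) (Fin 2) ℤ
  | 0 => 1
  | m + 1 => M (f m) * Q f m

theorem Q_add (f : ℕ → ℤ) (m n : ℕ) : Q f (m + n) = Q (fun i => f (m + i)) n * Q f m := by
  induction n with
  | zero => simp [Q]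
  | succ n ih =>
    show M (f (m + n)) * Q f (m + n) = (M (f (m + n)) * Q (fun i => f (m + i)) n) * Q f m
    rw [ih, Matrix.mul_assoc]

theorem Q_congr (f g : ℕ → ℤ) (m : ℕ) (h : ∀ i < m, f i = g i) : Q f m = Q g m := by
  induction m with
  | zero => rfl
  | succ m ih =>
    show M (f m) * Q f m = M (g m) * Q g m
    rw [ih (fun i hi => h i (by omega)), h m (by omega)]

theorem M_transpose (t : ℤ) : (M t)ᵀ = M t := by
  unfold M
  ext i j
  fin_cases i <;> fin_cases j <;> rfl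

theorem Q_transpose (m : ℕ) : ∀ f : ℕ → ℤ, (Q f m)ᵀ = Q (fun i => f (m - 1 - i)) m := by
  induction m with
  | zero => intro f; simp [Q]
  | succ m ih =>
    intro f
    show (M (f m) * Q f m)ᵀ = _
    rw [transpose_mul, M_transpose, ih, add_comm m 1, Q_add]
    have e1 : Q (fun i => f (1 + m - 1 - i)) 1 = M (f m) := by
      show M (f (1 + m - 1 - 0)) * 1 = M (f m)
      rw [Matrix.mul_one, show 1 + m - 1 - 0 = m by omega]
    rw [e1]
    congr 1
    refine Q_congr _ _ _ fun i hi => ?_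
    show f (m - 1 - i) = f (1 + m - 1 - (1 + i))
    rw [show 1 + m - 1 - (1 + i) = m - 1 - i by omega]

theorem M_neg (t : ℤ) : M (-t) = -(D * M t * D) := by
  unfold M D
  ext i j
  fin_cases i <;> fin_cases j <;> simp [Matrix.mul_apply, Fin.sum_univ_two]

theorem D_sq : D * D = 1 := by
  unfold D
  ext i j
  fin_cases i <;> fin_cases j <;> simp [Matrix.mul_apply, Fin.sum_univ_two]

theorem Q_neg (f : ℕ → ℤ) (m : ℕ) : Q (fun i => - f i) m = (-1 : ℤ) ^ m • (D * Q f m * D) := by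
  induction m with
  | zero => simp [Q, D_sq]
  | succ m ih =>
    show M (- f m) * Q (fun i => - f i) m = (-1 : ℤ) ^ (m + 1) • (D * (M (f m) * Q f m) * D)
    rw [ih, M_neg, pow_succ, mul_neg_one, neg_smul, Matrix.mul_smul, Matrix.neg_mul, smul_neg]
    congr 2
    have : D * M (f m) * D * (D * Q f m * D) = D * M (f m) * (D * D) * Q f m * D := by
      simp only [Matrix.mul_assoc]
    rw [this, D_sq, Matrix.mul_one]
    simp only [Matrix.mul_assoc]

theorem Q_det (f : ℕ → ℤ) (m : ℕ) : (Q f m).det = (-1) ^ m := by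
  induction m with
  | zero => simp [Q]
  | succ m ih =>
    show (M (f m) * Q f m).det = _
    rw [det_mul, ih, pow_succ, mul_comm]
    congr 1
    simp [M, det_fin_two]

/-- the Thue-Morse sequence with values `1`, `-1` -/
def t (n : ℕ) : ℤ := (-1) ^ (Nat.digits 2 n).sum

theorem t_even (n : ℕ) : t (2 * n) = t n := by
  unfold t
  rcases Nat.eq_zero_or_pos n with rfl | hn
  · rfl
  · have : Nat.digits 2 (2 * n) = 0 :: Nat.digits 2 n := by
      have := Nat.digits_add_two_add_one 0 (2 * n - 1)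
      rw [show 2 * n - 1 + 1 = 2 * n by omega] at this
      rw [this]
      congr 1
      · omega
      · rw [show 2 * n / (0 + 2) = n by omega]
    rw [this, List.sum_cons, zero_add]

theorem t_odd (n : ℕ) : t (2 * n + 1) = - t n := by
  unfold t
  have : Nat.digits 2 (2 * n + 1) = 1 :: Nat.digits 2 n := by
    have := Nat.digits_add_two_add_one 0 (2 * n)
    rw [this]
    congr 1
    · omega
    · rw [show (2 * n + 1) / (0 + 2) = n by omega]
  rw [this, List.sum_cons, pow_add]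
  ring

theorem t_shift (k : ℕ) : ∀ j < 2 ^ k, t (2 ^ k + j) = - t j := by
  induction k with
  | zero =>
    intro j hj
    have : j = 0 := by
      rw [pow_zero] at hj
      omega
    subst this
    have := t_odd 0
    simpa using this
  | succ k ih =>
    intro j hj
    rw [pow_succ] at hj ⊢
    obtain ⟨i, rfl | rfl⟩ : ∃ i, j = 2 * i ∨ j = 2 * i + 1 := ⟨j / 2, by omega⟩
    · rw [show 2 ^ k * 2 + 2 * i = 2 * (2 ^ k + i) by ring, t_even, t_even, ih i (by omega)]
    · rw [show 2 ^ k * 2 + (2 * i + 1) = 2 * (2 ^ k + i) + 1 by ring, t_odd, t_odd, ih i (by omega)]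

theorem t_flip (k : ℕ) : ∀ j < 2 ^ k, t (2 ^ k - 1 - j) = (-1) ^ k * t j := by
  induction k with
  | zero =>
    intro j hj
    have : j = 0 := by
      rw [pow_zero] at hj
      omega
    subst this
    simp
  | succ k ih =>
    intro j hj
    rw [pow_succ] at hj
    obtain ⟨i, rfl | rfl⟩ : ∃ i, j = 2 * i ∨ j = 2 * i + 1 := ⟨j / 2, by omega⟩
    · rw [show 2 ^ (k + 1) - 1 - 2 * i = 2 * (2 ^ k - 1 - i) + 1 by rw [pow_succ]; omega, t_even,
        t_odd, ih i (by omega), pow_succ]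
      ring
    · rw [show 2 ^ (k + 1) - 1 - (2 * i + 1) = 2 * (2 ^ k - 1 - i) by rw [pow_succ]; omega, t_even,
        t_odd, ih i (by omega), pow_succ]
      ring

/-- the sequence `h` -/
def h : ℕ → ℤ
  | 0 => 0
  | 1 => 1
  | n + 2 => t (n + 2) * h (n + 1) + h n

theorem h_Q (n : ℕ) : h (n + 1) = Q (fun i => t (i + 2)) n 0 0 ∧ h n = Q (fun i => t (i + 2)) n 1 0 := by
  induction n with
  | zero => simp [h, Q]
  | succ n ih =>
    have e : Q (fun i => t (i + 2)) (n + 1) = M (t (n + 2)) * Q (fun i => t (i + 2)) n := rfl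
    rw [e]
    constructor
    · rw [show h (n + 1 + 1) = t (n + 2) * h (n + 1) + h n from rfl, ih.1]
      conv_lhs => rw [ih.2]
      simp [M, Matrix.mul_apply, Fin.sum_univ_two]
    · rw [ih.1]
      simp [M, Matrix.mul_apply, Fin.sum_univ_two]

/-- the values of `t` near `2 ^ k` and the shape of the products, `2 ^ k = q + 7` -/
theorem core (k q : ℕ) (hk : 3 ≤ k) (hq : 2 ^ k = q + 7) (e : ℤ) (he : e = (-1) ^ k) :
    Q (fun i => t (i + 2)) (2 * q + 7) = -(D * Q (fun i => t (i + 2)) q * D) *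
      (M 1 * (M (-1) * (M e * (M (-e) * Q (fun i => t (i + 2)) (q + 3))))) ∧
    Q (fun i => t (i + 2)) (q + 3) = M (-e) * (M e * (M (-e) * Q (fun i => t (i + 2)) q)) := by
  have hodd : Odd q := by
    have h8 : 2 ^ k = 2 * 2 ^ (k - 1) := by
      rw [← pow_succ', show k - 1 + 1 = k by omega]
    rw [Nat.odd_iff]
    omega
  have t1 : t 1 = -1 := by
    have := t_odd 0
    simpa [t] using this
  have t0 : t 0 = 1 := by simp [t]
  have t2 : t 2 = -1 := by have := t_even 1; rw [← t1, ← this]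
  have t3 : t 3 = 1 := by have := t_odd 1; rw [t1] at this; simpa using this
  have t4 : t 4 = -1 := by have := t_even 2; rw [← t2, ← this]
  have hpow : 8 ≤ 2 ^ k := by
    calc 8 = 2 ^ 3 := by norm_num
      _ ≤ 2 ^ k := Nat.pow_le_pow_right (by norm_num) hk
  have f0 : t (q + 2) = -e := by
    have := t_flip k 4 (by omega)
    rw [show 2 ^ k - 1 - 4 = q + 2 by omega, t4, ← he] at this
    linarith
  have f1 : t (q + 1 + 2) = e := by
    have := t_flip k 3 (by omega)
    rw [show 2 ^ k - 1 - 3 = q + 1 + 2 by omega, t3, ← he] at this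
    linarith
  have f2 : t (q + 2 + 2) = -e := by
    have := t_flip k 2 (by omega)
    rw [show 2 ^ k - 1 - 2 = q + 2 + 2 by omega, t2, ← he] at this
    linarith
  have f3 : t (q + 3 + 2) = -e := by
    have := t_flip k 1 (by omega)
    rw [show 2 ^ k - 1 - 1 = q + 3 + 2 by omega, t1, ← he] at this
    linarith
  have f4 : t (q + 4 + 2) = e := by
    have := t_flip k 0 (by omega)
    rw [show 2 ^ k - 1 - 0 = q + 4 + 2 by omega, t0, ← he] at this
    linarith
  have f5 : t (q + 5 + 2) = -1 := by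
    have := t_shift k 0 (by omega)
    rw [show 2 ^ k + 0 = q + 5 + 2 by omega, t0] at this
    linarith
  have f6 : t (q + 6 + 2) = 1 := by
    have := t_shift k 1 (by omega)
    rw [show 2 ^ k + 1 = q + 6 + 2 by omega, t1] at this
    linarith
  constructor
  · rw [show 2 * q + 7 = (q + 7) + q by ring, Q_add]
    have e1 : Q (fun i => (fun i => t (i + 2)) (q + 7 + i)) q =
        Q (fun i => - (fun i => t (i + 2)) i) q := by
      refine Q_congr _ _ _ fun i hi => ?_
      show t (q + 7 + i + 2) = - t (i + 2)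
      rw [← t_shift k (i + 2) (by omega), show 2 ^ k + (i + 2) = q + 7 + i + 2 by omega]
    rw [e1, Q_neg, hodd.neg_one_pow, neg_one_smul]
    congr 1
    show M (t (q + 6 + 2)) * (M (t (q + 5 + 2)) * (M (t (q + 4 + 2)) * (M (t (q + 3 + 2)) *
      Q (fun i => t (i + 2)) (q + 3)))) = _
    rw [f3, f4, f5, f6]
  · show M (t (q + 2 + 2)) * (M (t (q + 1 + 2)) * (M (t (q + 2)) * Q (fun i => t (i + 2)) q)) = _
    rw [f0, f1, f2]

theorem sym (k q : ℕ) (hk : 3 ≤ k) (hq : 2 ^ k = q + 7) (e : ℤ) (he : e = (-1) ^ k) :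
    (Q (fun i => t (i + 2)) (q + 3))ᵀ = Q (fun i => e * t (i + 2)) (q + 3) := by
  rw [Q_transpose]
  refine Q_congr _ _ _ fun i hi => ?_
  show t (q + 3 - 1 - i + 2) = e * t (i + 2)
  rw [he, ← t_flip k (i + 2) (by omega), show 2 ^ k - 1 - (i + 2) = q + 3 - 1 - i + 2 by omega]

theorem even_case (k : ℕ) (hk : 3 ≤ k) (hev : Even k) :
    h (2 ^ k - 3) ∣ h (2 * (2 ^ k - 3)) := by
  have hpow : 8 ≤ 2 ^ k := by
    calc 8 = 2 ^ 3 := by norm_num
      _ ≤ 2 ^ k := Nat.pow_le_pow_right (by norm_num) hk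
  obtain ⟨q, hq⟩ : ∃ q, 2 ^ k = q + 7 := ⟨2 ^ k - 7, by omega⟩
  have he : (1 : ℤ) = (-1) ^ k := hev.neg_one_pow.symm
  obtain ⟨h1, h2⟩ := core k q hk hq 1 he
  have h3 := sym k q hk hq 1 he
  simp only [one_mul] at h3
  have a1 := (h_Q (q + 3)).1
  have a2 := (h_Q (2 * q + 7)).1
  rw [show 2 ^ k - 3 = q + 3 + 1 by omega, show 2 * (q + 3 + 1) = 2 * q + 7 + 1 by ring, a1, a2, h1]
  set R := Q (fun i => t (i + 2)) q with hR
  set P := Q (fun i => t (i + 2)) (q + 3) with hP
  have s := congrFun (congrFun h3 0) 1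
  rw [transpose_apply] at s
  have r00 := congrFun (congrFun h2 0) 0
  have r01 := congrFun (congrFun h2 0) 1
  have r10 := congrFun (congrFun h2 1) 0
  have r11 := congrFun (congrFun h2 1) 1
  simp only [M, D, Matrix.mul_apply, Fin.sum_univ_two, Matrix.of_apply, Matrix.cons_val', Matrix.cons_val_zero,
    Matrix.cons_val_one, Matrix.cons_val_fin_one, Matrix.neg_apply] at r00 r01 r10 r11 ⊢
  have r00' : R 0 0 = - P 0 0 := by rw [r00]; ring
  have r01' : R 0 1 = - P 0 1 := by rw [r01]; ring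
  rw [r00', r01', s]
  refine ⟨2 * P 0 1 - P 0 0, ?_⟩
  ring

theorem odd_case (k : ℕ) (hk : 3 ≤ k) (hodd : Odd k) :
    h (2 ^ k - 3) ∣ h (2 * (2 ^ k - 3)) + 2 := by
  have hpow : 8 ≤ 2 ^ k := by
    calc 8 = 2 ^ 3 := by norm_num
      _ ≤ 2 ^ k := Nat.pow_le_pow_right (by norm_num) hk
  obtain ⟨q, hq⟩ : ∃ q, 2 ^ k = q + 7 := ⟨2 ^ k - 7, by omega⟩
  have hqodd : Odd q := by
    have h8 : 2 ^ k = 2 * 2 ^ (k - 1) := by
      rw [← pow_succ', show k - 1 + 1 = k by omega]
    rw [Nat.odd_iff]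
    omega
  have he : (-1 : ℤ) = (-1) ^ k := hodd.neg_one_pow.symm
  obtain ⟨h1, h2⟩ := core k q hk hq (-1) he
  have h3 := sym k q hk hq (-1) he
  simp only [neg_one_mul] at h3
  rw [Q_neg, (show Even (q + 3) by obtain ⟨c, rfl⟩ := hqodd; exact ⟨c + 2, by ring⟩).neg_one_pow,
    one_smul] at h3
  have a1 := (h_Q (q + 3)).1
  have a2 := (h_Q (2 * q + 7)).1
  rw [show 2 ^ k - 3 = q + 3 + 1 by omega, show 2 * (q + 3 + 1) = 2 * q + 7 + 1 by ring, a1, a2, h1]
  have hdet := Q_det (fun i => t (i + 2)) (q + 3)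
  rw [(show Even (q + 3) by obtain ⟨c, rfl⟩ := hqodd; exact ⟨c + 2, by ring⟩).neg_one_pow,
    det_fin_two] at hdet
  set R := Q (fun i => t (i + 2)) q with hR
  set P := Q (fun i => t (i + 2)) (q + 3) with hP
  have s := congrFun (congrFun h3 0) 1
  rw [transpose_apply] at s
  have r00 := congrFun (congrFun h2 0) 0
  have r01 := congrFun (congrFun h2 0) 1
  have r10 := congrFun (congrFun h2 1) 0
  have r11 := congrFun (congrFun h2 1) 1
  simp only [M, D, Matrix.mul_apply, Fin.sum_univ_two, Matrix.of_apply, Matrix.cons_val', Matrix.cons_val_zero,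
    Matrix.cons_val_one, Matrix.cons_val_fin_one, Matrix.neg_apply] at r00 r01 r10 r11 s ⊢
  have r00' : R 0 0 = P 0 0 := by rw [r00]; ring
  have r01' : R 0 1 = P 0 1 := by rw [r01]; ring
  have s' : P 1 0 = - P 0 1 := by rw [s]; ring
  rw [s'] at hdet
  rw [r00', r01', s']
  refine ⟨- P 0 0 + 2 * P 0 1 + 2 * P 1 1, ?_⟩
  linear_combination (-2) * hdet

theorem eq_h (g : ℕ → ℤ) (g0 : g 0 = 0) (g1 : g 1 = 1)
    (hg : ∀ n, g (n + 2) = (-1) ^ (Nat.digits 2 (n + 2)).sum * g (n + 1) + g n) (n : ℕ) :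
    g n = h n := by
  induction n using Nat.strong_induction_on with
  | _ n ih =>
    match n with
    | 0 => exact g0
    | 1 => exact g1
    | n + 2 =>
      rw [hg, ih (n + 1) (by omega), ih n (by omega)]
      rfl

end Pool.Agent.R317.Tmf
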