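import Mathlib

/-!
Signed count of the solutions of `x² + 3y² = 4·157^k`.
-/

namespace Pool.Agent.R317.ToA

/-- `(1-12ω)^k = A k + B k ω` -/
def ab : ℕ → ℤ × ℤ
  | 0 => (1, 0)
  | k + 1 => ((ab k).1 + 12 * (ab k).2, -12 * (ab k).1 + 13 * (ab k).2)

/-- first coordinate -/
def A (k : ℕ) : ℤ := (ab k).1
/-- second coordinate -/
def B (k : ℕ) : ℤ := (ab k).2

theorem A_zero : A 0 = 1 := rfl
theorem B_zero : B 0 = 0 := rfl
theorem A_succ (k : ℕ) : A (k + 1) = A k + 12 * B k := rfl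
theorem B_succ (k : ℕ) : B (k + 1) = -12 * A k + 13 * B k := rfl

theorem norm_eq (k : ℕ) : A k ^ 2 - A k * B k + B k ^ 2 = 157 ^ k := by
  induction k with
  | zero => simp [A_zero, B_zero]
  | succ k ih =>
    rw [A_succ, B_succ, pow_succ (157 : ℤ) k, ← ih]
    ring

theorem mod12 (k : ℕ) : A k % 12 = 1 ∧ B k % 12 = 0 := by
  induction k with
  | zero => simp [A_zero, B_zero]
  | succ k ih =>
    rw [A_succ, B_succ]
    omega

theorem mod157 (k : ℕ) : (157 : ℤ) ∣ B (k + 1) + 12 * A (k + 1) ∧ ¬ (157 : ℤ) ∣ A (k + 1) := by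
  induction k with
  | zero =>
    rw [A_succ, B_succ, A_zero, B_zero]
    norm_num
  | succ k ih =>
    rw [A_succ (k + 1), B_succ (k + 1)]
    omega

theorem B_ne_zero (k : ℕ) : B (k + 1) ≠ 0 := by
  intro h
  have := mod157 k
  rw [h] at this
  omega

/-- the six elements `unit · (a + bω)` -/
def L6 (a b u v : ℤ) : Prop :=
  (u = a ∧ v = b) ∨ (u = -a ∧ v = -b) ∨ (u = -b ∧ v = a - b) ∨ (u = b ∧ v = b - a) ∨
    (u = b - a ∧ v = -a) ∨ (u = a - b ∧ v = a)

/-- the twelve elements `unit · (a + bω)` and `unit · conj(a + bω)` -/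
def L (a b u v : ℤ) : Prop := L6 a b u v ∨ L6 a b (u - v) (-v)

theorem L_conj {a b u v : ℤ} (h : L a b (u - v) (-v)) : L a b u v := by
  unfold L at *
  rcases h with h | h
  · exact Or.inr h
  · left
    have e1 : u - v - -v = u := by ring
    have e2 : - -v = v := by ring
    rw [e1, e2] at h
    exact h

theorem L6_step {a b s t u v : ℤ} (h : L6 a b s t) (hu : u = s + 12 * t)
    (hv : v = 13 * t - 12 * s) : L6 (a + 12 * b) (-12 * a + 13 * b) u v := by
  unfold L6 at *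
  rcases h with ⟨h1, h2⟩ | ⟨h1, h2⟩ | ⟨h1, h2⟩ | ⟨h1, h2⟩ | ⟨h1, h2⟩ | ⟨h1, h2⟩
  · exact Or.inl ⟨by omega, by omega⟩
  · exact Or.inr (Or.inl ⟨by omega, by omega⟩)
  · exact Or.inr (Or.inr (Or.inl ⟨by omega, by omega⟩))
  · exact Or.inr (Or.inr (Or.inr (Or.inl ⟨by omega, by omega⟩)))
  · exact Or.inr (Or.inr (Or.inr (Or.inr (Or.inl ⟨by omega, by omega⟩))))
  · exact Or.inr (Or.inr (Or.inr (Or.inr (Or.inr ⟨by omega, by omega⟩))))

theorem L6_conj_step {a b a' b' s t u v : ℤ} (h : L6 a b (s - t) (-t)) (ha : a = a' + 12 * b')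
    (hb : b = -12 * a' + 13 * b') (hu : u = s + 12 * t)
    (hv : v = 13 * t - 12 * s) : (157 : ℤ) ∣ u ∧ (157 : ℤ) ∣ v := by
  unfold L6 at *
  rcases h with ⟨h1, h2⟩ | ⟨h1, h2⟩ | ⟨h1, h2⟩ | ⟨h1, h2⟩ | ⟨h1, h2⟩ | ⟨h1, h2⟩
  · exact ⟨by omega, by omega⟩
  · exact ⟨by omega, by omega⟩
  · exact ⟨by omega, by omega⟩
  · exact ⟨by omega, by omega⟩
  · exact ⟨by omega, by omega⟩
  · exact ⟨by omega, by omega⟩

theorem norm_one {u v : ℤ} (h : u ^ 2 - u * v + v ^ 2 = 1) : L 1 0 u v := by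
  have h1 : v ^ 2 ≤ 1 := by nlinarith [sq_nonneg (2 * u - v)]
  have h2 : u ^ 2 ≤ 1 := by nlinarith [sq_nonneg (2 * v - u)]
  have h3 : -1 ≤ v ∧ v ≤ 1 := by constructor <;> nlinarith
  have h4 : -1 ≤ u ∧ u ≤ 1 := by constructor <;> nlinarith
  obtain ⟨h5, h6⟩ := h3
  obtain ⟨h7, h8⟩ := h4
  unfold L L6
  interval_cases u <;> interval_cases v <;> first | (norm_num at h; done) | norm_num

theorem prime157 : Prime (157 : ℤ) := by
  rw [Int.prime_iff_natAbs_prime]
  norm_num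

theorem classify (k : ℕ) : ∀ u v : ℤ, u ^ 2 - u * v + v ^ 2 = 157 ^ k →
    ¬ ((157 : ℤ) ∣ u ∧ (157 : ℤ) ∣ v) → L (A k) (B k) u v := by
  induction k with
  | zero =>
    intro u v h _
    rw [A_zero, B_zero]
    exact norm_one (by simpa using h)
  | succ k ih =>
    have main : ∀ u v : ℤ, u ^ 2 - u * v + v ^ 2 = 157 ^ (k + 1) →
        ¬ ((157 : ℤ) ∣ u ∧ (157 : ℤ) ∣ v) → (157 : ℤ) ∣ 12 * u + v → L (A (k + 1)) (B (k + 1)) u v := by
      intro u v h hprim hdiv
      obtain ⟨t, ht⟩ := hdiv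
      obtain ⟨s, hs⟩ : ∃ s : ℤ, u = s + 12 * t := ⟨u - 12 * t, by ring⟩
      have hv : v = 13 * t - 12 * s := by rw [hs] at ht; linarith
      have hn : s ^ 2 - s * t + t ^ 2 = 157 ^ k := by
        rw [hs, hv, pow_succ (157 : ℤ) k] at h
        have : (157 : ℤ) * (s ^ 2 - s * t + t ^ 2) = 157 * 157 ^ k := by
          rw [mul_comm (157 : ℤ) (157 ^ k), ← h]; ring
        exact mul_left_cancel₀ (by norm_num) this
      have hp : ¬ ((157 : ℤ) ∣ s ∧ (157 : ℤ) ∣ t) := by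
        rintro ⟨h1, h2⟩
        apply hprim
        rw [hs, hv]
        omega
      have hL := ih s t hn hp
      rw [A_succ k, B_succ k]
      left
      rcases hL with hL | hL
      · exact L6_step hL hs hv
      · cases k with
        | zero =>
          rw [A_zero, B_zero] at hL ⊢
          apply L6_step (a := 1) (b := 0) (s := s) (t := t) ?_ hs hv
          unfold L6 at *
          rcases hL with ⟨h1, h2⟩ | ⟨h1, h2⟩ | ⟨h1, h2⟩ | ⟨h1, h2⟩ | ⟨h1, h2⟩ | ⟨h1, h2⟩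
          · exact Or.inl ⟨by omega, by omega⟩
          · exact Or.inr (Or.inl ⟨by omega, by omega⟩)
          · exact Or.inr (Or.inr (Or.inr (Or.inr (Or.inl ⟨by omega, by omega⟩))))
          · exact Or.inr (Or.inr (Or.inr (Or.inr (Or.inr ⟨by omega, by omega⟩))))
          · exact Or.inr (Or.inr (Or.inl ⟨by omega, by omega⟩))
          · exact Or.inr (Or.inr (Or.inr (Or.inl ⟨by omega, by omega⟩)))
        | succ k => exact absurd (L6_conj_step hL (A_succ k) (B_succ k) hs hv) hprim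
    intro u v h hprim
    have hmul : (157 : ℤ) ∣ (12 * u + v) * (u + 12 * v) := by
      have : (12 * u + v) * (u + 12 * v) = 12 * (u ^ 2 - u * v + v ^ 2) + 157 * (u * v) := by ring
      rw [this, h, pow_succ (157 : ℤ) k]
      exact dvd_add (Dvd.intro_left (12 * 157 ^ k) (by ring)) (dvd_mul_right _ _)
    rcases prime157.dvd_or_dvd hmul with h1 | h1
    · exact main u v h hprim h1
    · apply L_conj
      apply main (u - v) (-v)
      · rw [← h]; ring
      · intro h2; apply hprim; omega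
      · omega

/-- the weight of a solution -/
def w (x y : ℕ) : ℤ :=
  (if x % 12 = 1 ∧ y % 4 = 3 then 1 else 0) - (if x % 12 = 5 ∧ y % 4 = 3 then 1 else 0)
    + (if x % 12 = 7 ∧ y % 4 = 1 then 1 else 0) - (if x % 12 = 11 ∧ y % 4 = 1 then 1 else 0)

/-- the solutions of `x² + 3y² = M` -/
def Sol (M : ℕ) : Finset (ℕ × ℕ) :=
  ((Finset.range (M + 1)) ×ˢ (Finset.range (M + 1))).filter fun p => p.1 ^ 2 + 3 * p.2 ^ 2 = M

theorem mem_Sol {M : ℕ} {p : ℕ × ℕ} : p ∈ Sol M ↔ p.1 ^ 2 + 3 * p.2 ^ 2 = M := by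
  unfold Sol
  rw [Finset.mem_filter, Finset.mem_product, Finset.mem_range, Finset.mem_range]
  constructor
  · exact fun h => h.2
  · intro h
    refine ⟨⟨?_, ?_⟩, h⟩
    · nlinarith [Nat.zero_le p.1, Nat.zero_le p.2]
    · nlinarith [Nat.zero_le p.1, Nat.zero_le p.2]

/-- the signed count -/
def W (M : ℕ) : ℤ := ∑ p ∈ Sol M, w p.1 p.2

theorem w_odd {x y : ℕ} (h : w x y ≠ 0) : x % 2 = 1 ∧ y % 2 = 1 := by
  by_contra hc
  apply h
  unfold w
  rw [if_neg (by omega), if_neg (by omega), if_neg (by omega), if_neg (by omega)]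
  norm_num

theorem w_mul (x y : ℕ) : w (157 * x) (157 * y) = w x y := by
  unfold w
  have h1 : (157 * x) % 12 = x % 12 := by omega
  have h2 : (157 * y) % 4 = y % 4 := by omega
  rw [h1, h2]

/-- multiplication by `5` reverses the weight -/
theorem w_mul_five (x y : ℕ) : w (5 * x) (5 * y) = - w x y := by
  unfold w
  have h2 : (5 * y) % 4 = y % 4 := by omega
  rw [h2]
  have e1 : ((5 * x) % 12 = 1) ↔ (x % 12 = 5) := by omega
  have e2 : ((5 * x) % 12 = 5) ↔ (x % 12 = 1) := by omega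
  have e3 : ((5 * x) % 12 = 7) ↔ (x % 12 = 11) := by omega
  have e4 : ((5 * x) % 12 = 11) ↔ (x % 12 = 7) := by omega
  simp only [e1, e2, e3, e4]
  ring

theorem five_dvd {x y : ℕ} (h : 5 ∣ x ^ 2 + 3 * y ^ 2) : 5 ∣ x ∧ 5 ∣ y := by
  have hx : x % 5 = 0 ∨ x % 5 = 1 ∨ x % 5 = 2 ∨ x % 5 = 3 ∨ x % 5 = 4 := by omega
  have hy : y % 5 = 0 ∨ y % 5 = 1 ∨ y % 5 = 2 ∨ y % 5 = 3 ∨ y % 5 = 4 := by omega
  have h0 : (x ^ 2 + 3 * y ^ 2) % 5 = 0 := Nat.mod_eq_zero_of_dvd h
  have h1 : (x ^ 2 + 3 * y ^ 2) % 5 = ((x % 5) ^ 2 + 3 * (y % 5) ^ 2) % 5 := by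
    simp [Nat.pow_mod, Nat.add_mod, Nat.mul_mod]
  rw [h1] at h0
  rcases hx with hx | hx | hx | hx | hx <;> rcases hy with hy | hy | hy | hy | hy <;>
    first
    | (rw [hx, hy] at h0; norm_num at h0; done)
    | exact ⟨Nat.dvd_of_mod_eq_zero hx, Nat.dvd_of_mod_eq_zero hy⟩

theorem W_25 (M : ℕ) : W (25 * M) = - W M := by
  unfold W
  rw [← Finset.sum_neg_distrib]
  symm
  apply Finset.sum_nbij (fun p => (5 * p.1, 5 * p.2))
  · intro p hp
    rw [mem_Sol] at hp ⊢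
    simp only
    rw [← hp]; ring
  · intro p _ q _ h
    simp only [Prod.mk.injEq] at h
    ext <;> omega
  · intro p hp
    rw [Finset.mem_coe, mem_Sol] at hp
    have hd : 5 ∣ p.1 ^ 2 + 3 * p.2 ^ 2 := by rw [hp]; exact ⟨5 * M, by ring⟩
    obtain ⟨⟨x, hx⟩, ⟨y, hy⟩⟩ := five_dvd hd
    refine ⟨(x, y), ?_, ?_⟩
    · rw [Finset.mem_coe, mem_Sol]
      rw [hx, hy] at hp
      simp only
      have : 25 * (x ^ 2 + 3 * y ^ 2) = 25 * M := by rw [← hp]; ring
      omega
    · ext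
      · exact hx.symm
      · exact hy.symm
  · intro p _
    rw [w_mul_five]

/-- the contribution of the primitive solutions -/
def Gam (a b : ℤ) : ℤ := w (a + b).natAbs (a - b).natAbs + w (2 * b - a).natAbs a.natAbs

theorem sol_a {a b : ℤ} {k : ℕ} (h : a ^ 2 - a * b + b ^ 2 = 157 ^ k) :
    ((a + b).natAbs, (a - b).natAbs) ∈ Sol (4 * 157 ^ k) := by
  rw [mem_Sol]
  zify
  rw [sq_abs, sq_abs, ← h]
  ring

theorem sol_b {a b : ℤ} {k : ℕ} (h : a ^ 2 - a * b + b ^ 2 = 157 ^ k) :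
    ((2 * b - a).natAbs, a.natAbs) ∈ Sol (4 * 157 ^ k) := by
  rw [mem_Sol]
  zify
  rw [sq_abs, sq_abs, ← h]
  ring

theorem prim_list (k : ℕ) {x y : ℕ} (h : x ^ 2 + 3 * y ^ 2 = 4 * 157 ^ k)
    (hx : x % 2 = 1) (hy : y % 2 = 1) (hp : ¬ (157 ∣ x ∧ 157 ∣ y)) :
    (x = (A k + B k).natAbs ∧ y = (A k - B k).natAbs) ∨
      (x = (2 * B k - A k).natAbs ∧ y = (A k).natAbs) := by
  obtain ⟨u, hu⟩ : ∃ u : ℤ, (x : ℤ) + y = 2 * u := ⟨((x : ℤ) + y) / 2, by omega⟩
  have hn : u ^ 2 - u * y + (y : ℤ) ^ 2 = 157 ^ k := by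
    have h1 : ((x : ℤ)) ^ 2 + 3 * (y : ℤ) ^ 2 = 4 * 157 ^ k := by exact_mod_cast h
    have h2 : (x : ℤ) = 2 * u - y := by linarith
    rw [h2] at h1
    have : 4 * (u ^ 2 - u * y + (y : ℤ) ^ 2) = 4 * 157 ^ k := by rw [← h1]; ring
    linarith
  have hprim : ¬ ((157 : ℤ) ∣ u ∧ (157 : ℤ) ∣ (y : ℤ)) := by
    intro h2
    apply hp
    omega
  have hL := classify k u y hn hprim
  obtain ⟨hm1, hm2⟩ := mod12 k
  clear hn hprim hp h
  unfold L L6 at hL
  rcases hL with (⟨h1, h2⟩ | ⟨h1, h2⟩ | ⟨h1, h2⟩ | ⟨h1, h2⟩ | ⟨h1, h2⟩ | ⟨h1, h2⟩) |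
    (⟨h1, h2⟩ | ⟨h1, h2⟩ | ⟨h1, h2⟩ | ⟨h1, h2⟩ | ⟨h1, h2⟩ | ⟨h1, h2⟩)
  · exfalso; omega
  · exfalso; omega
  · exact Or.inl ⟨by omega, by omega⟩
  · exact Or.inl ⟨by omega, by omega⟩
  · exact Or.inr ⟨by omega, by omega⟩
  · exact Or.inr ⟨by omega, by omega⟩
  · exfalso; omega
  · exfalso; omega
  · exact Or.inl ⟨by omega, by omega⟩
  · exact Or.inl ⟨by omega, by omega⟩
  · exact Or.inr ⟨by omega, by omega⟩
  · exact Or.inr ⟨by omega, by omega⟩

theorem Gam_sum (k : ℕ) :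
    W (4 * 157 ^ (k + 2)) = W (4 * 157 ^ k) + Gam (A (k + 2)) (B (k + 2)) := by
  classical
  set a := A (k + 2) with ha
  set b := B (k + 2) with hb
  have hn : a ^ 2 - a * b + b ^ 2 = 157 ^ (k + 2) := norm_eq (k + 2)
  have hm := mod12 (k + 2)
  rw [← ha, ← hb] at hm
  have hm2 := mod157 (k + 1)
  rw [show k + 1 + 1 = k + 2 from rfl, ← ha, ← hb] at hm2
  unfold W
  rw [← Finset.sum_filter_add_sum_filter_not (Sol (4 * 157 ^ (k + 2)))
    (fun p => 157 ∣ p.1 ∧ 157 ∣ p.2)]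
  congr 1
  · symm
    apply Finset.sum_nbij (fun p => (157 * p.1, 157 * p.2))
    · intro p hp
      rw [mem_Sol] at hp
      rw [Finset.mem_filter, mem_Sol]
      refine ⟨?_, ⟨p.1, rfl⟩, ⟨p.2, rfl⟩⟩
      simp only
      have : (157 * p.1) ^ 2 + 3 * (157 * p.2) ^ 2 = 157 ^ 2 * (p.1 ^ 2 + 3 * p.2 ^ 2) := by ring
      rw [this, hp]; ring
    · intro p _ q _ h
      simp only [Prod.mk.injEq] at h
      ext <;> omega
    · intro p hp
      rw [Finset.mem_coe, Finset.mem_filter, mem_Sol] at hp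
      obtain ⟨hp, ⟨x, hx⟩, ⟨y, hy⟩⟩ := hp
      refine ⟨(x, y), ?_, ?_⟩
      · rw [Finset.mem_coe, mem_Sol]
        rw [hx, hy] at hp
        simp only
        have : 157 ^ 2 * (x ^ 2 + 3 * y ^ 2) = 157 ^ 2 * (4 * 157 ^ k) := by
          calc 157 ^ 2 * (x ^ 2 + 3 * y ^ 2) = (157 * x) ^ 2 + 3 * (157 * y) ^ 2 := by ring
            _ = 4 * 157 ^ (k + 2) := hp
            _ = _ := by ring
        exact Nat.eq_of_mul_eq_mul_left (by norm_num) this
      · ext
        · exact hx.symm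
        · exact hy.symm
    · intro p _
      rw [w_mul]
  · have hne : ((a + b).natAbs, (a - b).natAbs) ≠ ((2 * b - a).natAbs, a.natAbs) := by
      intro h
      rw [Prod.mk.injEq] at h
      have h2 := h.2
      have hb0 : b ≠ 0 := B_ne_zero (k + 1)
      omega
    have hsub : ({((a + b).natAbs, (a - b).natAbs), ((2 * b - a).natAbs, a.natAbs)} : Finset (ℕ × ℕ))
        ⊆ (Sol (4 * 157 ^ (k + 2))).filter (fun p => ¬ (157 ∣ p.1 ∧ 157 ∣ p.2)) := by
      intro p hp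
      rw [Finset.mem_insert, Finset.mem_singleton] at hp
      rw [Finset.mem_filter]
      rcases hp with rfl | rfl
      · refine ⟨sol_a hn, ?_⟩
        simp only
        omega
      · refine ⟨sol_b hn, ?_⟩
        simp only
        omega
    rw [← Finset.sum_subset hsub, Finset.sum_pair hne]
    · rfl
    · intro p hp hnot
      rw [Finset.mem_filter, mem_Sol] at hp
      by_contra hw
      obtain ⟨h1, h2⟩ := w_odd hw
      apply hnot
      rw [Finset.mem_insert, Finset.mem_singleton]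
      rcases prim_list (k + 2) hp.1 h1 h2 hp.2 with h3 | h3
      · left
        exact Prod.ext h3.1 h3.2
      · right
        exact Prod.ext h3.1 h3.2

theorem W_four : W 4 = 0 := by
  decide +kernel

theorem W_even (n : ℕ) :
    W (4 * 157 ^ (2 * n)) = ∑ j ∈ Finset.range n, Gam (A (2 * (j + 1))) (B (2 * (j + 1))) := by
  induction n with
  | zero => simpa using W_four
  | succ n ih =>
    rw [Finset.sum_range_succ, ← ih]
    exact Gam_sum (2 * n)

theorem Gam_eq {a b : ℤ} (ha : a % 12 = 1) (hb : b % 12 = 0) :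
    Gam a b = if 0 < a * (a - b) ∧ 0 < (2 * b - a) * (a + b) then (if 0 < 2 * a - b then -1 else 1)
      else 0 := by
  have e1 : w (a + b).natAbs (a - b).natAbs =
      if 0 < a + b ∧ a - b < 0 then 1 else if a + b < 0 ∧ 0 < a - b then -1 else 0 := by
    unfold w
    rcases lt_or_gt_of_ne (show a + b ≠ 0 by omega) with h1 | h1 <;>
      rcases lt_or_gt_of_ne (show a - b ≠ 0 by omega) with h2 | h2
    · rw [if_neg (by omega), if_neg (by omega), if_neg (by omega), if_neg (by omega),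
        if_neg (by omega), if_neg (by omega)]; norm_num
    · rw [if_neg (by omega), if_neg (by omega), if_neg (by omega), if_pos (by omega),
        if_neg (by omega), if_pos (by omega)]; norm_num
    · rw [if_pos (by omega), if_neg (by omega), if_neg (by omega), if_neg (by omega),
        if_pos (by omega)]; norm_num
    · rw [if_neg (by omega), if_neg (by omega), if_neg (by omega), if_neg (by omega),
        if_neg (by omega), if_neg (by omega)]; norm_num
  have e2 : w (2 * b - a).natAbs a.natAbs =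
      if 2 * b - a < 0 ∧ a < 0 then 1 else if 0 < 2 * b - a ∧ 0 < a then -1 else 0 := by
    unfold w
    rcases lt_or_gt_of_ne (show 2 * b - a ≠ 0 by omega) with h1 | h1 <;>
      rcases lt_or_gt_of_ne (show a ≠ 0 by omega) with h2 | h2
    · rw [if_pos (by omega), if_neg (by omega), if_neg (by omega), if_neg (by omega),
        if_pos (by omega)]; norm_num
    · rw [if_neg (by omega), if_neg (by omega), if_neg (by omega), if_neg (by omega),
        if_neg (by omega), if_neg (by omega)]; norm_num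
    · rw [if_neg (by omega), if_neg (by omega), if_neg (by omega), if_neg (by omega),
        if_neg (by omega), if_neg (by omega)]; norm_num
    · rw [if_neg (by omega), if_neg (by omega), if_neg (by omega), if_pos (by omega),
        if_neg (by omega), if_pos (by omega)]; norm_num
  unfold Gam
  rw [e1, e2]
  simp only [mul_pos_iff]
  split_ifs <;> omega

end Pool.Agent.R317.ToA
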