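import Mathlib

/-!
Diophantine approximation by odd numbers: for irrational `α` there are arbitrarily large odd `m`
with `|m α - p| ≤ 1/m`.
-/

namespace Pool.Agent.R317.ToB1

open Real

/-- a uniform lower bound for the distances of `j α` to the integers, `0 < j < B` -/
theorem exists_gap {α : ℝ} (hα : Irrational α) (B : ℕ) :
    ∃ ε : ℝ, 0 < ε ∧ ∀ j : ℕ, 0 < j → j < B → ∀ p : ℤ, ε < |(j : ℝ) * α - p| := by
  induction B with
  | zero => exact ⟨1, one_pos, fun j _ h => absurd h (Nat.not_lt_zero _)⟩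
  | succ B ih =>
    obtain ⟨ε, hε, h⟩ := ih
    rcases Nat.eq_zero_or_pos B with rfl | hB
    · exact ⟨1, one_pos, fun j h1 h2 => by omega⟩
    have hd : 0 < |(B : ℝ) * α - round ((B : ℝ) * α)| := by
      rw [abs_pos, sub_ne_zero]
      intro e
      have hi : Irrational ((B : ℝ) * α) := by
        have := hα.natCast_mul (m := B) (by omega)
        exact this
      exact hi.ne_int _ e
    refine ⟨min ε (|(B : ℝ) * α - round ((B : ℝ) * α)| / 2), lt_min hε (by linarith), ?_⟩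
    intro j hj hjB p
    rcases Nat.lt_succ_iff_lt_or_eq.mp hjB with h1 | h1
    · exact lt_of_le_of_lt (min_le_left _ _) (h j hj h1 p)
    · subst h1
      have h2 := round_le ((j : ℝ) * α) p
      have h3 := min_le_right ε (|(j : ℝ) * α - round ((j : ℝ) * α)| / 2)
      linarith

theorem approx_odd {α : ℝ} (hα : Irrational α) (B : ℕ) :
    ∃ m : ℕ, B ≤ m ∧ 0 < m ∧ m % 2 = 1 ∧ ∃ p : ℤ, |(m : ℝ) * α - p| ≤ 1 / m := by
  classical
  obtain ⟨ε, hε, hgap⟩ := exists_gap hα B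
  obtain ⟨n0, hn0⟩ := exists_nat_one_div_lt hε
  obtain ⟨n, hn, hnε⟩ : ∃ n : ℕ, 0 < n ∧ 1 / ((n : ℝ) + 1) < ε := by
    refine ⟨n0 + 1, Nat.succ_pos _, lt_of_le_of_lt ?_ hn0⟩
    apply one_div_le_one_div_of_le
    · positivity
    · push_cast; linarith
  have hex : ∃ k : ℕ, 0 < k ∧ ∃ p : ℤ, |(k : ℝ) * α - p| ≤ 1 / ((n : ℝ) + 1) := by
    obtain ⟨k, h1, _, h3⟩ := Real.exists_nat_abs_mul_sub_round_le α hn
    exact ⟨k, h1, _, h3⟩
  obtain ⟨hk0, p, hp⟩ := Nat.find_spec hex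
  have hmin : ∀ j : ℕ, 0 < j → (∃ p : ℤ, |(j : ℝ) * α - p| ≤ 1 / ((n : ℝ) + 1)) →
      Nat.find hex ≤ j := fun j h1 h2 => Nat.find_min' hex ⟨h1, h2⟩
  set k := Nat.find hex with hk
  have hkn : k ≤ n := by
    obtain ⟨k', h1, h2, h3⟩ := Real.exists_nat_abs_mul_sub_round_le α hn
    exact (hmin k' h1 ⟨_, h3⟩).trans h2
  have hnpos : (0 : ℝ) < (n : ℝ) + 1 := by positivity
  have hkpos : (0 : ℝ) < k := by exact_mod_cast hk0
  have hkB : B ≤ k := by
    by_contra hlt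
    push Not at hlt
    have := hgap k hk0 hlt p
    linarith
  have hkn' : (k : ℝ) ≤ n := by exact_mod_cast hkn
  have hgood : |(k : ℝ) * α - p| ≤ 1 / k := by
    refine hp.trans (one_div_le_one_div_of_le hkpos (by linarith))
  by_cases hodd : k % 2 = 1
  · exact ⟨k, hkB, hk0, hodd, p, hgood⟩
  -- the even case
  have hirr : Irrational ((k : ℝ) * α) := hα.natCast_mul (by omega)
  set e := |(k : ℝ) * α - p| with he
  have hepos : 0 < e := by
    rw [he, abs_pos, sub_ne_zero]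
    exact hirr.ne_int _
  have he1 : e ≤ 1 := by
    refine hp.trans ?_
    rw [div_le_one hnpos]
    have : (1 : ℝ) ≤ n := by exact_mod_cast hn
    linarith
  set N := ⌊1 / e⌋₊ with hN
  have hN1 : 1 ≤ N := by
    rw [hN, Nat.one_le_floor_iff, le_div_iff₀ hepos]
    linarith
  have hNe : (N : ℝ) * e ≤ 1 := by
    have := Nat.floor_le (show (0 : ℝ) ≤ 1 / e by positivity)
    rw [le_div_iff₀ hepos] at this
    exact this
  have hNlt : 1 / ((N : ℝ) + 1) < e := by
    have := Nat.lt_floor_add_one (1 / e)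
    rw [div_lt_iff₀ hepos] at this
    rw [div_lt_iff₀ (by positivity)]
    rw [mul_comm]
    exact this
  obtain ⟨k', hk'0, hk'N, hk'⟩ := Real.exists_nat_abs_mul_sub_round_le α hN1
  set p' := round ((k' : ℝ) * α) with hp'
  have hk'pos : (0 : ℝ) < k' := by exact_mod_cast hk'0
  have hk'N' : (k' : ℝ) ≤ N := by exact_mod_cast hk'N
  set e' := |(k' : ℝ) * α - p'| with he'
  have hlt : e' < e := lt_of_le_of_lt hk' hNlt
  have hkk' : k ≤ k' := hmin k' hk'0 ⟨p', (hlt.le.trans hp)⟩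
  have hkk'R : (k : ℝ) ≤ k' := by exact_mod_cast hkk'
  have hgood' : e' ≤ 1 / k' := by
    refine hk'.trans (one_div_le_one_div_of_le hk'pos (by linarith))
  refine ⟨k', hkB.trans hkk', hk'0, ?_, p', hgood'⟩
  by_contra hev
  have hdet : |((k : ℤ) * p' - k' * p : ℤ)| < 2 := by
    have h1 : (((k : ℤ) * p' - k' * p : ℤ) : ℝ)
        = k' * ((k : ℝ) * α - p) - k * ((k' : ℝ) * α - p') := by
      push_cast; ring
    have h2 : |(((k : ℤ) * p' - k' * p : ℤ) : ℝ)| ≤ k' * e + k * e' := by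
      rw [h1]
      refine (abs_sub _ _).trans ?_
      rw [abs_mul, abs_mul, abs_of_pos hk'pos, abs_of_pos hkpos]
    have h3 : (k' : ℝ) * e ≤ 1 := le_trans (by gcongr) hNe
    have h4 : (k : ℝ) * e' < 1 := by
      have h5 : (k : ℝ) * e' < k * e := by gcongr
      have h6 : (k : ℝ) * e ≤ k * (1 / ((n : ℝ) + 1)) := by gcongr
      have h7 : (k : ℝ) * (1 / ((n : ℝ) + 1)) ≤ 1 := by
        rw [mul_one_div, div_le_one hnpos]; linarith
      linarith
    have h8 : |(((k : ℤ) * p' - k' * p : ℤ) : ℝ)| < 2 := by linarith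
    have h9 : ((|((k : ℤ) * p' - k' * p : ℤ)| : ℤ) : ℝ) < ((2 : ℤ) : ℝ) := by
      rw [Int.cast_abs]; exact_mod_cast h8
    exact_mod_cast h9
  have hdet0 : (k : ℤ) * p' - k' * p = 0 := by
    obtain ⟨a, ha⟩ : ∃ a : ℤ, (k : ℤ) = 2 * a := ⟨(k : ℤ) / 2, by omega⟩
    obtain ⟨b, hb⟩ : ∃ b : ℤ, (k' : ℤ) = 2 * b := ⟨(k' : ℤ) / 2, by omega⟩
    rw [ha, hb] at hdet ⊢
    have : 2 * a * p' - 2 * b * p = 2 * (a * p' - b * p) := by ring
    rw [this] at hdet ⊢
    rw [abs_lt] at hdet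
    omega
  have h1 : (k' : ℝ) * e = k * e' := by
    have h2 : (k' : ℝ) * ((k : ℝ) * α - p) = k * ((k' : ℝ) * α - p') := by
      have : ((k : ℤ) * p' - k' * p : ℤ) = ((0 : ℤ) : ℝ) := by exact_mod_cast hdet0
      push_cast at this
      linarith
    have h3 := congrArg abs h2
    rw [abs_mul, abs_mul, abs_of_pos hk'pos, abs_of_pos hkpos] at h3
    exact h3
  have h2 : (k : ℝ) * e' < k * e := by gcongr
  have h3 : (k : ℝ) * e ≤ k' * e := by gcongr
  linarith

end Pool.Agent.R317.ToB1
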