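import Mathlib

/-!
The step function `F` on `ℝ/ℤ` and its Fourier coefficients of odd index.
-/

namespace Pool.Agent.R317.ToB2

open Real MeasureTheory Filter Topology

/-- the sign attached to a value of the cosine -/
noncomputable def G (c : ℝ) : ℝ := if 1 ≤ 4 * c ^ 2 ∧ 4 * c ^ 2 < 3 then (if 0 < c then -1 else 1) else 0

/-- the step function -/
noncomputable def F (x : ℝ) : ℝ := G (Real.cos (2 * π * x))

theorem measurable_G : Measurable G := by
  unfold G
  refine Measurable.ite ?_ (Measurable.ite ?_ measurable_const measurable_const) measurable_const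
  · have h1 : Measurable fun c : ℝ => 4 * c ^ 2 := by fun_prop
    exact MeasurableSet.inter (measurableSet_le measurable_const h1)
      (measurableSet_lt h1 measurable_const)
  · exact measurableSet_lt measurable_const measurable_id

theorem measurable_F : Measurable F := measurable_G.comp (by fun_prop)

theorem abs_G_le (c : ℝ) : |G c| ≤ 1 := by
  unfold G
  split_ifs <;> simp

theorem abs_F_le (x : ℝ) : |F x| ≤ 1 := abs_G_le _

theorem G_neg (c : ℝ) : G (-c) = - G c := by
  unfold G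
  have h : (-c) ^ 2 = c ^ 2 := by ring
  rw [h]
  by_cases h1 : 1 ≤ 4 * c ^ 2 ∧ 4 * c ^ 2 < 3
  · rw [if_pos h1, if_pos h1]
    have hc : c ≠ 0 := by
      rintro rfl
      norm_num at h1
    rcases lt_or_gt_of_ne hc with h2 | h2
    · rw [if_pos (by linarith), if_neg (by linarith)]
    · rw [if_neg (by linarith), if_pos h2]; norm_num
  · rw [if_neg h1, if_neg h1]; norm_num

theorem F_add_int (x : ℝ) (n : ℤ) : F (x + n) = F x := by
  unfold F
  have : 2 * π * (x + n) = 2 * π * x + n * (2 * π) := by ring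
  rw [this, Real.cos_add_int_mul_two_pi]

theorem F_periodic : Function.Periodic F 1 := by
  intro x
  have := F_add_int x 1
  simpa using this

theorem F_neg (x : ℝ) : F (-x) = F x := by
  unfold F
  have : 2 * π * (-x) = -(2 * π * x) := by ring
  rw [this, Real.cos_neg]

theorem F_add_half (x : ℝ) : F (x + 1 / 2) = - F x := by
  unfold F
  have : 2 * π * (x + 1 / 2) = 2 * π * x + π := by ring
  rw [this, Real.cos_add_pi, G_neg]

theorem F_zero : F 0 = 0 := by
  unfold F G
  norm_num

/-- `F = 0` on `[0, 1/12]` -/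
theorem F_first {x : ℝ} (h0 : 0 ≤ x) (h1 : x ≤ 1 / 12) : F x = 0 := by
  unfold F G
  have hpi := Real.pi_pos
  have h2 : √3 / 2 ≤ Real.cos (2 * π * x) := by
    rw [← Real.cos_pi_div_six]
    apply Real.cos_le_cos_of_nonneg_of_le_pi
    · positivity
    · linarith
    · nlinarith
  have h3 : 3 ≤ 4 * Real.cos (2 * π * x) ^ 2 := by
    have h4 : (√3 / 2) ^ 2 ≤ Real.cos (2 * π * x) ^ 2 := by gcongr
    have h5 : (√3) ^ 2 = 3 := Real.sq_sqrt (by norm_num)
    have h6 : (√3 / 2) ^ 2 = 3 / 4 := by rw [div_pow, h5]; norm_num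
    linarith
  rw [if_neg]
  rintro ⟨-, h⟩
  linarith

/-- `F = -1` on `(1/12, 1/6]` -/
theorem F_second {x : ℝ} (h0 : 1 / 12 < x) (h1 : x ≤ 1 / 6) : F x = -1 := by
  unfold F G
  have hpi := Real.pi_pos
  have h2 : Real.cos (2 * π * x) < √3 / 2 := by
    rw [← Real.cos_pi_div_six]
    apply Real.cos_lt_cos_of_nonneg_of_le_pi
    · positivity
    · nlinarith
    · nlinarith
  have h3 : 1 / 2 ≤ Real.cos (2 * π * x) := by
    rw [← Real.cos_pi_div_three]
    apply Real.cos_le_cos_of_nonneg_of_le_pi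
    · positivity
    · linarith
    · nlinarith
  have h5 : (√3) ^ 2 = 3 := Real.sq_sqrt (by norm_num)
  have h6 : (√3 / 2) ^ 2 = 3 / 4 := by rw [div_pow, h5]; norm_num
  rw [if_pos, if_pos (by linarith)]
  constructor
  · nlinarith
  · have : Real.cos (2 * π * x) ^ 2 < (√3 / 2) ^ 2 := by
      apply pow_lt_pow_left₀ h2 (by linarith) (by norm_num)
    linarith

/-- `F = 0` on `(1/6, 1/4]` -/
theorem F_third {x : ℝ} (h0 : 1 / 6 < x) (h1 : x ≤ 1 / 4) : F x = 0 := by
  unfold F G
  have hpi := Real.pi_pos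
  have h2 : Real.cos (2 * π * x) < 1 / 2 := by
    rw [← Real.cos_pi_div_three]
    apply Real.cos_lt_cos_of_nonneg_of_le_pi
    · positivity
    · nlinarith
    · nlinarith
  have h3 : 0 ≤ Real.cos (2 * π * x) := by
    apply Real.cos_nonneg_of_mem_Icc
    constructor
    · nlinarith
    · nlinarith
  rw [if_neg]
  rintro ⟨h, -⟩
  nlinarith

theorem bdd_intervalIntegrable {h : ℝ → ℝ} (hm : Measurable h) {C : ℝ} (hb : ∀ x, |h x| ≤ C)
    (a b : ℝ) : IntervalIntegrable h volume a b := by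
  rw [intervalIntegrable_iff]
  refine Measure.integrableOn_of_bounded (M := C) ?_ hm.aestronglyMeasurable ?_
  · rw [Set.uIoc]; exact measure_Ioc_lt_top.ne
  · exact Filter.Eventually.of_forall fun x => hb x

/-- the real Fourier coefficient, folded onto a quarter of the period -/
theorem int_cos_fold (m : ℕ) (hm : m % 2 = 1) :
    ∫ x in (0:ℝ)..1, F x * Real.cos (2 * π * m * x)
      = 4 * ∫ x in (0:ℝ)..(1/4), F x * Real.cos (2 * π * m * x) := by
  set h : ℝ → ℝ := fun x => F x * Real.cos (2 * π * m * x) with hh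
  have hmeas : Measurable h := measurable_F.mul (by fun_prop)
  have hbd : ∀ x, |h x| ≤ 1 := by
    intro x
    rw [hh]
    simp only
    rw [abs_mul]
    exact mul_le_one₀ (abs_F_le x) (abs_nonneg _) (Real.abs_cos_le_one _)
  have hint := bdd_intervalIntegrable hmeas hbd
  obtain ⟨k, hk⟩ : ∃ k : ℕ, m = 2 * k + 1 := ⟨m / 2, by omega⟩
  have hcospi : ∀ y : ℝ, Real.cos (y + π * m) = - Real.cos y := by
    intro y
    have : y + π * m = y + π + k * (2 * π) := by rw [hk]; push_cast; ring
    rw [this, Real.cos_add_nat_mul_two_pi, Real.cos_add_pi]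
  have hhalf : ∀ x, h (x + 1 / 2) = h x := by
    intro x
    simp only [hh]
    rw [F_add_half]
    have : 2 * π * m * (x + 1 / 2) = 2 * π * m * x + π * m := by ring
    rw [this, hcospi]
    ring
  have hneg : ∀ x, h (-x) = h x := by
    intro x
    simp only [hh]
    rw [F_neg]
    have : 2 * π * m * (-x) = -(2 * π * m * x) := by ring
    rw [this, Real.cos_neg]
  have hrefl : ∀ x, h (1 / 2 - x) = h x := by
    intro x
    have : 1 / 2 - x = -x + 1 / 2 := by ring
    rw [this, hhalf, hneg]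
  have e1 : ∫ x in (0:ℝ)..1, h x = (∫ x in (0:ℝ)..(1/2), h x) + ∫ x in (1/2:ℝ)..1, h x :=
    (intervalIntegral.integral_add_adjacent_intervals (hint _ _) (hint _ _)).symm
  have e2 : ∫ x in (1/2:ℝ)..1, h x = ∫ x in (0:ℝ)..(1/2), h x := by
    have := intervalIntegral.integral_comp_add_right (a := 0) (b := 1/2) h (1/2 : ℝ)
    rw [show (0:ℝ) + 1/2 = 1/2 by norm_num, show (1/2:ℝ) + 1/2 = 1 by norm_num] at this
    rw [← this]
    apply intervalIntegral.integral_congr
    intro x _
    exact hhalf x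
  have e3 : ∫ x in (0:ℝ)..(1/2), h x = (∫ x in (0:ℝ)..(1/4), h x) + ∫ x in (1/4:ℝ)..(1/2), h x :=
    (intervalIntegral.integral_add_adjacent_intervals (hint _ _) (hint _ _)).symm
  have e4 : ∫ x in (1/4:ℝ)..(1/2), h x = ∫ x in (0:ℝ)..(1/4), h x := by
    have := intervalIntegral.integral_comp_sub_left (a := 0) (b := 1/4) h (1/2 : ℝ)
    rw [show (1/2:ℝ) - 1/4 = 1/4 by norm_num, show (1/2:ℝ) - 0 = 1/2 by norm_num] at this
    rw [← this]
    apply intervalIntegral.integral_congr
    intro x _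
    exact hrefl x
  rw [e1, e2, e3, e4]
  ring

theorem int_cos_val (m : ℕ) (hm : m % 2 = 1) :
    ∫ x in (0:ℝ)..1, F x * Real.cos (2 * π * m * x)
      = 2 / (π * m) * (Real.sin (π * m / 6) - Real.sin (π * m / 3)) := by
  rw [int_cos_fold m hm]
  set h : ℝ → ℝ := fun x => F x * Real.cos (2 * π * m * x) with hh
  have hmeas : Measurable h := measurable_F.mul (by fun_prop)
  have hbd : ∀ x, |h x| ≤ 1 := by
    intro x
    rw [hh]
    simp only
    rw [abs_mul]
    exact mul_le_one₀ (abs_F_le x) (abs_nonneg _) (Real.abs_cos_le_one _)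
  have hint := bdd_intervalIntegrable hmeas hbd
  have e1 : ∫ x in (0:ℝ)..(1/4), h x
      = (∫ x in (0:ℝ)..(1/12), h x) + (∫ x in (1/12:ℝ)..(1/6), h x) + ∫ x in (1/6:ℝ)..(1/4), h x := by
    rw [intervalIntegral.integral_add_adjacent_intervals (hint _ _) (hint _ _),
      intervalIntegral.integral_add_adjacent_intervals (hint _ _) (hint _ _)]
  have e2 : ∫ x in (0:ℝ)..(1/12), h x = 0 := by
    have : ∫ x in (0:ℝ)..(1/12), h x = ∫ x in (0:ℝ)..(1/12), (0:ℝ) := by
      apply intervalIntegral.integral_congr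
      intro x hx
      rw [Set.uIcc_of_le (by norm_num)] at hx
      simp only [hh]
      rw [F_first hx.1 hx.2, zero_mul]
    rw [this]; simp
  have e3 : ∫ x in (1/6:ℝ)..(1/4), h x = 0 := by
    have : ∫ x in (1/6:ℝ)..(1/4), h x = ∫ x in (1/6:ℝ)..(1/4), (0:ℝ) := by
      apply intervalIntegral.integral_congr_ae
      refine Filter.Eventually.of_forall fun x hx => ?_
      rw [Set.uIoc_of_le (by norm_num)] at hx
      simp only [hh]
      rw [F_third hx.1 hx.2, zero_mul]
    rw [this]; simp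
  have e4 : ∫ x in (1/12:ℝ)..(1/6), h x = - ∫ x in (1/12:ℝ)..(1/6), Real.cos (2 * π * m * x) := by
    rw [← intervalIntegral.integral_neg]
    apply intervalIntegral.integral_congr_ae
    refine Filter.Eventually.of_forall fun x hx => ?_
    rw [Set.uIoc_of_le (by norm_num)] at hx
    simp only [hh]
    rw [F_second hx.1 hx.2]
    ring
  have hm0 : (m : ℝ) ≠ 0 := by
    have : m ≠ 0 := by omega
    exact_mod_cast this
  have hc : (2 * π * m : ℝ) ≠ 0 := by
    have := Real.pi_pos.ne'
    positivity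
  have e5 : ∫ x in (1/12:ℝ)..(1/6), Real.cos (2 * π * m * x)
      = (2 * π * m)⁻¹ * (Real.sin (π * m / 3) - Real.sin (π * m / 6)) := by
    rw [intervalIntegral.integral_comp_mul_left (fun x => Real.cos x) hc, integral_cos, smul_eq_mul]
    congr 3
    · ring
    · ring
  rw [e1, e2, e3, e4, e5]
  have hpi := Real.pi_pos.ne'
  field_simp
  ring

theorem sin_sub_sq (m : ℕ) (hm : m % 2 = 1) :
    1 / 9 ≤ (Real.sin (π * m / 6) - Real.sin (π * m / 3)) ^ 2 := by
  set s := Real.sin (π * m / 6) with hs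
  set c := Real.cos (π * m / 6) with hc
  have h1 : Real.sin (π * m / 3) = 2 * s * c := by
    rw [hs, hc, ← Real.sin_two_mul]; congr 1; ring
  have h2 : s ^ 2 + c ^ 2 = 1 := Real.sin_sq_add_cos_sq _
  have h3 : 4 * c ^ 3 - 3 * c = 0 := by
    rw [hc, ← Real.cos_three_mul]
    obtain ⟨k, hk⟩ : ∃ k : ℕ, m = 2 * k + 1 := ⟨m / 2, by omega⟩
    rw [Real.cos_eq_zero_iff]
    refine ⟨k, ?_⟩
    rw [hk]; push_cast; ring
  have h4 : c = 0 ∨ 4 * c ^ 2 = 3 := by
    have : c * (4 * c ^ 2 - 3) = 0 := by linarith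
    rcases mul_eq_zero.mp this with h | h
    · exact Or.inl h
    · exact Or.inr (by linarith)
  rw [h1]
  rcases h4 with h4 | h4
  · rw [h4] at h2 ⊢
    nlinarith
  · have h5 : s ^ 2 = 1 / 4 := by linarith
    have h6 : (s - 2 * s * c) ^ 2 = 1 / 4 * (4 - 4 * c) := by
      have : (s - 2 * s * c) ^ 2 = s ^ 2 * (1 - 4 * c + 4 * c ^ 2) := by ring
      rw [this, h5, h4]; ring
    rw [h6]
    have h7 : c ≤ 8 / 9 := by
      nlinarith
    linarith

/-- lower bound for the odd Fourier coefficients -/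
theorem abs_int_cos_ge (m : ℕ) (hm : m % 2 = 1) :
    2 / (3 * π * m) ≤ |∫ x in (0:ℝ)..1, F x * Real.cos (2 * π * m * x)| := by
  rw [int_cos_val m hm]
  have hm0 : (0 : ℝ) < m := by
    have : 0 < m := by omega
    exact_mod_cast this
  have hpi := Real.pi_pos
  rw [abs_mul, abs_of_pos (by positivity)]
  have h1 : (1 / 3 : ℝ) ≤ |Real.sin (π * m / 6) - Real.sin (π * m / 3)| := by
    have h2 := sin_sub_sq m hm
    rw [← sq_abs] at h2
    by_contra h3
    push Not at h3
    have h4 : |Real.sin (π * m / 6) - Real.sin (π * m / 3)| ^ 2 < (1 / 3) ^ 2 := by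
      apply pow_lt_pow_left₀ h3 (abs_nonneg _) (by norm_num)
    norm_num at h4 h2
    linarith
  calc 2 / (3 * π * m) = 2 / (π * m) * (1 / 3) := by field_simp
    _ ≤ _ := by gcongr

end Pool.Agent.R317.ToB2
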