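import Pool.Agent.R317.ToB1
import Pool.Agent.R317.ToB2

/-!
The Birkhoff sums `∑_{j=1}^n F(jα)` are unbounded for irrational `α`.
-/

namespace Pool.Agent.R317.ToB3

open Real MeasureTheory Filter Topology Pool.Agent.R317.ToB1 Pool.Agent.R317.ToB2

theorem G_contAt {c : ℝ} (h1 : 4 * c ^ 2 ≠ 1) (h3 : 4 * c ^ 2 ≠ 3) : ContinuousAt G c := by
  have hcont : Continuous fun x : ℝ => 4 * x ^ 2 := by fun_prop
  rcases lt_or_gt_of_ne h1 with h | h
  · have hev : ∀ᶠ x in 𝓝 c, 4 * x ^ 2 < 1 := (isOpen_lt hcont continuous_const).mem_nhds h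
    refine (continuousAt_const (y := (0:ℝ))).congr ?_
    filter_upwards [hev] with x hx
    unfold G
    rw [if_neg]
    rintro ⟨h', -⟩
    linarith
  · rcases lt_or_gt_of_ne h3 with h' | h'
    · have hev1 : ∀ᶠ x in 𝓝 c, 4 * x ^ 2 < 3 := (isOpen_lt hcont continuous_const).mem_nhds h'
      have hev2 : ∀ᶠ x in 𝓝 c, 1 < 4 * x ^ 2 := (isOpen_lt continuous_const hcont).mem_nhds h
      have hc : c ≠ 0 := by
        rintro rfl
        norm_num at h
      rcases lt_or_gt_of_ne hc with hc | hc
      · have hev3 : ∀ᶠ x in 𝓝 c, x < 0 := (isOpen_lt continuous_id continuous_const).mem_nhds hc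
        refine (continuousAt_const (y := (1:ℝ))).congr ?_
        filter_upwards [hev1, hev2, hev3] with x hx1 hx2 hx3
        unfold G
        rw [if_pos ⟨hx2.le, hx1⟩, if_neg (by linarith)]
      · have hev3 : ∀ᶠ x in 𝓝 c, 0 < x := (isOpen_lt continuous_const continuous_id).mem_nhds hc
        refine (continuousAt_const (y := (-1:ℝ))).congr ?_
        filter_upwards [hev1, hev2, hev3] with x hx1 hx2 hx3
        unfold G
        rw [if_pos ⟨hx2.le, hx1⟩, if_pos hx3]
    · have hev : ∀ᶠ x in 𝓝 c, 3 < 4 * x ^ 2 := (isOpen_lt continuous_const hcont).mem_nhds h'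
      refine (continuousAt_const (y := (0:ℝ))).congr ?_
      filter_upwards [hev] with x hx
      unfold G
      rw [if_neg]
      rintro ⟨-, h''⟩
      linarith

/-- Birkhoff sums -/
noncomputable def S (α : ℝ) (n : ℕ) (x : ℝ) : ℝ :=
  ∑ j ∈ Finset.range n, F (x + ((j : ℝ) + 1) * α)

theorem S_succ' (α : ℝ) (n : ℕ) (x : ℝ) : S α (n + 1) x = F (x + α) + S α n (x + α) := by
  unfold S
  rw [Finset.sum_range_succ', add_comm]
  congr 1
  · simp
  · apply Finset.sum_congr rfl
    intro j _
    congr 1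
    push_cast
    ring

theorem measurable_S (α : ℝ) (n : ℕ) : Measurable (S α n) := by
  unfold S
  apply Finset.measurable_sum
  intro j _
  exact measurable_F.comp (measurable_id.add_const _)

theorem S_periodic (α : ℝ) (n : ℕ) : Function.Periodic (S α n) 1 := by
  intro x
  unfold S
  apply Finset.sum_congr rfl
  intro j _
  have : x + 1 + ((j : ℝ) + 1) * α = x + ((j : ℝ) + 1) * α + 1 := by ring
  rw [this, F_periodic]

/-- the exceptional set -/
def Bad (α : ℝ) : Set ℝ :=
  {x | ∃ j : ℕ, 4 * Real.cos (2 * π * (x + ((j : ℝ) + 1) * α)) ^ 2 = 1 ∨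
    4 * Real.cos (2 * π * (x + ((j : ℝ) + 1) * α)) ^ 2 = 3}

theorem level_countable (β c : ℝ) : {x : ℝ | Real.cos (2 * π * (x + β)) = c}.Countable := by
  by_cases h : ∃ x0 : ℝ, Real.cos (2 * π * (x0 + β)) = c
  · obtain ⟨x0, hx0⟩ := h
    refine ((Set.countable_range (fun k : ℤ => x0 - (k : ℝ))).union
      (Set.countable_range (fun k : ℤ => (k : ℝ) - x0 - 2 * β))).mono ?_
    intro x hx
    rw [Set.mem_setOf_eq, ← hx0, Real.cos_eq_cos_iff] at hx
    obtain ⟨k, hk | hk⟩ := hx
    · left
      refine ⟨k, ?_⟩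
      have h2 : (2 * π) * (x0 - k) = (2 * π) * x := by linarith
      have hp : (2 * π) ≠ 0 := by have := Real.pi_pos; positivity
      exact mul_left_cancel₀ hp h2
    · right
      refine ⟨k, ?_⟩
      have h2 : (2 * π) * (k - x0 - 2 * β) = (2 * π) * x := by linarith
      have hp : (2 * π) ≠ 0 := by have := Real.pi_pos; positivity
      exact mul_left_cancel₀ hp h2
  · have : {x : ℝ | Real.cos (2 * π * (x + β)) = c} = ∅ := by
      ext x
      simp only [Set.mem_setOf_eq, Set.mem_empty_iff_false, iff_false]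
      exact fun hx => h ⟨x, hx⟩
    rw [this]
    exact Set.countable_empty

theorem Bad_countable (α : ℝ) : (Bad α).Countable := by
  have hsub : Bad α ⊆ ⋃ j : ℕ, (({x : ℝ | Real.cos (2 * π * (x + ((j : ℝ) + 1) * α)) = 1 / 2} ∪
      {x : ℝ | Real.cos (2 * π * (x + ((j : ℝ) + 1) * α)) = -(1 / 2)}) ∪
      ({x : ℝ | Real.cos (2 * π * (x + ((j : ℝ) + 1) * α)) = √3 / 2} ∪
      {x : ℝ | Real.cos (2 * π * (x + ((j : ℝ) + 1) * α)) = -(√3 / 2)})) := by
    rintro x ⟨j, hj⟩
    rw [Set.mem_iUnion]
    refine ⟨j, ?_⟩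
    set c := Real.cos (2 * π * (x + ((j : ℝ) + 1) * α)) with hc
    rcases hj with hj | hj
    · left
      have : (c - 1 / 2) * (c + 1 / 2) = 0 := by ring_nf; linarith
      rcases mul_eq_zero.mp this with h | h
      · left
        show c = 1 / 2
        linarith
      · right
        show c = -(1 / 2)
        linarith
    · right
      have h5 : (√3) ^ 2 = 3 := Real.sq_sqrt (by norm_num)
      have : (c - √3 / 2) * (c + √3 / 2) = 0 := by
        have e : (c - √3 / 2) * (c + √3 / 2) = c ^ 2 - (√3) ^ 2 / 4 := by ring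
        rw [e, h5]; linarith
      rcases mul_eq_zero.mp this with h | h
      · left
        show c = √3 / 2
        linarith
      · right
        show c = -(√3 / 2)
        linarith
  refine (Set.countable_iUnion fun j => ?_).mono hsub
  exact ((level_countable _ _).union (level_countable _ _)).union
    ((level_countable _ _).union (level_countable _ _))

theorem contAt_S {α x : ℝ} (hx : x ∉ Bad α) (n : ℕ) : ContinuousAt (S α n) x := by
  unfold S
  refine tendsto_finset_sum _ fun j _ => ?_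
  have h1 : ContinuousAt (fun y : ℝ => Real.cos (2 * π * (y + ((j : ℝ) + 1) * α))) x := by
    fun_prop
  have h2 : ContinuousAt G (Real.cos (2 * π * (x + ((j : ℝ) + 1) * α))) := by
    apply G_contAt
    · intro h; exact hx ⟨j, Or.inl h⟩
    · intro h; exact hx ⟨j, Or.inr h⟩
  exact ContinuousAt.comp (f := fun y : ℝ => Real.cos (2 * π * (y + ((j : ℝ) + 1) * α))) h2 h1

/-- bound for all integer translates -/
theorem shift_bound {α K : ℝ} (hb : ∀ n : ℕ, |∑ j ∈ Finset.range n, F (((j : ℝ) + 1) * α)| ≤ K)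
    (k : ℤ) (n : ℕ) : |∑ j ∈ Finset.range n, F (((k : ℝ) + 1 + j) * α)| ≤ 2 * K := by
  set D : ℤ → ℝ := fun k => if 0 ≤ k then ∑ j ∈ Finset.range k.toNat, F (((j : ℝ) + 1) * α)
    else - ∑ j ∈ Finset.range (-k - 1).toNat, F (((j : ℝ) + 1) * α) with hD
  have hDb : ∀ k, |D k| ≤ K := by
    intro k
    rw [hD]
    simp only
    split_ifs
    · exact hb _
    · rw [abs_neg]; exact hb _
  have hstep : ∀ k : ℤ, D (k + 1) = D k + F (((k : ℝ) + 1) * α) := by
    intro k
    rcases lt_trichotomy k (-1) with h | h | h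
    · obtain ⟨i, rfl⟩ : ∃ i : ℕ, k = -((i : ℤ) + 2) := ⟨(-k - 2).toNat, by omega⟩
      simp only [hD]
      rw [if_neg (by omega), if_neg (by omega)]
      have e1 : (-(-((i : ℤ) + 2) + 1) - 1).toNat = i := by omega
      have e2 : (-(-((i : ℤ) + 2)) - 1).toNat = i + 1 := by omega
      rw [e1, e2, Finset.sum_range_succ]
      have e3 : F (((-((i : ℤ) + 2) : ℤ) + 1 : ℝ) * α) = F (((i : ℝ) + 1) * α) := by
        rw [← F_neg]
        congr 1
        push_cast
        ring
      rw [e3]
      ring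
    · subst h
      simp only [hD]
      rw [if_pos (by omega), if_neg (by omega)]
      have e3 : F (((-1 : ℤ) + 1 : ℝ) * α) = 0 := by
        push_cast
        rw [show (-1 + 1 : ℝ) = 0 by norm_num, zero_mul, F_zero]
      rw [e3]
      simp
    · obtain ⟨i, rfl⟩ : ∃ i : ℕ, k = i := ⟨k.toNat, by omega⟩
      simp only [hD]
      rw [if_pos (by omega), if_pos (by omega)]
      have e1 : ((i : ℤ) + 1).toNat = i + 1 := by omega
      have e2 : (i : ℤ).toNat = i := by omega
      rw [e1, e2, Finset.sum_range_succ]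
      push_cast
      ring
  have htel : ∀ n : ℕ, D (k + n) = D k + ∑ j ∈ Finset.range n, F (((k : ℝ) + 1 + j) * α) := by
    intro n
    induction n with
    | zero => simp
    | succ n ih =>
      rw [Finset.sum_range_succ]
      have : k + ((n + 1 : ℕ) : ℤ) = (k + n) + 1 := by push_cast; ring
      rw [this, hstep, ih]
      have e : (((k + n : ℤ) : ℝ) + 1) = (k : ℝ) + 1 + n := by push_cast; ring
      rw [e]
      ring
  have h1 := htel n
  have h2 : ∑ j ∈ Finset.range n, F (((k : ℝ) + 1 + j) * α) = D (k + n) - D k := by linarith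
  rw [h2]
  refine (abs_sub _ _).trans ?_
  have h3 := hDb (k + n)
  have h4 := hDb k
  linarith

theorem S_bound {α K : ℝ} (hα : Irrational α)
    (hb : ∀ n : ℕ, |∑ j ∈ Finset.range n, F (((j : ℝ) + 1) * α)| ≤ K)
    {x : ℝ} (hx : x ∉ Bad α) (n : ℕ) : |S α n x| ≤ 2 * K := by
  have hd : Dense (AddSubgroup.closure {α, (1 : ℝ)} : Set ℝ) := by
    rw [dense_addSubgroupClosure_pair_iff, div_one]
    exact hα
  have hmaps : Set.MapsTo (S α n) (AddSubgroup.closure {α, (1 : ℝ)} : Set ℝ)
      {y : ℝ | |y| ≤ 2 * K} := by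
    intro z hz
    obtain ⟨k, m, hkm⟩ := AddSubgroup.mem_closure_pair.mp hz
    have e : S α n z = ∑ j ∈ Finset.range n, F (((k : ℝ) + 1 + j) * α) := by
      unfold S
      apply Finset.sum_congr rfl
      intro j _
      rw [← F_add_int (((k : ℝ) + 1 + j) * α) m]
      congr 1
      rw [← hkm]
      simp only [zsmul_eq_mul, mul_one]
      ring
    show |S α n z| ≤ 2 * K
    rw [e]
    exact shift_bound hb k n
  have h1 := ((contAt_S hx n).continuousWithinAt (s := (AddSubgroup.closure {α, (1 : ℝ)} : Set ℝ))).mem_closure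
    (hd x) hmaps
  have hcl : IsClosed {y : ℝ | |y| ≤ 2 * K} := isClosed_le continuous_abs continuous_const
  rw [hcl.closure_eq] at h1
  exact h1

/-- the transfer function -/
noncomputable def g (α : ℝ) (x : ℝ) : ℝ := limsup (fun n => S α n x) atTop

theorem measurable_g (α : ℝ) : Measurable (g α) := Measurable.limsup fun n => measurable_S α n

theorem g_periodic (α : ℝ) : Function.Periodic (g α) 1 := by
  intro x
  unfold g
  congr 1
  funext n
  exact S_periodic α n x

theorem bdd_above_of {u : ℕ → ℝ} {C : ℝ} (h : ∀ n, |u n| ≤ C) :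
    IsBoundedUnder (· ≤ ·) atTop u :=
  isBoundedUnder_of ⟨C, fun n => (abs_le.mp (h n)).2⟩

theorem bdd_below_of {u : ℕ → ℝ} {C : ℝ} (h : ∀ n, |u n| ≤ C) :
    IsBoundedUnder (· ≥ ·) atTop u :=
  isBoundedUnder_of ⟨-C, fun n => (abs_le.mp (h n)).1⟩

theorem g_abs_le {α K : ℝ} {x : ℝ} (h : ∀ n, |S α n x| ≤ K) : |g α x| ≤ K := by
  unfold g
  rw [abs_le]
  constructor
  · exact le_limsup_of_frequently_le (Frequently.of_forall fun n => (abs_le.mp (h n)).1)
      (bdd_above_of h)
  · exact limsup_le_of_le (bdd_below_of h).isCoboundedUnder_le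
      (Eventually.of_forall fun n => (abs_le.mp (h n)).2)

theorem g_eq {α K : ℝ} {x : ℝ} (h : ∀ n, |S α n x| ≤ K) : g α x = F (x + α) + g α (x + α) := by
  have h' : ∀ n, |S α n (x + α)| ≤ K + 1 := by
    intro n
    have h1 := S_succ' α n x
    have h2 : S α n (x + α) = S α (n + 1) x - F (x + α) := by linarith
    rw [h2]
    refine (abs_sub _ _).trans ?_
    have h3 := h (n + 1)
    have h4 := abs_F_le (x + α)
    linarith
  unfold g
  rw [← limsup_nat_add (fun n => S α n x) 1]
  have h1 : (fun i => S α (i + 1) x) = fun i => F (x + α) + S α i (x + α) := by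
    funext i
    exact S_succ' α i x
  rw [h1, limsup_const_add atTop _ _ (bdd_above_of h') (bdd_below_of h').isCoboundedUnder_le]

/-- the additive character -/
noncomputable def ex (t : ℝ) : ℂ := Complex.exp (Complex.I * ((2 * π * t : ℝ) : ℂ))

theorem ex_add (s t : ℝ) : ex (s + t) = ex s * ex t := by
  unfold ex
  rw [← Complex.exp_add]
  congr 1
  push_cast
  ring

theorem norm_ex (t : ℝ) : ‖ex t‖ = 1 := by
  unfold ex
  rw [mul_comm]
  exact Complex.norm_exp_ofReal_mul_I _

theorem ex_int (n : ℤ) : ex n = 1 := by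
  unfold ex
  rw [Complex.exp_eq_one_iff]
  refine ⟨n, ?_⟩
  push_cast
  ring

theorem continuous_ex : Continuous ex := by
  unfold ex
  fun_prop

/-- Fourier coefficients -/
noncomputable def fc (h : ℝ → ℝ) (m : ℕ) : ℂ := ∫ x in (0:ℝ)..1, ex (-(m * x)) * (h x : ℂ)

theorem u_periodic {h : ℝ → ℝ} (hp : Function.Periodic h 1) (m : ℕ) :
    Function.Periodic (fun x : ℝ => ex (-(m * x)) * (h x : ℂ)) 1 := by
  intro x
  simp only
  rw [hp]
  have e1 : -((m : ℝ) * (x + 1)) = -(m * x) + ((-(m : ℤ) : ℤ) : ℝ) := by push_cast; ring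
  rw [e1, ex_add, ex_int, mul_one]

theorem int_shift {u : ℝ → ℂ} (hp : Function.Periodic u 1) (α : ℝ) :
    ∫ x in (0:ℝ)..1, u (x + α) = ∫ x in (0:ℝ)..1, u x := by
  rw [intervalIntegral.integral_comp_add_right]
  have := hp.intervalIntegral_add_eq α 0
  rw [zero_add] at this
  rw [zero_add, add_comm 1 α]
  exact this

theorem integrable_u {h : ℝ → ℝ} (hm : Measurable h) {C : ℝ} (hb : ∀ᵐ x, |h x| ≤ C) (m : ℕ)
    (a b : ℝ) : IntervalIntegrable (fun x : ℝ => ex (-(m * x)) * (h x : ℂ)) volume a b := by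
  rw [intervalIntegrable_iff]
  refine Measure.integrableOn_of_bounded (M := C) ?_ ?_ ?_
  · rw [Set.uIoc]; exact measure_Ioc_lt_top.ne
  · have h1 : Measurable fun x : ℝ => ex (-(m * x)) :=
      (continuous_ex.comp (by fun_prop)).measurable
    exact (h1.mul (Complex.measurable_ofReal.comp hm)).aestronglyMeasurable
  · refine ae_restrict_of_ae ?_
    filter_upwards [hb] with x hx
    rw [norm_mul, norm_ex, one_mul, Complex.norm_real]
    exact hx

theorem fc_F_re (m : ℕ) : (fc F m).re = ∫ x in (0:ℝ)..1, F x * Real.cos (2 * π * m * x) := by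
  unfold fc
  have hint := integrable_u measurable_F (Eventually.of_forall abs_F_le) m 0 1
  have h1 := Complex.reCLM.intervalIntegral_comp_comm hint
  simp only [Complex.reCLM_apply] at h1
  rw [← h1]
  apply intervalIntegral.integral_congr
  intro x _
  simp only [ex]
  rw [Complex.mul_re, mul_comm Complex.I, Complex.exp_ofReal_mul_I_re, Complex.ofReal_re,
    Complex.ofReal_im, mul_zero, sub_zero, mul_comm (F x)]
  congr 1
  rw [← Real.cos_neg]
  congr 1
  ring

/-- Riemann-Lebesgue on the integers -/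
theorem fc_tendsto (h : ℝ → ℝ) : Tendsto (fun m : ℕ => fc h m) atTop (𝓝 0) := by
  have h1 := Real.tendsto_integral_exp_smul_cocompact
    (Set.indicator (Set.Ioc (0:ℝ) 1) (fun x => (h x : ℂ)))
  have h2 : Tendsto (fun m : ℕ => (m : ℝ)) atTop (cocompact ℝ) :=
    (tendsto_natCast_atTop_atTop).mono_right atTop_le_cocompact
  refine (h1.comp h2).congr ?_
  intro m
  unfold fc
  rw [intervalIntegral.integral_of_le zero_le_one, ← integral_indicator measurableSet_Ioc]
  simp only [Function.comp]
  congr 1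
  funext v
  by_cases hv : v ∈ Set.Ioc (0:ℝ) 1
  · rw [Set.indicator_of_mem hv, Set.indicator_of_mem hv, Circle.smul_def, smul_eq_mul,
      Real.fourierChar_apply]
    congr 1
    unfold ex
    congr 1
    push_cast
    ring
  · rw [Set.indicator_of_notMem hv, Set.indicator_of_notMem hv, smul_zero]

theorem norm_one_sub_ex (t : ℝ) (p : ℤ) : ‖1 - ex t‖ ≤ 2 * π * |t - p| := by
  have h1 : ex t = ex (t - p) := by
    have : ex t = ex ((t - p) + p) := by congr 1; ring
    rw [this, ex_add, ex_int, mul_one]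
  rw [h1, norm_sub_rev]
  unfold ex
  refine (Real.norm_exp_I_mul_ofReal_sub_one_le).trans ?_
  rw [Real.norm_eq_abs, abs_mul, abs_of_pos (by have := Real.pi_pos; positivity)]

/-- **The Birkhoff sums of `F` along an irrational rotation are unbounded.** -/
theorem unbounded {α : ℝ} (hα : Irrational α) (K : ℝ) :
    ¬ ∀ n : ℕ, |∑ j ∈ Finset.range n, F (((j : ℝ) + 1) * α)| ≤ K := by
  intro hb
  have hae : ∀ᵐ x : ℝ, x ∉ Bad α := (Bad_countable α).ae_notMem volume
  have hS : ∀ x, x ∉ Bad α → ∀ n, |S α n x| ≤ 2 * K := fun x hx n => S_bound hα hb hx n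
  have hgb : ∀ᵐ x : ℝ, |g α x| ≤ 2 * K := by
    filter_upwards [hae] with x hx
    exact g_abs_le (hS x hx)
  have key : ∀ m : ℕ, fc (g α) m = ex (m * α) * (fc F m + fc (g α) m) := by
    intro m
    have hpF := u_periodic F_periodic m
    have hpg := u_periodic (g_periodic α) m
    have hiF := integrable_u measurable_F (Eventually.of_forall abs_F_le) m
    have hig := integrable_u (measurable_g α) hgb m
    have e1 : fc (g α) m = ∫ x in (0:ℝ)..1, ex (m * α) *
        ((ex (-(m * (x + α))) * (F (x + α) : ℂ)) + (ex (-(m * (x + α))) * (g α (x + α) : ℂ))) := by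
      unfold fc
      apply intervalIntegral.integral_congr_ae
      filter_upwards [hae] with x hx _
      rw [g_eq (hS x hx)]
      have e2 : ex (-(m * x)) = ex (m * α) * ex (-(m * (x + α))) := by
        rw [← ex_add]; congr 1; ring
      rw [e2]
      push_cast
      ring
    refine e1.trans ?_
    rw [intervalIntegral.integral_const_mul, intervalIntegral.integral_add]
    · rw [int_shift hpF, int_shift hpg]
      rfl
    · have := (hiF (0 + α) (1 + α)).comp_add_right α
      simpa using this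
    · have := (hig (0 + α) (1 + α)).comp_add_right α
      simpa using this
  have hnorm : ∀ m : ℕ, ‖fc F m‖ = ‖fc (g α) m‖ * ‖1 - ex (m * α)‖ := by
    intro m
    have h1 : ex (m * α) * fc F m = fc (g α) m * (1 - ex (m * α)) := by
      have := key m
      linear_combination -this
    have h2 := congrArg norm h1
    rw [norm_mul, norm_mul, norm_ex, one_mul] at h2
    exact h2
  have hpi := Real.pi_pos
  have hev : ∀ᶠ m : ℕ in atTop, ‖fc (g α) m‖ < 1 / (3 * π ^ 2) := by
    have h1 := (fc_tendsto (g α)).norm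
    rw [norm_zero] at h1
    exact h1.eventually (gt_mem_nhds (by positivity))
  obtain ⟨B, hB⟩ := eventually_atTop.mp hev
  obtain ⟨m, hmB, hm0, hmodd, p, hp⟩ := approx_odd hα B
  have hm0' : (0 : ℝ) < m := by exact_mod_cast hm0
  have h1 : 2 / (3 * π * m) ≤ ‖fc F m‖ := by
    refine (abs_int_cos_ge m hmodd).trans ?_
    rw [← fc_F_re]
    exact Complex.abs_re_le_norm _
  have h2 : ‖1 - ex (m * α)‖ ≤ 2 * π * (1 / m) := by
    refine (norm_one_sub_ex _ p).trans ?_
    gcongr
  have h3 := hB m hmB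
  have h4 : ‖fc F m‖ < 1 / (3 * π ^ 2) * (2 * π * (1 / m)) := by
    rw [hnorm]
    rcases (norm_nonneg (1 - ex (m * α))).eq_or_lt with h0 | h0
    · rw [← h0, mul_zero]; positivity
    · calc ‖fc (g α) m‖ * ‖1 - ex (m * α)‖ < 1 / (3 * π ^ 2) * ‖1 - ex (m * α)‖ := by gcongr
        _ ≤ _ := by gcongr
  have h5 : 1 / (3 * π ^ 2) * (2 * π * (1 / m)) = 2 / (3 * π * m) := by
    field_simp
  linarith

end Pool.Agent.R317.ToB3
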