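import Pool.Agent.R317.ToA

/-!
The coefficients of the product form are the signed counts `W (24N+28)`.
-/

namespace Pool.Agent.R317.ToC

open Pool.Agent.R317.ToA Finset

/-- `∑_{n ≥ 0} q^{f n}`: the coefficient of `q^e` is the number of `n` with `f n = e` -/
noncomputable def ser (f : ℕ → ℕ) : PowerSeries ℤ :=
  PowerSeries.mk fun e => ((Set.ncard {n : ℕ | f n = e} : ℕ) : ℤ)

theorem coeff_ser {f : ℕ → ℕ} (hf : ∀ n, n ≤ f n) {N e : ℕ} (he : e ≤ N) :
    PowerSeries.coeff e (ser f) = ∑ n ∈ range (N + 1), if f n = e then (1 : ℤ) else 0 := by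
  unfold ser
  rw [PowerSeries.coeff_mk, Finset.sum_boole]
  congr 1
  rw [← Set.ncard_coe_finset]
  congr 1
  ext n
  simp only [Finset.coe_filter, Finset.mem_range]
  constructor
  · intro h
    have h' : f n = e := h
    have := hf n
    exact ⟨by omega, h'⟩
  · rintro ⟨-, h⟩
    exact h

theorem coeff_mul_ser {f g : ℕ → ℕ} (hf : ∀ n, n ≤ f n) (hg : ∀ n, n ≤ g n) (N : ℕ) :
    PowerSeries.coeff N (ser f * ser g) =
      ∑ n ∈ range (N + 1), ∑ m ∈ range (N + 1), if f n + g m = N then (1 : ℤ) else 0 := by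
  rw [PowerSeries.coeff_mul]
  have h1 : ∀ p ∈ antidiagonal N, PowerSeries.coeff p.1 (ser f) * PowerSeries.coeff p.2 (ser g)
      = ∑ n ∈ range (N + 1), ∑ m ∈ range (N + 1), if f n = p.1 ∧ g m = p.2 then (1 : ℤ) else 0 := by
    intro p hp
    have := Finset.HasAntidiagonal.mem_antidiagonal.mp hp
    rw [coeff_ser hf (N := N) (by omega), coeff_ser hg (N := N) (by omega), Finset.sum_mul_sum]
    apply Finset.sum_congr rfl
    intro n _
    apply Finset.sum_congr rfl
    intro m _
    by_cases h1 : f n = p.1 <;> by_cases h2 : g m = p.2 <;> simp [h1, h2]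
  rw [Finset.sum_congr rfl h1, Finset.sum_comm]
  apply Finset.sum_congr rfl
  intro n _
  rw [Finset.sum_comm]
  apply Finset.sum_congr rfl
  intro m _
  by_cases h : f n + g m = N
  · rw [if_pos h, Finset.sum_eq_single (f n, g m)]
    · simp
    · intro p _ hne
      rw [if_neg]
      rintro ⟨h2, h3⟩
      exact hne (Prod.ext h2.symm h3.symm)
    · intro h2
      exact absurd (Finset.HasAntidiagonal.mem_antidiagonal.mpr h) h2
  · rw [if_neg h]
    apply Finset.sum_eq_zero
    intro p hp
    rw [if_neg]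
    rintro ⟨h2, h3⟩
    apply h
    rw [h2, h3]
    exact Finset.HasAntidiagonal.mem_antidiagonal.mp hp

theorem fam {f g : ℕ → ℕ} {r s : ℕ} (hr : r < 12) (hs : s < 4)
    (hid : ∀ n m, 24 * (f n + g m) + 28 = (12 * n + r) ^ 2 + 3 * (4 * m + s) ^ 2)
    (hf : ∀ n, n ≤ f n) (hg : ∀ n, n ≤ g n) (N : ℕ) :
    PowerSeries.coeff N (ser f * ser g) =
      ∑ p ∈ Sol (24 * N + 28), if p.1 % 12 = r ∧ p.2 % 4 = s then (1 : ℤ) else 0 := by
  rw [coeff_mul_ser hf hg, ← Finset.sum_product', Finset.sum_boole, Finset.sum_boole]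
  congr 1
  apply Finset.card_nbij (fun p => (12 * p.1 + r, 4 * p.2 + s))
  · intro p hp
    rw [Finset.mem_coe, Finset.mem_filter] at hp
    rw [Finset.mem_coe, Finset.mem_filter, mem_Sol]
    refine ⟨?_, ?_, ?_⟩
    · rw [← hp.2, hid]
    · simp only; omega
    · simp only; omega
  · intro p _ q _ h
    simp only [Prod.mk.injEq] at h
    ext <;> omega
  · intro p hp
    rw [Finset.mem_coe, Finset.mem_filter, mem_Sol] at hp
    obtain ⟨h1, h2, h3⟩ := hp
    have e1 : p.1 = 12 * (p.1 / 12) + r := by omega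
    have e2 : p.2 = 4 * (p.2 / 4) + s := by omega
    refine ⟨(p.1 / 12, p.2 / 4), ?_, ?_⟩
    · rw [Finset.mem_coe, Finset.mem_filter, Finset.mem_product, Finset.mem_range, Finset.mem_range]
      have h4 := hid (p.1 / 12) (p.2 / 4)
      rw [← e1, ← e2, h1] at h4
      have h5 := hf (p.1 / 12)
      have h6 := hg (p.2 / 4)
      simp only
      omega
    · ext
      · exact e1.symm
      · exact e2.symm

/-- the product form of `C(q)` -/
noncomputable def C : PowerSeries ℤ :=
  (ser (fun n => 6 * n ^ 2 + n) - ser (fun n => 6 * n ^ 2 + n + (4 * n + 1)))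
      * ser (fun n => 2 * n ^ 2 + 3 * n)
    + (ser (fun n => 6 * n ^ 2 + 7 * n + 1) - ser (fun n => 6 * n ^ 2 + 7 * n + 1 + (4 * n + 3)))
      * ser (fun n => 2 * n ^ 2 + n)

theorem coeff_C (N : ℕ) : PowerSeries.coeff N C = W (24 * N + 28) := by
  unfold C
  rw [map_add, sub_mul, sub_mul, map_sub, map_sub]
  rw [fam (r := 1) (s := 3) (by norm_num) (by norm_num) (by intro n m; ring)
      (fun n => by nlinarith) (fun n => by nlinarith),
    fam (r := 5) (s := 3) (by norm_num) (by norm_num) (by intro n m; ring)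
      (fun n => by nlinarith) (fun n => by nlinarith),
    fam (r := 7) (s := 1) (by norm_num) (by norm_num) (by intro n m; ring)
      (fun n => by nlinarith) (fun n => by nlinarith),
    fam (r := 11) (s := 1) (by norm_num) (by norm_num) (by intro n m; ring)
      (fun n => by nlinarith) (fun n => by nlinarith)]
  unfold W w
  rw [Finset.sum_sub_distrib, Finset.sum_add_distrib, Finset.sum_sub_distrib]
  ring

end Pool.Agent.R317.ToC
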