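import Pool.Agent.R317.ToA
import Pool.Agent.R317.ToB3

/-!
The signed count `W (4·157^(2n))` is a Birkhoff sum of an irrational rotation, hence unbounded.
-/

namespace Pool.Agent.R317.ToM

open Real Pool.Agent.R317.ToA Pool.Agent.R317.ToB2

/-- the Eisenstein integer `1 - 12ω = 7 - 6√-3` -/
noncomputable def pc : ℂ := ⟨7, -6 * √3⟩
/-- `ω` -/
noncomputable def om : ℂ := ⟨-1 / 2, √3 / 2⟩

theorem om_sq : om ^ 2 = -1 - om := by
  have h3 : √3 * √3 = 3 := Real.mul_self_sqrt (by norm_num)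
  rw [pow_two]
  apply Complex.ext
  · simp only [om, Complex.mul_re, Complex.sub_re, Complex.neg_re, Complex.one_re]
    linarith
  · simp only [om, Complex.mul_im, Complex.sub_im, Complex.neg_im, Complex.one_im]
    ring

theorem pc_eq : pc = 1 - 12 * om := by
  apply Complex.ext
  · simp [pc, om]; norm_num
  · simp [pc, om]; ring

theorem pc_pow (k : ℕ) : pc ^ k = (A k : ℂ) + (B k : ℂ) * om := by
  induction k with
  | zero => simp [A_zero, B_zero]
  | succ k ih =>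
    rw [pow_succ, ih, A_succ, B_succ, pc_eq]
    push_cast
    linear_combination (-12 * (B k : ℂ)) * om_sq

theorem normSq_pc : Complex.normSq pc = 157 := by
  have h3 : √3 * √3 = 3 := Real.mul_self_sqrt (by norm_num)
  rw [Complex.normSq_apply]
  simp only [pc]
  nlinarith

theorem norm_pc_sq : ‖pc‖ ^ 2 = 157 := by
  rw [← Complex.normSq_eq_norm_sq, normSq_pc]

/-- the angle -/
noncomputable def θ : ℝ := Complex.arg pc

theorem pc_pow_even (s : ℕ) :
    pc ^ (2 * s) = ((157 ^ s : ℝ) : ℂ) * Complex.exp (((2 * s * θ : ℝ) : ℂ) * Complex.I) := by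
  have h1 : (‖pc‖ : ℂ) * Complex.exp (θ * Complex.I) = pc := Complex.norm_mul_exp_arg_mul_I pc
  rw [← h1, mul_pow, ← Complex.exp_nat_mul, pow_mul]
  have h2 : (‖pc‖ : ℂ) ^ 2 = ((157 : ℝ) : ℂ) := by
    rw [← norm_pc_sq]; push_cast; rfl
  rw [h2]
  congr 1
  · push_cast; rfl
  · congr 1; push_cast; ring

theorem cos_eq (s : ℕ) :
    (157 : ℝ) ^ s * Real.cos (2 * s * θ) = (A (2 * s) : ℝ) - (B (2 * s) : ℝ) / 2 := by
  have h := congrArg Complex.re (pc_pow_even s)
  rw [pc_pow] at h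
  rw [Complex.re_ofReal_mul, Complex.exp_ofReal_mul_I_re] at h
  rw [← h]
  simp [om]
  ring

theorem sin_eq (s : ℕ) :
    (157 : ℝ) ^ s * Real.sin (2 * s * θ) = (B (2 * s) : ℝ) * (√3 / 2) := by
  have h := congrArg Complex.im (pc_pow_even s)
  rw [pc_pow] at h
  rw [Complex.im_ofReal_mul, Complex.exp_ofReal_mul_I_im] at h
  rw [← h]
  simp [om]

/-- the rotation number -/
noncomputable def α : ℝ := θ / π

theorem irrational_α : Irrational α := by
  rintro ⟨r, hr⟩
  have hpi := Real.pi_pos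
  have h1 : (r.den : ℝ) * θ = r.num * π := by
    have h2 : (r : ℝ) = r.num / r.den := Rat.cast_def r
    rw [h2] at hr
    unfold α at hr
    have hd : (r.den : ℝ) ≠ 0 := by exact_mod_cast r.den_ne_zero
    field_simp at hr
    linarith
  obtain ⟨k, hk⟩ : ∃ k : ℕ, r.den = k + 1 := ⟨r.den - 1, by have := r.den_pos; omega⟩
  have h3 := sin_eq r.den
  have h4 : (2 * (r.den : ℝ) * θ) = ((2 * r.num : ℤ) : ℝ) * π := by push_cast; linarith
  rw [h4, Real.sin_int_mul_pi, mul_zero] at h3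
  have h5 : (B (2 * r.den) : ℝ) ≠ 0 := by
    have : B (2 * r.den) ≠ 0 := by
      rw [hk, show 2 * (k + 1) = (2 * k + 1) + 1 by ring]
      exact B_ne_zero _
    exact_mod_cast this
  have h6 : (√3 / 2 : ℝ) ≠ 0 := by positivity
  exact (mul_ne_zero h5 h6) h3.symm

theorem Gam_G (s : ℕ) : (Gam (A (2 * s)) (B (2 * s)) : ℝ) = F (s * α) := by
  set a := A (2 * s) with ha
  set b := B (2 * s) with hb
  have hm := mod12 (2 * s)
  rw [← ha, ← hb] at hm
  have hn : a ^ 2 - a * b + b ^ 2 = 157 ^ (2 * s) := norm_eq (2 * s)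
  have hc := cos_eq s
  rw [← ha, ← hb] at hc
  have hR : (0 : ℝ) < 157 ^ s := by positivity
  have hpi := Real.pi_pos.ne'
  unfold F
  have e : 2 * π * (s * α) = 2 * s * θ := by unfold α; field_simp
  rw [e]
  set c := Real.cos (2 * s * θ) with hcc
  have hc2 : 2 * (157 : ℝ) ^ s * c = ((2 * a - b : ℤ) : ℝ) := by push_cast; linarith
  have hnR : ((a : ℝ)) ^ 2 - a * b + (b : ℝ) ^ 2 = ((157 : ℝ) ^ s) ^ 2 := by
    rw [← pow_mul, mul_comm s 2]
    exact_mod_cast hn
  have k1 : (1 ≤ 4 * c ^ 2) ↔ 0 < a * (a - b) := by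
    have h1 : ((157 : ℝ) ^ s) ^ 2 * (4 * c ^ 2) = ((2 * a - b : ℤ) : ℝ) ^ 2 := by
      rw [← hc2]; ring
    have h2 : ((157 : ℝ) ^ s) ^ 2 * (4 * c ^ 2 - 1) = 3 * ((a * (a - b) : ℤ) : ℝ) := by
      rw [mul_sub, h1, mul_one, ← hnR]; push_cast; ring
    have h3 : a * (a - b) ≠ 0 := mul_ne_zero (by omega) (by omega)
    have hR2 : (0 : ℝ) < ((157 : ℝ) ^ s) ^ 2 := by positivity
    constructor
    · intro h
      have h4 : (0 : ℝ) ≤ ((157 : ℝ) ^ s) ^ 2 * (4 * c ^ 2 - 1) := by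
        apply mul_nonneg hR2.le; linarith
      rw [h2] at h4
      have h5 : (0 : ℝ) ≤ ((a * (a - b) : ℤ) : ℝ) := by linarith
      have h6 : 0 ≤ a * (a - b) := by exact_mod_cast h5
      omega
    · intro h
      have h5 : (0 : ℝ) < ((a * (a - b) : ℤ) : ℝ) := by exact_mod_cast h
      have h4 : (0 : ℝ) < ((157 : ℝ) ^ s) ^ 2 * (4 * c ^ 2 - 1) := by rw [h2]; linarith
      have := (mul_pos_iff_of_pos_left hR2).mp h4
      linarith
  have k2 : (4 * c ^ 2 < 3) ↔ 0 < (2 * b - a) * (a + b) := by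
    have h1 : ((157 : ℝ) ^ s) ^ 2 * (4 * c ^ 2) = ((2 * a - b : ℤ) : ℝ) ^ 2 := by
      rw [← hc2]; ring
    have h2 : ((157 : ℝ) ^ s) ^ 2 * (3 - 4 * c ^ 2) = (((2 * b - a) * (a + b) : ℤ) : ℝ) := by
      rw [mul_sub, h1, ← hnR]; push_cast; ring
    have hR2 : (0 : ℝ) < ((157 : ℝ) ^ s) ^ 2 := by positivity
    constructor
    · intro h
      have h4 : (0 : ℝ) < ((157 : ℝ) ^ s) ^ 2 * (3 - 4 * c ^ 2) := by
        apply mul_pos hR2; linarith
      rw [h2] at h4
      exact_mod_cast h4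
    · intro h
      have h5 : (0 : ℝ) < (((2 * b - a) * (a + b) : ℤ) : ℝ) := by exact_mod_cast h
      rw [← h2] at h5
      have := (mul_pos_iff_of_pos_left hR2).mp h5
      linarith
  have k3 : (0 < c) ↔ 0 < 2 * a - b := by
    constructor
    · intro h
      have : (0 : ℝ) < ((2 * a - b : ℤ) : ℝ) := by rw [← hc2]; positivity
      exact_mod_cast this
    · intro h
      have h1 : (0 : ℝ) < ((2 * a - b : ℤ) : ℝ) := by exact_mod_cast h
      rw [← hc2] at h1
      exact (mul_pos_iff_of_pos_left (by positivity)).mp h1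
  rw [Gam_eq hm.1 hm.2]
  unfold G
  simp only [k1, k2, k3]
  split_ifs <;> simp

theorem W_real (n : ℕ) :
    (W (4 * 157 ^ (2 * n)) : ℝ) = ∑ j ∈ Finset.range n, F (((j : ℝ) + 1) * α) := by
  rw [W_even]
  push_cast
  apply Finset.sum_congr rfl
  intro j _
  have := Gam_G (j + 1)
  push_cast at this
  exact this

theorem W_unbounded (K : ℤ) : ∃ n : ℕ, K < |W (4 * 157 ^ (2 * n))| := by
  by_contra h
  push Not at h
  apply ToB3.unbounded irrational_α (K : ℝ)
  intro n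
  rw [← W_real, ← Int.cast_abs]
  exact_mod_cast h n

end Pool.Agent.R317.ToM
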