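import Pool.Agent.R317.Rec3

set_option autoImplicit false
set_option linter.all false

namespace Pool.Agent.R317.TropC

/-- the section of the orbits -/
def Sec (ε S u v w : ℝ) : Prop :=
  u ≤ v ∧ v ≤ 0 ∧ 0 ≤ w ∧ S = w - v ∧ 1000 * ε ≤ S

theorem step (ε S s0 s1 s2 s3 s4 s5 s6 s7 s8 s9 s10 : ℝ) (hε : 0 < ε) (hS : Sec ε S s0 s1 s2)
    (h3 : |s3 - s2 + max s1 s0| ≤ ε) (h4 : |s4 - s3 + max s2 s1| ≤ ε)
    (h5 : |s5 - s4 + max s3 s2| ≤ ε) (h6 : |s6 - s5 + max s4 s3| ≤ ε)
    (h7 : |s7 - s6 + max s5 s4| ≤ ε) (h8 : |s8 - s7 + max s6 s5| ≤ ε)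
    (h9 : |s9 - s8 + max s7 s6| ≤ ε) (h10 : |s10 - s9 + max s8 s7| ≤ ε) :
    S - ε ≤ s3 ∧ ((∃ S', Sec ε S' s8 s9 s10 ∧ 5 / 4 * S ≤ S') ∨
      (∃ S', Sec ε S' s7 s8 s9 ∧ 5 / 4 * S ≤ S')) := by
  obtain ⟨ha, hb, hc, hSd, hK⟩ := hS
  rw [abs_le] at h3 h4 h5 h6 h7 h8 h9 h10
  obtain ⟨h3a, h3b⟩ := h3
  obtain ⟨h4a, h4b⟩ := h4
  obtain ⟨h5a, h5b⟩ := h5
  obtain ⟨h6a, h6b⟩ := h6
  obtain ⟨h7a, h7b⟩ := h7
  obtain ⟨h8a, h8b⟩ := h8
  obtain ⟨h9a, h9b⟩ := h9
  obtain ⟨h10a, h10b⟩ := h10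
  rw [max_eq_left ha] at h3a h3b
  have g3a : S - ε ≤ s3 := by linarith
  have g3b : s3 ≤ S + ε := by linarith
  rw [max_eq_left (by linarith : s1 ≤ s2)] at h4a h4b
  have g4a : -s1 - 2 * ε ≤ s4 := by linarith
  have g4b : s4 ≤ -s1 + 2 * ε := by linarith
  have m5a : S - ε ≤ max s3 s2 := le_trans g3a (le_max_left _ _)
  have m5b : max s3 s2 ≤ S + ε := max_le g3b (by linarith)
  have g5a : -s2 - 4 * ε ≤ s5 := by linarith
  have g5b : s5 ≤ -s2 + 4 * ε := by linarith
  have m6a : S - ε ≤ max s4 s3 := le_trans g3a (le_max_right _ _)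
  have m6b : max s4 s3 ≤ S + 2 * ε := max_le (by linarith) (by linarith)
  have g6a : -s2 - S - 7 * ε ≤ s6 := by linarith
  have g6b : s6 ≤ -s2 - S + 6 * ε := by linarith
  have m7a : -s1 - 2 * ε ≤ max s5 s4 := le_trans g4a (le_max_right _ _)
  have m7b : max s5 s4 ≤ -s1 + 4 * ε := max_le (by linarith) (by linarith)
  have g7a : -2 * S - 12 * ε ≤ s7 := by linarith
  have g7b : s7 ≤ -2 * S + 9 * ε := by linarith
  have m8a : -s2 - 4 * ε ≤ max s6 s5 := le_trans g5a (le_max_right _ _)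
  have m8b : max s6 s5 ≤ -s2 + 6 * ε := max_le (by linarith) (by linarith)
  have g8a : -2 * S + s2 - 19 * ε ≤ s8 := by linarith
  have g8b : s8 ≤ -2 * S + s2 + 14 * ε := by linarith
  have m9a : -s2 - S - 7 * ε ≤ max s7 s6 := le_trans g6a (le_max_right _ _)
  have m9b : max s7 s6 ≤ -s2 - S + 9 * ε := max_le (by linarith) (by linarith)
  have g9a : s2 + s1 - 29 * ε ≤ s9 := by linarith
  have g9b : s9 ≤ s2 + s1 + 22 * ε := by linarith
  refine ⟨g3a, ?_⟩
  rcases le_or_gt s9 0 with hs | hs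
  · left
    have m10a : -2 * S + s2 - 19 * ε ≤ max s8 s7 := le_trans g8a (le_max_left _ _)
    have m10b : max s8 s7 ≤ -2 * S + s2 + 14 * ε := max_le (by linarith) (by linarith)
    refine ⟨s10 - s9, ⟨by linarith, hs, by linarith, rfl, by linarith⟩, by linarith⟩
  · right
    refine ⟨s9 - s8, ⟨by linarith, by linarith, hs.le, rfl, by linarith⟩, by linarith⟩

theorem grow (s : ℕ → ℝ) (ε : ℝ) (hε : 0 < ε)
    (h : ∀ n, |s (n + 3) - s (n + 2) + max (s (n + 1)) (s n)| ≤ ε)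
    (h0 : s 0 = 0) (h1 : s 1 = 0) (h2 : s 2 = 1000 * ε) (B : ℝ) : ∃ n, B < s n := by
  have key : ∀ k : ℕ, ∃ n S, Sec ε S (s n) (s (n + 1)) (s (n + 2)) ∧
      (5 / 4 : ℝ) ^ k * (1000 * ε) ≤ S := by
    intro k
    induction k with
    | zero =>
      refine ⟨0, 1000 * ε, ⟨?_, ?_, ?_, ?_, le_rfl⟩, ?_⟩
      · rw [Nat.zero_add, h0, h1]
      · rw [Nat.zero_add, h1]
      · rw [Nat.zero_add, h2]
        linarith
      · rw [Nat.zero_add, Nat.zero_add, h1, h2]
        ring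
      · rw [pow_zero, one_mul]
    | succ k ih =>
      obtain ⟨n, S, hS, hk⟩ := ih
      have hst := step ε S _ _ _ (s (n + 3)) (s (n + 4)) (s (n + 5)) (s (n + 6)) (s (n + 7))
        (s (n + 8)) (s (n + 9)) (s (n + 10)) hε hS (h n) (h (n + 1)) (h (n + 2)) (h (n + 3))
        (h (n + 4)) (h (n + 5)) (h (n + 6)) (h (n + 7))
      have hp : (5 / 4 : ℝ) ^ (k + 1) * (1000 * ε) ≤ 5 / 4 * S := by
        rw [pow_succ]
        linarith
      rcases hst.2 with ⟨S', hS', hg⟩ | ⟨S', hS', hg⟩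
      · exact ⟨n + 8, S', hS', by linarith⟩
      · exact ⟨n + 7, S', hS', by linarith⟩
  have hT : Filter.Tendsto (fun k : ℕ => (5 / 4 : ℝ) ^ k * (1000 * ε)) Filter.atTop Filter.atTop :=
    (tendsto_pow_atTop_atTop_of_one_lt (by norm_num)).atTop_mul_const (by positivity)
  obtain ⟨k, hk⟩ := (hT.eventually (Filter.eventually_gt_atTop (B + 3 * ε))).exists
  obtain ⟨n, S, hS, hkS⟩ := key k
  have hst := step ε S _ _ _ (s (n + 3)) (s (n + 4)) (s (n + 5)) (s (n + 6)) (s (n + 7))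
    (s (n + 8)) (s (n + 9)) (s (n + 10)) hε hS (h n) (h (n + 1)) (h (n + 2)) (h (n + 3))
    (h (n + 4)) (h (n + 5)) (h (n + 6)) (h (n + 7))
  exact ⟨n + 3, by linarith [hst.1]⟩

theorem log_bd (C y z : ℝ) (hC : 0 < C) (hy : 0 < y) (hz : 0 < z) :
    |-Real.log (C * y + z) + max (Real.log y) (Real.log z)| ≤ Real.log 2 + |Real.log C| := by
  have h2 : 0 < Real.log 2 := Real.log_pos (by norm_num)
  have hab : 0 ≤ |Real.log C| := abs_nonneg _
  have hle : Real.log C ≤ |Real.log C| := le_abs_self _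
  have hge : -|Real.log C| ≤ Real.log C := neg_abs_le _
  have hCy : 0 < C * y := by positivity
  have eC : Real.log (C * y) = Real.log C + Real.log y := Real.log_mul hC.ne' hy.ne'
  have k1 : Real.log z ≤ Real.log (C * y + z) := Real.log_le_log hz (by linarith)
  have k2 : Real.log (C * y) ≤ Real.log (C * y + z) := Real.log_le_log hCy (by linarith)
  rw [eC] at k2
  have k3 : Real.log (C * y + z) ≤ Real.log 2 + max (Real.log (C * y)) (Real.log z) := by
    rcases le_total (C * y) z with h | h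
    · have : Real.log (C * y + z) ≤ Real.log (2 * z) := Real.log_le_log (by linarith) (by linarith)
      rw [Real.log_mul (by norm_num) hz.ne'] at this
      exact le_trans this (by linarith [le_max_right (Real.log (C * y)) (Real.log z)])
    · have : Real.log (C * y + z) ≤ Real.log (2 * (C * y)) :=
        Real.log_le_log (by linarith) (by linarith)
      rw [Real.log_mul (by norm_num) hCy.ne'] at this
      exact le_trans this (by linarith [le_max_left (Real.log (C * y)) (Real.log z)])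
  rw [eC] at k3
  have k4 : max (Real.log C + Real.log y) (Real.log z) ≤
      |Real.log C| + max (Real.log y) (Real.log z) :=
    max_le (by linarith [le_max_left (Real.log y) (Real.log z)])
      (by linarith [le_max_right (Real.log y) (Real.log z)])
  have k5 : max (Real.log y) (Real.log z) ≤ Real.log (C * y + z) + |Real.log C| :=
    max_le (by linarith) (by linarith)
  rw [abs_le]
  constructor <;> linarith

theorem main (C : ℝ) (hC : 0 < C) :
    ∃ x : ℕ → ℝ, (∀ n, 0 < x n) ∧ (∀ n, x (n + 3) = x (n + 2) / (C * x (n + 1) + x n)) ∧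
      ¬ BddAbove (Set.range x) := by
  set ε := Real.log 2 + |Real.log C| with hε
  have hε0 : 0 < ε := by
    have h2 : 0 < Real.log 2 := Real.log_pos (by norm_num)
    have hab : 0 ≤ |Real.log C| := abs_nonneg _
    linarith
  obtain ⟨x, x0, x1, x2, hx⟩ := Pool.Agent.R317.Rec3.exists_seq
    (fun p r q => q / (C * r + p)) 1 1 (Real.exp (1000 * ε))
  have hpos3 : ∀ n, 0 < x n ∧ 0 < x (n + 1) ∧ 0 < x (n + 2) := by
    intro n
    induction n with
    | zero =>
      rw [Nat.zero_add, Nat.zero_add, x0, x1, x2]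
      exact ⟨one_pos, one_pos, Real.exp_pos _⟩
    | succ n ih =>
      refine ⟨ih.2.1, ih.2.2, ?_⟩
      have := hx n
      rw [show n + 1 + 2 = n + 3 from rfl, this]
      have h1 := ih.1
      have h2 := ih.2.2
      have h3 := ih.2.1
      positivity
  have hpos : ∀ n, 0 < x n := fun n => (hpos3 n).1
  refine ⟨x, hpos, fun n => hx n, ?_⟩
  rintro ⟨B, hB⟩
  have hrec : ∀ n, |Real.log (x (n + 3)) - Real.log (x (n + 2)) +
      max (Real.log (x (n + 1))) (Real.log (x n))| ≤ ε := by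
    intro n
    have h0 := hpos n
    have h1 := hpos (n + 1)
    have h2 := hpos (n + 2)
    have h3 : Real.log (x (n + 3)) - Real.log (x (n + 2)) = -Real.log (C * x (n + 1) + x n) := by
      rw [hx n, Real.log_div h2.ne' (by positivity)]
      ring
    rw [h3]
    exact log_bd C (x (n + 1)) (x n) hC h1 h0
  obtain ⟨n, hn⟩ := grow (fun n => Real.log (x n)) ε hε0 hrec (by simp [x0]) (by simp [x1])
    (by simp [x2]) (Real.log B)
  have hBn := hB (Set.mem_range_self n)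
  have := Real.log_le_log (hpos n) hBn
  exact absurd hn (not_lt.mpr this)

end Pool.Agent.R317.TropC
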