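import Pool.Agent.R317.Rec3

set_option autoImplicit false
set_option linter.all false

namespace Pool.Agent.R317.TropF

/-- the section of the orbits -/
def Sec (ε S u v w : ℝ) : Prop :=
  u ≤ 0 ∧ S ≤ -5 * v ∧ w ≤ ε ∧ S = -(u + v + w) ∧ 1000 * ε ≤ S

theorem step (ε S s0 s1 s2 s3 s4 s5 s6 s7 s8 s9 s10 : ℝ) (hε : 0 < ε) (hS : Sec ε S s0 s1 s2)
    (h3 : |s3 + s0 - max 0 s2| ≤ ε) (h4 : |s4 + s1 - max 0 s3| ≤ ε)
    (h5 : |s5 + s2 - max 0 s4| ≤ ε) (h6 : |s6 + s3 - max 0 s5| ≤ ε)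
    (h7 : |s7 + s4 - max 0 s6| ≤ ε) (h8 : |s8 + s5 - max 0 s7| ≤ ε)
    (h9 : |s9 + s6 - max 0 s8| ≤ ε) (h10 : |s10 + s7 - max 0 s9| ≤ ε) :
    S - 3 * ε ≤ s5 ∧ ((∃ S', Sec ε S' s7 s8 s9 ∧ 5 / 4 * S ≤ S') ∨
      (∃ S', Sec ε S' s8 s9 s10 ∧ 5 / 4 * S ≤ S')) := by
  obtain ⟨ha, hb, hc, hSd, hK⟩ := hS
  rw [abs_le] at h3 h4 h5 h6 h7 h8 h9 h10
  obtain ⟨h3a, h3b⟩ := h3
  obtain ⟨h4a, h4b⟩ := h4
  obtain ⟨h5a, h5b⟩ := h5
  obtain ⟨h6a, h6b⟩ := h6
  obtain ⟨h7a, h7b⟩ := h7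
  obtain ⟨h8a, h8b⟩ := h8
  obtain ⟨h9a, h9b⟩ := h9
  obtain ⟨h10a, h10b⟩ := h10
  have m2a : 0 ≤ max 0 s2 := le_max_left _ _
  have m2b : max 0 s2 ≤ ε := max_le hε.le hc
  have g3a : -s0 - ε ≤ s3 := by linarith
  have g3b : s3 ≤ -s0 + 2 * ε := by linarith
  have m3a : -s0 - ε ≤ max 0 s3 := le_trans g3a (le_max_right _ _)
  have m3b : max 0 s3 ≤ -s0 + 2 * ε := max_le (by linarith) g3b
  have g4a : -s0 - s1 - 2 * ε ≤ s4 := by linarith
  have g4b : s4 ≤ -s0 - s1 + 3 * ε := by linarith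
  have m4 : max 0 s4 = s4 := max_eq_right (by linarith)
  rw [m4] at h5a h5b
  have g5a : S - 3 * ε ≤ s5 := by linarith
  have g5b : s5 ≤ S + 4 * ε := by linarith
  have m5 : max 0 s5 = s5 := max_eq_right (by linarith)
  rw [m5] at h6a h6b
  have g6a : -s1 - s2 - 6 * ε ≤ s6 := by linarith
  have g6b : s6 ≤ -s1 - s2 + 6 * ε := by linarith
  have m6 : max 0 s6 = s6 := max_eq_right (by linarith)
  rw [m6] at h7a h7b
  have g7a : s0 - s2 - 10 * ε ≤ s7 := by linarith
  have g7b : s7 ≤ s0 - s2 + 9 * ε := by linarith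
  refine ⟨g5a, ?_⟩
  rcases le_or_gt s7 0 with hs | hs
  · left
    have m7 : max 0 s7 = 0 := max_eq_left hs
    rw [m7] at h8a h8b
    have g8a : -S - 5 * ε ≤ s8 := by linarith
    have g8b : s8 ≤ -S + 4 * ε := by linarith
    have m8 : max 0 s8 = 0 := max_eq_left (by linarith)
    rw [m8] at h9a h9b
    have g9a : s1 + s2 - 7 * ε ≤ s9 := by linarith
    have g9b : s9 ≤ s1 + s2 + 7 * ε := by linarith
    refine ⟨-(s7 + s8 + s9), ⟨hs, by linarith, by linarith, rfl, by linarith⟩, by linarith⟩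
  · right
    have m7 : max 0 s7 = s7 := max_eq_right hs.le
    rw [m7] at h8a h8b
    have g8a : 2 * s0 + s1 - 15 * ε ≤ s8 := by linarith
    have g8b : s8 ≤ 2 * s0 + s1 + 13 * ε := by linarith
    have m8 : max 0 s8 = 0 := max_eq_left (by linarith)
    rw [m8] at h9a h9b
    have g9a : s1 + s2 - 7 * ε ≤ s9 := by linarith
    have g9b : s9 ≤ s1 + s2 + 7 * ε := by linarith
    have m9 : max 0 s9 = 0 := max_eq_left (by linarith)
    rw [m9] at h10a h10b
    refine ⟨-(s8 + s9 + s10), ⟨by linarith, by linarith, by linarith, rfl, by linarith⟩, by linarith⟩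

theorem grow (s : ℕ → ℝ) (ε : ℝ) (hε : 0 < ε) (h : ∀ n, |s (n + 3) + s n - max 0 (s (n + 2))| ≤ ε)
    (h0 : s 0 = 0) (h1 : s 1 = -(1000 * ε)) (h2 : s 2 = 0) (B : ℝ) : ∃ n, B < s n := by
  have key : ∀ k : ℕ, ∃ n S, Sec ε S (s n) (s (n + 1)) (s (n + 2)) ∧
      (5 / 4 : ℝ) ^ k * (1000 * ε) ≤ S := by
    intro k
    induction k with
    | zero =>
      refine ⟨0, 1000 * ε, ⟨?_, ?_, ?_, ?_, le_rfl⟩, ?_⟩
      · rw [h0]
      · rw [Nat.zero_add, h1]
        linarith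
      · rw [Nat.zero_add, h2]
        exact hε.le
      · rw [Nat.zero_add, Nat.zero_add, h0, h1, h2]
        ring
      · rw [pow_zero, one_mul]
    | succ k ih =>
      obtain ⟨n, S, hS, hk⟩ := ih
      have hst := step ε S _ _ _ (s (n + 3)) (s (n + 4)) (s (n + 5)) (s (n + 6)) (s (n + 7))
        (s (n + 8)) (s (n + 9)) (s (n + 10)) hε hS (h n) (h (n + 1)) (h (n + 2)) (h (n + 3))
        (h (n + 4)) (h (n + 5)) (h (n + 6)) (h (n + 7))
      have hp : (5 / 4 : ℝ) ^ (k + 1) * (1000 * ε) ≤ 5 / 4 * S := by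
        rw [pow_succ]
        linarith
      rcases hst.2 with ⟨S', hS', hg⟩ | ⟨S', hS', hg⟩
      · exact ⟨n + 7, S', hS', by linarith⟩
      · exact ⟨n + 8, S', hS', by linarith⟩
  have hT : Filter.Tendsto (fun k : ℕ => (5 / 4 : ℝ) ^ k * (1000 * ε)) Filter.atTop Filter.atTop :=
    (tendsto_pow_atTop_atTop_of_one_lt (by norm_num)).atTop_mul_const (by positivity)
  obtain ⟨k, hk⟩ := (hT.eventually (Filter.eventually_gt_atTop (B + 3 * ε))).exists
  obtain ⟨n, S, hS, hkS⟩ := key k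
  have hst := step ε S _ _ _ (s (n + 3)) (s (n + 4)) (s (n + 5)) (s (n + 6)) (s (n + 7))
    (s (n + 8)) (s (n + 9)) (s (n + 10)) hε hS (h n) (h (n + 1)) (h (n + 2)) (h (n + 3))
    (h (n + 4)) (h (n + 5)) (h (n + 6)) (h (n + 7))
  exact ⟨n + 5, by linarith [hst.1]⟩

theorem log_bd (α x : ℝ) (hα : 0 < α) (hx : 0 < x) :
    |Real.log (α + x) - max 0 (Real.log x)| ≤ Real.log 2 + |Real.log α| := by
  have h2 : 0 < Real.log 2 := Real.log_pos (by norm_num)
  have hab : 0 ≤ |Real.log α| := abs_nonneg _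
  have hle : Real.log α ≤ |Real.log α| := le_abs_self _
  have hge : -|Real.log α| ≤ Real.log α := neg_abs_le _
  have k1 : Real.log x ≤ Real.log (α + x) := Real.log_le_log hx (by linarith)
  have k2 : Real.log α ≤ Real.log (α + x) := Real.log_le_log hα (by linarith)
  have k3 : Real.log (α + x) ≤ Real.log 2 + max (Real.log α) (Real.log x) := by
    rcases le_total α x with h | h
    · have : Real.log (α + x) ≤ Real.log (2 * x) := Real.log_le_log (by linarith) (by linarith)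
      rw [Real.log_mul (by norm_num) hx.ne'] at this
      exact le_trans this (by linarith [le_max_right (Real.log α) (Real.log x)])
    · have : Real.log (α + x) ≤ Real.log (2 * α) := Real.log_le_log (by linarith) (by linarith)
      rw [Real.log_mul (by norm_num) hα.ne'] at this
      exact le_trans this (by linarith [le_max_left (Real.log α) (Real.log x)])
  have k4 : max (Real.log α) (Real.log x) ≤ |Real.log α| + max 0 (Real.log x) :=
    max_le (by linarith [le_max_left 0 (Real.log x)]) (by linarith [le_max_right 0 (Real.log x)])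
  have k5 : max 0 (Real.log x) ≤ Real.log (α + x) + |Real.log α| :=
    max_le (by linarith) (by linarith)
  rw [abs_le]
  constructor <;> linarith

theorem main (α : ℝ) (hα : 0 < α) :
    ∃ x : ℕ → ℝ, (∀ n, 0 < x n) ∧ (∀ n, x (n + 3) = (α + x (n + 2)) / x n) ∧
      ¬ BddAbove (Set.range x) := by
  set ε := Real.log 2 + |Real.log α| with hε
  have hε0 : 0 < ε := by
    have h2 : 0 < Real.log 2 := Real.log_pos (by norm_num)
    have hab : 0 ≤ |Real.log α| := abs_nonneg _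
    linarith
  obtain ⟨x, x0, x1, x2, hx⟩ := Pool.Agent.R317.Rec3.exists_seq
    (fun p _ q => (α + q) / p) 1 (Real.exp (-(1000 * ε))) 1
  have hpos3 : ∀ n, 0 < x n ∧ 0 < x (n + 1) ∧ 0 < x (n + 2) := by
    intro n
    induction n with
    | zero =>
      rw [Nat.zero_add, Nat.zero_add, x0, x1, x2]
      exact ⟨one_pos, Real.exp_pos _, one_pos⟩
    | succ n ih =>
      refine ⟨ih.2.1, ih.2.2, ?_⟩
      have := hx n
      rw [show n + 1 + 2 = n + 3 from rfl, this]
      have h1 := ih.1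
      have h2 := ih.2.2
      positivity
  have hpos : ∀ n, 0 < x n := fun n => (hpos3 n).1
  refine ⟨x, hpos, fun n => hx n, ?_⟩
  rintro ⟨B, hB⟩
  have hrec : ∀ n, |Real.log (x (n + 3)) + Real.log (x n) - max 0 (Real.log (x (n + 2)))| ≤ ε := by
    intro n
    have h1 : Real.log (x (n + 3)) + Real.log (x n) = Real.log (α + x (n + 2)) := by
      rw [hx n, Real.log_div (by have := hpos (n + 2); positivity) (hpos n).ne']
      ring
    rw [h1]
    exact log_bd α (x (n + 2)) hα (hpos (n + 2))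
  obtain ⟨n, hn⟩ := grow (fun n => Real.log (x n)) ε hε0 hrec (by simp [x0]) (by simp [x1])
    (by simp [x2]) (Real.log B)
  have hBn := hB (Set.mem_range_self n)
  have := Real.log_le_log (hpos n) hBn
  exact absurd hn (not_lt.mpr this)

end Pool.Agent.R317.TropF
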