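import Pool.Agent.R317.Mon
import Pool.Agent.W245.HF.TwoThirds

set_option autoImplicit false

/-!
# Ranks of spans of monomials `x^a y^b` of weights in a set
-/

open Polynomial Pool.Agent.W245.HF

namespace Pool.Agent.R317.Mon

variable {S : Submodule ℚ ℝ} {x y : ℝ} {W : Finset ℕ}

theorem split (A B : ℚ[X]) (hc : IsCoprime A B) (hA : 0 < A.natDegree)
    (h : aeval x A * y = aeval x B) :
    (∀ m, ¬ A ∣ X ^ m) ∨ ∃ e : ℕ, 1 ≤ e ∧ ∃ B' : ℚ[X], ¬ X ∣ B' ∧ x ^ e * y = aeval x B' := by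
  by_cases hX : ∀ m, ¬ A ∣ X ^ m
  · exact Or.inl hX
  right
  push Not at hX
  obtain ⟨m, hm⟩ := hX
  obtain ⟨e, _, he⟩ := (dvd_prime_pow prime_X m).1 hm
  obtain ⟨u, hu⟩ := he
  have he1 : 1 ≤ e := by
    by_contra hlt
    have he0 : e = 0 := by omega
    rw [he0, pow_zero] at hu
    have h1 : IsUnit A := IsUnit.of_mul_eq_one _ hu
    rw [natDegree_eq_zero_of_isUnit h1] at hA
    exact lt_irrefl _ hA
  refine ⟨e, he1, u * B, ?_, ?_⟩
  · intro h1
    have h2 : (X : ℚ[X]) ∣ B := by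
      rcases prime_X.dvd_or_dvd h1 with h3 | h3
      · exact absurd (isUnit_of_dvd_unit h3 u.isUnit) prime_X.not_unit
      · exact h3
    have h4 : (X : ℚ[X]) ∣ A := by
      have h5 : (X : ℚ[X]) ∣ A * u := by
        rw [hu]
        exact dvd_pow_self X (by omega)
      rcases prime_X.dvd_or_dvd h5 with h6 | h6
      · exact h6
      · exact absurd (isUnit_of_dvd_unit h6 u.isUnit) prime_X.not_unit
    exact prime_X.not_unit (hc.isUnit_of_dvd' h4 h2)
  · rw [map_mul, ← h, ← mul_assoc, ← map_mul, mul_comm (u : ℚ[X]) A, hu, map_pow, aeval_X]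

/-- the three cases -/
theorem cases3 (x y : ℝ) (hx : Transcendental ℚ x) (h1 : ∀ a b : ℚ, y ≠ a + b * x) :
    (∀ A B : ℚ[X], aeval x A * y = aeval x B → A = 0) ∨
    (∃ A B : ℚ[X], A ≠ 0 ∧ IsCoprime A B ∧ (∀ m, ¬ A ∣ X ^ m) ∧ aeval x A * y = aeval x B) ∨
    (∃ e : ℕ, 1 ≤ e ∧ ∃ B' : ℚ[X], ¬ X ∣ B' ∧ x ^ e * y = aeval x B') ∨
    (∃ P : ℚ[X], 2 ≤ P.natDegree ∧ y = aeval x P) := by
  by_cases hrel : ∀ A B : ℚ[X], aeval x A * y = aeval x B → A = 0
  · exact Or.inl hrel
  right
  obtain ⟨A, B, hc, hA, h⟩ := rational_case x y hrel hx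
  by_cases hdeg : 0 < A.natDegree
  · rcases split A B hc hdeg h with h3 | h3
    · exact Or.inl ⟨A, B, hA, hc, h3, h⟩
    · exact Or.inr (Or.inl h3)
  · right
    right
    obtain ⟨c, hcA⟩ : ∃ c : ℚ, A = C c := ⟨A.coeff 0, eq_C_of_natDegree_eq_zero (by omega)⟩
    have hc0 : c ≠ 0 := by
      rintro rfl
      rw [hcA, C_0] at hA
      exact hA rfl
    have hc1 : (c : ℝ) ≠ 0 := by exact_mod_cast hc0
    have hy : y = aeval x (C c⁻¹ * B) := by
      rw [map_mul, ← h, hcA, aeval_C, aeval_C]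
      have e1 : (algebraMap ℚ ℝ) c⁻¹ = (c : ℝ)⁻¹ := by simp
      have e2 : (algebraMap ℚ ℝ) c = (c : ℝ) := rfl
      rw [e1, e2]
      field_simp
    refine ⟨C c⁻¹ * B, ?_, hy⟩
    by_contra hlt
    rw [not_le] at hlt
    have h2 := eq_X_add_C_of_natDegree_le_one (p := C c⁻¹ * B) (by omega)
    rw [h2, map_add, map_mul, aeval_C, aeval_C, aeval_X] at hy
    refine h1 ((C c⁻¹ * B).coeff 0) ((C c⁻¹ * B).coeff 1) ?_
    rw [add_comm]
    exact hy

/-- any finite set of weights -/
theorem anyset {M : ℕ} (hS : Cont S x y W) (hx : Transcendental ℚ x) (h1 : ∀ a b : ℚ, y ≠ a + b * x)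
    (hW : ∀ n ∈ W, 2 ≤ n) (hM : M ∈ W) :
    ((min W.card (2 * M / 3 + 1 - (M + 1) / 2) : ℕ) : Cardinal) ≤ Module.rank ℚ S := by
  have hM2 := hW M hM
  rcases cases3 x y hx h1 with h | ⟨A, B, hA0, hc, hA, h⟩ | ⟨e, he, B, hB, h⟩ | ⟨P, hP, h⟩
  · exact le_trans (by exact_mod_cast min_le_left _ _) (case1 hS hx h hW)
  · exact le_trans (by exact_mod_cast min_le_right _ _) (one2a hS hM hx A B h hc hA hA0 hM2)
  · exact le_trans (by exact_mod_cast min_le_right _ _) (one2b hS hM hx B e h hB hM2)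
  · exact le_trans (by exact_mod_cast min_le_right _ _) (one3 hS hM hx P hP h hM2)

/-- a window of weights -/
theorem window {N M : ℕ} (hS : Cont S x y (Finset.Icc N M)) (hx : Transcendental ℚ x)
    (h1 : ∀ a b : ℚ, y ≠ a + b * x) (h2 : ∀ b : ℚ, y ≠ b * x ^ 2)
    (hN : 2 ≤ N) (hNM : N ≤ M) (hne : ¬ (N = 3 ∧ M = 5)) :
    ((min (M + 1 - N) (2 * M / 3 + 1 - (N + 2) / 3) : ℕ) : Cardinal) ≤ Module.rank ℚ S := by
  rcases Nat.eq_or_lt_of_le hNM with rfl | hlt
  · have h3 := anyset (M := N) hS hx h1 (fun n hn => by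
      have := Finset.mem_Icc.1 hn
      omega) (by simp)
    refine le_trans ?_ h3
    rw [Nat.card_Icc]
    exact_mod_cast (by omega : min (N + 1 - N) (2 * N / 3 + 1 - (N + 2) / 3) ≤
      min (N + 1 - N) (2 * N / 3 + 1 - (N + 1) / 2))
  rcases cases3 x y hx h1 with h | ⟨A, B, hA0, hc, hA, h⟩ | ⟨e, he, B, hB, h⟩ | ⟨P, hP, h⟩
  · have h3 := case1 hS hx h (fun n hn => by
      have := Finset.mem_Icc.1 hn
      omega)
    rw [Nat.card_Icc] at h3
    exact le_trans (by exact_mod_cast min_le_left _ _) h3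
  · refine le_trans ?_ (case2a hS hx A B h hc hA hA0 hlt)
    exact_mod_cast (by omega : min (M + 1 - N) (2 * M / 3 + 1 - (N + 2) / 3) ≤
      M / 3 + (M / 2 + 1 - (N + 1) / 2))
  · refine le_trans ?_ (case2b hS hx B e he h hB hlt)
    exact_mod_cast (by omega : min (M + 1 - N) (2 * M / 3 + 1 - (N + 2) / 3) ≤
      M / 3 + (M / 2 + 1 - (N + 1) / 2))
  · rcases Nat.eq_or_lt_of_le hP with hP2 | hP3
    · by_cases hshort : (M + 2) / 3 ≤ N / 2
      · refine le_trans ?_ (case3b hS hx P hP2.symm h hNM)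
        exact_mod_cast (by omega : min (M + 1 - N) (2 * M / 3 + 1 - (N + 2) / 3) ≤
          2 * M / 3 + 1 - (N + 1) / 2)
      · by_cases hXP : X ∣ P
        · obtain ⟨Q, rfl⟩ := hXP
          have hQ : ¬ X ∣ Q := by
            rintro ⟨R, rfl⟩
            have hR0 : R ≠ 0 := by
              rintro rfl
              simp at hP2
            have hR : R.natDegree = 0 := by
              have h5 := hP2.symm
              rw [natDegree_mul X_ne_zero (mul_ne_zero X_ne_zero hR0), natDegree_mul X_ne_zero hR0,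
                natDegree_X] at h5
              omega
            rw [eq_C_of_natDegree_eq_zero hR] at h
            refine h2 (R.coeff 0) ?_
            rw [h, map_mul, map_mul, aeval_X, aeval_C]
            change x * (x * (R.coeff 0 : ℝ)) = _
            ring
          refine le_trans ?_ (case3c hS hx Q hP2.symm hQ h hNM (by omega))
          exact_mod_cast min_le_right _ _
        · by_cases hM : N + 2 ≤ M
          · refine le_trans ?_ (case3d hS hx P hP2.symm hXP h hM (by omega))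
            exact_mod_cast (by omega : min (M + 1 - N) (2 * M / 3 + 1 - (N + 2) / 3) ≤
              (2 * M - (N + 1) / 2) / 3 + 1)
          · -- the weights 3 and 4
            have hN3 : N = 3 := by omega
            have hM4 : M = 4 := by omega
            subst hN3
            subst hM4
            have h6 := rank_pol hS hx P h 2 (fun i => 2 * i) (fun i => 1 - i)
              (fun i hi => by rw [Finset.mem_Icc]; omega)
              (fun i => mult (X ^ (2 * i + 1))) (fun i hi => ?_) (fun i j hij hj => ?_)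
            · refine le_trans ?_ h6
              norm_num
            · rw [mem_mult]
              exact notdvd_X hXP _ _
            · rw [mem_mult]
              exact Dvd.dvd.mul_right (pow_dvd_pow X (by omega)) _
    · refine le_trans ?_ (case3a hS hx P hP3 h hlt)
      exact_mod_cast (by omega : min (M + 1 - N) (2 * M / 3 + 1 - (N + 2) / 3) ≤
        M / 3 + (M / 2 + 1 - (N + 1) / 2))

end Pool.Agent.R317.Mon
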