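import Mathlib

set_option autoImplicit false
set_option linter.all false

namespace Pool.Agent.R317.Wps

open PowerSeries Finset

/-- the tuple `l` of length `n`, continued by zeros; `ext l i` is `λ_{i+1}` -/
def ext {n : ℕ} (l : Fin n → ℕ) (i : ℕ) : ℕ := if h : i < n then l ⟨i, h⟩ else 0

/-- the set `Λ_n` of the `n`-tuples `λ_1 ≥ … ≥ λ_n ≥ 0` of sum `n` -/
def Lam (n : ℕ) : Finset (Fin n → ℕ) :=
  (Fintype.piFinset fun _ : Fin n => range (n + 1)).filter fun l => Antitone l ∧ ∑ i, l i = n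

/-- the product `C(λ)` of the binomial coefficients `binom(λ_i, λ_{i+1})`, `1 ≤ i ≤ n` -/
def Cb {n : ℕ} (l : Fin n → ℕ) : ℕ := ∏ i ∈ range n, (ext l i).choose (ext l (i + 1))

/-- the weight with factors `(w_i)^{λ_i}`, `1 ≤ i ≤ n` (`w i` is the `i`-th factor, `i ≥ 1`) -/
def wt {n : ℕ} (w : ℕ → ℚ) (l : Fin n → ℕ) : ℚ := ∏ i ∈ range n, w (i + 1) ^ ext l i

/-- the series `x_1 (1 + x_2 (1 + ⋯ (1 + x_m)))` with `x_i = w i * X`, weights counted from `s` -/
noncomputable def Xs (w : ℕ → ℚ) : ℕ → ℕ → ℚ⟦X⟧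
  | _, 0 => 0
  | s, m + 1 => (C (w s) * X) * (1 + Xs w (s + 1) m)

theorem ext_zero {m : ℕ} (a : ℕ) (l : Fin m → ℕ) : ext (Fin.cons a l : Fin (m + 1) → ℕ) 0 = a := by
  unfold ext
  rw [dif_pos (by omega)]
  rfl

theorem ext_succ {m : ℕ} (a : ℕ) (l : Fin m → ℕ) (i : ℕ) :
    ext (Fin.cons a l : Fin (m + 1) → ℕ) (i + 1) = ext l i := by
  unfold ext
  by_cases h : i < m
  · rw [dif_pos (by omega), dif_pos h]
    rfl
  · rw [dif_neg (by omega), dif_neg h]

/-- the sum over all tuples bounded by `B`, with first binomial coefficient `binom(b, λ_1)` -/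
theorem key (w : ℕ → ℚ) (B : ℕ) (m : ℕ) : ∀ (s b : ℕ), b ≤ B →
    ∑ l ∈ Fintype.piFinset fun _ : Fin m => range (B + 1),
      C (((b.choose (ext l 0) : ℕ) : ℚ) * (∏ i ∈ range m, (((ext l i).choose (ext l (i + 1)) : ℕ) : ℚ)) *
        ∏ i ∈ range m, w (s + i) ^ ext l i) * X ^ (∑ i, l i) = (1 + Xs w s m) ^ b := by
  induction m with
  | zero =>
    intro s b hb
    simp [Xs, ext]
  | succ m ih =>
    intro s b hb
    have hpi : (Fintype.piFinset fun _ : Fin (m + 1) => range (B + 1)) =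
        ((range (B + 1)) ×ˢ (Fintype.piFinset fun _ : Fin m => range (B + 1))).map
          ((Fin.consEquiv fun _ : Fin (m + 1) => ℕ).toEmbedding) := by
      ext l
      simp only [Fintype.mem_piFinset, mem_map_equiv, mem_product, Fin.consEquiv_symm_apply]
      constructor
      · intro h
        exact ⟨h 0, fun i => h i.succ⟩
      · rintro ⟨h0, h1⟩ i
        refine Fin.cases h0 (fun i => h1 i) i
    rw [hpi, sum_map, sum_product]
    have hstep : ∀ a ∈ range (B + 1), ∑ l ∈ Fintype.piFinset fun _ : Fin m => range (B + 1),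
        (C (((b.choose (ext ((Fin.consEquiv fun _ : Fin (m + 1) => ℕ).toEmbedding (a, l)) 0) : ℕ) : ℚ) *
          (∏ i ∈ range (m + 1), (((ext ((Fin.consEquiv fun _ : Fin (m + 1) => ℕ).toEmbedding (a, l)) i).choose
            (ext ((Fin.consEquiv fun _ : Fin (m + 1) => ℕ).toEmbedding (a, l)) (i + 1)) : ℕ) : ℚ)) *
          ∏ i ∈ range (m + 1), w (s + i) ^ ext ((Fin.consEquiv fun _ : Fin (m + 1) => ℕ).toEmbedding (a, l)) i) *
          X ^ (∑ i, (Fin.consEquiv fun _ : Fin (m + 1) => ℕ).toEmbedding (a, l) i) : ℚ⟦X⟧) =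
        C ((b.choose a : ℕ) : ℚ) * (C (w s) * X) ^ a * (1 + Xs w (s + 1) m) ^ a := by
      intro a ha
      rw [← ih (s + 1) a (by have := mem_range.mp ha; omega), mul_sum]
      refine sum_congr rfl fun l _ => ?_
      have e : (Fin.consEquiv fun _ : Fin (m + 1) => ℕ).toEmbedding (a, l) =
          (Fin.cons a l : Fin (m + 1) → ℕ) := rfl
      rw [e, prod_range_succ', prod_range_succ']
      simp only [ext_zero, ext_succ, Fin.sum_univ_succ, Fin.cons_zero, Fin.cons_succ, Nat.add_zero]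
      have e2 : ∏ k ∈ range m, w (s + (k + 1)) ^ ext l k = ∏ k ∈ range m, w (s + 1 + k) ^ ext l k :=
        prod_congr rfl fun k _ => by rw [show s + (k + 1) = s + 1 + k by ring]
      rw [e2]
      simp only [map_mul, map_pow]
      ring
    rw [sum_congr rfl hstep]
    have hbin : (1 + Xs w s (m + 1)) ^ b =
        ∑ a ∈ range (b + 1), C ((b.choose a : ℕ) : ℚ) * (C (w s) * X) ^ a * (1 + Xs w (s + 1) m) ^ a := by
      rw [add_comm, add_pow]
      refine sum_congr rfl fun a _ => ?_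
      show (C (w s) * X * (1 + Xs w (s + 1) m)) ^ a * 1 ^ (b - a) * _ = _
      rw [one_pow, mul_one, mul_pow]
      simp only [map_natCast]
      ring
    rw [hbin]
    symm
    refine sum_subset (fun a ha => ?_) (fun a _ ha => ?_)
    · have := mem_range.mp ha
      exact mem_range.mpr (by omega)
    · have : b < a := by
        by_contra h
        exact ha (mem_range.mpr (by omega))
      rw [Nat.choose_eq_zero_of_lt this]
      simp

/-- the sum over all tuples bounded by `B`, with a function of the first entry as weight -/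
theorem key' (w : ℕ → ℚ) (h : ℕ → ℚ) (B m s : ℕ) :
    ∑ l ∈ Fintype.piFinset fun _ : Fin (m + 1) => range (B + 1),
      C (h (ext l 0) * (∏ i ∈ range (m + 1), (((ext l i).choose (ext l (i + 1)) : ℕ) : ℚ)) *
        ∏ i ∈ range (m + 1), w (s + i) ^ ext l i) * X ^ (∑ i, l i) =
      ∑ a ∈ range (B + 1), C (h a) * (Xs w s (m + 1)) ^ a := by
  have hpi : (Fintype.piFinset fun _ : Fin (m + 1) => range (B + 1)) =
      ((range (B + 1)) ×ˢ (Fintype.piFinset fun _ : Fin m => range (B + 1))).map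
        ((Fin.consEquiv fun _ : Fin (m + 1) => ℕ).toEmbedding) := by
    ext l
    simp only [Fintype.mem_piFinset, mem_map_equiv, mem_product, Fin.consEquiv_symm_apply]
    constructor
    · intro h
      exact ⟨h 0, fun i => h i.succ⟩
    · rintro ⟨h0, h1⟩ i
      refine Fin.cases h0 (fun i => h1 i) i
  rw [hpi, sum_map, sum_product]
  refine sum_congr rfl fun a ha => ?_
  have hx : C (h a) * (Xs w s (m + 1)) ^ a =
      C (h a) * (C (w s) * X) ^ a * (1 + Xs w (s + 1) m) ^ a := by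
    show C (h a) * (C (w s) * X * (1 + Xs w (s + 1) m)) ^ a = _
    rw [mul_pow, mul_assoc]
  rw [hx, ← key w B m (s + 1) a (by have := mem_range.mp ha; omega), mul_sum]
  refine sum_congr rfl fun l _ => ?_
  have e : (Fin.consEquiv fun _ : Fin (m + 1) => ℕ).toEmbedding (a, l) =
      (Fin.cons a l : Fin (m + 1) → ℕ) := rfl
  rw [e, prod_range_succ', prod_range_succ']
  simp only [ext_zero, ext_succ, Fin.sum_univ_succ, Fin.cons_zero, Fin.cons_succ, Nat.add_zero]
  have e2 : ∏ k ∈ range m, w (s + (k + 1)) ^ ext l k = ∏ k ∈ range m, w (s + 1 + k) ^ ext l k :=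
    prod_congr rfl fun k _ => by rw [show s + (k + 1) = s + 1 + k by ring]
  rw [e2]
  simp only [map_mul, map_pow]
  ring

theorem ext_coe {n : ℕ} (l : Fin n → ℕ) (i : Fin n) : ext l i.val = l i := by
  unfold ext
  rw [dif_pos i.isLt]

theorem antitone_of {n : ℕ} (l : Fin n → ℕ)
    (h : ∀ i ∈ range n, (ext l i).choose (ext l (i + 1)) ≠ 0) : Antitone l := by
  have h1 : Antitone (ext l) := by
    refine antitone_nat_of_succ_le fun i => ?_
    rcases lt_or_ge i n with hi | hi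
    · have := h i (mem_range.mpr hi)
      by_contra hlt
      push Not at hlt
      exact this (Nat.choose_eq_zero_of_lt hlt)
    · have : ext l (i + 1) = 0 := by
        unfold ext
        rw [dif_neg (by omega)]
      rw [this]
      exact Nat.zero_le _
  intro i j hij
  rw [← ext_coe l i, ← ext_coe l j]
  exact h1 hij

theorem total (w : ℕ → ℚ) (h : ℕ → ℚ) (n : ℕ) (hn : 1 ≤ n) :
    ∑ l ∈ Lam n, h (ext l 0) * (Cb l : ℚ) * wt w l =
      coeff n (∑ a ∈ range (n + 1), C (h a) * (Xs w 1 n) ^ a) := by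
  obtain ⟨m, rfl⟩ : ∃ m, n = m + 1 := ⟨n - 1, by omega⟩
  rw [← key' w h (m + 1) m 1, map_sum, Lam, sum_filter]
  refine sum_congr rfl fun l hl => ?_
  rw [coeff_C_mul, coeff_X_pow]
  have hw : wt w l = ∏ i ∈ range (m + 1), w (1 + i) ^ ext l i := by
    unfold wt
    exact prod_congr rfl fun i _ => by rw [add_comm]
  by_cases hs : ∑ i, l i = m + 1
  · rw [if_pos hs.symm, mul_one]
    by_cases ha : Antitone l
    · rw [if_pos ⟨ha, hs⟩, hw, Cb]
      push_cast
      ring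
    · rw [if_neg (fun hh => ha hh.1)]
      have : ∃ i ∈ range (m + 1), (ext l i).choose (ext l (i + 1)) = 0 := by
        by_contra hcon
        push Not at hcon
        exact ha (antitone_of l hcon)
      obtain ⟨i, hi, hi0⟩ := this
      have : ∏ i ∈ range (m + 1), (((ext l i).choose (ext l (i + 1)) : ℕ) : ℚ) = 0 :=
        prod_eq_zero hi (by rw [hi0]; norm_num)
      rw [this]
      ring
  · rw [if_neg (fun hh => hs hh.2), if_neg (fun hh => hs hh.symm), mul_zero]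

/-- the coefficients of `Xs` -/
theorem coeff_Xs (w : ℕ → ℚ) (m : ℕ) : ∀ s k, coeff k (Xs w s m) =
    if 1 ≤ k ∧ k ≤ m then ∏ i ∈ range k, w (s + i) else 0 := by
  induction m with
  | zero =>
    intro s k
    rw [if_neg (by omega)]
    simp [Xs]
  | succ m ih =>
    intro s k
    show coeff k ((C (w s) * X) * (1 + Xs w (s + 1) m)) = _
    rcases k with _ | k
    · rw [if_neg (by omega)]
      simp
    · rw [mul_assoc, coeff_C_mul, mul_comm X, coeff_succ_mul_X, map_add, ih, coeff_one]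
      rcases k with _ | k
      · simp
      · rw [if_neg (by omega), zero_add]
        by_cases hk : k + 1 ≤ m
        · rw [if_pos ⟨by omega, hk⟩, if_pos ⟨by omega, by omega⟩, prod_range_succ' _ (k + 1),
            Nat.add_zero, mul_comm]
          congr 1
          exact prod_congr rfl fun i _ => by rw [show s + 1 + i = s + (i + 1) by ring]
        · rw [if_neg (by omega), if_neg (by omega), mul_zero]

/-- the limit of the series `Xs w 1 n`, plus one -/
noncomputable def V (w : ℕ → ℚ) : ℚ⟦X⟧ := PowerSeries.mk fun k => ∏ i ∈ range k, w (1 + i)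

theorem dvd_Xs (w : ℕ → ℚ) (n : ℕ) : (X : ℚ⟦X⟧) ^ (n + 1) ∣ Xs w 1 n - (V w - 1) := by
  rw [X_pow_dvd_iff]
  intro k hk
  rw [map_sub, map_sub, coeff_Xs, coeff_one]
  unfold V
  rw [coeff_mk]
  rcases k with _ | k
  · simp
  · rw [if_pos ⟨by omega, by omega⟩, if_neg (by omega)]
    ring

theorem sum_dvd (w : ℕ → ℚ) (h : ℕ → ℚ) (n : ℕ) :
    (X : ℚ⟦X⟧) ^ (n + 1) ∣ ∑ a ∈ range (n + 1), C (h a) * (Xs w 1 n) ^ a -
      ∑ a ∈ range (n + 1), C (h a) * (V w - 1) ^ a := by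
  rw [← sum_sub_distrib]
  refine dvd_sum fun a _ => ?_
  rw [← mul_sub]
  exact Dvd.dvd.mul_left ((dvd_Xs w n).trans (sub_dvd_pow_sub_pow _ _ a)) _

theorem total' (w : ℕ → ℚ) (h : ℕ → ℚ) (n : ℕ) (hn : 1 ≤ n) :
    ∑ l ∈ Lam n, h (ext l 0) * (Cb l : ℚ) * wt w l =
      coeff n (∑ a ∈ range (n + 1), C (h a) * (V w - 1) ^ a) := by
  rw [total w h n hn]
  have := (X_pow_dvd_iff.mp (sum_dvd w h n)) n (by omega)
  rw [map_sub] at this
  linarith

theorem geo {R : Type*} [CommRing R] (e : R) (n : ℕ) :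
    (∑ a ∈ range (n + 1), ((1 : R) + a) * e ^ a) * (1 - e) ^ 2 =
      1 - ((n : R) + 2) * e ^ (n + 1) + ((n : R) + 1) * e ^ (n + 2) := by
  induction n with
  | zero => simp; ring
  | succ n ih =>
    rw [sum_range_succ, add_mul, ih]
    push_cast
    ring

theorem geo_dvd (e : ℚ⟦X⟧) (he : (X : ℚ⟦X⟧) ∣ e) (n : ℕ) :
    (X : ℚ⟦X⟧) ^ (n + 1) ∣ (∑ a ∈ range (n + 1), ((1 : ℚ⟦X⟧) + a) * e ^ a) * (1 - e) ^ 2 - 1 := by
  rw [geo]
  have h1 : (X : ℚ⟦X⟧) ^ (n + 1) ∣ e ^ (n + 1) := pow_dvd_pow_of_dvd he _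
  have h2 : (X : ℚ⟦X⟧) ^ (n + 1) ∣ e ^ (n + 2) := h1.trans (pow_dvd_pow _ (by omega))
  have : (1 - ((n : ℚ⟦X⟧) + 2) * e ^ (n + 1) + ((n : ℚ⟦X⟧) + 1) * e ^ (n + 2)) - 1 =
      ((n : ℚ⟦X⟧) + 1) * e ^ (n + 2) - ((n : ℚ⟦X⟧) + 2) * e ^ (n + 1) := by ring
  rw [this]
  exact dvd_sub (h2.mul_left _) (h1.mul_left _)

theorem X_dvd_V (w : ℕ → ℚ) : (X : ℚ⟦X⟧) ∣ V w - 1 := by
  rw [X_dvd_iff]
  unfold V
  simp

/-- a first order differential equation determines the series -/
theorem uniq (c : ℚ) (f g : ℕ → ℚ) (h0 : f 0 = g 0)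
    (hf : ∀ k : ℕ, ((k : ℚ) + 1) * f (k + 1) = (2 * k + c) * f k)
    (hg : ∀ k : ℕ, ((k : ℚ) + 1) * g (k + 1) = (2 * k + c) * g k) (k : ℕ) : f k = g k := by
  induction k with
  | zero => exact h0
  | succ k ih =>
    have h1 := hf k
    have h2 := hg k
    rw [ih] at h1
    have hk : ((k : ℚ) + 1) ≠ 0 := by positivity
    exact mul_left_cancel₀ hk (h1.trans h2.symm)

theorem C_two : C (2 : ℚ) = (2 : ℚ⟦X⟧) := map_ofNat (C : ℚ →+* ℚ⟦X⟧) 2

theorem C_neg_two : C (-2 : ℚ) = (-2 : ℚ⟦X⟧) := by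
  rw [map_neg, C_two]

theorem derivative_two : derivative ℚ (2 : ℚ⟦X⟧) = 0 := by
  rw [← C_two, derivative_C]

/-- coefficients of `(1 - 2 X) f'` -/
theorem coeff_ode (f : ℚ⟦X⟧) (k : ℕ) :
    coeff k ((1 - 2 * X) * derivative ℚ f) = ((k : ℚ) + 1) * coeff (k + 1) f - 2 * k * coeff k f := by
  have e : (1 - 2 * X) * derivative ℚ f = derivative ℚ f - C (2 : ℚ) * (X * derivative ℚ f) := by
    rw [C_two]; ring
  rw [e, map_sub, coeff_C_mul, coeff_derivative]
  rcases k with _ | k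
  · simp
  · rw [mul_comm X, coeff_succ_mul_X, coeff_derivative]
    push_cast
    ring

/-- the weights of the first sum -/
def w1 (i : ℕ) : ℚ := (if i = 1 then 1 else 2 * (i : ℚ) - 3) / i

/-- the weights of the second sum -/
def w2 (i : ℕ) : ℚ := (2 * (i : ℚ) - 1) / i

theorem V1_coeff (k : ℕ) : ((k : ℚ) + 1) * coeff (k + 1) (2 - V w1) = (2 * k - 1) * coeff k (2 - V w1) := by
  have h2 : ∀ j : ℕ, coeff (j + 1) (2 : ℚ⟦X⟧) = 0 := by
    intro j
    rw [← C_two, coeff_C, if_neg (by omega)]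
  have h20 : coeff 0 (2 : ℚ⟦X⟧) = 2 := by
    rw [← C_two, coeff_C, if_pos rfl]
  rw [map_sub, map_sub, h2]
  unfold V
  rw [coeff_mk, coeff_mk, prod_range_succ]
  rcases k with _ | k
  · rw [h20]
    simp [w1]
    norm_num
  · rw [h2]
    have hw : w1 (1 + (k + 1)) = (2 * ((k : ℚ) + 1) - 1) / ((k : ℚ) + 1 + 1) := by
      unfold w1
      rw [if_neg (by omega)]
      push_cast
      congr 1 <;> ring
    rw [hw]
    have hk : ((k : ℚ) + 1 + 1) ≠ 0 := by positivity
    push_cast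
    field_simp
    ring

theorem V2_coeff (k : ℕ) : ((k : ℚ) + 1) * coeff (k + 1) (V w2) = (2 * k + 1) * coeff k (V w2) := by
  unfold V
  rw [coeff_mk, coeff_mk, prod_range_succ]
  have hw : w2 (1 + k) = (2 * (k : ℚ) + 1) / ((k : ℚ) + 1) := by
    unfold w2
    push_cast
    congr 1 <;> ring
  rw [hw]
  have hk : ((k : ℚ) + 1) ≠ 0 := by positivity
  field_simp

theorem ode1 : (1 - 2 * X) * derivative ℚ (2 - V w1) = - (2 - V w1) := by
  ext k
  rw [coeff_ode, V1_coeff, map_neg]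
  ring

theorem ode2 : (1 - 2 * X) * derivative ℚ (V w2) = V w2 := by
  ext k
  rw [coeff_ode, V2_coeff]
  ring

theorem sq1 : (2 - V w1) ^ 2 = 1 - 2 * X := by
  have hz : (1 - 2 * X) * derivative ℚ ((2 - V w1) ^ 2) = -2 * (2 - V w1) ^ 2 := by
    have : derivative ℚ ((2 - V w1) ^ 2) = 2 * (2 - V w1) * derivative ℚ (2 - V w1) := by
      rw [Derivation.leibniz_pow]
      simp
      ring
    rw [this]
    linear_combination 2 * (2 - V w1) * ode1
  ext k
  have hm2 : (-2 : ℚ⟦X⟧) = C (-2 : ℚ) := C_neg_two.symm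
  refine uniq (-2) (fun k => coeff k ((2 - V w1) ^ 2)) (fun k => coeff k (1 - 2 * X : ℚ⟦X⟧)) ?_ ?_ ?_ k
  · show coeff 0 ((2 - V w1) ^ 2) = coeff 0 (1 - 2 * X : ℚ⟦X⟧)
    rw [← C_two]
    simp [V]
    norm_num
  · intro k
    have := congrArg (coeff k) hz
    rw [coeff_ode, hm2, coeff_C_mul] at this
    show ((k : ℚ) + 1) * coeff (k + 1) ((2 - V w1) ^ 2) = (2 * k + -2) * coeff k ((2 - V w1) ^ 2)
    linarith
  · intro k
    have h : (1 - 2 * X) * derivative ℚ (1 - 2 * X : ℚ⟦X⟧) = C (-2 : ℚ) * (1 - 2 * X) := by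
      rw [← hm2]
      have : derivative ℚ (1 - 2 * X : ℚ⟦X⟧) = -2 := by
        rw [map_sub, Derivation.leibniz, derivative_two]
        simp
      rw [this]; ring
    have := congrArg (coeff k) h
    rw [coeff_ode, coeff_C_mul] at this
    show ((k : ℚ) + 1) * coeff (k + 1) (1 - 2 * X : ℚ⟦X⟧) = (2 * k + -2) * coeff k (1 - 2 * X : ℚ⟦X⟧)
    linarith

theorem sq2 : (V w2) ^ 2 * (1 - 2 * X) = 1 := by
  refine derivative.ext ?_ ?_
  · rw [Derivation.leibniz, Derivation.leibniz_pow]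
    have h1 : derivative ℚ (1 - 2 * X : ℚ⟦X⟧) = -2 := by
      rw [map_sub, Derivation.leibniz, derivative_two]
      simp
    rw [h1, Derivation.map_one_eq_zero]
    simp only [smul_eq_mul, nsmul_eq_mul]
    push_cast
    linear_combination 2 * V w2 * ode2
  · simp [V]

theorem mem_Lam (n : ℕ) (l : Fin n → ℕ) : l ∈ Lam n ↔ Antitone l ∧ ∑ i, l i = n := by
  unfold Lam
  rw [mem_filter, Fintype.mem_piFinset]
  constructor
  · exact fun h => h.2
  · intro h
    refine ⟨fun i => ?_, h⟩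
    have : l i ≤ ∑ i, l i := single_le_sum (fun _ _ => Nat.zero_le _) (mem_univ i)
    exact mem_range.mpr (by omega)

/-- the sum `A_n` -/
def A (n : ℕ) : ℚ := ∑ l ∈ Lam n, (1 + (ext l 0 : ℚ)) * (Cb l : ℚ) * wt w1 l

/-- the sum `B_n` -/
def B (n : ℕ) : ℚ := ∑ l ∈ Lam n, (-1) ^ (1 + ext l 0) * (1 + (ext l 0 : ℚ)) * (Cb l : ℚ) * wt w2 l

theorem coeff_mul_one_sub (s : ℚ⟦X⟧) (k : ℕ) :
    coeff (k + 1) (s * (1 - 2 * X)) = coeff (k + 1) s - 2 * coeff k s := by
  have : s * (1 - 2 * X) = s - C (2 : ℚ) * (s * X) := by rw [C_two]; ring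
  rw [this, map_sub, coeff_C_mul, coeff_succ_mul_X]

theorem A_eq (n : ℕ) (hn : 1 ≤ n) : A n = 2 ^ n := by
  unfold A
  rw [total' w1 (fun a => 1 + (a : ℚ)) n hn]
  set S : ℚ⟦X⟧ := ∑ a ∈ range (n + 1), ((1 : ℚ⟦X⟧) + a) * (V w1 - 1) ^ a with hS
  have e1 : ∑ a ∈ range (n + 1), C (1 + (a : ℚ)) * (V w1 - 1) ^ a = S := by
    rw [hS]
    refine sum_congr rfl fun a _ => ?_
    simp
  rw [e1]
  have h := geo_dvd (V w1 - 1) (X_dvd_V w1) n
  rw [← hS, show (1 - (V w1 - 1)) = 2 - V w1 by ring, sq1, X_pow_dvd_iff] at h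
  have key : ∀ k ≤ n, coeff k S = 2 ^ k := by
    intro k
    induction k with
    | zero =>
      intro _
      have := h 0 (by omega)
      rw [map_sub] at this
      have e : coeff 0 (S * (1 - 2 * X)) = coeff 0 S := by
        simp
      rw [e] at this
      simp at this ⊢
      linarith
    | succ k ih =>
      intro hk
      have h1 := h (k + 1) (by omega)
      rw [map_sub, coeff_mul_one_sub, ih (by omega), coeff_one, if_neg (by omega)] at h1
      rw [pow_succ]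
      linarith
  exact key n le_rfl

theorem B_eq (n : ℕ) (hn : 1 < n) : B n = 0 := by
  unfold B
  rw [total' w2 (fun a => (-1) ^ (1 + a) * (1 + (a : ℚ))) n (by omega)]
  set S : ℚ⟦X⟧ := ∑ a ∈ range (n + 1), ((1 : ℚ⟦X⟧) + a) * (1 - V w2) ^ a with hS
  have e1 : ∑ a ∈ range (n + 1), C ((-1) ^ (1 + a) * (1 + (a : ℚ))) * (V w2 - 1) ^ a = - S := by
    rw [hS, ← sum_neg_distrib]
    refine sum_congr rfl fun a _ => ?_
    have : (1 - V w2) = (-1) * (V w2 - 1) := by ring
    rw [this, mul_pow]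
    simp only [map_mul, map_pow, map_neg, map_one, map_add, map_natCast]
    ring
  rw [e1]
  have hX : (X : ℚ⟦X⟧) ∣ 1 - V w2 := by
    have := X_dvd_V w2
    rw [← neg_sub]
    exact (dvd_neg).mpr this
  have h := geo_dvd (1 - V w2) hX n
  rw [← hS, show (1 - (1 - V w2)) = V w2 by ring] at h
  have h2 : (X : ℚ⟦X⟧) ^ (n + 1) ∣ S - (1 - 2 * X) := by
    have := h.mul_right (1 - 2 * X)
    have e : (S * V w2 ^ 2 - 1) * (1 - 2 * X) = S * (V w2 ^ 2 * (1 - 2 * X)) - (1 - 2 * X) := by ring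
    rw [e, sq2, mul_one] at this
    exact this
  rw [X_pow_dvd_iff] at h2
  have h3 := h2 n (by omega)
  have e4 : (1 - 2 * X : ℚ⟦X⟧) = 1 - C (2 : ℚ) * X := by rw [C_two]
  rw [map_sub, e4, map_sub, coeff_C_mul, coeff_one, coeff_X, if_neg (by omega), if_neg (by omega)] at h3
  rw [map_neg]
  linarith

end Pool.Agent.R317.Wps
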